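import Pool.Agent.Keldysh.Pub

/-!
# Internal definitions
-/

open MeasureTheory ProbabilityTheory Filter Topology Set
open scoped ENNReal NNReal

namespace Keldysh

/-! ### Internal notions -/

/-- the centered Gaussian law with covariance `t • I` -/
noncomputable def gauss (n : ℕ) (t : ℝ≥0) : Measure (E n) :=
  (stdGaussian (E n)).map (fun x => Real.sqrt t • x)

/-- integral of `ρ` over the segment `[x,y]` -/
noncomputable def segCost {n : ℕ} (ρ : E n → ℝ≥0∞) (x y : E n) : ℝ≥0∞ :=
  ENNReal.ofReal ‖y - x‖ * ∫⁻ t in Icc (0 : ℝ) 1, ρ (x + t • (y - x))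

/-- `(f, ρ)` is an upper gradient pair (along segments), both functions being l.s.c. -/
structure UG {n : ℕ} (f ρ : E n → ℝ≥0∞) : Prop where
  lsc_f : LowerSemicontinuous f
  lsc_ρ : LowerSemicontinuous ρ
  ug : ∀ x y, f x ≤ f y + segCost ρ x y

/-- chains of segments inside `V`, cost of going from `x` to `y` in `k` steps -/
noncomputable def chainCost {n : ℕ} (ρ : E n → ℝ≥0∞) (V : Set (E n)) : ℕ → E n → E n → ℝ≥0∞
  | 0, x, y => ⨅ (_ : x = y ∧ x ∈ V), 0
  | k + 1, x, y => ⨅ (w : E n) (_ : segment ℝ w y ⊆ V), (chainCost ρ V k x w + segCost ρ w y)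

/-- polygonal path distance in `V` with weight `ρ` -/
noncomputable def pd {n : ℕ} (ρ : E n → ℝ≥0∞) (V : Set (E n)) (x y : E n) : ℝ≥0∞ :=
  ⨅ k, chainCost ρ V k x y

variable {n : ℕ} {Ω : Type*} [mΩ : MeasurableSpace Ω]

/-- a Brownian motion with all paths continuous, measurable, started at `a`, with Markov property
expressed through the filtration `F` -/
structure NiceBM (P : Measure Ω) (B : ℝ≥0 → Ω → E n) (F : ℝ≥0 → MeasurableSpace Ω) (a : E n) :
    Prop where
  F_le : ∀ t, F t ≤ mΩ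
  F_mono : Monotone F
  adapted : ∀ t, Measurable[F t] (B t)
  cont : ∀ ω, Continuous fun t => B t ω
  start : ∀ ω, B 0 ω = a
  law : ∀ s t, s ≤ t → P.map (fun ω => B t ω - B s ω) = gauss n (t - s)
  indep : ∀ s t, s ≤ t →
    Indep (MeasurableSpace.comap (fun ω => B t ω - B s ω) inferInstance) (F s) P

/-- a Gaussian random walk with step variance `h` and marginals of density `≤ C` -/
structure GWalk (P : Measure Ω) (Y : ℕ → Ω → E n) (F : ℕ → MeasurableSpace Ω) (h : ℝ≥0)
    (C : ℝ≥0) : Prop where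
  F_le : ∀ j, F j ≤ mΩ
  F_mono : Monotone F
  adapted : ∀ j, Measurable[F j] (Y j)
  law : ∀ j, P.map (fun ω => Y (j + 1) ω - Y j ω) = gauss n h
  indep : ∀ j, Indep (MeasurableSpace.comap (fun ω => Y (j + 1) ω - Y j ω) inferInstance) (F j) P
  dens : ∀ j, P.map (Y j) ≤ (C : ℝ≥0∞) • volume

/-- Sub function attached to a ball: bounded in `[0,1]`, upper semicontinuous on the ball of
radius `4r` and satisfying the sub-mean value inequality for small balls. -/
structure SubAt (g : E n → ℝ) (q : E n) (r : ℝ) : Prop where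
  pos : 0 < r
  meas : Measurable g
  nonneg : ∀ x, 0 ≤ g x
  le_one : ∀ x, g x ≤ 1
  usc : ∀ x ∈ Metric.ball q (4 * r), UpperSemicontinuousAt g x
  sub : ∀ x ∈ Metric.ball q (3 * r), ∀ t, 0 < t → t < r →
    g x ≤ ⨍ y in Metric.ball x t, g y ∂volume

end Keldysh
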