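import Pool.Agent.Keldysh.Defs

open MeasureTheory ProbabilityTheory Filter Topology Set
open scoped ENNReal NNReal

namespace Keldysh

variable {n : ℕ}

noncomputable def PP (t : ℝ≥0) (g : E n → ℝ) (x : E n) : ℝ := ∫ z, g (x + z) ∂(gauss n t)

/-- first index `j ≤ N` with `Y j ω ∉ D` (and `N` if there is none) -/
noncomputable def exitIdx {Ω : Type*} {α : Type*} (Y : ℕ → Ω → α) (D : Set α) (N : ℕ) (ω : Ω) : ℕ :=
  sInf {j | j = N ∨ Y j ω ∉ D}

/-- stopping times -/
def IsStop {Ω : Type*} (F : ℕ → MeasurableSpace Ω) (σ : Ω → ℕ) : Prop :=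
  ∀ j, MeasurableSet[F j] {ω | σ ω ≤ j}

/-- occupation measure -/
noncomputable def occ {n : ℕ} {Ω : Type*} [MeasurableSpace Ω] (P : Measure Ω) (Y : ℕ → Ω → E n)
    (A : ℕ → Set Ω) (N : ℕ) : Measure (E n) :=
  ∑ j ∈ Finset.range N, (P.restrict (A j)).map (Y j)

/-- `s` is a bounded density of the occupation measure -/
structure OccDens {n : ℕ} {Ω : Type*} [MeasurableSpace Ω] (P : Measure Ω) (Y : ℕ → Ω → E n)
    (A : ℕ → Set Ω) (N : ℕ) (K : ℝ) (s : E n → ℝ) : Prop where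
  meas : Measurable s
  nonneg : ∀ x, 0 ≤ s x
  le : ∀ x, s x ≤ K
  int : Integrable s
  eq : occ P Y A N = volume.withDensity (fun x => ENNReal.ofReal (s x))

end Keldysh
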