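import Pool.Agent.Keldysh.Defs2

open MeasureTheory ProbabilityTheory Filter Topology Set
open scoped ENNReal NNReal

namespace Keldysh

variable {n : ℕ}

/-- time grid -/
noncomputable def gt (t0 T : ℝ≥0) (m j : ℕ) : ℝ≥0 := t0 + j * (T / 2 ^ m)

/-- exit index of `D` along the grid of mesh `T/2^m` for a path `p` -/
noncomputable def gridExit (t0 T : ℝ≥0) (D : Set (E n)) (m : ℕ) (p : ℝ≥0 → E n) : ℕ :=
  sInf {j | j = 2 ^ m ∨ p (gt t0 T m j) ∉ D}

/-- the set of points of `V` at distance `> 1/(k+1)` from the complement -/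
def inner (V : Set (E n)) (k : ℕ) : Set (E n) := {x | 1 / ((k : ℝ) + 1) < Metric.infDist x Vᶜ}

end Keldysh
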