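import Pool.Agent.Keldysh.Defs2

open MeasureTheory ProbabilityTheory Filter Topology Set
open scoped ENNReal NNReal

namespace Keldysh

variable {n : ℕ} {Ω : Type*} [mΩ : MeasurableSpace Ω]

/-- B1: near minimisers of a quadratic form on convex hulls of tails are Cauchy. -/
theorem near_min_cauchy {X : Type*} [AddCommGroup X] [Module ℝ X] (S : Submodule ℝ X) (N : X → ℝ)
    (hN0 : ∀ x ∈ S, 0 ≤ N x)
    (hpar : ∀ x ∈ S, ∀ y ∈ S, N (x + y) + N (x - y) = 2 * N x + 2 * N y)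
    (hhom : ∀ x ∈ S, N ((2 : ℝ) • x) = 4 * N x)
    (x : ℕ → X) (hx : ∀ k, x k ∈ S) (M : ℝ) (hM : ∀ c ∈ convexHull ℝ (Set.range x), N c ≤ M)
    (ε : ℕ → ℝ) (hε : ∀ j, 0 < ε j) :
    ∃ c : ℕ → X, (∀ j, c j ∈ convexHull ℝ (x '' Set.Ici j)) ∧
      ∀ j i, j ≤ i → N (c i - c j) ≤ ε j := by
  classical
  set C : ℕ → Set X := fun j => convexHull ℝ (x '' Set.Ici j) with hC
  have hCanti : ∀ i j, i ≤ j → C j ⊆ C i := fun i j hij =>
    convexHull_mono (Set.image_mono (Set.Ici_subset_Ici.2 hij))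
  have hCS : ∀ j, C j ⊆ (S : Set X) := by
    intro j
    refine convexHull_min ?_ S.convex
    rintro _ ⟨k, _, rfl⟩
    exact hx k
  have hCr : ∀ j, C j ⊆ convexHull ℝ (Set.range x) := fun j =>
    convexHull_mono (Set.image_subset_range _ _)
  have hxC : ∀ j, x j ∈ C j := fun j => subset_convexHull ℝ _ ⟨j, Set.mem_Ici.2 le_rfl, rfl⟩
  have hne : ∀ j, (N '' C j).Nonempty := fun j => ⟨_, x j, hxC j, rfl⟩
  have hbd : ∀ j, BddBelow (N '' C j) := fun j => ⟨0, by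
    rintro _ ⟨y, hy, rfl⟩
    exact hN0 y (hCS j hy)⟩
  set K : ℕ → ℝ := fun j => sInf (N '' C j) with hK
  have hKle : ∀ j, ∀ y ∈ C j, K j ≤ N y := fun j y hy => csInf_le (hbd j) ⟨y, hy, rfl⟩
  have hKmono : ∀ i j, i ≤ j → K i ≤ K j := fun i j hij =>
    csInf_le_csInf (hbd i) (hne j) (Set.image_mono (hCanti i j hij))
  have hKM : ∀ j, K j ≤ M := fun j => (hKle j _ (hxC j)).trans (hM _ (hCr j (hxC j)))
  have hbdK : BddAbove (Set.range K) := ⟨M, by rintro _ ⟨j, rfl⟩; exact hKM j⟩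
  set L : ℝ := sSup (Set.range K) with hL
  have hKL : ∀ j, K j ≤ L := fun j => le_csSup hbdK ⟨j, rfl⟩
  have hnear : ∀ δ : ℝ, 0 < δ → ∃ j, L - δ ≤ K j := by
    intro δ hδ
    obtain ⟨_, ⟨j, rfl⟩, hj⟩ := exists_lt_of_lt_csSup (Set.range_nonempty K)
      (by linarith : L - δ < L)
    exact ⟨j, hj.le⟩
  set e : ℕ → ℝ := fun j => (Finset.range (j + 1)).inf' ⟨0, by simp⟩ ε with he
  have he0 : ∀ j, 0 < e j := by
    intro j
    obtain ⟨i, _, hi⟩ := Finset.exists_mem_eq_inf' (⟨0, by simp⟩ : (Finset.range (j + 1)).Nonempty) ε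
    rw [he]
    simp only
    rw [hi]
    exact hε i
  have heε : ∀ j, e j ≤ ε j := fun j => Finset.inf'_le _ (by simp)
  have heanti : ∀ i j, i ≤ j → e j ≤ e i := by
    intro i j hij
    exact Finset.inf'_mono _ (Finset.range_mono (by omega)) _
  choose J0 hJ0 using fun j => hnear (e j / 8) (by have := he0 j; linarith)
  set J : ℕ → ℕ := fun j => j + ∑ i ∈ Finset.range (j + 1), J0 i with hJ
  have hJj : ∀ j, j ≤ J j := fun j => Nat.le_add_right _ _
  have hJ0J : ∀ j, J0 j ≤ J j := by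
    intro j
    have : J0 j ≤ ∑ i ∈ Finset.range (j + 1), J0 i :=
      Finset.single_le_sum (f := J0) (fun _ _ => Nat.zero_le _) (by simp)
    exact this.trans (Nat.le_add_left _ _)
  have hJmono : ∀ i j, i ≤ j → J i ≤ J j := by
    intro i j hij
    refine Nat.add_le_add hij ?_
    exact Finset.sum_le_sum_of_subset (Finset.range_mono (by omega))
  have hKJ : ∀ j, L - e j / 8 ≤ K (J j) := fun j => (hJ0 j).trans (hKmono _ _ (hJ0J j))
  have hex : ∀ j, ∃ c ∈ C (J j), N c ≤ K (J j) + e j / 8 := by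
    intro j
    obtain ⟨_, ⟨c, hc, rfl⟩, hc2⟩ := exists_lt_of_csInf_lt (hne (J j))
      (by have := he0 j; change K (J j) < K (J j) + e j / 8; linarith)
    exact ⟨c, hc, hc2.le⟩
  choose c hc1 hc2 using hex
  refine ⟨c, fun j => hCanti j (J j) (hJj j) (hc1 j), fun j i hji => ?_⟩
  have hci : c i ∈ C (J j) := hCanti _ _ (hJmono j i hji) (hc1 i)
  have hcj : c j ∈ C (J j) := hc1 j
  have hSi : c i ∈ S := hCS _ hci
  have hSj : c j ∈ S := hCS _ hcj
  have hmid : (1 / 2 : ℝ) • c i + (1 / 2 : ℝ) • c j ∈ C (J j) :=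
    (convex_convexHull ℝ _) hci hcj (by norm_num) (by norm_num) (by norm_num)
  have h1 := hKle _ _ hmid
  have h2 := hhom _ (hCS _ hmid)
  have h3 : (2 : ℝ) • ((1 / 2 : ℝ) • c i + (1 / 2 : ℝ) • c j) = c i + c j := by
    rw [smul_add, smul_smul, smul_smul]
    norm_num
  rw [h3] at h2
  have h4 := hpar _ hSi _ hSj
  have h5 := hc2 i
  have h6 := hc2 j
  have h7 := hKL (J i)
  have h8 := hKJ j
  have h9 := heanti j i hji
  have h10 := heε j
  have h11 := he0 j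
  linarith

end Keldysh
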