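import Pool.Agent.Keldysh.Defs2
import Pool.Agent.Keldysh.M_near_min_cauchy

open MeasureTheory ProbabilityTheory Filter Topology Set
open scoped ENNReal NNReal

namespace Keldysh

variable {n : ℕ} {Ω : Type*} [mΩ : MeasurableSpace Ω]

theorem H1_combos_grad_add {f g : E n → ℝ} (hf : Differentiable ℝ f) (hg : Differentiable ℝ g) :
    gradient (f + g) = gradient f + gradient g := by
  funext x
  simp only [gradient, Pi.add_apply]
  rw [fderiv_add (hf x) (hg x), map_add]

theorem H1_combos_grad_sub {f g : E n → ℝ} (hf : Differentiable ℝ f) (hg : Differentiable ℝ g) :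
    gradient (f - g) = gradient f - gradient g := by
  funext x
  simp only [gradient, Pi.sub_apply]
  rw [fderiv_sub (hf x) (hg x), map_sub]

theorem H1_combos_grad_smul {f : E n → ℝ} (a : ℝ) (hf : Differentiable ℝ f) :
    gradient (a • f) = a • gradient f := by
  funext x
  simp only [gradient, Pi.smul_apply]
  rw [fderiv_const_smul (hf x)]
  exact (InnerProductSpace.toDual ℝ (E n)).symm.map_smulₛₗ a _ |>.trans (by simp)

theorem H1_combos_grad_cont {f : E n → ℝ} (hf : ContDiff ℝ 1 f) : Continuous (gradient f) := by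
  have h1 : Continuous (fderiv ℝ f) := hf.continuous_fderiv (by norm_num)
  exact (InnerProductSpace.toDual ℝ (E n)).symm.continuous.comp h1

/-- the space -/
def H1_combos_S (n : ℕ) : Submodule ℝ (E n → ℝ) where
  carrier := {f | ContDiff ℝ 1 f ∧ MemLp f 2 volume ∧ MemLp (gradient f) 2 volume}
  zero_mem' := by
    refine ⟨contDiff_const, MemLp.zero, ?_⟩
    have : gradient (0 : E n → ℝ) = 0 := by
      funext x
      simp only [gradient, Pi.zero_apply]
      have h0 : fderiv ℝ (0 : E n → ℝ) x = 0 := by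
        rw [show (0 : E n → ℝ) = fun _ => (0 : ℝ) from rfl]
        exact fderiv_const_apply _
      rw [h0, map_zero]
    rw [this]
    exact MemLp.zero
  add_mem' := by
    rintro f g ⟨h1, h2, h3⟩ ⟨h4, h5, h6⟩
    refine ⟨h1.add h4, h2.add h5, ?_⟩
    rw [H1_combos_grad_add (h1.differentiable (by norm_num)) (h4.differentiable (by norm_num))]
    exact h3.add h6
  smul_mem' := by
    rintro a f ⟨h1, h2, h3⟩
    refine ⟨h1.const_smul a, h2.const_smul a, ?_⟩
    rw [H1_combos_grad_smul a (h1.differentiable (by norm_num))]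
    exact h3.const_smul a

theorem H1_combos_mem {f : E n → ℝ} : f ∈ H1_combos_S n ↔
    ContDiff ℝ 1 f ∧ MemLp f 2 volume ∧ MemLp (gradient f) 2 volume := Iff.rfl

/-- the quadratic form -/
noncomputable def H1_combos_N (f : E n → ℝ) : ℝ :=
  (∫ x, ‖f x‖ ^ 2) + ∫ x, ‖gradient f x‖ ^ 2

theorem H1_combos_lint {F : Type*} [NormedAddCommGroup F] (f : E n → F)
    (hf : MemLp f 2 volume) : ENNReal.ofReal (∫ x, ‖f x‖ ^ 2) = ∫⁻ x, ‖f x‖ₑ ^ 2 := by
  have hi : Integrable (fun x => ‖f x‖ ^ 2) volume :=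
    (memLp_two_iff_integrable_sq_norm hf.aestronglyMeasurable).1 hf
  rw [ofReal_integral_eq_lintegral_ofReal hi (Filter.Eventually.of_forall fun x => by positivity)]
  refine lintegral_congr fun x => ?_
  rw [ENNReal.ofReal_pow (norm_nonneg _), ofReal_norm_eq_enorm]

theorem H1_combos_memLp {F : Type*} [NormedAddCommGroup F] (f : E n → F)
    (hf : AEStronglyMeasurable f volume) (h : ∫⁻ x, ‖f x‖ₑ ^ 2 < ⊤) : MemLp f 2 volume := by
  rw [memLp_two_iff_integrable_sq_norm hf]
  refine ⟨(hf.norm.pow 2), ?_⟩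
  rw [hasFiniteIntegral_iff_enorm]
  refine lt_of_le_of_lt (le_of_eq (lintegral_congr fun x => ?_)) h
  rw [enorm_pow, enorm_norm]

theorem H1_combos_Nl {f : E n → ℝ} (hf : f ∈ H1_combos_S n) :
    ENNReal.ofReal (H1_combos_N f) = (∫⁻ x, ‖f x‖ₑ ^ 2) + ∫⁻ x, ‖gradient f x‖ₑ ^ 2 := by
  obtain ⟨h1, h2, h3⟩ := H1_combos_mem.1 hf
  rw [H1_combos_N, ENNReal.ofReal_add (integral_nonneg fun x => by positivity)
    (integral_nonneg fun x => by positivity), H1_combos_lint f h2, H1_combos_lint _ h3]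

theorem H1_combos_par {F : Type*} [NormedAddCommGroup F] [InnerProductSpace ℝ F] (f g : E n → F)
    (hf : MemLp f 2 volume) (hg : MemLp g 2 volume) :
    (∫ x, ‖(f + g) x‖ ^ 2) + (∫ x, ‖(f - g) x‖ ^ 2) =
      2 * (∫ x, ‖f x‖ ^ 2) + 2 * ∫ x, ‖g x‖ ^ 2 := by
  have i1 := (memLp_two_iff_integrable_sq_norm hf.aestronglyMeasurable).1 hf
  have i2 := (memLp_two_iff_integrable_sq_norm hg.aestronglyMeasurable).1 hg
  have i3 := (memLp_two_iff_integrable_sq_norm (hf.add hg).aestronglyMeasurable).1 (hf.add hg)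
  have i4 := (memLp_two_iff_integrable_sq_norm (hf.sub hg).aestronglyMeasurable).1 (hf.sub hg)
  rw [← integral_add i3 i4, ← integral_const_mul, ← integral_const_mul,
    ← integral_add (i1.const_mul 2) (i2.const_mul 2)]
  refine integral_congr_ae (Filter.Eventually.of_forall fun x => ?_)
  simp only [Pi.add_apply, Pi.sub_apply]
  have := parallelogram_law_with_norm ℝ (f x) (g x)
  nlinarith

theorem H1_combos_cvx {F : Type*} [NormedAddCommGroup F] [InnerProductSpace ℝ F] (f g : E n → F)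
    (hf : MemLp f 2 volume) (hg : MemLp g 2 volume) (a b : ℝ) (ha : 0 ≤ a) (hb : 0 ≤ b)
    (hab : a + b = 1) :
    (∫ x, ‖(a • f + b • g) x‖ ^ 2) ≤ a * (∫ x, ‖f x‖ ^ 2) + b * ∫ x, ‖g x‖ ^ 2 := by
  have i1 := (memLp_two_iff_integrable_sq_norm hf.aestronglyMeasurable).1 hf
  have i2 := (memLp_two_iff_integrable_sq_norm hg.aestronglyMeasurable).1 hg
  have h3 := (hf.const_smul a).add (hg.const_smul b)
  have i3 := (memLp_two_iff_integrable_sq_norm h3.aestronglyMeasurable).1 h3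
  rw [← integral_const_mul, ← integral_const_mul,
    ← integral_add (i1.const_mul a) (i2.const_mul b)]
  refine integral_mono i3 ((i1.const_mul a).add (i2.const_mul b)) fun x => ?_
  simp only [Pi.add_apply, Pi.smul_apply]
  have h1 : ‖a • f x + b • g x‖ ≤ a * ‖f x‖ + b * ‖g x‖ := by
    refine (norm_add_le _ _).trans ?_
    rw [norm_smul, norm_smul, Real.norm_of_nonneg ha, Real.norm_of_nonneg hb]
  have h2 : ‖a • f x + b • g x‖ ^ 2 ≤ (a * ‖f x‖ + b * ‖g x‖) ^ 2 :=
    pow_le_pow_left₀ (norm_nonneg _) h1 2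
  have hb' : b = 1 - a := by linarith
  have h3 : (a * ‖f x‖ + b * ‖g x‖) ^ 2 ≤ a * ‖f x‖ ^ 2 + b * ‖g x‖ ^ 2 := by
    have : 0 ≤ a * b * (‖f x‖ - ‖g x‖) ^ 2 := by positivity
    subst hb'
    nlinarith
  exact h2.trans h3

/-- B5 -/
theorem H1_combos (h : ℕ → E n → ℝ) (hc : ∀ k, ContDiff ℝ 1 (h k)) (M : ℝ≥0)
    (hM : ∀ k, (∫⁻ x, ‖h k x‖ₑ ^ 2) + ∫⁻ x, ‖gradient (h k) x‖ₑ ^ 2 ≤ M)
    (ε : ℕ → ℝ) (hε : ∀ j, 0 < ε j) :
    ∃ c : ℕ → E n → ℝ, (∀ j, ContDiff ℝ 1 (c j)) ∧ (∀ j, c j ∈ convexHull ℝ (h '' Set.Ici j)) ∧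
      ((∫⁻ x, ‖c 0 x‖ₑ ^ 2) + ∫⁻ x, ‖gradient (c 0) x‖ₑ ^ 2 ≤ M) ∧
      ∀ j, (∫⁻ x, ‖c (j + 1) x - c j x‖ₑ ^ 2) +
        ∫⁻ x, ‖gradient (fun y => c (j + 1) y - c j y) x‖ₑ ^ 2 ≤ ENNReal.ofReal (ε j) := by
  have hN0 : ∀ x ∈ H1_combos_S n, 0 ≤ H1_combos_N x := fun x _ =>
    add_nonneg (integral_nonneg fun x => by positivity) (integral_nonneg fun x => by positivity)
  have hpar : ∀ x ∈ H1_combos_S n, ∀ y ∈ H1_combos_S n,
      H1_combos_N (x + y) + H1_combos_N (x - y) = 2 * H1_combos_N x + 2 * H1_combos_N y := by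
    rintro x ⟨h1, h2, h3⟩ y ⟨h4, h5, h6⟩
    have d1 := h1.differentiable (by norm_num)
    have d2 := h4.differentiable (by norm_num)
    have e1 := H1_combos_par x y h2 h5
    have e2 := H1_combos_par (gradient x) (gradient y) h3 h6
    rw [← H1_combos_grad_add d1 d2, ← H1_combos_grad_sub d1 d2] at e2
    simp only [H1_combos_N]
    linarith
  have hhom : ∀ x ∈ H1_combos_S n, H1_combos_N ((2 : ℝ) • x) = 4 * H1_combos_N x := by
    rintro x ⟨h1, h2, h3⟩
    have d1 := h1.differentiable (by norm_num)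
    simp only [H1_combos_N]
    rw [H1_combos_grad_smul 2 d1, mul_add, ← integral_const_mul, ← integral_const_mul]
    congr 1
    · refine integral_congr_ae (Filter.Eventually.of_forall fun y => ?_)
      simp only [Pi.smul_apply, norm_smul, Real.norm_ofNat]
      ring
    · refine integral_congr_ae (Filter.Eventually.of_forall fun y => ?_)
      simp only [Pi.smul_apply, norm_smul, Real.norm_ofNat]
      ring
  have hx : ∀ k, h k ∈ H1_combos_S n := by
    intro k
    have h1 := hM k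
    have hc1 := (hc k).continuous
    have hc2 := H1_combos_grad_cont (hc k)
    refine ⟨hc k, H1_combos_memLp _ hc1.aestronglyMeasurable ?_,
      H1_combos_memLp _ hc2.aestronglyMeasurable ?_⟩
    · exact lt_of_le_of_lt (le_self_add.trans h1) ENNReal.coe_lt_top
    · exact lt_of_le_of_lt (le_add_self.trans h1) ENNReal.coe_lt_top
  have hMr : ∀ c ∈ convexHull ℝ (Set.range h), c ∈ H1_combos_S n ∧ H1_combos_N c ≤ M := by
    intro c hc'
    have hconv : Convex ℝ {c : E n → ℝ | c ∈ H1_combos_S n ∧ H1_combos_N c ≤ M} := by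
      rintro f ⟨hf, hf'⟩ g ⟨hg, hg'⟩ a b ha hb hab
      refine ⟨(H1_combos_S n).add_mem ((H1_combos_S n).smul_mem a hf)
        ((H1_combos_S n).smul_mem b hg), ?_⟩
      obtain ⟨h1, h2, h3⟩ := hf
      obtain ⟨h4, h5, h6⟩ := hg
      have d1 := h1.differentiable (by norm_num)
      have d2 := h4.differentiable (by norm_num)
      have e1 := H1_combos_cvx f g h2 h5 a b ha hb hab
      have e2 := H1_combos_cvx (gradient f) (gradient g) h3 h6 a b ha hb hab
      rw [← H1_combos_grad_smul a d1, ← H1_combos_grad_smul b d2,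
        ← H1_combos_grad_add (d1.const_smul a) (d2.const_smul b)] at e2
      have e3 : H1_combos_N (a • f + b • g) ≤ a * H1_combos_N f + b * H1_combos_N g := by
        simp only [H1_combos_N]
        linarith
      have e4 : a * H1_combos_N f + b * H1_combos_N g ≤ a * M + b * M :=
        add_le_add (mul_le_mul_of_nonneg_left hf' ha) (mul_le_mul_of_nonneg_left hg' hb)
      calc H1_combos_N (a • f + b • g) ≤ a * M + b * M := e3.trans e4
        _ = M := by rw [← add_mul, hab, one_mul]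
    refine convexHull_min ?_ hconv hc'
    rintro _ ⟨k, rfl⟩
    refine ⟨hx k, ?_⟩
    have h1 := hM k
    rw [← H1_combos_Nl (hx k)] at h1
    have h2 : ENNReal.ofReal (H1_combos_N (h k)) ≤ ENNReal.ofReal (M : ℝ) := by
      rw [ENNReal.ofReal_coe_nnreal]; exact h1
    exact (ENNReal.ofReal_le_ofReal_iff M.2).1 h2
  obtain ⟨c, hc1, hc2⟩ := near_min_cauchy (H1_combos_S n) H1_combos_N hN0 hpar hhom h hx M
    (fun c hc => (hMr c hc).2) ε hε
  have hcr : ∀ j, c j ∈ convexHull ℝ (Set.range h) := fun j =>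
    convexHull_mono (Set.image_subset_range _ _) (hc1 j)
  have hcS : ∀ j, c j ∈ H1_combos_S n := fun j => (hMr _ (hcr j)).1
  refine ⟨c, fun j => (hcS j).1, hc1, ?_, fun j => ?_⟩
  · rw [← H1_combos_Nl (hcS 0), ← ENNReal.ofReal_coe_nnreal]
    exact ENNReal.ofReal_le_ofReal (hMr _ (hcr 0)).2
  · have h1 : c (j + 1) - c j ∈ H1_combos_S n := (H1_combos_S n).sub_mem (hcS _) (hcS _)
    have h2 := H1_combos_Nl h1
    have h3 := ENNReal.ofReal_le_ofReal (hc2 j (j + 1) (Nat.le_succ j))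
    rw [h2] at h3
    exact h3

end Keldysh
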