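import Pool.Agent.Keldysh.Defs2

open MeasureTheory ProbabilityTheory Filter Topology Set
open scoped ENNReal NNReal

namespace Keldysh

variable {n : ℕ} {Ω : Type*} [mΩ : MeasurableSpace Ω]

/-- A1 -/
theorem gauss_prob (n : ℕ) (t : ℝ≥0) : IsProbabilityMeasure (gauss n t) := by
  unfold gauss
  exact Measure.isProbabilityMeasure_map (measurable_const_smul (Real.sqrt t)).aemeasurable

end Keldysh
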