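import Pool.Agent.Keldysh.Defs2
import Pool.Agent.Keldysh.M_gauss_prob

open MeasureTheory ProbabilityTheory Filter Topology Set
open scoped ENNReal NNReal

namespace Keldysh

variable {n : ℕ} {Ω : Type*} [mΩ : MeasurableSpace Ω]

theorem PP_L2_jensen (γ : Measure (E n)) [IsProbabilityMeasure γ] (f : E n → ℝ≥0∞)
    (hf : AEMeasurable f γ) : (∫⁻ z, f z ∂γ) ^ 2 ≤ ∫⁻ z, f z ^ 2 ∂γ := by
  have h := ENNReal.lintegral_mul_le_Lp_mul_Lq γ (Real.HolderConjugate.two_two) hf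
    (aemeasurable_const (b := (1 : ℝ≥0∞)))
  simp only [Pi.mul_apply, mul_one, ENNReal.one_rpow, lintegral_const, measure_univ] at h
  have h2 : (∫⁻ z, f z ∂γ) ^ 2 ≤ ((∫⁻ z, f z ^ (2:ℝ) ∂γ) ^ (1 / (2:ℝ))) ^ 2 := by
    gcongr
  refine h2.trans (le_of_eq ?_)
  rw [← ENNReal.rpow_natCast, ← ENNReal.rpow_mul]
  norm_num

/-- P2 -/
theorem PP_L2 (t : ℝ≥0) (g : E n → ℝ) (hg : Measurable g) (K : ℝ) (hb : ∀ x, |g x| ≤ K) :
    ∫⁻ x, ‖PP t g x‖ₑ ^ 2 ≤ ∫⁻ x, ‖g x‖ₑ ^ 2 := by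
  haveI := gauss_prob n t
  have hm : Measurable (fun p : E n × E n => ‖g (p.1 + p.2)‖ₑ ^ 2) := by
    have h1 : Measurable (fun p : E n × E n => g (p.1 + p.2)) :=
      hg.comp (measurable_fst.add measurable_snd)
    exact h1.enorm.pow_const 2
  calc ∫⁻ x, ‖PP t g x‖ₑ ^ 2 ≤ ∫⁻ x, ∫⁻ z, ‖g (x + z)‖ₑ ^ 2 ∂(gauss n t) := by
        refine lintegral_mono (fun x => ?_)
        have h1 : ‖PP t g x‖ₑ ≤ ∫⁻ z, ‖g (x + z)‖ₑ ∂(gauss n t) := enorm_integral_le_lintegral_enorm _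
        have h2 : ‖PP t g x‖ₑ ^ 2 ≤ (∫⁻ z, ‖g (x + z)‖ₑ ∂(gauss n t)) ^ 2 := by gcongr
        refine h2.trans (PP_L2_jensen _ _ ?_)
        exact (hg.comp (measurable_const.add measurable_id)).enorm.aemeasurable
    _ = ∫⁻ z, ∫⁻ x, ‖g (x + z)‖ₑ ^ 2 ∂volume ∂(gauss n t) :=
        lintegral_lintegral_swap hm.aemeasurable
    _ = ∫⁻ z, ∫⁻ x, ‖g x‖ₑ ^ 2 ∂volume ∂(gauss n t) := by
        refine lintegral_congr (fun z => ?_)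
        exact lintegral_add_right_eq_self (fun x => ‖g x‖ₑ ^ 2) z
    _ = ∫⁻ x, ‖g x‖ₑ ^ 2 := by
        rw [lintegral_const, measure_univ, mul_one]

end Keldysh
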