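import Pool.Agent.Keldysh.Defs2

open MeasureTheory ProbabilityTheory Filter Topology Set
open scoped ENNReal NNReal

namespace Keldysh

variable {n : ℕ} {Ω : Type*} [mΩ : MeasurableSpace Ω]

/-- A7: scaling -/
theorem gauss_scale (n : ℕ) (t : ℝ≥0) :
    gauss n t = (gauss n 1).map (fun x => Real.sqrt t • x) := by
  unfold gauss
  congr 1
  simp

end Keldysh
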