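import Pool.Agent.Keldysh.Defs2
import Pool.Agent.Keldysh.M_gauss_prob
import Pool.Agent.Keldysh.M_gauss_scale

open MeasureTheory ProbabilityTheory Filter Topology Set
open scoped ENNReal NNReal

namespace Keldysh

variable {n : ℕ} {Ω : Type*} [mΩ : MeasurableSpace Ω]

theorem gauss_density_pi (n : ℕ) (t : ℝ≥0) :
    gauss n t = (Measure.pi (fun _ : Fin n => gaussianReal 0 t)).map (WithLp.toLp 2) := by
  unfold gauss
  have hm : Measurable (WithLp.toLp 2 : (Fin n → ℝ) → E n) :=
    (PiLp.volume_preserving_toLp (Fin n)).measurable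
  have hs : Measurable (fun x : E n => Real.sqrt t • x) := measurable_const_smul _
  have hmul : ∀ _ : Fin n, Measurable (fun x : ℝ => Real.sqrt t * x) := fun _ =>
    measurable_const_mul _
  rw [← map_pi_eq_stdGaussian, Measure.map_map hs hm]
  have h1 : (fun x : E n => Real.sqrt t • x) ∘ (WithLp.toLp 2 : (Fin n → ℝ) → E n) =
      (WithLp.toLp 2 : (Fin n → ℝ) → E n) ∘ (fun x i => Real.sqrt t * x i) := by
    funext x
    ext i
    simp
  have hm2 : Measurable (fun (x : Fin n → ℝ) (i : Fin n) => Real.sqrt t * x i) := by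
    refine measurable_pi_lambda _ (fun i => ?_)
    exact (measurable_pi_apply i).const_mul _
  rw [h1, ← Measure.map_map hm hm2]
  congr 1
  have h2 : ∀ _ : Fin n, (gaussianReal 0 1).map (fun x : ℝ => Real.sqrt t * x) = gaussianReal 0 t := by
    intro _
    rw [gaussianReal_map_const_mul, mul_zero, mul_one]
    congr 1
    ext
    simp
  have : ∀ i : Fin n, SigmaFinite ((gaussianReal 0 1).map ((fun _ x => Real.sqrt t * x) i)) := by
    intro i
    have : IsProbabilityMeasure ((gaussianReal 0 1).map (fun x => Real.sqrt t * x)) :=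
      Measure.isProbabilityMeasure_map (hmul i).aemeasurable
    infer_instance
  have h3 := Measure.pi_map_pi (μ := fun _ : Fin n => gaussianReal 0 1)
    (f := fun _ x => Real.sqrt t * x) (hμ := this) (fun i => (hmul i).aemeasurable)
  rw [h3]
  congr 1
  funext i
  exact h2 i

theorem gauss_density_box (n : ℕ) (t : ℝ≥0) (ht : t ≠ 0) :
    Measure.pi (fun _ : Fin n => gaussianReal 0 t) =
      (volume : Measure (Fin n → ℝ)).withDensity
        (fun x => ENNReal.ofReal (∏ i, gaussianPDFReal 0 t (x i))) := by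
  refine Measure.pi_eq (fun s hs => ?_)
  rw [withDensity_apply _ (MeasurableSet.univ_pi hs), volume_pi, Measure.restrict_pi_pi]
  have h1 : ∀ i, Integrable (fun x => gaussianPDFReal 0 t x) ((volume : Measure ℝ).restrict (s i)) :=
    fun i => (integrable_gaussianPDFReal 0 t).restrict
  rw [← ofReal_integral_eq_lintegral_ofReal]
  · rw [integral_fintype_prod_eq_prod (f := fun _ x => gaussianPDFReal 0 t x),
      ENNReal.ofReal_prod_of_nonneg]
    · refine Finset.prod_congr rfl (fun i _ => ?_)
      rw [gaussianReal_apply_eq_integral 0 ht]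
    · intro i _
      exact integral_nonneg (fun x => gaussianPDFReal_nonneg _ _ _)
  · exact Integrable.fintype_prod_dep (f := fun _ x => gaussianPDFReal 0 t x) h1
  · exact Eventually.of_forall (fun x => Finset.prod_nonneg fun i _ => gaussianPDFReal_nonneg _ _ _)

theorem gauss_density_prod (n : ℕ) (t : ℝ≥0) (ht : t ≠ 0) (x : Fin n → ℝ) :
    ∏ i, gaussianPDFReal 0 t (x i) =
      (2 * Real.pi * t) ^ (-(n : ℝ) / 2) * Real.exp (-‖(WithLp.toLp 2 x : E n)‖ ^ 2 / (2 * t)) := by
  unfold gaussianPDFReal
  rw [Finset.prod_mul_distrib, Finset.prod_const, Finset.card_univ, Fintype.card_fin,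
    ← Real.exp_sum, EuclideanSpace.real_norm_sq_eq]
  have ht' : (0 : ℝ) < t := by
    have : 0 < t := pos_iff_ne_zero.mpr ht
    exact_mod_cast this
  have hp : (0 : ℝ) < 2 * Real.pi * t := by positivity
  congr 1
  · rw [Real.sqrt_eq_rpow, ← Real.rpow_neg hp.le, ← Real.rpow_natCast, ← Real.rpow_mul hp.le]
    congr 1
    ring
  · congr 1
    rw [← Finset.sum_div, ← Finset.sum_neg_distrib]
    simp

/-- A3: explicit density -/
theorem gauss_density (n : ℕ) (t : ℝ≥0) (ht : t ≠ 0) :
    gauss n t = volume.withDensity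
      (fun x => ENNReal.ofReal ((2 * Real.pi * t) ^ (-(n : ℝ) / 2) * Real.exp (-‖x‖ ^ 2 / (2 * t)))) := by
  have hmp := PiLp.volume_preserving_toLp (Fin n)
  rw [gauss_density_pi, gauss_density_box n t ht]
  ext s hs
  have hmeas : Measurable (fun x : E n => ENNReal.ofReal ((2 * Real.pi * t) ^ (-(n : ℝ) / 2) *
      Real.exp (-‖x‖ ^ 2 / (2 * t)))) := by
    fun_prop
  rw [Measure.map_apply hmp.measurable hs, withDensity_apply _ (hmp.measurable hs),
    withDensity_apply _ hs, ← hmp.setLIntegral_comp_preimage hs hmeas]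
  refine lintegral_congr (fun x => ?_)
  rw [gauss_density_prod n t ht]

end Keldysh
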