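import Pool.Agent.Keldysh.Defs2
import Pool.Agent.Keldysh.M_gauss_prob
import Pool.Agent.Keldysh.M_gauss_density

open MeasureTheory ProbabilityTheory Filter Topology Set
open scoped ENNReal NNReal

namespace Keldysh

variable {n : ℕ} {Ω : Type*} [mΩ : MeasurableSpace Ω]

theorem PP_contDiff_conv (t : ℝ≥0) (ht : t ≠ 0) (g : E n → ℝ) (R : ℝ)
    (hs : ∀ x, R ≤ ‖x‖ → g x = 0) (χ : E n → ℝ) (ρ : ℝ)
    (hχ : ∀ x, ‖x‖ ≤ ρ → χ x = 1) (x : E n) (hx : ‖x‖ + R ≤ ρ) :
    PP t g x = MeasureTheory.convolution g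
      (fun x : E n => χ x * ((2 * Real.pi * t) ^ (-(n : ℝ) / 2) * Real.exp (-‖x‖ ^ 2 / (2 * t))))
      (ContinuousLinearMap.mul ℝ ℝ) volume x := by
  unfold PP
  rw [gauss_density n t ht]
  have hm : Measurable (fun x : E n => ENNReal.ofReal
      ((2 * Real.pi * t) ^ (-(n : ℝ) / 2) * Real.exp (-‖x‖ ^ 2 / (2 * t)))) := by
    fun_prop
  rw [integral_withDensity_eq_integral_toReal_smul hm
    (Filter.Eventually.of_forall (fun x => ENNReal.ofReal_lt_top))]
  have hpos : ∀ x : E n, 0 ≤ ((2 * Real.pi * t) ^ (-(n : ℝ) / 2) * Real.exp (-‖x‖ ^ 2 / (2 * t))) := by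
    intro x
    positivity
  rw [← integral_sub_right_eq_self (μ := (volume : Measure (E n))) (fun z : E n =>
    (ENNReal.ofReal ((2 * Real.pi * t) ^ (-(n : ℝ) / 2) * Real.exp (-‖z‖ ^ 2 / (2 * t)))).toReal •
      g (x + z)) x]
  rw [MeasureTheory.convolution_def]
  refine integral_congr_ae (Filter.Eventually.of_forall (fun y => ?_))
  simp only [ContinuousLinearMap.mul_apply']
  rw [ENNReal.toReal_ofReal (hpos _), add_sub_cancel, norm_sub_rev y x, smul_eq_mul]
  by_cases hy : R ≤ ‖y‖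
  · rw [hs y hy]; ring
  · rw [hχ (x - y) (by
      have := norm_sub_le x y
      push_neg at hy
      linarith)]
    ring

/-- P1 -/
theorem PP_contDiff (t : ℝ≥0) (ht : t ≠ 0) (g : E n → ℝ) (hg : Measurable g) (K : ℝ)
    (hb : ∀ x, |g x| ≤ K) (R : ℝ) (hs : ∀ x, R ≤ ‖x‖ → g x = 0) : ContDiff ℝ 1 (PP t g) := by
  rw [contDiff_iff_contDiffAt]
  intro x₀
  have hρ : 0 < ‖x₀‖ + 1 + |R| := by positivity
  let f : ContDiffBump (0 : E n) := ⟨‖x₀‖ + 1 + |R|, ‖x₀‖ + 1 + |R| + 1, hρ, by linarith⟩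
  have hχ : ∀ x : E n, ‖x‖ ≤ ‖x₀‖ + 1 + |R| → f x = 1 := by
    intro x hx
    apply f.one_of_mem_closedBall
    rw [mem_closedBall_zero_iff]
    exact hx
  have hloc : LocallyIntegrable g volume := by
    intro x
    refine ⟨Metric.ball x 1, Metric.ball_mem_nhds x one_pos, ?_⟩
    refine MeasureTheory.Measure.integrableOn_of_bounded (M := K)
      measure_ball_lt_top.ne hg.aestronglyMeasurable ?_
    exact Filter.Eventually.of_forall (fun y => by rw [Real.norm_eq_abs]; exact hb y)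
  have hcd : ContDiff ℝ 1 (MeasureTheory.convolution g
      (fun x : E n => f x * ((2 * Real.pi * t) ^ (-(n : ℝ) / 2) * Real.exp (-‖x‖ ^ 2 / (2 * t))))
      (ContinuousLinearMap.mul ℝ ℝ) volume) := by
    apply HasCompactSupport.contDiff_convolution_right
    · exact f.hasCompactSupport.mul_right
    · exact hloc
    · refine f.contDiff.mul (contDiff_const.mul (Real.contDiff_exp.comp ?_))
      exact (contDiff_norm_sq ℝ).neg.div_const _
  refine hcd.contDiffAt.congr_of_eventuallyEq ?_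
  filter_upwards [Metric.ball_mem_nhds x₀ one_pos] with x hx
  refine PP_contDiff_conv t ht g R hs (fun x => f x) _ hχ x ?_
  have h1 : ‖x‖ ≤ ‖x₀‖ + 1 := by
    have : ‖x - x₀‖ < 1 := by rwa [← dist_eq_norm]
    have h2 : ‖x‖ ≤ ‖x₀‖ + ‖x - x₀‖ := by
      have := norm_add_le x₀ (x - x₀)
      simpa using this
    linarith
  have h3 := le_abs_self R
  linarith

end Keldysh
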