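import Pool.Agent.Keldysh.Defs2
import Pool.Agent.Keldysh.M_gauss_prob

open MeasureTheory ProbabilityTheory Filter Topology Set
open scoped ENNReal NNReal

namespace Keldysh

variable {n : ℕ} {Ω : Type*} [mΩ : MeasurableSpace Ω]

theorem gauss_inner_sq (n : ℕ) (v : E n) :
    ∫⁻ z, ‖inner ℝ v z‖ₑ ^ 2 ∂(gauss n 1) = ‖v‖ₑ ^ 2 := by
  have h1 : gauss n 1 = stdGaussian (E n) := by
    unfold gauss
    simp
  rw [h1]
  have hL : MemLp (fun z => (innerSL ℝ v : StrongDual ℝ (E n)) z) 2 (stdGaussian (E n)) :=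
    (innerSL ℝ v : StrongDual ℝ (E n)).comp_memLp' (IsGaussian.memLp_two_id (μ := stdGaussian (E n)))
  have hv := variance_dual_stdGaussian (E := E n) (innerSL ℝ v)
  have he := ofReal_variance hL
  have h0 := integral_strongDual_stdGaussian (E := E n) (innerSL ℝ v)
  unfold evariance at he
  rw [h0] at he
  simp only [sub_zero, innerSL_apply_apply] at he
  rw [← he]
  have h2 : (fun z : E n => inner ℝ v z) = (innerSL ℝ v : StrongDual ℝ (E n)) := rfl
  rw [h2, hv, innerSL_apply_norm, ENNReal.ofReal_pow (norm_nonneg _), ofReal_norm]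

end Keldysh
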