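import Pool.Agent.Keldysh.Defs2
import Pool.Agent.Keldysh.M_gauss_prob
import Pool.Agent.Keldysh.M_gauss_density
import Pool.Agent.Keldysh.M_gauss_inner_sq
import Pool.Agent.Keldysh.M_gauss_scale
import Pool.Agent.Keldysh.M_PP_contDiff

open MeasureTheory ProbabilityTheory Filter Topology Set
open scoped ENNReal NNReal

namespace Keldysh

variable {n : ℕ} {Ω : Type*} [mΩ : MeasurableSpace Ω]

theorem PP_grad_enorm (a : ℝ) : ‖a‖ₑ ^ 2 = ENNReal.ofReal (a ^ 2) := by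
  rw [← ofReal_norm, ← ENNReal.ofReal_pow (norm_nonneg _), Real.norm_eq_abs, sq_abs]

theorem PP_grad_jensen {α : Type*} [MeasurableSpace α] (μ : Measure α) [IsProbabilityMeasure μ]
    (h : α → ℝ) (hm : Measurable h) (C : ℝ) (hb : ∀ y, |h y| ≤ C) :
    ‖∫ y, h y ∂μ‖ₑ ^ 2 ≤ ∫⁻ y, ‖h y‖ₑ ^ 2 ∂μ := by
  have h1 : Integrable h μ := Integrable.of_bound hm.aestronglyMeasurable C
    (Filter.Eventually.of_forall hb)
  have h2 : Integrable (fun y => h y ^ 2) μ := by
    refine Integrable.of_bound (hm.pow_const 2).aestronglyMeasurable (C ^ 2)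
      (Filter.Eventually.of_forall fun y => ?_)
    rw [Real.norm_eq_abs, abs_pow]
    exact pow_le_pow_left₀ (abs_nonneg _) (hb y) 2
  set m := ∫ y, h y ∂μ with hmdef
  have h3 : 0 ≤ ∫ y, (h y - m) ^ 2 ∂μ := integral_nonneg fun y => sq_nonneg _
  have h4 : ∫ y, (h y - m) ^ 2 ∂μ = ∫ y, h y ^ 2 ∂μ - m ^ 2 := by
    have e1 : (fun y => (h y - m) ^ 2) = fun y => (h y ^ 2 - 2 * m * h y) + m ^ 2 := by
      funext y
      ring
    have i1 : Integrable (fun y => 2 * m * h y) μ := h1.const_mul _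
    have i2 : Integrable (fun y => h y ^ 2 - 2 * m * h y) μ := h2.sub i1
    rw [e1, integral_add i2 (integrable_const _),
      integral_sub h2 i1, integral_const_mul, ← hmdef, integral_const]
    simp only [probReal_univ, smul_eq_mul, one_mul]
    ring
  have h5 : m ^ 2 ≤ ∫ y, h y ^ 2 ∂μ := by linarith
  calc ‖m‖ₑ ^ 2 = ENNReal.ofReal (m ^ 2) := PP_grad_enorm m
    _ ≤ ENNReal.ofReal (∫ y, h y ^ 2 ∂μ) := ENNReal.ofReal_le_ofReal h5
    _ = ∫⁻ y, ENNReal.ofReal (h y ^ 2) ∂μ :=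
        ofReal_integral_eq_lintegral_ofReal h2 (Filter.Eventually.of_forall fun y => sq_nonneg _)
    _ = ∫⁻ y, ‖h y‖ₑ ^ 2 ∂μ := by
        refine lintegral_congr fun y => ?_
        rw [PP_grad_enorm]

theorem PP_grad_shift (t : ℝ≥0) (g : E n → ℝ) (hg : Measurable g) (K : ℝ)
    (hb : ∀ x, |g x| ≤ K) (z : E n) :
    ∫⁻ x, ‖PP t g (x + z) - PP t g x‖ₑ ^ 2 ≤ ∫⁻ x, ‖g (x + z) - g x‖ₑ ^ 2 := by
  have := gauss_prob n t
  have hint : ∀ x, Integrable (fun y => g (x + y)) (gauss n t) := fun x =>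
    Integrable.of_bound (hg.comp (measurable_const.add measurable_id)).aestronglyMeasurable K
      (Filter.Eventually.of_forall fun y => hb _)
  have hK : 0 ≤ K := (abs_nonneg _).trans (hb 0)
  have h1 : ∀ x, ‖PP t g (x + z) - PP t g x‖ₑ ^ 2 ≤
      ∫⁻ y, ‖g (x + z + y) - g (x + y)‖ₑ ^ 2 ∂(gauss n t) := by
    intro x
    have e1 : PP t g (x + z) - PP t g x = ∫ y, (g (x + z + y) - g (x + y)) ∂(gauss n t) := by
      unfold PP
      rw [integral_sub (hint (x + z)) (hint x)]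
    rw [e1]
    refine PP_grad_jensen (gauss n t) _ ?_ (K + K) ?_
    · exact (hg.comp (measurable_const.add measurable_id)).sub
        (hg.comp (measurable_const.add measurable_id))
    · intro y
      exact (abs_sub _ _).trans (add_le_add (hb _) (hb _))
  calc ∫⁻ x, ‖PP t g (x + z) - PP t g x‖ₑ ^ 2
      ≤ ∫⁻ x, ∫⁻ y, ‖g (x + z + y) - g (x + y)‖ₑ ^ 2 ∂(gauss n t) := lintegral_mono h1
    _ = ∫⁻ y, ∫⁻ x, ‖g (x + z + y) - g (x + y)‖ₑ ^ 2 ∂volume ∂(gauss n t) := by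
        refine lintegral_lintegral_swap ?_
        have hm : Measurable fun p : E n × E n => ‖g (p.1 + z + p.2) - g (p.1 + p.2)‖ₑ ^ 2 := by
          have m1 : Measurable fun p : E n × E n => g (p.1 + z + p.2) :=
            hg.comp ((measurable_fst.add measurable_const).add measurable_snd)
          have m2 : Measurable fun p : E n × E n => g (p.1 + p.2) :=
            hg.comp (measurable_fst.add measurable_snd)
          exact ((m1.sub m2).enorm).pow_const 2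
        exact hm.aemeasurable
    _ = ∫⁻ _y, ∫⁻ x, ‖g (x + z) - g x‖ₑ ^ 2 ∂volume ∂(gauss n t) := by
        refine lintegral_congr fun y => ?_
        have e1 := lintegral_add_right_eq_self (μ := (volume : Measure (E n)))
          (fun x => ‖g (x + z) - g x‖ₑ ^ 2) y
        rw [← e1]
        refine lintegral_congr fun x => ?_
        rw [add_right_comm x z y]
    _ = ∫⁻ x, ‖g (x + z) - g x‖ₑ ^ 2 := by
        rw [lintegral_const, measure_univ, mul_one]

theorem PP_grad_lim (G : E n → ℝ) (hG : Differentiable ℝ G) (x w : E n) :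
    Tendsto (fun k : ℕ => (2 : ℝ≥0∞) ^ k *
      ‖G (x + Real.sqrt ((1 / 2 ^ k : ℝ≥0) : ℝ) • w) - G x‖ₑ ^ 2) atTop
      (𝓝 (‖inner ℝ (gradient G x) w‖ₑ ^ 2)) := by
  have h1 : HasFDerivAt G (InnerProductSpace.toDual ℝ (E n) (gradient G x)) x :=
    (hG x).hasGradientAt.hasFDerivAt
  have h2 : HasLineDerivAt ℝ G (inner ℝ (gradient G x) w) x w := by
    have := h1.hasLineDerivAt w
    simpa using this
  have h3 := h2.tendsto_slope_zero
  have hs : ∀ k : ℕ, Real.sqrt ((1 / 2 ^ k : ℝ≥0) : ℝ) ^ 2 = (1 / 2) ^ k := by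
    intro k
    rw [Real.sq_sqrt (NNReal.coe_nonneg _)]
    push_cast
    rw [one_div, one_div, inv_pow]
  have hspos : ∀ k : ℕ, 0 < Real.sqrt ((1 / 2 ^ k : ℝ≥0) : ℝ) := by
    intro k
    apply Real.sqrt_pos.2
    positivity
  have h4 : Tendsto (fun k : ℕ => Real.sqrt ((1 / 2 ^ k : ℝ≥0) : ℝ)) atTop (𝓝[≠] 0) := by
    refine tendsto_nhdsWithin_iff.2 ⟨?_, Filter.Eventually.of_forall fun k => (hspos k).ne'⟩
    have e1 : Tendsto (fun k : ℕ => ((1 / 2 ^ k : ℝ≥0) : ℝ)) atTop (𝓝 0) := by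
      have e2 : (fun k : ℕ => ((1 / 2 ^ k : ℝ≥0) : ℝ)) = fun k : ℕ => ((1 : ℝ) / 2) ^ k := by
        funext k
        push_cast
        rw [one_div, one_div, inv_pow]
      rw [e2]
      exact tendsto_pow_atTop_nhds_zero_of_lt_one (by norm_num) (by norm_num)
    have e3 := (Real.continuous_sqrt.tendsto 0).comp e1
    rw [Real.sqrt_zero] at e3
    exact e3
  have h5 := h3.comp h4
  have h6 := ((ENNReal.continuous_pow 2).tendsto _).comp ((continuous_enorm.tendsto _).comp h5)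
  refine h6.congr fun k => ?_
  simp only [Function.comp_apply, smul_eq_mul]
  rw [PP_grad_enorm, PP_grad_enorm, mul_pow, inv_pow, hs]
  rw [ENNReal.ofReal_mul (by positivity)]
  congr 1
  rw [← inv_pow, one_div, inv_inv, ENNReal.ofReal_pow (by norm_num)]
  norm_num

theorem PP_grad_step (t : ℝ≥0) (g : E n → ℝ) (hg : Measurable g) (K : ℝ)
    (hb : ∀ x, |g x| ≤ K) (k : ℕ) (hGm : Measurable (PP t g)) :
    ∫⁻ x, ∫⁻ w, (2 : ℝ≥0∞) ^ k *
      ‖PP t g (x + Real.sqrt ((1 / 2 ^ k : ℝ≥0) : ℝ) • w) - PP t g x‖ₑ ^ 2 ∂(gauss n 1) ≤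
      (2 : ℝ≥0∞) ^ k *
      ∫⁻ z, ∫⁻ x, ‖g (x + z) - g x‖ₑ ^ 2 ∂volume ∂(gauss n (1 / 2 ^ k)) := by
  have := gauss_prob n 1
  generalize hG : PP t g = G at hGm ⊢
  rw [gauss_scale n (1 / 2 ^ k)]
  generalize Real.sqrt ((1 / 2 ^ k : ℝ≥0) : ℝ) = s
  generalize (2 : ℝ≥0∞) ^ k = T
  have hfm : Measurable (Function.uncurry fun (x w : E n) => T * ‖G (x + s • w) - G x‖ₑ ^ 2) := by
    have m1 : Measurable fun p : E n × E n => G (p.1 + s • p.2) :=
      hGm.comp (measurable_fst.add (measurable_snd.const_smul s))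
    have m2 : Measurable fun p : E n × E n => G p.1 := hGm.comp measurable_fst
    exact (((m1.sub m2).enorm).pow_const 2).const_mul _
  have hgm : Measurable fun z : E n => ∫⁻ x, ‖g (x + z) - g x‖ₑ ^ 2 := by
    have hm : Measurable (Function.uncurry fun (z x : E n) => ‖g (x + z) - g x‖ₑ ^ 2) := by
      have m1 : Measurable fun p : E n × E n => g (p.2 + p.1) :=
        hg.comp (measurable_snd.add measurable_fst)
      have m2 : Measurable fun p : E n × E n => g p.2 := hg.comp measurable_snd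
      exact ((m1.sub m2).enorm).pow_const 2
    exact hm.lintegral_prod_right
  have hsm : Measurable fun x : E n => s • x := measurable_id.const_smul s
  have hgs : Measurable fun w : E n => ∫⁻ x, ‖g (x + s • w) - g x‖ₑ ^ 2 := hgm.comp hsm
  rw [lintegral_lintegral_swap hfm.aemeasurable, lintegral_map hgm hsm,
    ← lintegral_const_mul _ hgs]
  refine lintegral_mono fun w => ?_
  have hGw : Measurable fun x : E n => ‖G (x + s • w) - G x‖ₑ ^ 2 :=
    (((hGm.comp (measurable_id.add measurable_const)).sub hGm).enorm).pow_const 2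
  show ∫⁻ x, T * ‖G (x + s • w) - G x‖ₑ ^ 2 ≤ T * ∫⁻ x, ‖g (x + s • w) - g x‖ₑ ^ 2
  rw [lintegral_const_mul _ hGw]
  have h := PP_grad_shift t g hg K hb (s • w)
  rw [hG] at h
  exact mul_le_mul_right h T

theorem PP_grad_fatou (f : ℕ → E n → E n → ℝ≥0∞) (hfm : ∀ k, Measurable (Function.uncurry (f k)))
    (μ ν : Measure (E n)) [SFinite ν] :
    ∫⁻ x, ∫⁻ w, liminf (fun k => f k x w) atTop ∂ν ∂μ ≤
      liminf (fun k => ∫⁻ x, ∫⁻ w, f k x w ∂ν ∂μ) atTop := by
  have h1 : ∀ x, ∫⁻ w, liminf (fun k => f k x w) atTop ∂ν ≤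
      liminf (fun k => ∫⁻ w, f k x w ∂ν) atTop := fun x =>
    lintegral_liminf_le fun k => (hfm k).comp (measurable_const.prodMk measurable_id)
  have h2 : ∀ k, Measurable fun x => ∫⁻ w, f k x w ∂ν := fun k => (hfm k).lintegral_prod_right
  exact (lintegral_mono h1).trans (lintegral_liminf_le h2)

theorem PP_grad_meas (G : E n → ℝ) (hGm : Measurable G) (s : ℝ) (T : ℝ≥0∞) :
    Measurable (Function.uncurry fun (x w : E n) => T * ‖G (x + s • w) - G x‖ₑ ^ 2) := by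
  have m1 : Measurable fun p : E n × E n => G (p.1 + s • p.2) :=
    hGm.comp (measurable_fst.add (measurable_snd.const_smul s))
  have m2 : Measurable fun p : E n × E n => G p.1 := hGm.comp measurable_fst
  exact (((m1.sub m2).enorm).pow_const 2).const_mul _

theorem PP_grad_low (G : E n → ℝ) (hG : Differentiable ℝ G) :
    ∫⁻ x, ‖gradient G x‖ₑ ^ 2 ≤
      liminf (fun k : ℕ => ∫⁻ x, ∫⁻ w, (2 : ℝ≥0∞) ^ k *
        ‖G (x + Real.sqrt ((1 / 2 ^ k : ℝ≥0) : ℝ) • w) - G x‖ₑ ^ 2 ∂(gauss n 1)) atTop := by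
  have := gauss_prob n 1
  have h1 : ∀ x, ‖gradient G x‖ₑ ^ 2 = ∫⁻ w, liminf (fun k : ℕ => (2 : ℝ≥0∞) ^ k *
        ‖G (x + Real.sqrt ((1 / 2 ^ k : ℝ≥0) : ℝ) • w) - G x‖ₑ ^ 2) atTop ∂(gauss n 1) := by
    intro x
    rw [← gauss_inner_sq n (gradient G x)]
    exact lintegral_congr fun w => (PP_grad_lim G hG x w).liminf_eq.symm
  rw [lintegral_congr h1]
  exact PP_grad_fatou (fun k x w => (2 : ℝ≥0∞) ^ k *
        ‖G (x + Real.sqrt ((1 / 2 ^ k : ℝ≥0) : ℝ) • w) - G x‖ₑ ^ 2)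
    (fun k => PP_grad_meas G hG.continuous.measurable _ _) volume (gauss n 1)

/-- P3 -/
theorem PP_grad (t : ℝ≥0) (ht : t ≠ 0) (g : E n → ℝ) (hg : Measurable g) (K : ℝ)
    (hb : ∀ x, |g x| ≤ K) (R : ℝ) (hs : ∀ x, R ≤ ‖x‖ → g x = 0) :
    ∫⁻ x, ‖gradient (PP t g) x‖ₑ ^ 2 ≤
      liminf (fun k : ℕ => (2 : ℝ≥0∞) ^ k *
        ∫⁻ z, ∫⁻ x, ‖g (x + z) - g x‖ₑ ^ 2 ∂volume ∂(gauss n (1 / 2 ^ k))) atTop := by
  have hC : ContDiff ℝ 1 (PP t g) := PP_contDiff t ht g hg K hb R hs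
  have hGd : Differentiable ℝ (PP t g) := hC.differentiable (by norm_num)
  have hGm : Measurable (PP t g) := hGd.continuous.measurable
  refine (PP_grad_low (PP t g) hGd).trans ?_
  exact Filter.liminf_le_liminf
    (Filter.Eventually.of_forall fun k => PP_grad_step t g hg K hb k hGm)

end Keldysh
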