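import Pool.Agent.Keldysh.Defs2
import Pool.Agent.Keldysh.M_gauss_prob
import Pool.Agent.Keldysh.M_gauss_density
import Pool.Agent.Keldysh.M_PP_contDiff

open MeasureTheory ProbabilityTheory Filter Topology Set
open scoped ENNReal NNReal

namespace Keldysh

variable {n : ℕ} {Ω : Type*} [mΩ : MeasurableSpace Ω]

/-- the Gaussian density -/
noncomputable def PP_grad_tendsto_p (n : ℕ) (t : ℝ≥0) (z : E n) : ℝ :=
  (2 * Real.pi * t) ^ (-(n : ℝ) / 2) * Real.exp (-‖z‖ ^ 2 / (2 * t))

theorem PP_grad_tendsto_p_nonneg (n : ℕ) (t : ℝ≥0) (z : E n) : 0 ≤ PP_grad_tendsto_p n t z := by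
  unfold PP_grad_tendsto_p
  positivity

theorem PP_grad_tendsto_p_le (n : ℕ) (t : ℝ≥0) (z : E n) :
    PP_grad_tendsto_p n t z ≤ (2 * Real.pi * t) ^ (-(n : ℝ) / 2) := by
  unfold PP_grad_tendsto_p
  apply mul_le_of_le_one_right (by positivity)
  rw [Real.exp_le_one_iff]
  apply div_nonpos_of_nonpos_of_nonneg _ (by positivity)
  have : 0 ≤ ‖z‖ ^ 2 := by positivity
  linarith

theorem PP_grad_tendsto_p_cont (n : ℕ) (t : ℝ≥0) : Continuous (PP_grad_tendsto_p n t) := by
  unfold PP_grad_tendsto_p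
  fun_prop

theorem PP_grad_tendsto_eq (t : ℝ≥0) (ht : t ≠ 0) (g : E n → ℝ) (x : E n) :
    PP t g x = ∫ y, g y * PP_grad_tendsto_p n t (y - x) := by
  unfold PP
  rw [gauss_density n t ht]
  rw [integral_withDensity_eq_integral_toReal_smul (by
    have := PP_grad_tendsto_p_cont n t
    unfold PP_grad_tendsto_p at this
    exact this.measurable.ennreal_ofReal) (Eventually.of_forall fun _ => ENNReal.ofReal_lt_top)]
  rw [← integral_add_left_eq_self (fun y => g y * PP_grad_tendsto_p n t (y - x)) x]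
  congr 1
  funext z
  show (ENNReal.ofReal (PP_grad_tendsto_p n t z)).toReal • g (x + z) =
    g (x + z) * PP_grad_tendsto_p n t (x + z - x)
  rw [ENNReal.toReal_ofReal (PP_grad_tendsto_p_nonneg n t z), add_sub_cancel_left, smul_eq_mul,
    mul_comm]

/-- the integrand of the derivative -/
noncomputable def PP_grad_tendsto_F (t : ℝ≥0) (g : E n → ℝ) (x y : E n) : E n →L[ℝ] ℝ :=
  (g y * PP_grad_tendsto_p n t (y - x) / t) • innerSL ℝ (y - x)

theorem PP_grad_tendsto_deriv (t : ℝ≥0) (ht : t ≠ 0) (g : E n → ℝ) (x y : E n) :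
    HasFDerivAt (fun x => g y * PP_grad_tendsto_p n t (y - x)) (PP_grad_tendsto_F t g x y) x := by
  have ht' : (t : ℝ) ≠ 0 := by exact_mod_cast ht
  have h1 : HasFDerivAt (fun x : E n => y - x) (-ContinuousLinearMap.id ℝ (E n)) x := by
    have := (hasFDerivAt_const y x).fun_sub (hasFDerivAt_id (𝕜 := ℝ) x)
    simpa using this
  have h2 := h1.norm_sq
  have h3 := ((h2.neg.mul_const ((2 * (t : ℝ))⁻¹)).exp).const_mul
    (g y * (2 * Real.pi * t) ^ (-(n : ℝ) / 2))
  refine (h3.congr_fderiv ?_).congr_of_eventuallyEq (Eventually.of_forall fun w => ?_)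
  · unfold PP_grad_tendsto_F PP_grad_tendsto_p
    ext v
    simp only [ContinuousLinearMap.smul_apply, ContinuousLinearMap.neg_apply,
      ContinuousLinearMap.comp_apply, ContinuousLinearMap.id_apply, smul_eq_mul, nsmul_eq_mul,
      innerSL_apply_apply, inner_neg_right, div_eq_mul_inv, Pi.neg_apply]
    field_simp
    ring
  · unfold PP_grad_tendsto_p
    simp only [div_eq_mul_inv, Pi.neg_apply]
    ring

theorem PP_grad_tendsto_bound (t : ℝ≥0) (g : E n → ℝ) (K : ℝ)
    (hb : ∀ x, |g x| ≤ K) (R : ℝ) (hs : ∀ x, R ≤ ‖x‖ → g x = 0) (x0 x y : E n)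
    (hx : ‖x‖ ≤ ‖x0‖ + 1) : ‖PP_grad_tendsto_F t g x y‖ ≤
      (Metric.closedBall (0 : E n) R).indicator (fun _ => K * (2 * Real.pi * t) ^ (-(n : ℝ) / 2) *
        (|R| + ‖x0‖ + 1) / t) y := by
  have hK : 0 ≤ K := (abs_nonneg _).trans (hb y)
  have hc : (0 : ℝ) ≤ (2 * Real.pi * t) ^ (-(n : ℝ) / 2) := by positivity
  by_cases hy : R ≤ ‖y‖
  · have : PP_grad_tendsto_F t g x y = 0 := by
      unfold PP_grad_tendsto_F
      rw [hs y hy]
      simp
    rw [this, norm_zero]
    apply Set.indicator_nonneg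
    intro _ _
    positivity
  · push Not at hy
    rw [Set.indicator_of_mem (by rw [mem_closedBall_zero_iff]; exact hy.le)]
    unfold PP_grad_tendsto_F
    rw [norm_smul, innerSL_apply_norm, Real.norm_eq_abs, abs_div, abs_mul,
      abs_of_nonneg (PP_grad_tendsto_p_nonneg n t _), abs_of_nonneg (NNReal.coe_nonneg t),
      div_mul_eq_mul_div]
    apply div_le_div_of_nonneg_right _ (NNReal.coe_nonneg t)
    have h1 : ‖y - x‖ ≤ |R| + ‖x0‖ + 1 := by
      have h2 := norm_sub_le y x
      have h3 := le_abs_self R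
      linarith
    exact mul_le_mul (mul_le_mul (hb y) (PP_grad_tendsto_p_le n t _)
      (PP_grad_tendsto_p_nonneg n t _) hK) h1 (norm_nonneg _) (by positivity)

theorem PP_grad_tendsto_int (R M : ℝ) :
    Integrable ((Metric.closedBall (0 : E n) R).indicator (fun _ => M)) := by
  rw [integrable_indicator_iff measurableSet_closedBall]
  exact integrableOn_const (isCompact_closedBall _ _).measure_lt_top.ne (by simp)

theorem PP_grad_tendsto_meas (t : ℝ≥0) (g : E n → ℝ) (hg : Measurable g) (x : E n) :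
    AEStronglyMeasurable (PP_grad_tendsto_F t g x) volume := by
  show AEStronglyMeasurable (fun y => (g y * PP_grad_tendsto_p n t (y - x) / t) •
    innerSL ℝ (y - x)) volume
  apply AEStronglyMeasurable.fun_smul
  · apply Measurable.aestronglyMeasurable
    apply Measurable.div_const
    apply hg.mul
    exact ((PP_grad_tendsto_p_cont n t).comp (continuous_id.sub continuous_const)).measurable
  · apply Continuous.aestronglyMeasurable
    exact (innerSL ℝ).continuous.comp (continuous_id.sub continuous_const)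

theorem PP_grad_tendsto_fderiv (t : ℝ≥0) (ht : t ≠ 0) (g : E n → ℝ) (hg : Measurable g) (K : ℝ)
    (hb : ∀ x, |g x| ≤ K) (R : ℝ) (hs : ∀ x, R ≤ ‖x‖ → g x = 0) (x : E n) :
    HasFDerivAt (PP t g) (∫ y, PP_grad_tendsto_F t g x y) x := by
  have e : PP t g = fun x => ∫ y, g y * PP_grad_tendsto_p n t (y - x) := by
    funext x
    exact PP_grad_tendsto_eq t ht g x
  rw [e]
  have hK : 0 ≤ K := (abs_nonneg _).trans (hb 0)
  have hmeas : ∀ x : E n, AEStronglyMeasurable (fun y => g y * PP_grad_tendsto_p n t (y - x))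
      volume := by
    intro x
    apply Measurable.aestronglyMeasurable
    apply hg.mul
    exact ((PP_grad_tendsto_p_cont n t).comp (continuous_id.sub continuous_const)).measurable
  refine hasFDerivAt_integral_of_dominated_of_fderiv_le (s := Metric.ball x 1)
    (bound := (Metric.closedBall (0 : E n) R).indicator
      (fun _ => K * (2 * Real.pi * t) ^ (-(n : ℝ) / 2) * (|R| + ‖x‖ + 1) / t))
    (Metric.ball_mem_nhds x one_pos) (Eventually.of_forall hmeas) ?_
    (PP_grad_tendsto_meas t g hg x) ?_ (PP_grad_tendsto_int R _) ?_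
  · refine (PP_grad_tendsto_int (n := n) R (K * (2 * Real.pi * t) ^ (-(n : ℝ) / 2))).mono'
      (hmeas x) (Eventually.of_forall fun y => ?_)
    by_cases hy : R ≤ ‖y‖
    · rw [hs y hy, zero_mul, norm_zero]
      apply Set.indicator_nonneg
      intro _ _
      positivity
    · push Not at hy
      rw [Set.indicator_of_mem (by rw [mem_closedBall_zero_iff]; exact hy.le), Real.norm_eq_abs,
        abs_mul, abs_of_nonneg (PP_grad_tendsto_p_nonneg n t _)]
      exact mul_le_mul (hb y) (PP_grad_tendsto_p_le n t _) (PP_grad_tendsto_p_nonneg n t _) hK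
  · refine Eventually.of_forall fun y w hw => ?_
    apply PP_grad_tendsto_bound t g K hb R hs x w y
    rw [mem_ball_iff_norm] at hw
    have : ‖w‖ ≤ ‖x‖ + ‖w - x‖ := by
      have := norm_add_le x (w - x)
      rwa [add_sub_cancel] at this
    linarith
  · exact Eventually.of_forall fun y w _ => PP_grad_tendsto_deriv t ht g w y

/-- P4 -/
theorem PP_grad_tendsto (t : ℝ≥0) (ht : t ≠ 0) (g : ℕ → E n → ℝ) (g' : E n → ℝ)
    (hg : ∀ i, Measurable (g i)) (K : ℝ)
    (hb : ∀ i x, |g i x| ≤ K) (R : ℝ) (hs : ∀ i x, R ≤ ‖x‖ → g i x = 0)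
    (hlim : ∀ x, Tendsto (fun i => g i x) atTop (𝓝 (g' x))) (x : E n) :
    Tendsto (fun i => gradient (PP t (g i)) x) atTop (𝓝 (gradient (PP t g') x)) := by
  have hg' : Measurable g' := measurable_of_tendsto_metrizable hg (tendsto_pi_nhds.mpr hlim)
  have hb' : ∀ x, |g' x| ≤ K := fun x => le_of_tendsto (hlim x).abs
    (Eventually.of_forall fun i => hb i x)
  have hs' : ∀ x, R ≤ ‖x‖ → g' x = 0 := fun x hx =>
    tendsto_nhds_unique (hlim x) (by simp only [hs _ x hx]; exact tendsto_const_nhds)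
  unfold gradient
  have h1 : ∀ i, fderiv ℝ (PP t (g i)) x = ∫ y, PP_grad_tendsto_F t (g i) x y := fun i =>
    (PP_grad_tendsto_fderiv t ht (g i) (hg i) K (hb i) R (hs i) x).fderiv
  have h2 : fderiv ℝ (PP t g') x = ∫ y, PP_grad_tendsto_F t g' x y :=
    (PP_grad_tendsto_fderiv t ht g' hg' K hb' R hs' x).fderiv
  simp only [h1, h2]
  apply ((InnerProductSpace.toDual ℝ (E n)).symm.continuous.tendsto _).comp
  apply tendsto_integral_of_dominated_convergence
    ((Metric.closedBall (0 : E n) R).indicator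
      (fun _ => K * (2 * Real.pi * t) ^ (-(n : ℝ) / 2) * (|R| + ‖x‖ + 1) / t))
    (fun i => PP_grad_tendsto_meas t (g i) (hg i) x) (PP_grad_tendsto_int R _)
  · intro i
    exact Eventually.of_forall fun y =>
      PP_grad_tendsto_bound t (g i) K (hb i) R (hs i) x x y (by linarith)
  · refine Eventually.of_forall fun y => ?_
    unfold PP_grad_tendsto_F
    apply Tendsto.smul_const
    apply Tendsto.div_const
    exact (hlim y).mul_const _

end Keldysh
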