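import Pool.Agent.Keldysh.Defs2
import Pool.Agent.Keldysh.M_gauss_prob

open MeasureTheory ProbabilityTheory Filter Topology Set
open scoped ENNReal NNReal

namespace Keldysh

variable {n : ℕ} {Ω : Type*} [mΩ : MeasurableSpace Ω]

/-- P5 -/
theorem PP_sub (t : ℝ≥0) (g g' : E n → ℝ) (hg : Measurable g) (hg' : Measurable g') (K : ℝ)
    (hb : ∀ x, |g x| ≤ K) (hb' : ∀ x, |g' x| ≤ K) (x : E n) :
    PP t (fun y => g y - g' y) x = PP t g x - PP t g' x := by
  have := gauss_prob n t
  have hint : ∀ f : E n → ℝ, Measurable f → (∀ x, |f x| ≤ K) →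
      Integrable (fun z => f (x + z)) (gauss n t) := by
    intro f hf hfb
    refine Integrable.of_bound (hf.comp (measurable_const_add x)).aestronglyMeasurable K ?_
    exact Eventually.of_forall fun z => by
      rw [Real.norm_eq_abs]
      exact hfb _
  unfold PP
  exact integral_sub (hint g hg hb) (hint g' hg' hb')

end Keldysh
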