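import Pool.Agent.Keldysh.Defs2
import Pool.Agent.Keldysh.M_gauss_prob
import Pool.Agent.Keldysh.M_gauss_density

open MeasureTheory ProbabilityTheory Filter Topology Set
open scoped ENNReal NNReal

namespace Keldysh

variable {n : ℕ} {Ω : Type*} [mΩ : MeasurableSpace Ω]

theorem gauss_layer_trans (g : E n → ℝ≥0∞) (x : E n) (s : ℝ) :
    ∫⁻ y in Metric.ball x s, g y = ∫⁻ z in Metric.ball 0 s, g (x + z) := by
  rw [← lintegral_indicator measurableSet_ball, ← lintegral_indicator measurableSet_ball,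
    ← lintegral_add_left_eq_self _ x]
  congr 1
  ext z
  by_cases hz : ‖z‖ < s
  · rw [indicator_of_mem (by simpa [mem_ball_iff_norm] using hz),
      indicator_of_mem (by simpa [mem_ball_iff_norm] using hz)]
  · rw [indicator_of_notMem (by simpa [mem_ball_iff_norm] using hz),
      indicator_of_notMem (by simpa [mem_ball_iff_norm] using hz)]

theorem gauss_layer_ball (g : E n → ℝ≥0∞) (x : E n) (c : ℝ≥0∞) (R : ℝ)
    (h : ∀ s, 0 < s → s ≤ R → c * volume (Metric.ball x s) ≤ ∫⁻ y in Metric.ball x s, g y)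
    (s : ℝ) (hs : s ≤ R) :
    c * volume (Metric.ball (0 : E n) s) ≤ ∫⁻ z in Metric.ball 0 s, g (x + z) := by
  by_cases h0 : 0 < s
  · have h1 := h s h0 hs
    rw [gauss_layer_trans] at h1
    rwa [Measure.addHaar_ball_center] at h1
  · rw [Metric.ball_eq_empty.mpr (not_lt.mp h0)]
    simp

theorem gauss_layer_set (c0 : ℝ) (hc0 : 0 < c0) (t : ℝ) (ht : 0 < t) (l : ℝ) (hl : 0 < l) (R : ℝ) :
    ∃ s, s ≤ R ∧ {z : E n | l < c0 * Real.exp (-‖z‖ ^ 2 / (2 * t))} ∩ Metric.ball 0 R =
      Metric.ball 0 s := by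
  have key : ∀ z : E n, l < c0 * Real.exp (-‖z‖ ^ 2 / (2 * t)) ↔
      ‖z‖ ^ 2 < -(2 * t * Real.log (l / c0)) := by
    intro z
    rw [← div_lt_iff₀' hc0, ← Real.log_lt_iff_lt_exp (by positivity), lt_div_iff₀ (by positivity)]
    constructor <;> intro h <;> linarith
  set L : ℝ := -(2 * t * Real.log (l / c0)) with hL
  by_cases hL0 : 0 < L
  · refine ⟨min (Real.sqrt L) R, min_le_right _ _, ?_⟩
    ext z
    simp only [mem_inter_iff, mem_ofPred_eq, mem_ball_zero_iff, lt_min_iff, key]
    rw [Real.lt_sqrt (norm_nonneg z)]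
  · refine ⟨min 0 R, min_le_right _ _, ?_⟩
    rw [Metric.ball_eq_empty.mpr (min_le_left _ _)]
    ext z
    simp only [mem_inter_iff, mem_ofPred_eq, key, mem_empty_iff_false, iff_false, not_and]
    intro h1
    exfalso
    have : 0 ≤ ‖z‖ ^ 2 := by positivity
    linarith

/-- A8: layer cake. -/
theorem gauss_layer (g : E n → ℝ≥0∞) (hg : Measurable g) (x : E n) (c : ℝ≥0∞) (R : ℝ)
    (h : ∀ s, 0 < s → s ≤ R → c * volume (Metric.ball x s) ≤ ∫⁻ y in Metric.ball x s, g y)
    (t : ℝ≥0) (ht : t ≠ 0) :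
    c * gauss n t (Metric.ball 0 R) ≤ ∫⁻ z in Metric.ball 0 R, g (x + z) ∂(gauss n t) := by
  have ht0 : (0 : ℝ) < t := by positivity
  set c0 : ℝ := (2 * Real.pi * t) ^ (-(n : ℝ) / 2) with hc0
  have hc0p : 0 < c0 := by positivity
  set q : E n → ℝ := fun z => c0 * Real.exp (-‖z‖ ^ 2 / (2 * t)) with hq
  have hqc : Continuous q := by
    simp only [hq]
    fun_prop
  have hqm : Measurable q := hqc.measurable
  have hq0 : ∀ z, 0 ≤ q z := fun z => by simp only [hq]; positivity
  have hgx : Measurable (fun z => g (x + z)) := hg.comp (measurable_const_add x)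
  rw [gauss_density n t ht]
  rw [withDensity_apply _ measurableSet_ball]
  have e1 : ∫⁻ z in Metric.ball 0 R, g (x + z) ∂(volume.withDensity
      (fun x => ENNReal.ofReal (c0 * Real.exp (-‖x‖ ^ 2 / (2 * t))))) =
      ∫⁻ z, ENNReal.ofReal (q z) ∂((volume.restrict (Metric.ball 0 R)).withDensity
        (fun z => g (x + z))) := by
    rw [restrict_withDensity measurableSet_ball,
      lintegral_withDensity_eq_lintegral_mul _ hqm.ennreal_ofReal hgx,
      lintegral_withDensity_eq_lintegral_mul _ hgx hqm.ennreal_ofReal]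
    refine lintegral_congr fun z => ?_
    simp only [Pi.mul_apply, hq]
    rw [mul_comm]
  rw [e1]
  have e2 : ∫⁻ a in Metric.ball (0 : E n) R, ENNReal.ofReal (c0 * Real.exp (-‖a‖ ^ 2 / (2 * t))) =
      ∫⁻ l in Ioi 0, (volume.restrict (Metric.ball (0 : E n) R)) {a | l < q a} :=
    lintegral_eq_lintegral_meas_lt _ (Eventually.of_forall hq0) hqm.aemeasurable
  rw [e2, lintegral_eq_lintegral_meas_lt ((volume.restrict (Metric.ball 0 R)).withDensity
        (fun z => g (x + z))) (Eventually.of_forall hq0) hqm.aemeasurable]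
  refine (lintegral_const_mul_le _ _).trans ?_
  refine setLIntegral_mono' measurableSet_Ioi fun l hl => ?_
  have hms : MeasurableSet {a | l < q a} := measurableSet_lt measurable_const hqm
  obtain ⟨s, hs, hset⟩ := gauss_layer_set (n := n) c0 hc0p t ht0 l hl R
  rw [withDensity_apply _ hms, Measure.restrict_apply hms, Measure.restrict_restrict hms]
  rw [hset]
  exact gauss_layer_ball g x c R h s hs

end Keldysh
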