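import Pool.Agent.Keldysh.Defs2
import Pool.Agent.Keldysh.M_gauss_prob
import Pool.Agent.Keldysh.M_gauss_layer

open MeasureTheory ProbabilityTheory Filter Topology Set
open scoped ENNReal NNReal

namespace Keldysh

variable {n : ℕ} {Ω : Type*} [mΩ : MeasurableSpace Ω]

/-- B8 -/
theorem SubAt_gauss (g : E n → ℝ) (q : E n) (r : ℝ) (hg : SubAt g q r) (x : E n)
    (hx : x ∈ Metric.ball q (3 * r)) (s : ℝ≥0) (hs : s ≠ 0) :
    g x * (gauss n s (Metric.ball 0 (r / 2))).toReal ≤
      ∫ z in Metric.ball 0 (r / 2), g (x + z) ∂(gauss n s) := by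
  haveI := gauss_prob n s
  have hr := hg.pos
  have hm : Measurable (fun y => ENNReal.ofReal (g y)) := hg.meas.ennreal_ofReal
  have h1 : ∀ t, 0 < t → t ≤ r / 2 → ENNReal.ofReal (g x) * volume (Metric.ball x t) ≤
      ∫⁻ y in Metric.ball x t, ENNReal.ofReal (g y) := by
    intro t ht htr
    have hsub := hg.sub x hx t ht (by linarith)
    rw [setAverage_eq, smul_eq_mul] at hsub
    have hfin : volume (Metric.ball x t) ≠ ⊤ := measure_ball_lt_top.ne
    have hpos : 0 < volume.real (Metric.ball x t) :=
      ENNReal.toReal_pos (Metric.measure_ball_pos volume x ht).ne' hfin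
    have hint : Integrable g (volume.restrict (Metric.ball x t)) := by
      haveI : IsFiniteMeasure (volume.restrict (Metric.ball x t)) :=
        ⟨by rw [Measure.restrict_apply_univ]; exact measure_ball_lt_top⟩
      refine Integrable.mono' (integrable_const (1:ℝ)) hg.meas.aestronglyMeasurable ?_
      exact Filter.Eventually.of_forall fun y => by
        rw [Real.norm_eq_abs, abs_of_nonneg (hg.nonneg y)]; exact hg.le_one y
    rw [← ofReal_integral_eq_lintegral_ofReal hint (Filter.Eventually.of_forall hg.nonneg)]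
    have h2 : volume (Metric.ball x t) = ENNReal.ofReal (volume.real (Metric.ball x t)) := by
      rw [Measure.real, ENNReal.ofReal_toReal hfin]
    rw [h2, ← ENNReal.ofReal_mul (hg.nonneg x)]
    apply ENNReal.ofReal_le_ofReal
    calc g x * volume.real (Metric.ball x t) ≤
        ((volume.real (Metric.ball x t))⁻¹ * ∫ y in Metric.ball x t, g y) *
          volume.real (Metric.ball x t) := mul_le_mul_of_nonneg_right hsub hpos.le
      _ = ∫ y in Metric.ball x t, g y := by field_simp
  have key := gauss_layer (fun y => ENNReal.ofReal (g y)) hm x (ENNReal.ofReal (g x)) (r / 2)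
    h1 s hs
  have hmx : Measurable (fun z => g (x + z)) := hg.meas.comp (measurable_const_add x)
  rw [integral_eq_lintegral_of_nonneg_ae (Filter.Eventually.of_forall fun z => hg.nonneg _)
    hmx.aestronglyMeasurable]
  have hfin2 : ∫⁻ z in Metric.ball 0 (r / 2), ENNReal.ofReal (g (x + z)) ∂(gauss n s) ≠ ⊤ := by
    have : ∫⁻ z in Metric.ball 0 (r / 2), ENNReal.ofReal (g (x + z)) ∂(gauss n s) ≤
        ∫⁻ z in Metric.ball 0 (r / 2), 1 ∂(gauss n s) := by
      apply lintegral_mono
      intro z
      calc ENNReal.ofReal (g (x + z)) ≤ ENNReal.ofReal 1 :=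
            ENNReal.ofReal_le_ofReal (hg.le_one _)
        _ = 1 := ENNReal.ofReal_one
    refine ne_top_of_le_ne_top ?_ this
    rw [lintegral_one, Measure.restrict_apply_univ]
    exact measure_ne_top _ _
  have h3 := ENNReal.toReal_mono hfin2 key
  rw [ENNReal.toReal_mul, ENNReal.toReal_ofReal (hg.nonneg x)] at h3
  exact h3

end Keldysh
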