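import Pool.Agent.Keldysh.Defs2
import Pool.Agent.Keldysh.M_gauss_prob
import Pool.Agent.Keldysh.M_gauss_inner_sq
import Pool.Agent.Keldysh.M_gauss_scale

open MeasureTheory ProbabilityTheory Filter Topology Set
open scoped ENNReal NNReal

namespace Keldysh

variable {n : ℕ} {Ω : Type*} [mΩ : MeasurableSpace Ω]

theorem gauss_second_moment_sum (n : ℕ) (z : E n) :
    ‖z‖ₑ ^ 2 = ∑ i, ‖inner ℝ (EuclideanSpace.single i (1:ℝ) : E n) z‖ₑ ^ 2 := by
  have h1 : ‖z‖ₑ ^ 2 = ENNReal.ofReal (‖z‖ ^ 2) := by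
    rw [ENNReal.ofReal_pow (norm_nonneg _), ofReal_norm]
  rw [h1, EuclideanSpace.norm_sq_eq, ENNReal.ofReal_sum_of_nonneg (fun i _ => by positivity)]
  apply Finset.sum_congr rfl
  intro i _
  rw [ENNReal.ofReal_pow (norm_nonneg _), ofReal_norm, EuclideanSpace.inner_single_left]
  simp

/-- A5: second moments -/
theorem gauss_second_moment (n : ℕ) (t : ℝ≥0) : ∫⁻ z, ‖z‖ₑ ^ 2 ∂(gauss n t) = n * t := by
  have h1 : ∫⁻ z, ‖z‖ₑ ^ 2 ∂(gauss n 1) = n := by
    simp_rw [gauss_second_moment_sum]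
    rw [lintegral_finset_sum]
    · simp_rw [gauss_inner_sq]
      have : ∀ i : Fin n, ‖(EuclideanSpace.single i (1:ℝ) : E n)‖ₑ ^ 2 = 1 := by
        intro i
        rw [← ofReal_norm, EuclideanSpace.norm_single]
        simp
      simp_rw [this]
      simp
    · intro i _
      fun_prop
  rw [gauss_scale, lintegral_map (by fun_prop) (by fun_prop)]
  have h2 : ∀ z : E n, ‖Real.sqrt t • z‖ₑ ^ 2 = (t : ℝ≥0∞) * ‖z‖ₑ ^ 2 := by
    intro z
    rw [enorm_smul, mul_pow]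
    congr 1
    rw [← ofReal_norm, Real.norm_of_nonneg (Real.sqrt_nonneg _),
      ← ENNReal.ofReal_pow (Real.sqrt_nonneg _), Real.sq_sqrt t.coe_nonneg]
    exact ENNReal.ofReal_coe_nnreal
  simp_rw [h2]
  rw [lintegral_const_mul _ (by fun_prop), h1, mul_comm]

end Keldysh
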