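import Pool.Agent.Keldysh.Defs2
import Pool.Agent.Keldysh.M_gauss_prob
import Pool.Agent.Keldysh.M_gauss_second_moment
import Pool.Agent.Keldysh.M_SubAt_gauss

open MeasureTheory ProbabilityTheory Filter Topology Set
open scoped ENNReal NNReal

namespace Keldysh

variable {n : ℕ} {Ω : Type*} [mΩ : MeasurableSpace Ω]

theorem PP_tendsto_tail (n : ℕ) (δ : ℝ) (hδ : 0 < δ) :
    Tendsto (fun k : ℕ => (gauss n (1 / 2 ^ k)).real (Metric.ball 0 δ)ᶜ) atTop (𝓝 0) := by
  have hb : ∀ k : ℕ, (gauss n (1 / 2 ^ k)).real (Metric.ball 0 δ)ᶜ ≤ n / δ ^ 2 * (1 / 2) ^ k := by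
    intro k
    have := gauss_prob n (1 / 2 ^ k)
    have h1 := mul_meas_ge_le_lintegral₀ (μ := gauss n (1 / 2 ^ k)) (f := fun z : E n => ‖z‖ₑ ^ 2)
      (by fun_prop) (ENNReal.ofReal (δ ^ 2))
    rw [gauss_second_moment] at h1
    have h2 : (Metric.ball (0 : E n) δ)ᶜ ⊆ {z : E n | ENNReal.ofReal (δ ^ 2) ≤ ‖z‖ₑ ^ 2} := by
      intro z hz
      rw [Set.mem_compl_iff, mem_ball_zero_iff, not_lt] at hz
      show ENNReal.ofReal (δ ^ 2) ≤ ‖z‖ₑ ^ 2
      rw [← ofReal_norm, ← ENNReal.ofReal_pow (norm_nonneg _)]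
      exact ENNReal.ofReal_le_ofReal (pow_le_pow_left₀ hδ.le hz 2)
    have h3 : ENNReal.ofReal (δ ^ 2) * gauss n (1 / 2 ^ k) (Metric.ball (0 : E n) δ)ᶜ ≤
        (n : ℝ≥0∞) * ((1 / 2 ^ k : ℝ≥0) : ℝ≥0∞) :=
      le_trans (mul_le_mul_right (measure_mono h2) _) h1
    have h4 := ENNReal.toReal_mono (ENNReal.mul_ne_top (ENNReal.natCast_ne_top n)
      ENNReal.coe_ne_top) h3
    rw [ENNReal.toReal_mul, ENNReal.toReal_mul, ENNReal.toReal_ofReal (by positivity),
      ENNReal.toReal_natCast, ENNReal.coe_toReal] at h4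
    have h5 : δ ^ 2 * (gauss n (1 / 2 ^ k)).real (Metric.ball 0 δ)ᶜ ≤ n * (1 / 2 ^ k) := by
      refine le_trans h4 (le_of_eq ?_)
      push_cast
      ring
    have hd : 0 < δ ^ 2 := by positivity
    rw [div_mul_eq_mul_div, le_div_iff₀ hd]
    have h6 : ((1 : ℝ) / 2) ^ k = 1 / 2 ^ k := by rw [div_pow, one_pow]
    rw [h6]
    linarith
  have hlim : Tendsto (fun k : ℕ => (n : ℝ) / δ ^ 2 * (1 / 2) ^ k) atTop (𝓝 0) := by
    have := (tendsto_pow_atTop_nhds_zero_of_lt_one (r := (1 / 2 : ℝ)) (by norm_num)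
      (by norm_num)).const_mul ((n : ℝ) / δ ^ 2)
    rwa [mul_zero] at this
  exact squeeze_zero (fun k => measureReal_nonneg) hb hlim

/-- B9 -/
theorem PP_tendsto (q : E n) (r : ℝ) (φ : E n → ℝ) (hφ : ContDiff ℝ 2 φ)
    (h01 : ∀ x, 0 ≤ φ x ∧ φ x ≤ 1) (hs : ∀ x, x ∉ Metric.ball q (2 * r) → φ x = 0)
    (h1 : ∀ x ∈ Metric.ball q r, φ x = 1) (g : E n → ℝ) (hg : SubAt g q r)
    (x : E n) (hx : x ∈ Metric.ball q r) :
    Tendsto (fun k : ℕ => PP (1 / 2 ^ k) (fun y => φ y * g y) x) atTop (𝓝 (g x)) := by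
  have hxd : dist x q < r := hx
  obtain ⟨δ0, hδ0⟩ : ∃ δ0, δ0 = r - dist x q := ⟨_, rfl⟩
  have hδ0pos : 0 < δ0 := by rw [hδ0]; linarith
  have hφ1 : ∀ z : E n, z ∈ Metric.ball (0 : E n) δ0 → φ (x + z) = 1 := by
    intro z hz
    apply h1
    rw [mem_ball_zero_iff] at hz
    rw [Metric.mem_ball]
    calc dist (x + z) q ≤ dist (x + z) x + dist x q := dist_triangle _ _ _
      _ = ‖z‖ + dist x q := by rw [dist_eq_norm]; congr 2; abel
      _ < r := by rw [hδ0] at hz; linarith
  obtain ⟨f, hf⟩ : ∃ f : E n → ℝ, f = fun z => φ (x + z) * g (x + z) := ⟨_, rfl⟩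
  have hfz : ∀ z, f z = φ (x + z) * g (x + z) := by intro z; rw [hf]
  have hf0 : ∀ z, 0 ≤ f z := by
    intro z; rw [hfz]; exact mul_nonneg (h01 _).1 (hg.nonneg _)
  have hf1 : ∀ z, f z ≤ 1 := by
    intro z; rw [hfz]; exact mul_le_one₀ (h01 _).2 (hg.nonneg _) (hg.le_one _)
  have hfm : Measurable f := by
    rw [hf]
    exact (hφ.continuous.measurable.mul hg.meas).comp (measurable_const.add measurable_id)
  have hgm : Measurable (fun z => g (x + z)) :=
    hg.meas.comp (measurable_const.add measurable_id)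
  have hPP : ∀ k : ℕ, PP (1 / 2 ^ k) (fun y => φ y * g y) x = ∫ z, f z ∂(gauss n (1 / 2 ^ k)) := by
    intro k; rw [hf]; rfl
  have hfi : ∀ k : ℕ, Integrable f (gauss n (1 / 2 ^ k)) := by
    intro k
    have := gauss_prob n (1 / 2 ^ k)
    refine Integrable.of_bound hfm.aestronglyMeasurable 1 (Eventually.of_forall fun z => ?_)
    rw [Real.norm_of_nonneg (hf0 z)]
    exact hf1 z
  have hind : ∀ (k : ℕ) (δ : ℝ), Integrable ((Metric.ball (0 : E n) δ)ᶜ.indicator
      (fun _ => (1 : ℝ))) (gauss n (1 / 2 ^ k)) := by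
    intro k δ
    have := gauss_prob n (1 / 2 ^ k)
    exact (integrable_const 1).indicator measurableSet_ball.compl
  have hindint : ∀ (k : ℕ) (δ : ℝ), ∫ z, (Metric.ball (0 : E n) δ)ᶜ.indicator
      (fun _ => (1 : ℝ)) z ∂(gauss n (1 / 2 ^ k)) =
      (gauss n (1 / 2 ^ k)).real (Metric.ball 0 δ)ᶜ := by
    intro k δ
    rw [integral_indicator_const _ measurableSet_ball.compl, smul_eq_mul, mul_one]
  -- upper bound
  have hupper : ∀ ε : ℝ, 0 < ε → ∃ δ : ℝ, 0 < δ ∧ ∀ k : ℕ,
      PP (1 / 2 ^ k) (fun y => φ y * g y) x ≤ g x + ε +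
        (gauss n (1 / 2 ^ k)).real (Metric.ball 0 δ)ᶜ := by
    intro ε hε
    have husc := hg.usc x (by
      rw [Metric.mem_ball]
      have := hg.pos
      linarith) (g x + ε) (by linarith)
    rw [Metric.eventually_nhds_iff] at husc
    obtain ⟨δ1, hδ1, hlt⟩ := husc
    refine ⟨min δ0 δ1, lt_min hδ0pos hδ1, fun k => ?_⟩
    have := gauss_prob n (1 / 2 ^ k)
    rw [hPP, ← hindint]
    have e1 : ∫ _z : E n, (g x + ε) ∂(gauss n (1 / 2 ^ k)) = g x + ε := by rw [integral_const, probReal_univ, one_smul]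
    calc ∫ z, f z ∂(gauss n (1 / 2 ^ k)) ≤ ∫ z, ((g x + ε) +
          (Metric.ball (0 : E n) (min δ0 δ1))ᶜ.indicator (fun _ => (1 : ℝ)) z)
            ∂(gauss n (1 / 2 ^ k)) := by
          apply integral_mono (hfi k) ((integrable_const _).add (hind k _))
          intro z
          show f z ≤ (g x + ε) +
            (Metric.ball (0 : E n) (min δ0 δ1))ᶜ.indicator (fun _ => (1 : ℝ)) z
          by_cases hz : z ∈ Metric.ball (0 : E n) (min δ0 δ1)
          · rw [Set.indicator_of_notMem (by simpa using hz), add_zero, hfz,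
              hφ1 z (Metric.ball_subset_ball (min_le_left _ _) hz), one_mul]
            have hz2 : dist (x + z) x < δ1 := by
              rw [dist_eq_norm, add_sub_cancel_left]
              rw [mem_ball_zero_iff] at hz
              exact lt_of_lt_of_le hz (min_le_right _ _)
            exact (hlt hz2).le
          · rw [Set.indicator_of_mem (by simpa using hz)]
            have := hf1 z
            have := hg.nonneg x
            linarith
      _ = g x + ε + ∫ z, (Metric.ball (0 : E n) (min δ0 δ1))ᶜ.indicator (fun _ => (1 : ℝ)) z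
            ∂(gauss n (1 / 2 ^ k)) := by
          rw [integral_add (integrable_const _) (hind k _), e1]
  -- lower bound
  have hlower : ∀ k : ℕ, g x - (gauss n (1 / 2 ^ k)).real (Metric.ball 0 (r / 2))ᶜ -
      (gauss n (1 / 2 ^ k)).real (Metric.ball 0 δ0)ᶜ ≤
      PP (1 / 2 ^ k) (fun y => φ y * g y) x := by
    intro k
    have := gauss_prob n (1 / 2 ^ k)
    have hrpos := hg.pos
    have h2 := SubAt_gauss g q r hg x (by
      rw [Metric.mem_ball]
      linarith) (1 / 2 ^ k) (by positivity)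
    have h3 : (gauss n (1 / 2 ^ k) (Metric.ball 0 (r / 2))).toReal =
        1 - (gauss n (1 / 2 ^ k)).real (Metric.ball 0 (r / 2))ᶜ := by
      rw [probReal_compl_eq_one_sub measurableSet_ball]
      show (gauss n (1 / 2 ^ k)).real (Metric.ball 0 (r / 2)) = _
      ring
    rw [h3] at h2
    have h4 : ∫ z in Metric.ball 0 (r / 2), g (x + z) ∂(gauss n (1 / 2 ^ k)) ≤
        ∫ z, (f z + (Metric.ball (0 : E n) δ0)ᶜ.indicator (fun _ => (1 : ℝ)) z)
          ∂(gauss n (1 / 2 ^ k)) := by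
      rw [← integral_indicator measurableSet_ball]
      have hgi : Integrable (fun z => g (x + z)) (gauss n (1 / 2 ^ k)) := by
        refine Integrable.of_bound hgm.aestronglyMeasurable 1 (Eventually.of_forall fun z => ?_)
        rw [Real.norm_of_nonneg (hg.nonneg _)]
        exact hg.le_one _
      apply integral_mono (hgi.indicator measurableSet_ball) ((hfi k).add (hind k _))
      intro z
      show (Metric.ball (0 : E n) (r / 2)).indicator (fun z => g (x + z)) z ≤
        f z + (Metric.ball (0 : E n) δ0)ᶜ.indicator (fun _ => (1 : ℝ)) z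
      have h5 : (Metric.ball (0 : E n) (r / 2)).indicator (fun z => g (x + z)) z ≤ g (x + z) :=
        Set.indicator_le_self' (fun _ _ => hg.nonneg _) z
      refine h5.trans ?_
      by_cases hz : z ∈ Metric.ball (0 : E n) δ0
      · rw [Set.indicator_of_notMem (by simpa using hz), add_zero, hfz, hφ1 z hz, one_mul]
      · rw [Set.indicator_of_mem (by simpa using hz)]
        have := hf0 z
        have := hg.le_one (x + z)
        linarith
    rw [integral_add (hfi k) (hind k _), hindint, ← hPP] at h4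
    have h6 : g x * (gauss n (1 / 2 ^ k)).real (Metric.ball 0 (r / 2))ᶜ ≤
        1 * (gauss n (1 / 2 ^ k)).real (Metric.ball 0 (r / 2))ᶜ :=
      mul_le_mul_of_nonneg_right (hg.le_one x) measureReal_nonneg
    linarith
  rw [tendsto_order]
  constructor
  · intro a ha
    have hl : Tendsto (fun k : ℕ => g x - (gauss n (1 / 2 ^ k)).real (Metric.ball 0 (r / 2))ᶜ -
        (gauss n (1 / 2 ^ k)).real (Metric.ball 0 δ0)ᶜ) atTop (𝓝 (g x - 0 - 0)) :=
      (tendsto_const_nhds.sub (PP_tendsto_tail n (r / 2) (by have := hg.pos; linarith))).sub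
        (PP_tendsto_tail n δ0 hδ0pos)
    rw [sub_zero, sub_zero] at hl
    filter_upwards [hl.eventually_const_lt ha] with k hk
    exact lt_of_lt_of_le hk (hlower k)
  · intro a ha
    obtain ⟨δ, hδ, hk⟩ := hupper ((a - g x) / 2) (by linarith)
    have hl : Tendsto (fun k : ℕ => g x + (a - g x) / 2 +
        (gauss n (1 / 2 ^ k)).real (Metric.ball 0 δ)ᶜ) atTop (𝓝 (g x + (a - g x) / 2 + 0)) :=
      tendsto_const_nhds.add (PP_tendsto_tail n δ hδ)
    rw [add_zero] at hl
    filter_upwards [hl.eventually_lt_const (show g x + (a - g x) / 2 < a by linarith)] with k hk2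
    exact lt_of_le_of_lt (hk k) hk2

end Keldysh
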