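import Pool.Agent.Keldysh.Defs2

open MeasureTheory ProbabilityTheory Filter Topology Set
open scoped ENNReal NNReal

namespace Keldysh

variable {n : ℕ} {Ω : Type*} [mΩ : MeasurableSpace Ω]

theorem SubAt_convex_integrable {g : E n → ℝ} (hm : Measurable g) (h0 : ∀ x, 0 ≤ g x)
    (h1 : ∀ x, g x ≤ 1) (x : E n) (t : ℝ) :
    Integrable g (volume.restrict (Metric.ball x t)) := by
  have hfin : IsFiniteMeasure (volume.restrict (Metric.ball x t)) :=
    ⟨by rw [Measure.restrict_apply_univ]; exact measure_ball_lt_top⟩
  refine Integrable.of_bound hm.aestronglyMeasurable 1 ?_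
  refine Filter.Eventually.of_forall fun y => ?_
  rw [Real.norm_eq_abs, abs_of_nonneg (h0 y)]
  exact h1 y

theorem SubAt_convex_usc {g : E n → ℝ} {x : E n} (h : UpperSemicontinuousAt g x) {a : ℝ}
    (ha : 0 ≤ a) : UpperSemicontinuousAt (fun y => a * g y) x := by
  rcases ha.eq_or_lt with h0 | h0
  · subst h0
    simp only [zero_mul]
    exact upperSemicontinuousAt_const
  · intro y hy
    have h1 : g x < y / a := by
      rw [lt_div_iff₀ h0, mul_comm]
      exact hy
    filter_upwards [h _ h1] with z hz
    rw [lt_div_iff₀ h0, mul_comm] at hz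
    exact hz

/-- B10' -/
theorem SubAt_convex (q : E n) (r : ℝ) : Convex ℝ {g : E n → ℝ | SubAt g q r} := by
  intro g hg g' hg' a b ha hb hab
  simp only [Set.mem_setOf_eq] at hg hg' ⊢
  refine ⟨hg.pos, ?_, ?_, ?_, ?_, ?_⟩
  · exact (hg.meas.const_smul a).add (hg'.meas.const_smul b)
  · intro x
    have h1 := hg.nonneg x
    have h2 := hg'.nonneg x
    simp only [Pi.add_apply, Pi.smul_apply, smul_eq_mul]
    positivity
  · intro x
    have h1 := hg.le_one x
    have h2 := hg'.le_one x
    simp only [Pi.add_apply, Pi.smul_apply, smul_eq_mul]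
    nlinarith
  · intro x hx
    have h1 := SubAt_convex_usc (hg.usc x hx) ha
    have h2 := SubAt_convex_usc (hg'.usc x hx) hb
    exact UpperSemicontinuousAt.add h1 h2
  · intro x hx t ht htr
    have h1 := hg.sub x hx t ht htr
    have h2 := hg'.sub x hx t ht htr
    have i1 := SubAt_convex_integrable hg.meas hg.nonneg hg.le_one x t
    have i2 := SubAt_convex_integrable hg'.meas hg'.nonneg hg'.le_one x t
    have e : ⨍ y in Metric.ball x t, (a • g + b • g') y ∂volume =
        a * (⨍ y in Metric.ball x t, g y ∂volume) + b * (⨍ y in Metric.ball x t, g' y ∂volume) := by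
      rw [setAverage_eq, setAverage_eq, setAverage_eq]
      simp only [Pi.add_apply, Pi.smul_apply, smul_eq_mul]
      rw [integral_add (i1.const_mul a) (i2.const_mul b), integral_const_mul, integral_const_mul]
      ring
    rw [e]
    simp only [Pi.add_apply, Pi.smul_apply, smul_eq_mul]
    exact add_le_add (mul_le_mul_of_nonneg_left h1 ha) (mul_le_mul_of_nonneg_left h2 hb)

end Keldysh
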