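import Pool.Agent.Keldysh.Defs2

open MeasureTheory ProbabilityTheory Filter Topology Set
open scoped ENNReal NNReal

namespace Keldysh

variable {n : ℕ} {Ω : Type*} [mΩ : MeasurableSpace Ω]

theorem SubAt_max_int (g : E n → ℝ) (hm : Measurable g) (h0 : ∀ x, 0 ≤ g x) (h1 : ∀ x, g x ≤ 1)
    (x : E n) (t : ℝ) : IntegrableOn g (Metric.ball x t) volume := by
  refine Measure.integrableOn_of_bounded (M := 1) measure_ball_lt_top.ne
    hm.aestronglyMeasurable (ae_of_all _ fun y => ?_)
  rw [Real.norm_eq_abs, abs_of_nonneg (h0 y)]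
  exact h1 y

theorem SubAt_max_avg (g g' : E n → ℝ) (x : E n) (t : ℝ)
    (h : IntegrableOn g (Metric.ball x t) volume) (h' : IntegrableOn g' (Metric.ball x t) volume)
    (hle : ∀ y, g y ≤ g' y) :
    ⨍ y in Metric.ball x t, g y ∂volume ≤ ⨍ y in Metric.ball x t, g' y ∂volume := by
  rw [setAverage_eq, setAverage_eq, smul_eq_mul, smul_eq_mul]
  apply mul_le_mul_of_nonneg_left _ (inv_nonneg.2 ENNReal.toReal_nonneg)
  exact setIntegral_mono h h' hle

/-- B10 -/
theorem SubAt_max (g g' : E n → ℝ) (q : E n) (r : ℝ) (hg : SubAt g q r) (hg' : SubAt g' q r) :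
    SubAt (fun x => max (g x) (g' x)) q r := by
  have hm : Measurable fun x => max (g x) (g' x) := hg.meas.max hg'.meas
  have h0 : ∀ x, 0 ≤ max (g x) (g' x) := fun x => (hg.nonneg x).trans (le_max_left _ _)
  have h1 : ∀ x, max (g x) (g' x) ≤ 1 := fun x => max_le (hg.le_one x) (hg'.le_one x)
  refine ⟨hg.pos, hm, h0, h1, ?_, ?_⟩
  · intro x hx y hy
    have hy' : max (g x) (g' x) < y := hy
    rw [max_lt_iff] at hy'
    filter_upwards [hg.usc x hx y hy'.1, hg'.usc x hx y hy'.2] with z hz hz'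
    exact max_lt hz hz'
  · intro x hx t ht htr
    have hint := SubAt_max_int _ hm h0 h1 x t
    apply max_le
    · exact (hg.sub x hx t ht htr).trans (SubAt_max_avg _ _ x t
        (SubAt_max_int g hg.meas hg.nonneg hg.le_one x t) hint (fun y => le_max_left _ _))
    · exact (hg'.sub x hx t ht htr).trans (SubAt_max_avg _ _ x t
        (SubAt_max_int g' hg'.meas hg'.nonneg hg'.le_one x t) hint (fun y => le_max_right _ _))

end Keldysh
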