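import Pool.Agent.Keldysh.Defs2
import Pool.Agent.Keldysh.M_SubAt_max
import Pool.Agent.Keldysh.M_SubAt_convex

open MeasureTheory ProbabilityTheory Filter Topology Set
open scoped ENNReal NNReal

namespace Keldysh

variable {n : ℕ} {Ω : Type*} [mΩ : MeasurableSpace Ω]

theorem SubAt_inter_one {n : ℕ} (x : E n) : SubAt (fun _ : E n => (1 : ℝ)) x 1 where
  pos := one_pos
  meas := measurable_const
  nonneg _ := zero_le_one
  le_one _ := le_refl _
  usc _ _ := upperSemicontinuousAt_const
  sub y _ t ht _ := by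
    rw [MeasureTheory.setAverage_eq]
    have hV : 0 < volume.real (Metric.ball y t) := by
      rw [MeasureTheory.measureReal_def]
      exact ENNReal.toReal_pos (Metric.measure_ball_pos volume y ht).ne' measure_ball_lt_top.ne
    simp only [MeasureTheory.integral_const, MeasureTheory.measureReal_restrict_apply_univ, smul_eq_mul, mul_one]
    rw [inv_mul_cancel₀ hV.ne']

theorem SubAt_inter_sum {n : ℕ} (m : ℕ) (hm : 0 < m) (g : Fin m → E n → ℝ) (x : E n)
    (hg : ∀ i, SubAt (g i) x 1) (κ : ℝ) (hκ0 : 0 ≤ κ) :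
    SubAt (fun y => (1 / (m : ℝ)) * max 0 ((∑ i, g i y) - κ)) x 1 := by
  have hmR : (0 : ℝ) < m := by exact_mod_cast hm
  have hmeasS : Measurable (fun y => ∑ i, g i y) :=
    Finset.measurable_fun_sum _ fun i _ => (hg i).meas
  have hmeas : Measurable (fun y => (1 / (m : ℝ)) * max 0 ((∑ i, g i y) - κ)) :=
    (measurable_const.max (hmeasS.sub_const κ)).const_mul _
  have hnn : ∀ y, 0 ≤ (1 / (m : ℝ)) * max 0 ((∑ i, g i y) - κ) := fun y =>
    mul_nonneg (by positivity) (le_max_left _ _)
  have hle : ∀ y, (1 / (m : ℝ)) * max 0 ((∑ i, g i y) - κ) ≤ 1 := by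
    intro y
    have h1 : ∑ i, g i y ≤ m := by
      calc ∑ i, g i y ≤ ∑ i : Fin m, (1 : ℝ) := Finset.sum_le_sum fun i _ => (hg i).le_one y
        _ = m := by simp
    have h2 : max 0 ((∑ i, g i y) - κ) ≤ m := max_le hmR.le (by linarith)
    rw [one_div, inv_mul_le_iff₀ hmR, mul_one]
    exact h2
  refine ⟨one_pos, hmeas, hnn, hle, ?_, ?_⟩
  · intro z hz c hc
    have hc0 : 0 < c := lt_of_le_of_lt (hnn z) hc
    have h1 : max 0 ((∑ i, g i z) - κ) < c * m := by
      rw [one_div, inv_mul_lt_iff₀ hmR] at hc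
      linarith [mul_comm c (m : ℝ)]
    have h2 : (∑ i, g i z) < κ + c * m := by
      have := lt_of_le_of_lt (le_max_right _ _) h1
      linarith
    have h3 : UpperSemicontinuousAt (fun y => ∑ i, g i y) z :=
      upperSemicontinuousAt_sum fun i _ => (hg i).usc z hz
    filter_upwards [h3 _ h2] with y hy
    rw [one_div, inv_mul_lt_iff₀ hmR]
    refine max_lt (by positivity) ?_
    linarith [mul_comm c (m : ℝ)]
  · intro z hz t ht ht1
    rw [MeasureTheory.setAverage_eq, smul_eq_mul]
    set V : ℝ := volume.real (Metric.ball z t) with hVdef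
    have hV : 0 < V := by
      rw [hVdef, MeasureTheory.measureReal_def]
      exact ENNReal.toReal_pos (Metric.measure_ball_pos volume z ht).ne' measure_ball_lt_top.ne
    have hfin : IsFiniteMeasure (volume.restrict (Metric.ball z t)) :=
      ⟨by rw [Measure.restrict_apply_univ]; exact measure_ball_lt_top⟩
    have hint : ∀ i, Integrable (g i) (volume.restrict (Metric.ball z t)) := by
      intro i
      refine Integrable.of_bound (hg i).meas.aestronglyMeasurable 1 ?_
      refine Filter.Eventually.of_forall fun y => ?_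
      rw [Real.norm_eq_abs, abs_of_nonneg ((hg i).nonneg y)]
      exact (hg i).le_one y
    have hintG : Integrable (fun y => (1 / (m : ℝ)) * max 0 ((∑ i, g i y) - κ))
        (volume.restrict (Metric.ball z t)) := by
      refine Integrable.of_bound hmeas.aestronglyMeasurable 1 ?_
      refine Filter.Eventually.of_forall fun y => ?_
      rw [Real.norm_eq_abs, abs_of_nonneg (hnn y)]
      exact hle y
    have hintS : Integrable (fun y => ∑ i, g i y) (volume.restrict (Metric.ball z t)) :=
      integrable_finsetSum _ fun i _ => hint i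
    have hi : ∀ i, V * g i z ≤ ∫ y in Metric.ball z t, g i y := by
      intro i
      have h := (hg i).sub z hz t ht ht1
      rw [MeasureTheory.setAverage_eq, smul_eq_mul] at h
      rw [← hVdef] at h
      rw [← le_div_iff₀' hV]
      rw [div_eq_inv_mul]
      exact h
    have hS : V * ∑ i, g i z ≤ ∫ y in Metric.ball z t, ∑ i, g i y := by
      rw [integral_finsetSum _ fun i _ => hint i, Finset.mul_sum]
      exact Finset.sum_le_sum fun i _ => hi i
    have hlow : ∫ y in Metric.ball z t, (1 / (m : ℝ)) * ((∑ i, g i y) - κ)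
        ≤ ∫ y in Metric.ball z t, (1 / (m : ℝ)) * max 0 ((∑ i, g i y) - κ) := by
      refine integral_mono ((hintS.sub (integrable_const κ)).const_mul _) hintG ?_
      intro y
      exact mul_le_mul_of_nonneg_left (le_max_right _ _) (by positivity)
    have hcomp : ∫ y in Metric.ball z t, (1 / (m : ℝ)) * ((∑ i, g i y) - κ)
        = (1 / (m : ℝ)) * ((∫ y in Metric.ball z t, ∑ i, g i y) - V * κ) := by
      rw [integral_const_mul, integral_sub hintS (integrable_const κ), integral_const]
      simp only [MeasureTheory.measureReal_restrict_apply_univ, smul_eq_mul]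
      rw [← hVdef]
    have hnonneg : 0 ≤ ∫ y in Metric.ball z t, (1 / (m : ℝ)) * max 0 ((∑ i, g i y) - κ) :=
      integral_nonneg fun y => hnn y
    rw [← div_eq_inv_mul, le_div_iff₀ hV]
    rcases le_total ((∑ i, g i z) - κ) 0 with h | h
    · rw [max_eq_left h]
      simpa using hnonneg
    · rw [max_eq_right h]
      calc (1 / (m : ℝ)) * ((∑ i, g i z) - κ) * V
          = (1 / (m : ℝ)) * (V * (∑ i, g i z) - V * κ) := by ring
        _ ≤ (1 / (m : ℝ)) * ((∫ y in Metric.ball z t, ∑ i, g i y) - V * κ) := by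
            apply mul_le_mul_of_nonneg_left _ (by positivity)
            linarith
        _ = ∫ y in Metric.ball z t, (1 / (m : ℝ)) * ((∑ i, g i y) - κ) := hcomp.symm
        _ ≤ _ := hlow

/-- B12b -/
theorem SubAt_inter (m : ℕ) (g : Fin m → E n → ℝ) (x : E n) (hg : ∀ i, SubAt (g i) x 1)
    (hpos : ∀ i, 0 < g i x) (O : Set (E n)) (hO : IsOpen O) (hx : x ∈ O) :
    ∃ (g' : E n → ℝ) (δ : ℝ), 0 < δ ∧ SubAt g' x 1 ∧ 0 < g' x ∧ Metric.ball x δ ⊆ O ∧
      ∀ y ∈ Metric.ball x δ, 0 < g' y → ∀ i, 0 < g i y := by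
  rcases Nat.eq_zero_or_pos m with hm | hm
  · subst hm
    obtain ⟨δ, hδ, hδO⟩ := Metric.isOpen_iff.mp hO x hx
    refine ⟨fun _ => 1, δ, hδ, SubAt_inter_one x, one_pos, hδO, ?_⟩
    intro y _ _ i
    exact i.elim0
  · haveI : Nonempty (Fin m) := ⟨⟨0, hm⟩⟩
    obtain ⟨i0, -, hi0⟩ := Finset.exists_min_image (Finset.univ : Finset (Fin m)) (fun i => g i x)
      Finset.univ_nonempty
    set μ : ℝ := g i0 x with hμdef
    have hμ : 0 < μ := hpos i0
    have hmR : (0 : ℝ) < m := by exact_mod_cast hm
    have hmin : ∀ i, μ ≤ g i x := fun i => hi0 i (Finset.mem_univ i)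
    set η : ℝ := μ / (4 * m) with hη
    have hηpos : 0 < η := by positivity
    have hmη : (m : ℝ) * η = μ / 4 := by rw [hη]; field_simp
    have hev : ∀ᶠ y in 𝓝 x, (∀ i, g i y < g i x + η) ∧ y ∈ O := by
      refine Filter.Eventually.and ?_ (hO.mem_nhds hx)
      rw [Filter.eventually_all]
      intro i
      exact (hg i).usc x (Metric.mem_ball_self (by norm_num)) (g i x + η) (by linarith)
    obtain ⟨δ, hδ, hball⟩ := Metric.eventually_nhds_iff_ball.mp hev
    set κ : ℝ := (∑ i, g i x) - μ / 2 with hκ
    have hSx : μ ≤ ∑ i, g i x := by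
      refine le_trans (hmin i0) ?_
      exact Finset.single_le_sum (f := fun i => g i x) (fun i _ => (hg i).nonneg x) (Finset.mem_univ i0)
    have hκ0 : 0 ≤ κ := by rw [hκ]; linarith
    refine ⟨fun y => (1 / (m : ℝ)) * max 0 ((∑ i, g i y) - κ), δ, hδ, ?_, ?_, ?_, ?_⟩
    · exact SubAt_inter_sum m hm g x hg κ hκ0
    · have h1 : (∑ i, g i x) - κ = μ / 2 := by rw [hκ]; ring
      simp only [h1]
      have h2 : 0 < max 0 (μ / 2) := lt_max_of_lt_right (by linarith)
      positivity
    · intro y hy
      exact (hball y hy).2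
    · intro y hy hy0 j
      have h1 : 0 < max 0 ((∑ i, g i y) - κ) := by
        by_contra h
        have h3 : max 0 ((∑ i, g i y) - κ) = 0 := le_antisymm (not_lt.mp h) (le_max_left _ _)
        simp only [h3, mul_zero, lt_irrefl] at hy0
      have h2 : κ < ∑ i, g i y := by
        rcases lt_max_iff.mp h1 with h | h
        · exact absurd h (lt_irrefl _)
        · linarith
      have h3 : ∑ i, g i y = g j y + ∑ i ∈ Finset.univ.erase j, g i y :=
        (Finset.add_sum_erase Finset.univ (fun i => g i y) (Finset.mem_univ j)).symm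
      have h4 : ∑ i, g i x = g j x + ∑ i ∈ Finset.univ.erase j, g i x :=
        (Finset.add_sum_erase Finset.univ (fun i => g i x) (Finset.mem_univ j)).symm
      have h5 : ∑ i ∈ Finset.univ.erase j, g i y ≤ ∑ i ∈ Finset.univ.erase j, (g i x + η) :=
        Finset.sum_le_sum fun i _ => ((hball y hy).1 i).le
      have h6 : ∑ i ∈ Finset.univ.erase j, (g i x + η)
          = ∑ i ∈ Finset.univ.erase j, g i x + ((Finset.univ.erase j).card : ℝ) * η := by
        rw [Finset.sum_add_distrib, Finset.sum_const, nsmul_eq_mul]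
      have h7 : ((Finset.univ.erase j).card : ℝ) ≤ m := by
        have : (Finset.univ.erase j).card ≤ m := by
          refine (Finset.card_le_card (Finset.erase_subset _ _)).trans ?_
          simp
        exact_mod_cast this
      have h8 : ((Finset.univ.erase j).card : ℝ) * η ≤ μ / 4 := by
        rw [← hmη]
        exact mul_le_mul_of_nonneg_right h7 hηpos.le
      have h9 := hmin j
      rw [hκ] at h2
      linarith

end Keldysh
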