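import Pool.Agent.Keldysh.Defs2

open MeasureTheory ProbabilityTheory Filter Topology Set
open scoped ENNReal NNReal

namespace Keldysh

variable {n : ℕ} {Ω : Type*} [mΩ : MeasurableSpace Ω]

theorem SubAt_of_superharmonic_bdd (u : E n → EReal) (hu : Superharmonic u) (q : E n) (R : ℝ)
    (hR : 0 ≤ R) (c : ℝ) : ∃ m : ℝ, m ≤ c - 1 ∧ ∀ y ∈ Metric.closedBall q R, (m : EReal) ≤ u y := by
  obtain ⟨a, ha, hmin⟩ := LowerSemicontinuousOn.exists_isMinOn
    ⟨q, Metric.mem_closedBall_self hR⟩ (isCompact_closedBall q R) (hu.lsc.lowerSemicontinuousOn _)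
  have hm0 : ∃ m0 : ℝ, (m0 : EReal) ≤ u a := by
    rcases eq_or_ne (u a) ⊤ with h | h
    · exact ⟨0, by rw [h]; exact le_top⟩
    · exact ⟨(u a).toReal, by rw [EReal.coe_toReal h (hu.ne_bot a)]⟩
  obtain ⟨m0, hm0⟩ := hm0
  refine ⟨min m0 (c - 1), min_le_right _ _, fun y hy => ?_⟩
  have h1 : ((min m0 (c - 1) : ℝ) : EReal) ≤ (m0 : EReal) := EReal.coe_le_coe_iff.2 (min_le_left _ _)
  exact (h1.trans hm0).trans (hmin hy)

/-- abstract mean value computation -/
theorem SubAt_of_superharmonic_avg (ν : Measure (E n)) [IsProbabilityMeasure ν] (w : E n → ℝ)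
    (m c W δ : ℝ) (hδ : 0 ≤ δ) (hw : AEStronglyMeasurable w ν) (h1 : ∀ᵐ y ∂ν, m ≤ w y)
    (h2 : ∀ᵐ y ∂ν, w y ≤ c) (hW : m ≤ W)
    (h3 : ∫⁻ y, ENNReal.ofReal (w y - m) ∂ν ≤ ENNReal.ofReal (W - m)) :
    δ * (c - W) ≤ ∫ y, δ * (c - w y) ∂ν := by
  have hint : Integrable w ν := by
    refine Integrable.of_bound hw (|m| + |c|) ?_
    filter_upwards [h1, h2] with y h1 h2
    rw [Real.norm_eq_abs, abs_le]
    constructor
    · linarith [neg_abs_le m, abs_nonneg c]
    · linarith [le_abs_self c, abs_nonneg m]
  have hint2 : Integrable (fun y => w y - m) ν := hint.sub (integrable_const m)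
  rw [← ofReal_integral_eq_lintegral_ofReal hint2
    (by filter_upwards [h1] with y h1 using sub_nonneg.2 h1)] at h3
  rw [ENNReal.ofReal_le_ofReal_iff (by linarith)] at h3
  rw [integral_sub hint (integrable_const m)] at h3
  rw [integral_const_mul, integral_sub (integrable_const c) hint]
  simp only [integral_const, probReal_univ, one_smul] at h3 ⊢
  exact mul_le_mul_of_nonneg_left (by linarith) hδ

/-- B11: from superharmonic functions to `SubAt`. -/
theorem SubAt_of_superharmonic (u : E n → EReal) (hu : Superharmonic u) (c : ℝ) (q : E n) (r : ℝ)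
    (hr : 0 < r) : ∃ g, SubAt g q r ∧ ∀ x ∈ Metric.ball q (4 * r), (0 < g x ↔ u x < c) := by
  classical
  obtain ⟨m, hmc, hm⟩ := SubAt_of_superharmonic_bdd u hu q (4 * r) (by linarith) c
  have hcm : 0 < c - m := by linarith
  set δ : ℝ := 1 / (c - m) with hδ
  have hδpos : 0 < δ := by positivity
  set w : E n → ℝ := fun y => (min (u y) (c : EReal)).toReal with hwdef
  have hw : ∀ y ∈ Metric.closedBall q (4 * r), ((w y : ℝ) : EReal) = min (u y) (c : EReal) := by
    intro y hy
    apply EReal.coe_toReal
    · exact ne_top_of_le_ne_top (EReal.coe_ne_top c) (min_le_right _ _)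
    · have h1 : (m : EReal) ≤ min (u y) (c : EReal) :=
        le_min (hm y hy) (EReal.coe_le_coe_iff.2 (by linarith))
      intro h
      rw [h] at h1
      exact absurd h1 (not_le.2 (EReal.bot_lt_coe m))
  have hwm : ∀ y ∈ Metric.closedBall q (4 * r), m ≤ w y := by
    intro y hy
    rw [← EReal.coe_le_coe_iff, hw y hy]
    exact le_min (hm y hy) (EReal.coe_le_coe_iff.2 (by linarith))
  have hwc : ∀ y ∈ Metric.closedBall q (4 * r), w y ≤ c := by
    intro y hy
    rw [← EReal.coe_le_coe_iff, hw y hy]
    exact min_le_right _ _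
  have hwmeas : Measurable w := by
    have h1 : Measurable u := hu.lsc.measurable
    exact (h1.min measurable_const).ereal_toReal
  set g : E n → ℝ := fun y => if y ∈ Metric.closedBall q (4 * r) then δ * (c - w y) else 0 with hg
  have hgin : ∀ y ∈ Metric.closedBall q (4 * r), g y = δ * (c - w y) := fun y hy => if_pos hy
  have hgnn : ∀ x, 0 ≤ g x := by
    intro x
    by_cases hx : x ∈ Metric.closedBall q (4 * r)
    · rw [hgin x hx]
      exact mul_nonneg hδpos.le (sub_nonneg.2 (hwc x hx))
    · rw [hg]; simp only [if_neg hx]; exact le_rfl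
  have hgmeas : Measurable g :=
    Measurable.ite Metric.isClosed_closedBall.measurableSet
      ((measurable_const.sub hwmeas).const_mul δ) measurable_const
  refine ⟨g, ⟨hr, hgmeas, hgnn, ?_, ?_, ?_⟩, ?_⟩
  · intro x
    by_cases hx : x ∈ Metric.closedBall q (4 * r)
    · rw [hgin x hx, hδ, one_div, inv_mul_le_iff₀ hcm]
      linarith [hwm x hx]
    · rw [hg]; simp only [if_neg hx]; exact zero_le_one
  · intro x hx b hb
    have hxc := Metric.ball_subset_closedBall hx
    rw [hgin x hxc] at hb
    have he : c - b / δ < w x := by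
      have : c - w x < b / δ := by
        rw [lt_div_iff₀ hδpos]; linarith
      linarith
    have he2 : ((c - b / δ : ℝ) : EReal) < min (u x) (c : EReal) := by
      rw [← hw x hxc]; exact EReal.coe_lt_coe_iff.2 he
    have he3 := hu.lsc x _ (lt_min_iff.1 he2).1
    filter_upwards [he3, Metric.isOpen_ball.mem_nhds hx] with y hy1 hy2
    have hyc := Metric.ball_subset_closedBall hy2
    have h4 : ((c - b / δ : ℝ) : EReal) < min (u y) (c : EReal) := lt_min hy1 (lt_min_iff.1 he2).2
    rw [← hw y hyc, EReal.coe_lt_coe_iff] at h4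
    rw [hgin y hyc]
    have h5 : c - w y < b / δ := by linarith
    rw [lt_div_iff₀ hδpos] at h5
    linarith
  · intro x hx t ht htr
    have hxc : x ∈ Metric.closedBall q (4 * r) := by
      rw [Metric.mem_ball] at hx
      rw [Metric.mem_closedBall]; linarith
    have hsub : Metric.closedBall x t ⊆ Metric.closedBall q (4 * r) := by
      apply Metric.closedBall_subset_closedBall'
      rw [Metric.mem_ball] at hx
      linarith
    have hsub' : Metric.ball x t ⊆ Metric.closedBall q (4 * r) :=
      Metric.ball_subset_closedBall.trans hsub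
    have hpos : 0 < (volume : Measure (E n)) (Metric.ball x t) := Metric.measure_ball_pos _ _ ht
    have hfin : (volume : Measure (E n)) (Metric.ball x t) ≠ ⊤ := measure_ball_lt_top.ne
    set ν : Measure (E n) := ((volume.restrict (Metric.ball x t)) univ)⁻¹ •
      volume.restrict (Metric.ball x t) with hν
    have hνp : IsProbabilityMeasure ν := by
      constructor
      rw [hν, Measure.smul_apply, smul_eq_mul, Measure.restrict_apply_univ]
      exact ENNReal.inv_mul_cancel hpos.ne' hfin
    have hae : ∀ᵐ y ∂ν, y ∈ Metric.ball x t := by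
      apply Measure.ae_smul_measure
      exact ae_restrict_mem Metric.isOpen_ball.measurableSet
    have havg : ⨍ y in Metric.ball x t, g y ∂volume = ∫ y, g y ∂ν := rfl
    rw [havg]
    by_cases hux : u x < (c : EReal)
    · rw [hgin x hxc]
      have e1 : ∫ y, g y ∂ν = ∫ y, δ * (c - w y) ∂ν := by
        apply integral_congr_ae
        filter_upwards [hae] with y hy using hgin y (hsub' hy)
      rw [e1]
      refine SubAt_of_superharmonic_avg ν w m c (w x) δ hδpos.le hwmeas.aestronglyMeasurable ?_ ?_
        (hwm x hxc) ?_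
      · filter_upwards [hae] with y hy using hwm y (hsub' hy)
      · filter_upwards [hae] with y hy using hwc y (hsub' hy)
      · have hmean := hu.mean x t ht m (fun y hy => hm y (hsub hy))
        have hmean' : ∫⁻ y, (u y - m).toENNReal ∂ν ≤ (u x - m).toENNReal := hmean
        have hux2 : u x = ((w x : ℝ) : EReal) := by
          rw [hw x hxc, min_eq_left hux.le]
        have h6 : (u x - m).toENNReal = ENNReal.ofReal (w x - m) := by
          rw [hux2, ← EReal.coe_sub, EReal.real_coe_toENNReal]
        rw [h6] at hmean'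
        refine le_trans (lintegral_mono_ae ?_) hmean'
        filter_upwards [hae] with y hy
        rw [← EReal.real_coe_toENNReal, EReal.coe_sub, hw y (hsub' hy)]
        apply EReal.toENNReal_le_toENNReal
        exact EReal.sub_le_sub (min_le_left _ _) le_rfl
    · have h7 : w x = c := by
        have := hw x hxc
        rw [min_eq_right (not_lt.1 hux)] at this
        exact EReal.coe_injective this
      rw [hgin x hxc, h7, sub_self, mul_zero]
      exact integral_nonneg hgnn
  · intro x hx
    have hxc := Metric.ball_subset_closedBall hx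
    rw [hgin x hxc, mul_pos_iff_of_pos_left hδpos, sub_pos, ← EReal.coe_lt_coe_iff, hw x hxc]
    constructor
    · intro h
      rcases min_lt_iff.1 h with h | h
      · exact h
      · exact absurd h (lt_irrefl _)
    · intro h
      exact min_lt_iff.2 (Or.inl h)

end Keldysh
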