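import Pool.Agent.Keldysh.Defs2

open MeasureTheory ProbabilityTheory Filter Topology Set
open scoped ENNReal NNReal

namespace Keldysh

variable {n : ℕ} {Ω : Type*} [mΩ : MeasurableSpace Ω]

/-- B10'' -/
theorem SubAt_restrict (g : E n → ℝ) (q : E n) (r : ℝ) (hg : SubAt g q r) (q' : E n) (r' : ℝ)
    (h0 : 0 < r') (h1 : r' ≤ r) (h4 : Metric.ball q' (4 * r') ⊆ Metric.ball q (4 * r))
    (h3 : Metric.ball q' (3 * r') ⊆ Metric.ball q (3 * r)) : SubAt g q' r' where
  pos := h0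
  meas := hg.meas
  nonneg := hg.nonneg
  le_one := hg.le_one
  usc := fun x hx => hg.usc x (h4 hx)
  sub := fun x hx t ht0 ht => hg.sub x (h3 hx) t ht0 (lt_of_lt_of_le ht h1)

end Keldysh
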