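import Pool.Agent.Keldysh.Defs2

open MeasureTheory ProbabilityTheory Filter Topology Set
open scoped ENNReal NNReal

namespace Keldysh

variable {n : ℕ} {Ω : Type*} [mΩ : MeasurableSpace Ω]

theorem UG_of_contDiff_enorm_gradient {n : ℕ} (d : E n → ℝ) (x : E n) :
    ‖gradient d x‖ₑ = ‖fderiv ℝ d x‖ₑ := by
  rw [← ofReal_norm, ← ofReal_norm]
  congr 1
  unfold gradient
  exact LinearIsometryEquiv.norm_map _ _

theorem UG_of_contDiff_cont_gradient {n : ℕ} {d : E n → ℝ} (hd : ContDiff ℝ 1 d) :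
    Continuous (fun x => gradient d x) := by
  unfold gradient
  exact (LinearIsometryEquiv.continuous _).comp (hd.continuous_fderiv (by norm_num))

theorem UG_of_contDiff_one {n : ℕ} {d : E n → ℝ} (hd : ContDiff ℝ 1 d) (x y : E n) :
    ‖d x‖ₑ ≤ ‖d y‖ₑ + segCost (fun x => ‖gradient d x‖ₑ) x y := by
  have hder : ∀ t : ℝ, HasDerivAt (fun t : ℝ => d (x + t • (y - x)))
      ((fderiv ℝ d (x + t • (y - x))) (y - x)) t := by
    intro t
    have h1 : HasFDerivAt d (fderiv ℝ d (x + t • (y - x))) (x + t • (y - x)) :=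
      (hd.differentiable (by norm_num) _).hasFDerivAt
    have h2 : HasDerivAt (fun t : ℝ => x + t • (y - x)) (y - x) t := by
      simpa using ((hasDerivAt_id t).smul_const (y - x)).const_add x
    exact h1.comp_hasDerivAt t h2
  have hcont : Continuous (fun t : ℝ => (fderiv ℝ d (x + t • (y - x))) (y - x)) := by
    have h1 : Continuous (fun t : ℝ => fderiv ℝ d (x + t • (y - x))) :=
      (hd.continuous_fderiv (by norm_num)).comp (by fun_prop)
    exact h1.clm_apply continuous_const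
  have hftc : ∫ t in (0:ℝ)..1, (fderiv ℝ d (x + t • (y - x))) (y - x) = d y - d x := by
    rw [intervalIntegral.integral_eq_sub_of_hasDerivAt (fun t _ => hder t)
      (hcont.intervalIntegrable _ _)]
    simp
  have h1 : ‖d x‖ₑ ≤ ‖d y‖ₑ + ‖d y - d x‖ₑ := by
    have : d x = d y - (d y - d x) := by ring
    calc ‖d x‖ₑ = ‖d y - (d y - d x)‖ₑ := by rw [← this]
      _ ≤ ‖d y‖ₑ + ‖d y - d x‖ₑ := enorm_sub_le
  refine h1.trans (add_le_add le_rfl ?_)
  rw [← hftc, intervalIntegral.integral_of_le zero_le_one]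
  unfold segCost
  calc ‖∫ t in Ioc (0:ℝ) 1, (fderiv ℝ d (x + t • (y - x))) (y - x)‖ₑ
      ≤ ∫⁻ t in Ioc (0:ℝ) 1, ‖(fderiv ℝ d (x + t • (y - x))) (y - x)‖ₑ :=
        enorm_integral_le_lintegral_enorm _
    _ ≤ ∫⁻ t in Ioc (0:ℝ) 1, ENNReal.ofReal ‖y - x‖ * ‖gradient d (x + t • (y - x))‖ₑ := by
        refine lintegral_mono fun t => ?_
        show ‖(fderiv ℝ d (x + t • (y - x))) (y - x)‖ₑ ≤
          ENNReal.ofReal ‖y - x‖ * ‖gradient d (x + t • (y - x))‖ₑ
        rw [UG_of_contDiff_enorm_gradient, ← ofReal_norm, ← ofReal_norm,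
          ← ENNReal.ofReal_mul (norm_nonneg _)]
        apply ENNReal.ofReal_le_ofReal
        rw [mul_comm]
        exact ContinuousLinearMap.le_opNorm _ _
    _ = ENNReal.ofReal ‖y - x‖ * ∫⁻ t in Ioc (0:ℝ) 1, ‖gradient d (x + t • (y - x))‖ₑ :=
        lintegral_const_mul' _ _ ENNReal.ofReal_ne_top
    _ ≤ ENNReal.ofReal ‖y - x‖ * ∫⁻ t in Icc (0:ℝ) 1, ‖gradient d (x + t • (y - x))‖ₑ := by
        gcongr
        exact Ioc_subset_Icc_self

/-- B2 -/
theorem UG_of_contDiff (d : ℕ → E n → ℝ) (hd : ∀ j, ContDiff ℝ 1 (d j)) (w : ℕ → ℝ≥0) :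
    UG (fun x => ∑' j, (w j : ℝ≥0∞) * ‖d j x‖ₑ)
      (fun x => ∑' j, (w j : ℝ≥0∞) * ‖gradient (d j) x‖ₑ) := by
  have hc1 : ∀ j, Continuous (fun x => (w j : ℝ≥0∞) * ‖d j x‖ₑ) := fun j =>
    (ENNReal.continuous_const_mul ENNReal.coe_ne_top).comp
      (continuous_enorm.comp (hd j).continuous)
  have hc2 : ∀ j, Continuous (fun x => (w j : ℝ≥0∞) * ‖gradient (d j) x‖ₑ) := fun j =>
    (ENNReal.continuous_const_mul ENNReal.coe_ne_top).comp
      (continuous_enorm.comp (UG_of_contDiff_cont_gradient (hd j)))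
  refine ⟨lowerSemicontinuous_tsum fun j => (hc1 j).lowerSemicontinuous,
    lowerSemicontinuous_tsum fun j => (hc2 j).lowerSemicontinuous, fun x y => ?_⟩
  have h1 : ∀ j, (w j : ℝ≥0∞) * ‖d j x‖ₑ ≤ (w j : ℝ≥0∞) * ‖d j y‖ₑ +
      ENNReal.ofReal ‖y - x‖ * ∫⁻ t in Icc (0 : ℝ) 1,
        (w j : ℝ≥0∞) * ‖gradient (d j) (x + t • (y - x))‖ₑ := by
    intro j
    calc (w j : ℝ≥0∞) * ‖d j x‖ₑ
        ≤ (w j : ℝ≥0∞) * (‖d j y‖ₑ + segCost (fun x => ‖gradient (d j) x‖ₑ) x y) := by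
          gcongr
          exact UG_of_contDiff_one (hd j) x y
      _ = _ := by
          unfold segCost
          rw [mul_add, lintegral_const_mul' _ _ ENNReal.coe_ne_top]
          ring
  have h2 : segCost (fun x => ∑' j, (w j : ℝ≥0∞) * ‖gradient (d j) x‖ₑ) x y =
      ∑' j, ENNReal.ofReal ‖y - x‖ * ∫⁻ t in Icc (0 : ℝ) 1,
        (w j : ℝ≥0∞) * ‖gradient (d j) (x + t • (y - x))‖ₑ := by
    unfold segCost
    rw [ENNReal.tsum_mul_left, lintegral_tsum]
    intro j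
    exact ((hc2 j).comp (by fun_prop : Continuous fun t : ℝ => x + t • (y - x))).aemeasurable
  rw [h2, ← ENNReal.tsum_add]
  exact ENNReal.tsum_le_tsum h1

end Keldysh
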