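import Pool.Agent.Keldysh.Defs2

open MeasureTheory ProbabilityTheory Filter Topology Set
open scoped ENNReal NNReal

namespace Keldysh

variable {n : ℕ} {Ω : Type*} [mΩ : MeasurableSpace Ω]

theorem UG_tsum_lsc (g : ℕ → E n → ℝ≥0∞) (hg : ∀ j, LowerSemicontinuous (g j)) (w : ℕ → ℝ≥0) :
    LowerSemicontinuous (fun x => ∑' j, (w j : ℝ≥0∞) * g j x) := by
  apply lowerSemicontinuous_tsum
  intro j
  exact (ENNReal.continuous_const_mul ENNReal.coe_ne_top).comp_lowerSemicontinuous (hg j)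
    (fun a b hab => mul_le_mul' le_rfl hab)

/-- B4 -/
theorem UG_tsum (f ρ : ℕ → E n → ℝ≥0∞) (h : ∀ j, UG (f j) (ρ j)) (w : ℕ → ℝ≥0) :
    UG (fun x => ∑' j, (w j : ℝ≥0∞) * f j x) (fun x => ∑' j, (w j : ℝ≥0∞) * ρ j x) := by
  refine ⟨UG_tsum_lsc f (fun j => (h j).lsc_f) w, UG_tsum_lsc ρ (fun j => (h j).lsc_ρ) w, ?_⟩
  intro x y
  have hm : ∀ j, Measurable (fun t : ℝ => ρ j (x + t • (y - x))) := by
    intro j
    apply (h j).lsc_ρ.measurable.comp
    apply Continuous.measurable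
    fun_prop
  have hseg : segCost (fun x => ∑' j, (w j : ℝ≥0∞) * ρ j x) x y =
      ∑' j, (w j : ℝ≥0∞) * segCost (ρ j) x y := by
    unfold segCost
    rw [lintegral_tsum (fun j => ((hm j).const_mul _).aemeasurable), ← ENNReal.tsum_mul_left]
    apply tsum_congr
    intro j
    rw [lintegral_const_mul _ (hm j)]
    ring
  rw [hseg, ← ENNReal.tsum_add]
  apply ENNReal.tsum_le_tsum
  intro j
  rw [← mul_add]
  gcongr
  exact (h j).ug x y

end Keldysh
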