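import Pool.Agent.Keldysh.Defs2

open MeasureTheory ProbabilityTheory Filter Topology Set
open scoped ENNReal NNReal

namespace Keldysh

variable {n : ℕ} {Ω : Type*} [mΩ : MeasurableSpace Ω]

/-- D0 -/
theorem segCost_comm (ρ : E n → ℝ≥0∞) (x y : E n) : segCost ρ x y = segCost ρ y x := by
  unfold segCost
  rw [norm_sub_rev]
  congr 1
  have hmp : MeasurePreserving (fun t : ℝ => 1 - t) volume volume :=
    Measure.measurePreserving_sub_left volume (1 : ℝ)
  have hemb : MeasurableEmbedding (fun t : ℝ => 1 - t) :=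
    (MeasurableEquiv.subLeft (1 : ℝ)).measurableEmbedding
  have h := hmp.setLIntegral_comp_preimage_emb hemb (fun t : ℝ => ρ (x + t • (y - x)))
    (Icc (0 : ℝ) 1)
  have hpre : (fun t : ℝ => 1 - t) ⁻¹' (Icc (0 : ℝ) 1) = Icc (0 : ℝ) 1 := by
    ext t
    simp only [mem_preimage, mem_Icc]
    constructor
    · rintro ⟨h1, h2⟩
      constructor <;> linarith
    · rintro ⟨h1, h2⟩
      constructor <;> linarith
  rw [hpre] at h
  rw [← h]
  refine lintegral_congr fun t => ?_
  congr 1
  module

end Keldysh
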