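import Pool.Agent.Keldysh.Defs2

open MeasureTheory ProbabilityTheory Filter Topology Set
open scoped ENNReal NNReal

namespace Keldysh

variable {n : ℕ} {Ω : Type*} [mΩ : MeasurableSpace Ω]

theorem segCost_split_cov (g : ℝ → ℝ≥0∞) (b c : ℝ) (hc : 0 ≤ c) :
    ENNReal.ofReal c * ∫⁻ s in Icc (0 : ℝ) 1, g (c * s + b) = ∫⁻ u in Icc b (b + c), g u := by
  rcases hc.eq_or_lt with h0 | h0
  · subst h0
    simp
  · have hd : ∀ x ∈ Icc (0 : ℝ) 1, HasDerivWithinAt (fun s : ℝ => c * s + b) ((fun _ => c) x) (Icc 0 1) x := by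
      intro x _
      have h1 : HasDerivAt (fun s : ℝ => c * s + b) (c * 1) x :=
        ((hasDerivAt_id x).const_mul c).add_const b
      rw [mul_one] at h1
      exact h1.hasDerivWithinAt
    have hi : InjOn (fun s : ℝ => c * s + b) (Icc (0 : ℝ) 1) := by
      intro s _ s' _ hss
      simp only at hss
      have : c * s = c * s' := by linarith
      exact mul_left_cancel₀ h0.ne' this
    have h1 := lintegral_image_eq_lintegral_abs_deriv_mul measurableSet_Icc hd hi g
    rw [Set.image_affine_Icc' h0] at h1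
    simp only [abs_of_pos h0] at h1
    rw [lintegral_const_mul' _ _ ENNReal.ofReal_ne_top] at h1
    rw [← h1]
    congr 2
    · ring_nf

/-- D0b -/
theorem segCost_split (ρ : E n → ℝ≥0∞) (hρ : Measurable ρ) (x y : E n) (t : ℝ)
    (ht : t ∈ Icc (0 : ℝ) 1) :
    segCost ρ x y = segCost ρ x (x + t • (y - x)) + segCost ρ (x + t • (y - x)) y := by
  obtain ⟨ht0, ht1⟩ := ht
  set g : ℝ → ℝ≥0∞ := fun u => ρ (x + u • (y - x)) with hg
  have hgm : Measurable g := hρ.comp (by fun_prop)
  have e1 : segCost ρ x (x + t • (y - x)) = ENNReal.ofReal ‖y - x‖ * ∫⁻ u in Icc (0 : ℝ) t, g u := by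
    have h1 := segCost_split_cov g 0 t ht0
    rw [zero_add] at h1
    rw [← h1]
    unfold segCost
    rw [add_sub_cancel_left, norm_smul, Real.norm_eq_abs, abs_of_nonneg ht0, ENNReal.ofReal_mul ht0,
      mul_comm (ENNReal.ofReal t), mul_assoc]
    congr 2
    apply lintegral_congr
    intro s
    simp only [hg]
    rw [add_zero, smul_smul, mul_comm]
  have e2 : segCost ρ (x + t • (y - x)) y = ENNReal.ofReal ‖y - x‖ * ∫⁻ u in Icc t 1, g u := by
    have h1 := segCost_split_cov g t (1 - t) (by linarith)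
    rw [add_sub_cancel] at h1
    rw [← h1]
    unfold segCost
    have e3 : y - (x + t • (y - x)) = (1 - t) • (y - x) := by module
    rw [e3, norm_smul, Real.norm_eq_abs, abs_of_nonneg (by linarith), ENNReal.ofReal_mul (by linarith),
      mul_comm (ENNReal.ofReal (1 - t)), mul_assoc]
    congr 2
    apply lintegral_congr
    intro s
    simp only [hg]
    congr 1
    module
  rw [e1, e2, ← mul_add]
  unfold segCost
  congr 1
  have h2 : Icc (0 : ℝ) 1 = Ico 0 t ∪ Icc t 1 := (Set.Ico_union_Icc_eq_Icc ht0 ht1).symm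
  have h3 : ∫⁻ u in Icc (0 : ℝ) t, g u = ∫⁻ u in Ico (0 : ℝ) t, g u :=
    (setLIntegral_congr Ico_ae_eq_Icc).symm
  rw [h2, lintegral_union measurableSet_Icc, h3]
  · rw [Set.disjoint_left]
    intro u hu hu'
    exact absurd hu.2 (not_lt.2 hu'.1)

end Keldysh
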