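import Pool.Agent.Keldysh.Defs2
import Pool.Agent.Keldysh.M_segCost_comm
import Pool.Agent.Keldysh.M_segCost_split

open MeasureTheory ProbabilityTheory Filter Topology Set
open scoped ENNReal NNReal

namespace Keldysh

variable {n : ℕ} {Ω : Type*} [mΩ : MeasurableSpace Ω]

theorem chain_path_segCost_mono (ρ ρ' : E n → ℝ≥0∞) (h : ∀ x, ρ x ≤ ρ' x) (x y : E n) :
    segCost ρ x y ≤ segCost ρ' x y := by
  unfold segCost
  gcongr
  exact h _

theorem chain_path_norm_le (ρ : E n → ℝ≥0∞) (h : ∀ x, 1 ≤ ρ x) (x y : E n) :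
    ENNReal.ofReal ‖y - x‖ ≤ segCost ρ x y := by
  unfold segCost
  have h1 : (1 : ℝ≥0∞) ≤ ∫⁻ t in Icc (0 : ℝ) 1, ρ (x + t • (y - x)) := by
    calc (1 : ℝ≥0∞) = ∫⁻ t in Icc (0 : ℝ) 1, (1 : ℝ≥0∞) := by simp
      _ ≤ _ := lintegral_mono fun t => h _
  calc ENNReal.ofReal ‖y - x‖ = ENNReal.ofReal ‖y - x‖ * 1 := (mul_one _).symm
    _ ≤ _ := by gcongr

theorem chain_path_aux (ρ ρ0 f : E n → ℝ≥0∞) (hρ : ∀ x, 1 + ρ0 x ≤ ρ x) (hf : UG f ρ0)
    (V : Set (E n)) (x : E n) (k : ℕ) : ∀ (y : E n) (c : ℝ≥0∞), chainCost ρ V k x y < c →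
    ∃ γ : ℝ → E n, ContinuousOn γ (Icc 0 1) ∧ γ 0 = x ∧ γ 1 = y ∧ eVariationOn γ (Icc 0 1) ≤ c ∧
      ∀ t ∈ Icc (0 : ℝ) 1, γ t ∈ V ∧ f (γ t) ≤ f x + c := by
  induction k with
  | zero =>
    intro y c h
    simp only [chainCost] at h
    rw [iInf_lt_iff] at h
    obtain ⟨⟨hxy, hxV⟩, _⟩ := h
    refine ⟨fun _ => x, continuousOn_const, rfl, hxy, ?_, fun t _ => ⟨hxV, le_self_add⟩⟩
    rw [eVariationOn.constant_on]
    · exact zero_le
    · rintro _ ⟨_, _, rfl⟩ _ ⟨_, _, rfl⟩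
      rfl
  | succ k ih =>
    intro y c h
    simp only [chainCost] at h
    simp only [iInf_lt_iff] at h
    obtain ⟨w, hseg, hlt⟩ := h
    set B := segCost ρ w y with hB
    have hBc : B ≤ c := le_trans le_add_self hlt.le
    have hA : chainCost ρ V k x w < c - B := lt_tsub_iff_right.2 hlt
    obtain ⟨γ, hγc, hγ0, hγ1, hγv, hγ⟩ := ih w (c - B) hA
    let δ : ℝ → E n := fun t => w + (2 * t - 1) • (y - w)
    let γ' : ℝ → E n := fun t => if t ≤ 1 / 2 then γ (2 * t) else δ t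
    have e1 : EqOn γ' (γ ∘ fun t => 2 * t) (Icc 0 (1 / 2)) := by
      intro t ht
      exact if_pos ht.2
    have e2 : EqOn γ' δ (Icc (1 / 2) 1) := by
      intro t ht
      by_cases h' : t ≤ 1 / 2
      · have : t = 1 / 2 := le_antisymm h' ht.1
        subst this
        simp [γ', δ, hγ1]
      · exact if_neg h'
    have hδc : Continuous δ := by fun_prop
    have m1 : MapsTo (fun t : ℝ => 2 * t) (Icc 0 (1 / 2)) (Icc 0 1) := by
      intro t ht
      constructor <;> dsimp only <;> linarith [ht.1, ht.2]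
    have c1 : ContinuousOn γ' (Icc 0 (1 / 2)) := by
      refine ContinuousOn.congr ?_ e1
      exact hγc.comp (by fun_prop) m1
    have c2 : ContinuousOn γ' (Icc (1 / 2) 1) := hδc.continuousOn.congr e2
    have hIcc : Icc (0 : ℝ) 1 = Icc 0 (1 / 2) ∪ Icc (1 / 2) 1 := by
      rw [Icc_union_Icc_eq_Icc (by norm_num) (by norm_num)]
    have v1 : eVariationOn γ' (Icc 0 (1 / 2)) ≤ c - B := by
      rw [eVariationOn.eq_of_eqOn e1]
      refine le_trans (eVariationOn.comp_le_of_monotoneOn γ _ ?_ m1) hγv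
      intro a _ b _ hab
      dsimp only
      linarith
    have v2 : eVariationOn γ' (Icc (1 / 2) 1) ≤ B := by
      rw [eVariationOn.eq_of_eqOn e2]
      let C : ℝ≥0 := ⟨‖y - w‖, norm_nonneg _⟩
      have hl : LipschitzOnWith C (fun s : ℝ => w + s • (y - w)) univ := by
        refine LipschitzOnWith.of_dist_le_mul fun a _ b _ => ?_
        rw [dist_eq_norm, dist_eq_norm]
        have : w + a • (y - w) - (w + b • (y - w)) = (a - b) • (y - w) := by
          rw [sub_smul]; abel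
        rw [this, norm_smul, mul_comm]
        rfl
      have h3 := hl.comp_eVariationOn_le (f := fun s : ℝ => w + s • (y - w))
        (g := fun t : ℝ => 2 * t - 1) (s := Icc (1 / 2 : ℝ) 1) (mapsTo_univ _ _)
      have hm : MonotoneOn (fun t : ℝ => 2 * t - 1) (Icc (1 / 2 : ℝ) 1) := by
        intro a _ b _ hab
        dsimp only
        linarith
      have h4 := hm.eVariationOn_le (a := 1 / 2) (b := 1) ⟨le_rfl, by norm_num⟩ ⟨by norm_num, le_rfl⟩
      rw [inter_self] at h4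
      have h5 : ENNReal.ofReal ((2 * 1 - 1 : ℝ) - (2 * (1 / 2) - 1)) = 1 := by norm_num
      rw [h5] at h4
      have h6 : eVariationOn δ (Icc (1 / 2) 1) ≤ ENNReal.ofReal ‖y - w‖ := by
        have h9 : ENNReal.ofReal ‖y - w‖ = (C : ℝ≥0∞) := ENNReal.ofReal_eq_coe_nnreal _
        rw [h9]
        refine le_trans h3 ?_
        calc (C : ℝ≥0∞) * eVariationOn (fun t : ℝ => 2 * t - 1) (Icc (1 / 2 : ℝ) 1)
            ≤ (C : ℝ≥0∞) * 1 := by gcongr
          _ = _ := mul_one _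
      refine le_trans h6 (chain_path_norm_le ρ (fun z => le_trans le_self_add (hρ z)) w y)
    refine ⟨γ', ?_, ?_, ?_, ?_, ?_⟩
    · rw [hIcc]
      exact c1.union_of_isClosed c2 isClosed_Icc isClosed_Icc
    · rw [e1 ⟨le_rfl, by norm_num⟩]
      simp [hγ0]
    · rw [e2 ⟨by norm_num, le_rfl⟩]
      simp only [δ]
      norm_num
    · have h7 := eVariationOn.Icc_add_Icc γ' (s := univ) (a := 0) (b := 1 / 2) (c := 1) (by norm_num)
        (by norm_num) (mem_univ _)
      simp only [univ_inter] at h7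
      rw [← h7]
      calc _ ≤ (c - B) + B := add_le_add v1 v2
        _ = c := tsub_add_cancel_of_le hBc
    · intro t ht
      rcases le_total t (1 / 2) with h' | h'
      · rw [e1 ⟨ht.1, h'⟩]
        obtain ⟨g1, g2⟩ := hγ _ (m1 ⟨ht.1, h'⟩)
        exact ⟨g1, le_trans g2 (by gcongr; exact tsub_le_self)⟩
      · rw [e2 ⟨h', ht.2⟩]
        have hs : 2 * t - 1 ∈ Icc (0 : ℝ) 1 := ⟨by linarith, by linarith [ht.2]⟩
        constructor
        · apply hseg
          rw [segment_eq_image']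
          exact ⟨_, hs, rfl⟩
        · have hw : f w ≤ f x + (c - B) := by
            have := (hγ 1 ⟨by norm_num, le_rfl⟩).2
            rwa [hγ1] at this
          have hsp := segCost_split ρ0 hf.lsc_ρ.measurable w y (2 * t - 1) hs
          have h8 : segCost ρ0 w (w + (2 * t - 1) • (y - w)) ≤ B := by
            calc _ ≤ segCost ρ0 w y := by rw [hsp]; exact le_self_add
              _ ≤ _ := chain_path_segCost_mono ρ0 ρ (fun z => le_trans le_add_self (hρ z)) w y
          calc f (δ t) ≤ f w + segCost ρ0 (δ t) w := hf.ug _ _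
            _ = f w + segCost ρ0 w (δ t) := by rw [segCost_comm]
            _ ≤ (f x + (c - B)) + B := add_le_add hw h8
            _ = f x + c := by rw [add_assoc, tsub_add_cancel_of_le hBc]

/-- D9: finite chains give paths. -/
theorem chain_path (ρ ρ0 f : E n → ℝ≥0∞) (hρ : ∀ x, 1 + ρ0 x ≤ ρ x) (hf : UG f ρ0)
    (V : Set (E n)) (x y : E n) (c : ℝ≥0∞) (h : pd ρ V x y < c) :
    ∃ γ : ℝ → E n, ContinuousOn γ (Icc 0 1) ∧ γ 0 = x ∧ γ 1 = y ∧ eVariationOn γ (Icc 0 1) ≤ c ∧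
      ∀ t ∈ Icc (0 : ℝ) 1, γ t ∈ V ∧ f (γ t) ≤ f x + c := by
  unfold pd at h
  rw [iInf_lt_iff] at h
  obtain ⟨k, hk⟩ := h
  exact chain_path_aux ρ ρ0 f hρ hf V x k y c hk

end Keldysh
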