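import Pool.Agent.Keldysh.Defs2

open MeasureTheory ProbabilityTheory Filter Topology Set
open scoped ENNReal NNReal

namespace Keldysh

variable {n : ℕ} {Ω : Type*} [mΩ : MeasurableSpace Ω]

theorem infinite_concat_eq (x : ℕ → E n) (γ : ℕ → ℝ → E n)
    (h0 : ∀ i, γ i 0 = x i) (h1 : ∀ i, γ i 1 = x (i + 1)) (i : ℕ) (s : ℝ)
    (hs : s ∈ Icc (i : ℝ) (i + 1)) : γ ⌊s⌋₊ (s - ⌊s⌋₊) = γ i (s - i) := by
  rcases hs.2.lt_or_eq with h | h
  · have hf : ⌊s⌋₊ = i := (Nat.floor_eq_iff (le_trans (Nat.cast_nonneg i) hs.1)).2 ⟨hs.1, h⟩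
    rw [hf]
  · have hf : ⌊s⌋₊ = i + 1 := by
      rw [h]
      exact_mod_cast Nat.floor_natCast (R := ℝ) (i + 1)
    rw [hf, h]
    have e1 : (i : ℝ) + 1 - ((i + 1 : ℕ) : ℝ) = 0 := by push_cast; ring
    have e2 : (i : ℝ) + 1 - i = 1 := by ring
    rw [e1, e2, h0, h1]

/-- D10: infinite concatenation. -/
theorem infinite_concat (W : Set (E n)) (x : ℕ → E n) (z : E n) (hx : Tendsto x atTop (𝓝 z))
    (γ : ℕ → ℝ → E n) (v : ℕ → ℝ≥0∞) (hv : ∑' i, v i ≠ ⊤)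
    (hc : ∀ i, ContinuousOn (γ i) (Icc 0 1)) (h0 : ∀ i, γ i 0 = x i) (h1 : ∀ i, γ i 1 = x (i + 1))
    (hvar : ∀ i, eVariationOn (γ i) (Icc 0 1) ≤ v i)
    (hW : ∀ i, ∀ t ∈ Icc (0 : ℝ) 1, γ i t ∈ W) :
    ∃ Γ : ℝ → E n, ContinuousOn Γ (Icc 0 1) ∧ BoundedVariationOn Γ (Icc 0 1) ∧
      (∀ t ∈ Ico (0 : ℝ) 1, Γ t ∈ W) ∧ Γ 1 = z := by
  classical
  let G : ℝ → E n := fun s => γ ⌊s⌋₊ (s - ⌊s⌋₊)
  have hG : ∀ (i : ℕ), ∀ s ∈ Icc (i : ℝ) (i + 1), G s = γ i (s - i) :=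
    fun i s hs => infinite_concat_eq x γ h0 h1 i s hs
  have hmaps : ∀ i : ℕ, MapsTo (fun s : ℝ => s - i) (Icc (i : ℝ) (i + 1)) (Icc 0 1) := by
    intro i s hs
    exact ⟨by linarith [hs.1], by linarith [hs.2]⟩
  have hGc1 : ∀ i : ℕ, ContinuousOn G (Icc (i : ℝ) (i + 1)) := by
    intro i
    refine ContinuousOn.congr (f := fun s => γ i (s - i)) ?_ (hG i)
    exact (hc i).comp (by fun_prop) (hmaps i)
  have hGcN : ∀ N : ℕ, ContinuousOn G (Icc (0 : ℝ) N) := by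
    intro N
    induction N with
    | zero => simp
    | succ N ih =>
      have h2 := ih.union_of_isClosed (hGc1 N) isClosed_Icc isClosed_Icc
      rw [Icc_union_Icc_eq_Icc (Nat.cast_nonneg N) (by linarith)] at h2
      rw [Nat.cast_succ]
      exact h2
  have hGc : ContinuousOn G (Ici 0) := by
    intro s hs
    obtain ⟨N, hN⟩ := exists_nat_gt s
    have h2 : ContinuousWithinAt G (Icc (0 : ℝ) N) s := hGcN N s ⟨hs, hN.le⟩
    apply h2.mono_of_mem_nhdsWithin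
    have h3 : Iio (N : ℝ) ∈ 𝓝 s := Iio_mem_nhds hN
    have h4 : Ici (0 : ℝ) ∩ Iio (N : ℝ) ∈ 𝓝[Ici 0] s := inter_mem_nhdsWithin _ h3
    exact mem_of_superset h4 fun y hy => ⟨hy.1, le_of_lt hy.2⟩
  have hGv1 : ∀ i : ℕ, eVariationOn G (Icc (i : ℝ) ((i + 1 : ℕ) : ℝ)) ≤ v i := by
    intro i
    push_cast
    have h2 : eVariationOn G (Icc (i : ℝ) (i + 1)) =
        eVariationOn (γ i ∘ fun s : ℝ => s - i) (Icc (i : ℝ) (i + 1)) :=
      eVariationOn.congr (hG i)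
    rw [h2]
    refine le_trans (eVariationOn.comp_le_of_monotoneOn (γ i) _ ?_ (hmaps i)) (hvar i)
    intro a _ b _ hab
    show a - (i : ℝ) ≤ b - i
    linarith
  have hGvN : ∀ N : ℕ, eVariationOn G (Icc (0 : ℝ) N) ≤ ∑' i, v i := by
    intro N
    have h2 := eVariationOn.sum' G (I := fun i : ℕ => (i : ℝ)) Nat.mono_cast (n := N)
    simp only [Nat.cast_zero] at h2
    rw [← h2]
    exact (Finset.sum_le_sum fun i _ => hGv1 i).trans (ENNReal.sum_le_tsum _)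
  have hGv : eVariationOn G (Ici 0) ≤ ∑' i, v i := by
    rw [eVariationOn.eq_biSup_inter_Icc]
    apply iSup₂_le
    rintro ⟨a, b⟩ ⟨ha, hb, hab⟩
    obtain ⟨N, hN⟩ := exists_nat_gt b
    refine (eVariationOn.mono G ?_).trans (hGvN N)
    intro y hy
    exact ⟨hy.1, hy.2.2.trans hN.le⟩
  have hGlim : Tendsto G atTop (𝓝 z) := by
    have hv0 : Tendsto v atTop (𝓝 0) := ENNReal.tendsto_atTop_zero_of_tsum_ne_top hv
    have hfl : Tendsto (fun s : ℝ => ⌊s⌋₊) atTop atTop := tendsto_nat_floor_atTop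
    have hxe : Tendsto (fun s : ℝ => edist (x ⌊s⌋₊) z) atTop (𝓝 0) := by
      have h3 : Tendsto (fun i : ℕ => edist (x i) z) atTop (𝓝 0) := by
        rw [← edist_self z]
        exact hx.edist tendsto_const_nhds
      exact h3.comp hfl
    rw [tendsto_iff_edist_tendsto_0]
    have h2 : Tendsto (fun s : ℝ => v ⌊s⌋₊ + edist (x ⌊s⌋₊) z) atTop (𝓝 0) := by
      have := (hv0.comp hfl).add hxe
      simpa using this
    refine tendsto_of_tendsto_of_tendsto_of_le_of_le' tendsto_const_nhds h2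
      (Eventually.of_forall fun _ => zero_le) ?_
    filter_upwards [eventually_ge_atTop (0 : ℝ)] with s hs
    refine (edist_triangle (G s) (x ⌊s⌋₊) z).trans ?_
    gcongr
    have h3 : s - ⌊s⌋₊ ∈ Icc (0 : ℝ) 1 :=
      ⟨by linarith [Nat.floor_le hs], by linarith [Nat.lt_floor_add_one s]⟩
    have h4 := eVariationOn.edist_le (γ ⌊s⌋₊) h3 (left_mem_Icc.2 (zero_le_one' ℝ))
    rw [h0] at h4
    exact h4.trans (hvar _)
  let Γ : ℝ → E n := fun t => if t < 1 then G (t / (1 - t)) else z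
  have hΓ : ∀ t ∈ Ico (0 : ℝ) 1, Γ t = G (t / (1 - t)) := fun t ht => if_pos ht.2
  have hφm : MapsTo (fun t : ℝ => t / (1 - t)) (Ico 0 1) (Ici 0) := by
    intro t ht
    exact div_nonneg ht.1 (by linarith [ht.2])
  have hφc : ContinuousOn (fun t : ℝ => t / (1 - t)) (Ico 0 1) := by
    apply ContinuousOn.div (by fun_prop) (by fun_prop)
    intro t ht
    have := ht.2
    linarith
  have hΓc : ContinuousOn Γ (Ico 0 1) :=
    ContinuousOn.congr (f := fun t => G (t / (1 - t))) (hGc.comp hφc hφm) hΓ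
  have hΓlim : Tendsto Γ (𝓝[<] 1) (𝓝 z) := by
    have h2 : Tendsto (fun t : ℝ => t / (1 - t)) (𝓝[<] 1) atTop := by
      have h3 : Tendsto (fun t : ℝ => 1 - t) (𝓝[<] 1) (𝓝[>] 0) := by
        apply tendsto_nhdsWithin_of_tendsto_nhds_of_eventually_within
        · have : Tendsto (fun t : ℝ => 1 - t) (𝓝 1) (𝓝 (1 - 1)) :=
            (continuous_const.sub continuous_id).tendsto 1
          rw [sub_self] at this
          exact this.mono_left nhdsWithin_le_nhds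
        · filter_upwards [self_mem_nhdsWithin] with t ht
          have ht' : t < 1 := ht
          show (0 : ℝ) < 1 - t
          linarith
      have h4 : Tendsto (fun t : ℝ => (1 - t)⁻¹) (𝓝[<] 1) atTop := tendsto_inv_nhdsGT_zero.comp h3
      have h5 : Tendsto (fun t : ℝ => t) (𝓝[<] 1) (𝓝 1) := tendsto_id.mono_left nhdsWithin_le_nhds
      have h6 := h5.pos_mul_atTop one_pos h4
      exact h6.congr fun t => (div_eq_mul_inv _ _).symm
    refine (hGlim.comp h2).congr' ?_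
    filter_upwards [self_mem_nhdsWithin] with t ht
    exact (if_pos ht).symm
  have hΓ1 : Γ 1 = z := if_neg (lt_irrefl _)
  have hcw : ContinuousWithinAt Γ (Iic 1) 1 := by
    rw [← continuousWithinAt_Iio_iff_Iic]
    show Tendsto Γ (𝓝[<] 1) (𝓝 (Γ 1))
    rw [hΓ1]
    exact hΓlim
  refine ⟨Γ, ?_, ?_, ?_, hΓ1⟩
  · intro t ht
    rcases ht.2.lt_or_eq with h | h
    · have h2 : ContinuousWithinAt Γ (Ico 0 1) t := hΓc t ⟨ht.1, h⟩
      apply h2.mono_of_mem_nhdsWithin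
      have h4 : Icc (0 : ℝ) 1 ∩ Iio 1 ∈ 𝓝[Icc 0 1] t := inter_mem_nhdsWithin _ (Iio_mem_nhds h)
      exact mem_of_superset h4 fun y hy => ⟨hy.1.1, hy.2⟩
    · rw [h]
      exact hcw.mono Icc_subset_Iic_self
  · show eVariationOn Γ (Icc 0 1) ≠ ⊤
    rw [← eVariationOn.eVariationOn_Ico_eq_Icc_of_continuousWithinAt hcw]
    apply ne_top_of_le_ne_top hv
    refine le_trans ?_ hGv
    have h2 : eVariationOn Γ (Ico 0 1) = eVariationOn (G ∘ fun t : ℝ => t / (1 - t)) (Ico 0 1) :=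
      eVariationOn.congr hΓ
    rw [h2]
    refine eVariationOn.comp_le_of_monotoneOn G _ ?_ hφm
    intro a ha b hb hab
    show a / (1 - a) ≤ b / (1 - b)
    have ha' := ha.2
    have hb' := hb.2
    rw [div_le_div_iff₀ (by linarith) (by linarith)]
    nlinarith
  · intro t ht
    rw [hΓ t ht]
    have hs : 0 ≤ t / (1 - t) := hφm ht
    apply hW
    exact ⟨by linarith [Nat.floor_le hs], by linarith [Nat.lt_floor_add_one (t / (1 - t))]⟩

end Keldysh
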