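import Pool.Agent.Keldysh.Defs2
import Pool.Agent.Keldysh.M_chain_path
import Pool.Agent.Keldysh.M_infinite_concat

open MeasureTheory ProbabilityTheory Filter Topology Set
open scoped ENNReal NNReal

namespace Keldysh

variable {n : ℕ} {Ω : Type*} [mΩ : MeasurableSpace Ω]

/-- D11: accessibility from a chain. -/
theorem accessible_of_chain (ρ ρ0 f : E n → ℝ≥0∞) (hρ : ∀ x, 1 + ρ0 x ≤ ρ x) (hf : UG f ρ0)
    (U V : Set (E n)) (hVU : ∀ x ∈ V, f x < 1 → x ∈ U) (x : ℕ → E n) (z : E n)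
    (hx0 : f (x 0) ≤ 1 / 2) (hsum : ∑' i, pd ρ V (x i) (x (i + 1)) < 1 / 4)
    (hx : Tendsto x atTop (𝓝 z)) (hz : z ∉ U) : z ∈ accessible U := by
  have hd : ∀ i, pd ρ V (x i) (x (i + 1)) ≠ ⊤ := fun i =>
    ne_top_of_le_ne_top (ne_top_of_lt hsum) (ENNReal.le_tsum i)
  obtain ⟨e, he0, he⟩ := ENNReal.exists_pos_sum_of_countable'
    (ε := (1 / 4 : ℝ≥0∞)) (by simp) ℕ
  have hc : ∀ i, pd ρ V (x i) (x (i + 1)) < pd ρ V (x i) (x (i + 1)) + e i := fun i =>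
    ENNReal.lt_add_right (hd i) (he0 i).ne'
  choose γ hγc hγ0 hγ1 hγv hγ using fun i =>
    chain_path ρ ρ0 f hρ hf V (x i) (x (i + 1)) _ (hc i)
  have hq : (1 / 4 : ℝ≥0∞) + 1 / 4 = 1 / 2 := by
    rw [ENNReal.div_add_div_same, one_add_one_eq_two]
    rw [ENNReal.div_eq_div_iff] <;> norm_num
  have hh : (1 / 2 : ℝ≥0∞) + 1 / 2 = 1 := ENNReal.add_halves 1
  have hS : ∑' i, (pd ρ V (x i) (x (i + 1)) + e i) < 1 / 2 := by
    rw [ENNReal.tsum_add, ← hq]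
    exact ENNReal.add_lt_add hsum he
  have hstep : ∀ i, f (x (i + 1)) ≤ f (x i) + (pd ρ V (x i) (x (i + 1)) + e i) := by
    intro i
    have := (hγ i 1 (by simp)).2
    rwa [hγ1 i] at this
  have hind : ∀ i, f (x i) ≤ f (x 0) +
      ∑ j ∈ Finset.range i, (pd ρ V (x j) (x (j + 1)) + e j) := by
    intro i
    induction i with
    | zero => simp
    | succ k ih =>
      rw [Finset.sum_range_succ, ← add_assoc]
      exact (hstep k).trans (add_le_add_left ih _)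
  have hlt : ∀ i, ∀ t ∈ Icc (0 : ℝ) 1, γ i t ∈ U := by
    intro i t ht
    obtain ⟨h1, h2⟩ := hγ i t ht
    refine hVU _ h1 ?_
    have h3 : f (γ i t) ≤ f (x 0) +
        ∑ j ∈ Finset.range (i + 1), (pd ρ V (x j) (x (j + 1)) + e j) := by
      rw [Finset.sum_range_succ, ← add_assoc]
      exact h2.trans (add_le_add_left (hind i) _)
    have h4 : ∑ j ∈ Finset.range (i + 1), (pd ρ V (x j) (x (j + 1)) + e j) < 1 / 2 :=
      (ENNReal.sum_le_tsum _).trans_lt hS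
    calc f (γ i t) ≤ _ := h3
      _ ≤ 1 / 2 + ∑ j ∈ Finset.range (i + 1), (pd ρ V (x j) (x (j + 1)) + e j) :=
        add_le_add_left hx0 _
      _ < 1 / 2 + 1 / 2 := ENNReal.add_lt_add_left (by simp) h4
      _ = 1 := hh
  obtain ⟨Γ, g1, g2, g3, g4⟩ := infinite_concat U x z hx γ
    (fun i => pd ρ V (x i) (x (i + 1)) + e i) (ne_top_of_lt hS) hγc hγ0 hγ1 hγv hlt
  exact ⟨hz, Γ, g1, g2, g3, g4⟩

end Keldysh
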