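import Pool.Agent.Keldysh.Defs2
import Pool.Agent.Keldysh.M_gauss_prob
import Pool.Agent.Keldysh.M_gauss_second_moment

open MeasureTheory ProbabilityTheory Filter Topology Set
open scoped ENNReal NNReal

namespace Keldysh

variable {n : ℕ} {Ω : Type*} [mΩ : MeasurableSpace Ω]

theorem energy_est_jensen (f : ℝ → ℝ≥0∞) (hf : Measurable f) :
    (∫⁻ t in Icc (0 : ℝ) 1, f t) ^ 2 ≤ ∫⁻ t in Icc (0 : ℝ) 1, f t ^ 2 := by
  have h1 := ENNReal.lintegral_mul_le_Lp_mul_Lq (volume.restrict (Icc (0 : ℝ) 1))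
    Real.HolderConjugate.two_two hf.aemeasurable (measurable_const (a := (1 : ℝ≥0∞))).aemeasurable
  have h2 : ∫⁻ a in Icc (0 : ℝ) 1, (f * (fun _ : ℝ => (1 : ℝ≥0∞)) : ℝ → ℝ≥0∞) a = ∫⁻ t in Icc (0 : ℝ) 1, f t := by
    refine lintegral_congr fun t => ?_
    simp
  rw [h2] at h1
  have h3 : ∫⁻ _ in Icc (0 : ℝ) 1, (1 : ℝ≥0∞) ^ (2 : ℝ) = 1 := by
    simp
  rw [h3, ENNReal.one_rpow, mul_one] at h1
  have h4 : ∫⁻ a in Icc (0 : ℝ) 1, f a ^ (2 : ℝ) = ∫⁻ t in Icc (0 : ℝ) 1, f t ^ 2 := by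
    refine lintegral_congr fun t => ?_
    exact ENNReal.rpow_two (f t)
  rw [h4] at h1
  calc (∫⁻ t in Icc (0 : ℝ) 1, f t) ^ 2 ≤ ((∫⁻ t in Icc (0 : ℝ) 1, f t ^ 2) ^ (1 / 2 : ℝ)) ^ 2 :=
        pow_le_pow_left' h1 2
    _ = ∫⁻ t in Icc (0 : ℝ) 1, f t ^ 2 := by
        rw [← ENNReal.rpow_two, ← ENNReal.rpow_mul]
        norm_num

theorem energy_est_seg (ρ : E n → ℝ≥0∞) (x z : E n) :
    segCost ρ x (x + z) = ‖z‖ₑ * ∫⁻ t in Icc (0 : ℝ) 1, ρ (x + t • z) := by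
  unfold segCost
  rw [add_sub_cancel_left, ofReal_norm]

theorem energy_est_meas (ρ : E n → ℝ≥0∞) (hρ : Measurable ρ) :
    Measurable (fun p : E n × E n => ∫⁻ t in Icc (0 : ℝ) 1, ρ (p.1 + t • p.2)) := by
  have h1 : Measurable (fun q : (E n × E n) × ℝ => ρ (q.1.1 + q.2 • q.1.2)) := by
    apply hρ.comp
    apply Continuous.measurable
    fun_prop
  exact h1.lintegral_prod_right'

theorem energy_est_E1 (V : Set (E n)) (hV : IsOpen V) (D : Set (E n)) (hD : MeasurableSet D)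
    (r : ℝ) (hr : 0 < r) (hDr : ∀ x ∈ D, Metric.ball x r ⊆ V)
    (ρ : E n → ℝ≥0∞) (hρ : Measurable ρ) (h : ℝ≥0) :
    ∫⁻ x in D, ∫⁻ z in {z : E n | ‖z‖ < r}, (‖z‖ₑ * ∫⁻ t in Icc (0 : ℝ) 1, ρ (x + t • z)) ^ 2 ∂(gauss n h) ≤
      n * h * (∫⁻ x in V, ρ x ^ 2) := by
  haveI := gauss_prob n h
  have hS : MeasurableSet {z : E n | ‖z‖ < r} := measurableSet_lt measurable_norm measurable_const
  have hm1 : ∀ x z : E n, Measurable (fun t : ℝ => ρ (x + t • z)) := by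
    intro x z
    apply hρ.comp
    apply Continuous.measurable
    fun_prop
  have hm3 : Measurable (fun q : (E n × E n) × ℝ => ‖q.1.2‖ₑ ^ 2 * ρ (q.1.1 + q.2 • q.1.2) ^ 2) := by
    refine Measurable.mul ?_ ?_
    · exact (measurable_enorm.comp (measurable_snd.comp measurable_fst)).pow_const 2
    · refine Measurable.pow_const ?_ 2
      apply hρ.comp
      apply Continuous.measurable
      fun_prop
  have hm2 : Measurable (fun p : E n × E n => ∫⁻ t in Icc (0 : ℝ) 1, ‖p.2‖ₑ ^ 2 * ρ (p.1 + t • p.2) ^ 2) :=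
    hm3.lintegral_prod_right'
  calc ∫⁻ x in D, ∫⁻ z in {z : E n | ‖z‖ < r}, (‖z‖ₑ * ∫⁻ t in Icc (0 : ℝ) 1, ρ (x + t • z)) ^ 2 ∂(gauss n h)
      ≤ ∫⁻ x in D, ∫⁻ z in {z : E n | ‖z‖ < r}, (∫⁻ t in Icc (0 : ℝ) 1, ‖z‖ₑ ^ 2 * ρ (x + t • z) ^ 2) ∂(gauss n h) := by
        refine lintegral_mono fun x => lintegral_mono fun z => ?_
        show (‖z‖ₑ * ∫⁻ t in Icc (0 : ℝ) 1, ρ (x + t • z)) ^ 2 ≤ ∫⁻ t in Icc (0 : ℝ) 1, ‖z‖ₑ ^ 2 * ρ (x + t • z) ^ 2
        rw [mul_pow, lintegral_const_mul _ ((hm1 x z).pow_const 2)]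
        gcongr
        exact energy_est_jensen _ (hm1 x z)
    _ = ∫⁻ z in {z : E n | ‖z‖ < r}, (∫⁻ x in D, ∫⁻ t in Icc (0 : ℝ) 1, ‖z‖ₑ ^ 2 * ρ (x + t • z) ^ 2) ∂(gauss n h) := by
        rw [lintegral_lintegral_swap]
        exact hm2.aemeasurable
    _ ≤ ∫⁻ z in {z : E n | ‖z‖ < r}, ‖z‖ₑ ^ 2 * (∫⁻ x in V, ρ x ^ 2) ∂(gauss n h) := by
        refine setLIntegral_mono' hS fun z hz => ?_
        rw [lintegral_lintegral_swap]
        · calc ∫⁻ t in Icc (0 : ℝ) 1, ∫⁻ x in D, ‖z‖ₑ ^ 2 * ρ (x + t • z) ^ 2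
              ≤ ∫⁻ t in Icc (0 : ℝ) 1, ‖z‖ₑ ^ 2 * (∫⁻ x in V, ρ x ^ 2) := by
                refine setLIntegral_mono' measurableSet_Icc fun t ht => ?_
                rw [lintegral_const_mul']
                · refine mul_le_mul_right ?_ _
                  calc ∫⁻ x in D, ρ (x + t • z) ^ 2
                      ≤ ∫⁻ x in D, V.indicator (fun y => ρ y ^ 2) (x + t • z) := by
                        refine setLIntegral_mono' hD fun x hx => ?_
                        have hxV : x + t • z ∈ V := by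
                          apply hDr x hx
                          rw [Metric.mem_ball, dist_eq_norm, add_sub_cancel_left, norm_smul,
                            Real.norm_eq_abs, abs_of_nonneg ht.1]
                          have hz' : ‖z‖ < r := hz
                          nlinarith [ht.1, ht.2, norm_nonneg z]
                        rw [Set.indicator_of_mem hxV]
                    _ ≤ ∫⁻ x, V.indicator (fun y => ρ y ^ 2) (x + t • z) := setLIntegral_le_lintegral _ _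
                    _ = ∫⁻ x, V.indicator (fun y => ρ y ^ 2) x :=
                        lintegral_add_right_eq_self (V.indicator (fun y => ρ y ^ 2)) (t • z)
                    _ = ∫⁻ x in V, ρ x ^ 2 := lintegral_indicator hV.measurableSet _
                · exact ENNReal.pow_ne_top enorm_ne_top
            _ = ‖z‖ₑ ^ 2 * (∫⁻ x in V, ρ x ^ 2) := by
                rw [lintegral_const, Measure.restrict_apply_univ, Real.volume_Icc]
                norm_num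
        · refine Measurable.aemeasurable ?_
          have hq : Measurable (fun p : E n × ℝ => ρ (p.1 + p.2 • z)) := by
            apply hρ.comp
            apply Continuous.measurable
            fun_prop
          exact (hq.pow_const 2).const_mul (‖z‖ₑ ^ 2)
    _ ≤ ∫⁻ z, ‖z‖ₑ ^ 2 * (∫⁻ x in V, ρ x ^ 2) ∂(gauss n h) := setLIntegral_le_lintegral _ _
    _ = n * h * (∫⁻ x in V, ρ x ^ 2) := by
        rw [lintegral_mul_const _ (measurable_enorm.pow_const 2), gauss_second_moment]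

/-- C10 -/
theorem energy_est (V : Set (E n)) (hV : IsOpen V) (D : Set (E n)) (hD : MeasurableSet D)
    (r : ℝ) (hr : 0 < r) (hDr : ∀ x ∈ D, Metric.ball x r ⊆ V)
    (ρ ρ' : E n → ℝ≥0∞) (hρ : Measurable ρ) (hρ' : Measurable ρ')
    (hρ2 : ∫⁻ x in V, ρ' x ^ 2 ≠ ⊤) (u : E n → ℝ) (hu : Measurable u)
    (h01 : ∀ x, 0 ≤ u x ∧ u x ≤ 1)
    (hug : ∀ x y, segment ℝ x y ⊆ V → segCost ρ' x y ≠ ⊤ → ‖u y - u x‖ₑ ≤ segCost ρ x y)
    (hVfin : volume V ≠ ⊤) (h : ℝ≥0) :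
    ∫⁻ x in D, ∫⁻ z, ‖u (x + z) - u x‖ₑ ^ 2 ∂(gauss n h) ≤
      n * h * (∫⁻ x in V, ρ x ^ 2) + volume V * gauss n h {z | r ≤ ‖z‖} := by
  haveI := gauss_prob n h
  have hS : MeasurableSet {z : E n | ‖z‖ < r} := measurableSet_lt measurable_norm measurable_const
  have hDV : D ⊆ V := fun x hx => hDr x hx (Metric.mem_ball_self hr)
  have hSc : {z : E n | ‖z‖ < r}ᶜ = {z : E n | r ≤ ‖z‖} := by
    ext z; simp
  have hmeas : Measurable (fun p : E n × E n => (‖p.2‖ₑ * ∫⁻ t in Icc (0 : ℝ) 1, ρ' (p.1 + t • p.2)) ^ 2) :=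
    ((measurable_enorm.comp measurable_snd).mul (energy_est_meas ρ' hρ')).pow_const 2
  have hE1 := energy_est_E1 V hV D hD r hr hDr ρ hρ h
  have hE2 := energy_est_E1 V hV D hD r hr hDr ρ' hρ' h
  have hfin : ∫⁻ x in D, ∫⁻ z in {z : E n | ‖z‖ < r}, (‖z‖ₑ * ∫⁻ t in Icc (0 : ℝ) 1, ρ' (x + t • z)) ^ 2 ∂(gauss n h) ≠ ⊤ := by
    refine ne_top_of_le_ne_top ?_ hE2
    exact ENNReal.mul_ne_top (ENNReal.mul_ne_top (ENNReal.natCast_ne_top n) ENNReal.coe_ne_top) hρ2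
  have hae1 : ∀ᵐ x ∂(volume.restrict D), ∫⁻ z in {z : E n | ‖z‖ < r},
      (‖z‖ₑ * ∫⁻ t in Icc (0 : ℝ) 1, ρ' (x + t • z)) ^ 2 ∂(gauss n h) < ⊤ :=
    ae_lt_top hmeas.lintegral_prod_right' hfin
  have hle1 : ∀ x z : E n, ‖u (x + z) - u x‖ₑ ^ 2 ≤ 1 := by
    intro x z
    have h1 : ‖u (x + z) - u x‖ₑ ≤ 1 := by
      rw [← ofReal_norm, Real.norm_eq_abs]
      refine ENNReal.ofReal_le_one.mpr ?_
      rw [abs_le]
      have h2 := h01 (x + z)
      have h3 := h01 x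
      constructor <;> linarith
    exact pow_le_one₀ (by simp) h1
  calc ∫⁻ x in D, ∫⁻ z, ‖u (x + z) - u x‖ₑ ^ 2 ∂(gauss n h)
      ≤ ∫⁻ x in D, ((∫⁻ z in {z : E n | ‖z‖ < r}, (‖z‖ₑ * ∫⁻ t in Icc (0 : ℝ) 1, ρ (x + t • z)) ^ 2 ∂(gauss n h)) +
          gauss n h {z | r ≤ ‖z‖}) := by
        refine lintegral_mono_ae ?_
        filter_upwards [hae1, ae_restrict_mem hD] with x hx hxD
        rw [← lintegral_add_compl _ hS, hSc]
        refine add_le_add ?_ ?_
        · have hmz : Measurable (fun z : E n => (‖z‖ₑ * ∫⁻ t in Icc (0 : ℝ) 1, ρ' (x + t • z)) ^ 2) :=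
            Measurable.of_uncurry_left (f := fun x z : E n => (‖z‖ₑ * ∫⁻ t in Icc (0 : ℝ) 1, ρ' (x + t • z)) ^ 2) hmeas
          have h1 := ae_lt_top hmz hx.ne
          refine lintegral_mono_ae ?_
          filter_upwards [h1, ae_restrict_mem hS] with z hz hzS
          have hz1 : segCost ρ' x (x + z) ≠ ⊤ := by
            rw [energy_est_seg]
            intro htop
            rw [htop] at hz
            simp at hz
          have hsegV : segment ℝ x (x + z) ⊆ V := by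
            refine Subset.trans ?_ (hDr x hxD)
            refine (convex_ball x r).segment_subset (Metric.mem_ball_self hr) ?_
            rw [Metric.mem_ball, dist_eq_norm, add_sub_cancel_left]
            exact hzS
          have h2 := hug x (x + z) hsegV hz1
          rw [energy_est_seg] at h2
          exact pow_le_pow_left' h2 2
        · calc ∫⁻ z in {z : E n | r ≤ ‖z‖}, ‖u (x + z) - u x‖ₑ ^ 2 ∂(gauss n h)
              ≤ ∫⁻ _ in {z : E n | r ≤ ‖z‖}, 1 ∂(gauss n h) := lintegral_mono fun z => hle1 x z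
            _ = gauss n h {z | r ≤ ‖z‖} := by
                rw [lintegral_one, Measure.restrict_apply_univ]
    _ = (∫⁻ x in D, ∫⁻ z in {z : E n | ‖z‖ < r}, (‖z‖ₑ * ∫⁻ t in Icc (0 : ℝ) 1, ρ (x + t • z)) ^ 2 ∂(gauss n h)) +
          ∫⁻ x in D, gauss n h {z | r ≤ ‖z‖} := by
        rw [lintegral_add_right _ measurable_const]
    _ ≤ n * h * (∫⁻ x in V, ρ x ^ 2) + volume V * gauss n h {z | r ≤ ‖z‖} := by
        refine add_le_add hE1 ?_
        rw [lintegral_const, Measure.restrict_apply_univ, mul_comm]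
        gcongr

end Keldysh
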