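import Pool.Agent.Keldysh.Defs2

open MeasureTheory ProbabilityTheory Filter Topology Set
open scoped ENNReal NNReal

namespace Keldysh

variable {n : ℕ} {Ω : Type*} [mΩ : MeasurableSpace Ω]

/-- C2 -/
theorem exists_occDens (P : Measure Ω) [IsProbabilityMeasure P] (Y : ℕ → Ω → E n)
    (F : ℕ → MeasurableSpace Ω) (h C : ℝ≥0) (hY : GWalk P Y F h C) (A : ℕ → Set Ω)
    (hA : ∀ j, MeasurableSet[F j] (A j)) (N : ℕ) : ∃ s : E n → ℝ, OccDens P Y A N (N * C) s := by
  have hYm : ∀ j, Measurable (Y j) := fun j => (hY.adapted j).mono (hY.F_le j) le_rfl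
  have hle1 : ∀ j, (P.restrict (A j)).map (Y j) ≤ (C : ℝ≥0∞) • volume := fun j =>
    (Measure.map_mono Measure.restrict_le_self (hYm j)).trans (hY.dens j)
  have hle : occ P Y A N ≤ ((N * C : ℝ≥0) : ℝ≥0∞) • volume := by
    unfold occ
    refine (Finset.sum_le_sum (fun j _ => hle1 j)).trans (le_of_eq ?_)
    rw [Finset.sum_const, Finset.card_range]
    ext s hs
    simp [Measure.smul_apply, mul_assoc]
  have hfinU : occ P Y A N univ < ∞ := by
    unfold occ
    rw [Measure.finsetSum_apply]
    refine ENNReal.sum_lt_top.2 fun j _ => ?_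
    rw [Measure.map_apply (hYm j) MeasurableSet.univ, preimage_univ, Measure.restrict_apply_univ]
    exact measure_lt_top P _
  haveI : IsFiniteMeasure (occ P Y A N) := ⟨hfinU⟩
  have hac : occ P Y A N ≪ volume := by
    intro s hs
    have h1 := hle s
    rw [Measure.smul_apply, hs, smul_zero] at h1
    exact le_antisymm h1 bot_le
  have hwd := Measure.withDensity_rnDeriv_eq _ _ hac
  set d := (occ P Y A N).rnDeriv volume with hd
  have hdm : Measurable d := Measure.measurable_rnDeriv _ _
  have hdle : ∀ᵐ x ∂(volume : Measure (E n)), d x ≤ ((N * C : ℝ≥0) : ℝ≥0∞) := by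
    refine ae_le_of_forall_setLIntegral_le_of_sigmaFinite hdm (fun s hs _ => ?_)
    rw [← withDensity_apply d hs, hwd, setLIntegral_const]
    have h1 := hle s
    rwa [Measure.smul_apply, smul_eq_mul] at h1
  have hNC : (0 : ℝ) ≤ N * C := by positivity
  have hae : ∀ᵐ x ∂(volume : Measure (E n)),
      ENNReal.ofReal (min (d x).toReal (N * C)) = d x := by
    filter_upwards [hdle] with x hx
    have hx1 : d x ≠ ∞ := (hx.trans_lt ENNReal.coe_lt_top).ne
    have hx2 : (d x).toReal ≤ N * C := by
      have := ENNReal.toReal_mono ENNReal.coe_ne_top hx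
      simpa using this
    rw [min_eq_left hx2, ENNReal.ofReal_toReal hx1]
  have hsm : Measurable (fun x => min (d x).toReal ((N : ℝ) * C)) :=
    hdm.ennreal_toReal.min measurable_const
  refine ⟨fun x => min (d x).toReal (N * C), hsm, fun x => le_min ENNReal.toReal_nonneg hNC,
    fun x => min_le_right _ _, ?_, ?_⟩
  · refine ⟨hsm.aestronglyMeasurable, ?_⟩
    rw [hasFiniteIntegral_iff_ofReal (Filter.Eventually.of_forall fun x =>
      le_min ENNReal.toReal_nonneg hNC), lintegral_congr_ae hae]
    have : ∫⁻ x, d x = occ P Y A N univ := by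
      rw [← hwd, withDensity_apply _ MeasurableSet.univ, Measure.restrict_univ]
    rw [this]
    exact hfinU
  · rw [withDensity_congr_ae hae, hwd]

end Keldysh
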