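import Pool.Agent.Keldysh.Defs2

open MeasureTheory ProbabilityTheory Filter Topology Set
open scoped ENNReal NNReal

namespace Keldysh

variable {n : ℕ} {Ω : Type*} [mΩ : MeasurableSpace Ω]

/-- C1 -/
theorem exitIdx_le {α : Type*} (Y : ℕ → Ω → α) (D : Set α) (N : ℕ) (ω : Ω) :
    exitIdx Y D N ω ≤ N := by
  exact Nat.sInf_le (Or.inl rfl)

end Keldysh
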