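import Pool.Agent.Keldysh.Defs2

open MeasureTheory ProbabilityTheory Filter Topology Set
open scoped ENNReal NNReal

namespace Keldysh

variable {n : ℕ} {Ω : Type*} [mΩ : MeasurableSpace Ω]

/-- C1b -/
theorem exitIdx_mem {α : Type*} (Y : ℕ → Ω → α) (D : Set α) (N : ℕ) (ω : Ω) (j : ℕ)
    (hj : j < exitIdx Y D N ω) : Y j ω ∈ D := by
  have h : ¬ (j = N ∨ Y j ω ∉ D) := Nat.notMem_of_lt_sInf hj
  by_contra hcon
  exact h (Or.inr hcon)

end Keldysh
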