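import Pool.Agent.Keldysh.Defs2

open MeasureTheory ProbabilityTheory Filter Topology Set
open scoped ENNReal NNReal

namespace Keldysh

variable {n : ℕ} {Ω : Type*} [mΩ : MeasurableSpace Ω]

/-- C1d -/
theorem exitIdx_mono {α : Type*} (Y : ℕ → Ω → α) (D D' : Set α) (hD : D ⊆ D') (N : ℕ) (ω : Ω) :
    exitIdx Y D N ω ≤ exitIdx Y D' N ω := by
  have hne : {j | j = N ∨ Y j ω ∉ D'}.Nonempty := ⟨N, Or.inl rfl⟩
  have h := Nat.sInf_mem hne
  refine Nat.sInf_le ?_
  rcases h with h | h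
  · exact Or.inl h
  · exact Or.inr (fun h' => h (hD h'))

end Keldysh
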