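import Pool.Agent.Keldysh.Defs2

open MeasureTheory ProbabilityTheory Filter Topology Set
open scoped ENNReal NNReal

namespace Keldysh

variable {n : ℕ} {Ω : Type*} [mΩ : MeasurableSpace Ω]

/-- C1c -/
theorem exitIdx_not_mem {α : Type*} (Y : ℕ → Ω → α) (D : Set α) (N : ℕ) (ω : Ω)
    (hj : exitIdx Y D N ω < N) : Y (exitIdx Y D N ω) ω ∉ D := by
  have h1 : exitIdx Y D N ω ∈ {j | j = N ∨ Y j ω ∉ D} := Nat.sInf_mem ⟨N, Or.inl rfl⟩
  rcases h1 with h1 | h1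
  · exact absurd h1 hj.ne
  · exact h1

end Keldysh
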