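import Pool.Agent.Keldysh.Defs2
import Pool.Agent.Keldysh.M_exitIdx_le
import Pool.Agent.Keldysh.M_exitIdx_mem
import Pool.Agent.Keldysh.M_exitIdx_not_mem

open MeasureTheory ProbabilityTheory Filter Topology Set
open scoped ENNReal NNReal

namespace Keldysh

variable {n : ℕ} {Ω : Type*} [mΩ : MeasurableSpace Ω]

theorem exitIdx_stop_set (Y : ℕ → Ω → E n) (D : Set (E n)) (N j : ℕ) (hj : j < N) :
    {ω | exitIdx Y D N ω ≤ j} = ⋃ i : ℕ, ⋃ _ : i ≤ j, (Y i) ⁻¹' Dᶜ := by
  ext ω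
  simp only [Set.mem_setOf_eq, Set.mem_iUnion, Set.mem_preimage, Set.mem_compl_iff, exists_prop]
  constructor
  · intro h
    exact ⟨exitIdx Y D N ω, h, exitIdx_not_mem Y D N ω (by omega)⟩
  · rintro ⟨i, hi, hYi⟩
    by_contra hc
    push Not at hc
    exact hYi (exitIdx_mem Y D N ω i (by omega))

/-- C1e -/
theorem exitIdx_stop (Y : ℕ → Ω → E n) (F : ℕ → MeasurableSpace Ω) (hF : Monotone F)
    (hY : ∀ j, Measurable[F j] (Y j)) (D : Set (E n)) (hD : MeasurableSet D) (N : ℕ) :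
    IsStop F (exitIdx Y D N) := by
  intro j
  by_cases hj : j < N
  · rw [exitIdx_stop_set Y D N j hj]
    refine @MeasurableSet.iUnion Ω ℕ (F j) _ _ (fun i => ?_)
    refine @MeasurableSet.iUnion Ω (i ≤ j) (F j) _ _ (fun hi => ?_)
    exact hF hi _ (hY i hD.compl)
  · have : {ω | exitIdx Y D N ω ≤ j} = Set.univ := by
      apply Set.eq_univ_of_forall
      intro ω
      have := exitIdx_le Y D N ω
      show exitIdx Y D N ω ≤ j
      omega
    rw [this]
    exact @MeasurableSet.univ Ω (F j)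

end Keldysh
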