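import Pool.Agent.Keldysh.Defs2
import Pool.Agent.Keldysh.M_gauss_prob

open MeasureTheory ProbabilityTheory Filter Topology Set
open scoped ENNReal NNReal

namespace Keldysh

variable {n : ℕ} {Ω : Type*} [mΩ : MeasurableSpace Ω]

/-- C3: discrete energy identity. -/
theorem dei (P : Measure Ω) [IsProbabilityMeasure P] (Y : ℕ → Ω → E n)
    (F : ℕ → MeasurableSpace Ω) (h C : ℝ≥0) (hY : GWalk P Y F h C) (A : ℕ → Set Ω)
    (hA : ∀ j, MeasurableSet[F j] (A j)) (N : ℕ) (K : ℝ) (s : E n → ℝ) (hs : OccDens P Y A N K s)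
    (u : E n → ℝ) (hu : Measurable u) (L : ℝ) (hL : ∀ x, |u x| ≤ L) :
    ∑ j ∈ Finset.range N, ∫ ω in A j, (u (Y (j + 1) ω) - u (Y j ω)) ∂P =
      ∫ x, s x * ∫ z, (u (x + z) - u x) ∂(gauss n h) := by
  haveI hγ : IsProbabilityMeasure (gauss n h) := gauss_prob n h
  set w : E n → ℝ := fun x => ∫ z, (u (x + z) - u x) ∂(gauss n h) with hw
  have hfm : Measurable (fun p : E n × E n => u (p.1 + p.2) - u p.1) :=
    (hu.comp (measurable_fst.add measurable_snd)).sub (hu.comp measurable_fst)
  have hwm : StronglyMeasurable w := by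
    have := MeasureTheory.StronglyMeasurable.integral_prod_right' (ν := gauss n h)
      hfm.stronglyMeasurable
    exact this
  have hL0 : 0 ≤ L := (abs_nonneg _).trans (hL 0)
  have hfb : ∀ p : E n × E n, ‖u (p.1 + p.2) - u p.1‖ ≤ 2 * L := by
    intro p
    rw [Real.norm_eq_abs]
    have h1 := hL (p.1 + p.2)
    have h2 := hL p.1
    rw [abs_le] at *
    constructor <;> linarith [h1.1, h1.2, h2.1, h2.2]
  have hwb : ∀ x, ‖w x‖ ≤ 2 * L := by
    intro x
    have := norm_integral_le_of_norm_le_const (μ := gauss n h) (C := 2 * L)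
      (f := fun z => u (x + z) - u x) (Filter.Eventually.of_forall fun z => hfb (x, z))
    simpa using this
  have hYm : ∀ j, Measurable (Y j) := fun j => (hY.adapted j).mono (hY.F_le j) le_rfl
  have hAm : ∀ j, MeasurableSet (A j) := fun j => hY.F_le j _ (hA j)
  -- one step
  have hstep : ∀ j, ∫ ω in A j, (u (Y (j + 1) ω) - u (Y j ω)) ∂P
      = ∫ x, w x ∂((P.restrict (A j)).map (Y j)) := by
    intro j
    have hξ : Measurable (fun ω => Y (j + 1) ω - Y j ω) := (hYm (j + 1)).sub (hYm j)
    haveI : IsFiniteMeasure ((P.restrict (A j)).map (Y j)) := by infer_instance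
    have hprod : ((P.restrict (A j)).map (Y j)).prod (gauss n h)
        = (P.restrict (A j)).map (fun ω => (Y j ω, Y (j + 1) ω - Y j ω)) := by
      apply Measure.prod_eq
      intro S T hS hT
      rw [Measure.map_apply ((hYm j).prodMk hξ) (hS.prod hT), Measure.map_apply (hYm j) hS,
        ← hY.law j, Measure.map_apply hξ hT,
        Measure.restrict_apply (((hYm j).prodMk hξ) (hS.prod hT)),
        Measure.restrict_apply ((hYm j) hS)]
      have hind := (Indep_iff _ _ P).1 (hY.indep j) ((fun ω => Y (j + 1) ω - Y j ω) ⁻¹' T)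
        (Y j ⁻¹' S ∩ A j) ⟨T, hT, rfl⟩ (MeasurableSet.inter ((hY.adapted j) hS) (hA j))
      rw [mul_comm, ← hind]
      congr 1
      ext ω
      simp only [Set.mem_inter_iff, Set.mem_preimage, Set.mem_prod]
      tauto
    have e1 : ∫ ω in A j, (u (Y (j + 1) ω) - u (Y j ω)) ∂P
        = ∫ p, (u (p.1 + p.2) - u p.1) ∂((P.restrict (A j)).map
            (fun ω => (Y j ω, Y (j + 1) ω - Y j ω))) := by
      rw [integral_map ((hYm j).prodMk hξ).aemeasurable hfm.aestronglyMeasurable]
      simp only [add_sub_cancel]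
    rw [e1, ← hprod, integral_prod]
    exact Integrable.of_bound hfm.aestronglyMeasurable (2 * L) (Filter.Eventually.of_forall hfb)
  have hint : ∀ j ∈ Finset.range N, Integrable w ((P.restrict (A j)).map (Y j)) := by
    intro j _
    exact Integrable.of_bound hwm.aestronglyMeasurable (2 * L) (Filter.Eventually.of_forall hwb)
  rw [Finset.sum_congr rfl (fun j _ => hstep j), ← integral_finsetSum_measure hint]
  change ∫ x, w x ∂(occ P Y A N) = ∫ x, s x * w x
  rw [hs.eq, integral_withDensity_eq_integral_toReal_smul hs.meas.ennreal_ofReal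
    (Filter.Eventually.of_forall fun x => ENNReal.ofReal_lt_top)]
  refine integral_congr_ae (Filter.Eventually.of_forall fun x => ?_)
  simp only [smul_eq_mul]
  rw [ENNReal.toReal_ofReal (hs.nonneg x)]

end Keldysh
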