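import Pool.Agent.Keldysh.Defs2
import Pool.Agent.Keldysh.M_gauss_prob

open MeasureTheory ProbabilityTheory Filter Topology Set
open scoped ENNReal NNReal

namespace Keldysh

variable {n : ℕ} {Ω : Type*} [mΩ : MeasurableSpace Ω]

/-- A2 -/
theorem gauss_neg (n : ℕ) (t : ℝ≥0) : (gauss n t).map (fun x => -x) = gauss n t := by
  have h1 : (stdGaussian (E n)).map (fun x => -x) = stdGaussian (E n) :=
    stdGaussian_map (LinearIsometryEquiv.neg ℝ : E n ≃ₗᵢ[ℝ] E n)
  unfold gauss
  rw [Measure.map_map (by fun_prop) (by fun_prop)]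
  have h2 : ((fun x : E n => -x) ∘ fun x : E n => Real.sqrt t • x) =
      (fun x : E n => Real.sqrt t • x) ∘ fun x : E n => -x := by
    funext x
    simp
  rw [h2, ← Measure.map_map (by fun_prop) (by fun_prop), h1]

end Keldysh
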