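import Pool.Agent.Keldysh.Defs2
import Pool.Agent.Keldysh.M_gauss_prob
import Pool.Agent.Keldysh.M_gauss_neg

open MeasureTheory ProbabilityTheory Filter Topology Set
open scoped ENNReal NNReal

namespace Keldysh

variable {n : ℕ} {Ω : Type*} [mΩ : MeasurableSpace Ω]

theorem gauss_sym_form_int (μ : Measure (E n)) [IsProbabilityMeasure μ] (s : E n → ℝ)
    (hs : Integrable s) (hsm : Measurable s) (w : E n × E n → ℝ) (hw : Measurable w) (C : ℝ)
    (hC : ∀ p, |w p| ≤ C) : Integrable (fun p : E n × E n => s p.2 * w p) (μ.prod volume) := by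
  have h1 : Integrable (fun p : E n × E n => s p.2) (μ.prod volume) := hs.comp_snd μ
  refine (h1.norm.const_mul C).mono' ?_ ?_
  · exact ((hsm.comp measurable_snd).mul hw).aestronglyMeasurable
  · refine Filter.Eventually.of_forall fun p => ?_
    rw [norm_mul, mul_comm C]
    refine mul_le_mul_of_nonneg_left ?_ (norm_nonneg _)
    rw [Real.norm_eq_abs]
    exact hC p

theorem gauss_sym_form_aux (μ : Measure (E n)) [IsProbabilityMeasure μ]
    (hneg : μ.map (fun x => -x) = μ) (s u : E n → ℝ) (hs : Integrable s) (hsm : Measurable s)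
    (hu : Measurable u) (L : ℝ) (hL : ∀ x, |u x| ≤ L) :
    ∫ x, s x * ∫ z, (u (x + z) - u x) ∂μ =
      -(1 / 2) * ∫ x, ∫ z, (s (x + z) - s x) * (u (x + z) - u x) ∂μ := by
  -- the three functions
  have hb : ∀ a b : E n, |u a - u b| ≤ 2 * L := by
    intro a b
    have := abs_sub (u a) (u b)
    have h1 := hL a
    have h2 := hL b
    linarith
  have hF : Integrable (fun p : E n × E n => s p.2 * (u (p.2 + p.1) - u p.2)) (μ.prod volume) :=
    gauss_sym_form_int μ s hs hsm _ (by fun_prop) (2 * L) (fun p => hb _ _)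
  have hF' : Integrable (fun p : E n × E n => s p.2 * (u p.2 - u (p.2 - p.1)))
      (μ.prod volume) :=
    gauss_sym_form_int μ s hs hsm _ (by fun_prop) (2 * L) (fun p => hb _ _)
  have hT : MeasurePreserving (fun z : E n × E n => (z.1, z.1 + z.2)) (μ.prod volume)
      (μ.prod volume) := measurePreserving_prod_add μ volume
  have hG : Integrable (fun p : E n × E n => s (p.2 + p.1) * (u (p.2 + p.1) - u p.2))
      (μ.prod volume) := by
    have h1 := hT.integrable_comp_of_integrable hF'
    refine h1.congr (Filter.Eventually.of_forall fun p => ?_)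
    simp only [Function.comp]
    rw [add_comm p.1 p.2, add_sub_cancel_right]
  have hGI : ∫ p, s (p.2 + p.1) * (u (p.2 + p.1) - u p.2) ∂(μ.prod volume) =
      ∫ p, s p.2 * (u p.2 - u (p.2 - p.1)) ∂(μ.prod volume) := by
    have h1 : ∫ p, s p.2 * (u p.2 - u (p.2 - p.1)) ∂((μ.prod volume).map
        (fun z : E n × E n => (z.1, z.1 + z.2))) =
        ∫ p, s (p.1 + p.2) * (u (p.1 + p.2) - u (p.1 + p.2 - p.1)) ∂(μ.prod volume) := by
      rw [integral_map hT.measurable.aemeasurable]
      exact ((hsm.comp measurable_snd).mul (by fun_prop)).aestronglyMeasurable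
    rw [hT.map_eq] at h1
    rw [h1]
    refine integral_congr_ae (Filter.Eventually.of_forall fun p => ?_)
    simp only
    rw [add_comm p.1 p.2, add_sub_cancel_right]
  have hNI : ∫ p, s p.2 * (u p.2 - u (p.2 - p.1)) ∂(μ.prod volume) =
      ∫ p, s p.2 * (u p.2 - u (p.2 + p.1)) ∂(μ.prod volume) := by
    have hmn : Measurable (fun x : E n => -x) := measurable_neg
    have h2 : (μ.prod (volume : Measure (E n))).map (Prod.map (fun x => -x) id) =
        μ.prod volume := by
      rw [← Measure.map_prod_map μ volume hmn measurable_id, hneg, Measure.map_id]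
    have h1 : ∫ p, s p.2 * (u p.2 - u (p.2 - p.1)) ∂((μ.prod volume).map
        (Prod.map (fun x : E n => -x) id)) =
        ∫ p : E n × E n, s p.2 * (u p.2 - u (p.2 - -p.1)) ∂(μ.prod volume) := by
      rw [integral_map (hmn.prodMap measurable_id).aemeasurable]
      · rfl
      · exact ((hsm.comp measurable_snd).mul (by fun_prop)).aestronglyMeasurable
    rw [h2] at h1
    rw [h1]
    refine integral_congr_ae (Filter.Eventually.of_forall fun p => ?_)
    simp only
    rw [sub_neg_eq_add]
  have hLHS : ∫ x, s x * ∫ z, (u (x + z) - u x) ∂μ =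
      ∫ p, s p.2 * (u (p.2 + p.1) - u p.2) ∂(μ.prod volume) := by
    rw [integral_prod_symm _ hF]
    refine integral_congr_ae (Filter.Eventually.of_forall fun x => ?_)
    simp only
    rw [integral_const_mul]
  have hRHS : ∫ x, ∫ z, (s (x + z) - s x) * (u (x + z) - u x) ∂μ =
      ∫ p, s (p.2 + p.1) * (u (p.2 + p.1) - u p.2) ∂(μ.prod volume) -
      ∫ p, s p.2 * (u (p.2 + p.1) - u p.2) ∂(μ.prod volume) := by
    rw [← integral_sub hG hF]
    have h5 := integral_prod_symm _ (hG.sub hF)
    simp only [Pi.sub_apply] at h5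
    rw [h5]
    refine integral_congr_ae (Filter.Eventually.of_forall fun x => ?_)
    simp only
    refine integral_congr_ae (Filter.Eventually.of_forall fun z => ?_)
    simp only
    ring
  have hneg' : ∫ p, s p.2 * (u p.2 - u (p.2 + p.1)) ∂(μ.prod volume) =
      -∫ p, s p.2 * (u (p.2 + p.1) - u p.2) ∂(μ.prod volume) := by
    rw [← integral_neg]
    refine integral_congr_ae (Filter.Eventually.of_forall fun p => ?_)
    simp only
    ring
  rw [hLHS, hRHS, hGI, hNI, hneg']
  ring

/-- C4 -/
theorem gauss_sym_form (h : ℝ≥0) (s u : E n → ℝ) (hs : Integrable s) (hsm : Measurable s) (K : ℝ)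
    (hK : ∀ x, |s x| ≤ K) (hu : Measurable u) (L : ℝ) (hL : ∀ x, |u x| ≤ L) :
    ∫ x, s x * ∫ z, (u (x + z) - u x) ∂(gauss n h) =
      -(1 / 2) * ∫ x, ∫ z, (s (x + z) - s x) * (u (x + z) - u x) ∂(gauss n h) := by
  haveI := gauss_prob n h
  exact gauss_sym_form_aux (gauss n h) (gauss_neg n h) s u hs hsm hu L hL

end Keldysh
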