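import Pool.Agent.Keldysh.Defs2

open MeasureTheory ProbabilityTheory Filter Topology Set
open scoped ENNReal NNReal

namespace Keldysh

variable {n : ℕ} {Ω : Type*} [mΩ : MeasurableSpace Ω]

/-- C5 -/
theorem telescoping (P : Measure Ω) [IsProbabilityMeasure P] (Y : ℕ → Ω → E n)
    (hY : ∀ j, Measurable (Y j)) (σ σ' : Ω → ℕ) (hσ : Measurable σ) (hσ' : Measurable σ')
    (hle : ∀ ω, σ ω ≤ σ' ω) (N : ℕ) (hN : ∀ ω, σ' ω ≤ N) (G : Set Ω) (hG : MeasurableSet G)
    (u : E n → ℝ) (hu : Measurable u) (L : ℝ) (hL : ∀ x, |u x| ≤ L) :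
    ∑ j ∈ Finset.range N, ∫ ω in G ∩ {ω | σ ω ≤ j ∧ j < σ' ω},
      (u (Y (j + 1) ω) - u (Y j ω)) ∂P =
      ∫ ω in G, (u (Y (σ' ω) ω) - u (Y (σ ω) ω)) ∂P := by
  classical
  have hA : ∀ j : ℕ, MeasurableSet {ω | σ ω ≤ j ∧ j < σ' ω} := by
    intro j
    have h1 : MeasurableSet {ω | σ ω ≤ j} := hσ measurableSet_Iic
    have h2 : MeasurableSet {ω | j < σ' ω} := hσ' measurableSet_Ioi
    exact h1.inter h2
  have hmeas : ∀ j, Measurable fun ω => u (Y (j + 1) ω) - u (Y j ω) := fun j =>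
    (hu.comp (hY (j + 1))).sub (hu.comp (hY j))
  have hbd : ∀ j ω, ‖u (Y (j + 1) ω) - u (Y j ω)‖ ≤ 2 * L := by
    intro j ω
    rw [Real.norm_eq_abs]
    have h1 := hL (Y (j + 1) ω)
    have h2 := hL (Y j ω)
    rw [abs_le] at *
    constructor <;> linarith [h1.1, h1.2, h2.1, h2.2]
  have hint : ∀ j, Integrable (fun ω => u (Y (j + 1) ω) - u (Y j ω)) (P.restrict G) := by
    intro j
    exact Integrable.of_bound (hmeas j).aestronglyMeasurable (2 * L)
      (Filter.Eventually.of_forall (hbd j))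
  have h1 : ∀ j ∈ Finset.range N, ∫ ω in G ∩ {ω | σ ω ≤ j ∧ j < σ' ω},
      (u (Y (j + 1) ω) - u (Y j ω)) ∂P =
      ∫ ω in G, ({ω | σ ω ≤ j ∧ j < σ' ω}).indicator
        (fun ω => u (Y (j + 1) ω) - u (Y j ω)) ω ∂P := by
    intro j _
    rw [setIntegral_indicator (hA j)]
  rw [Finset.sum_congr rfl h1, ← integral_finset_sum]
  · refine integral_congr_ae (Filter.Eventually.of_forall fun ω => ?_)
    show ∑ j ∈ Finset.range N, ({ω | σ ω ≤ j ∧ j < σ' ω}).indicator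
        (fun ω => u (Y (j + 1) ω) - u (Y j ω)) ω = u (Y (σ' ω) ω) - u (Y (σ ω) ω)
    simp only [Set.indicator_apply, Set.mem_ofPred_eq]
    rw [← Finset.sum_filter]
    have h2 : (Finset.range N).filter (fun j => σ ω ≤ j ∧ j < σ' ω) =
        Finset.Ico (σ ω) (σ' ω) := by
      ext j
      simp only [Finset.mem_filter, Finset.mem_range, Finset.mem_Ico]
      have := hN ω
      constructor
      · rintro ⟨_, h⟩; exact h
      · rintro ⟨h, h'⟩; exact ⟨by omega, h, h'⟩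
    rw [h2]
    exact Finset.sum_Ico_sub (fun j => u (Y j ω)) (hle ω)
  · intro j _
    exact (hint j).indicator (hA j)

end Keldysh
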