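import Pool.Agent.Keldysh.Defs2
import Pool.Agent.Keldysh.M_gauss_prob
import Pool.Agent.Keldysh.M_dei
import Pool.Agent.Keldysh.M_gauss_sym_form
import Pool.Agent.Keldysh.M_telescoping

open MeasureTheory ProbabilityTheory Filter Topology Set
open scoped ENNReal NNReal

namespace Keldysh

variable {n : ℕ} {Ω : Type*} [mΩ : MeasurableSpace Ω]

theorem key_ineq_gauss_neg (n : ℕ) (t : ℝ≥0) : (gauss n t).map (fun z => -z) = gauss n t := by
  have h1 : (stdGaussian (E n)).map (fun z => -z) = stdGaussian (E n) := by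
    have := stdGaussian_map (E := E n) (LinearIsometryEquiv.neg ℝ)
    simpa using this
  unfold gauss
  rw [Measure.map_map (by fun_prop) (by fun_prop)]
  conv_rhs => rw [← h1]
  rw [Measure.map_map (by fun_prop) (by fun_prop)]
  congr 1
  funext x
  simp

theorem key_ineq_swap (h : ℝ≥0) (D : Set (E n)) (hD : MeasurableSet D) (u : E n → ℝ)
    (hu : Measurable u) :
    ∫⁻ x, ∫⁻ z, D.indicator (fun _ => (1:ℝ≥0∞)) (x+z) * ‖u (x + z) - u x‖ₑ ^ 2 ∂(gauss n h) =
      ∫⁻ x in D, ∫⁻ z, ‖u (x + z) - u x‖ₑ ^ 2 ∂(gauss n h) := by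
  have := gauss_prob n h
  have hI : Measurable (D.indicator (fun _ => (1:ℝ≥0∞))) := measurable_const.indicator hD
  have hm : Measurable (Function.uncurry fun x z : E n =>
      D.indicator (fun _ => (1:ℝ≥0∞)) (x+z) * ‖u (x + z) - u x‖ₑ ^ 2) := by
    refine (hI.comp (measurable_fst.add measurable_snd)).mul ?_
    exact (((hu.comp (measurable_fst.add measurable_snd)).sub
      (hu.comp measurable_fst)).enorm).pow_const 2
  rw [lintegral_lintegral_swap hm.aemeasurable]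
  have h1 : ∀ z : E n, ∫⁻ x, D.indicator (fun _ => (1:ℝ≥0∞)) (x+z) * ‖u (x + z) - u x‖ₑ ^ 2 =
      ∫⁻ x, D.indicator (fun _ => (1:ℝ≥0∞)) x * ‖u x - u (x - z)‖ₑ ^ 2 := by
    intro z
    rw [← lintegral_add_right_eq_self
      (fun x => D.indicator (fun _ => (1:ℝ≥0∞)) x * ‖u x - u (x - z)‖ₑ ^ 2) z]
    simp
  simp_rw [h1]
  have hm2 : Measurable (Function.uncurry fun z x : E n =>
      D.indicator (fun _ => (1:ℝ≥0∞)) x * ‖u x - u (x - z)‖ₑ ^ 2) := by
    refine (hI.comp measurable_snd).mul ?_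
    exact (((hu.comp measurable_snd).sub
      (hu.comp (measurable_snd.sub measurable_fst))).enorm).pow_const 2
  have h2 : ∫⁻ z, (∫⁻ x, D.indicator (fun _ => (1:ℝ≥0∞)) x * ‖u x - u (x - z)‖ₑ ^ 2) ∂(gauss n h) =
      ∫⁻ z, (∫⁻ x, D.indicator (fun _ => (1:ℝ≥0∞)) x * ‖u x - u (x + z)‖ₑ ^ 2) ∂(gauss n h) := by
    conv_lhs => rw [← key_ineq_gauss_neg n h]
    have hm2' : Measurable fun z : E n =>
        ∫⁻ x, D.indicator (fun _ => (1:ℝ≥0∞)) x * ‖u x - u (x - z)‖ₑ ^ 2 :=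
      hm2.lintegral_prod_right'
    rw [lintegral_map hm2' measurable_neg]
    simp
  rw [h2]
  have hm3 : Measurable (Function.uncurry fun z x : E n =>
      D.indicator (fun _ => (1:ℝ≥0∞)) x * ‖u x - u (x + z)‖ₑ ^ 2) := by
    refine (hI.comp measurable_snd).mul ?_
    exact (((hu.comp measurable_snd).sub
      (hu.comp (measurable_snd.add measurable_fst))).enorm).pow_const 2
  rw [lintegral_lintegral_swap hm3.aemeasurable, ← lintegral_indicator hD]
  refine lintegral_congr fun x => ?_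
  by_cases hx : x ∈ D
  · simp [hx, enorm_sub_rev]
  · simp [hx]

/-- Cauchy-Schwarz step -/
theorem key_ineq_cs (h : ℝ≥0) (D : Set (E n)) (hD : MeasurableSet D) (u s : E n → ℝ)
    (hu : Measurable u) (hs : Measurable s) (hs0 : ∀ x, x ∉ D → s x = 0) :
    (∫⁻ x, ∫⁻ z, ‖(s (x + z) - s x) * (u (x + z) - u x)‖ₑ ∂(gauss n h)) ^ 2 ≤
      (∫⁻ x, ∫⁻ z, ‖s (x + z) - s x‖ₑ ^ 2 ∂(gauss n h)) *
      (2 * ∫⁻ x in D, ∫⁻ z, ‖u (x + z) - u x‖ₑ ^ 2 ∂(gauss n h)) := by
  have := gauss_prob n h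
  have hI : Measurable (D.indicator (fun _ => (1:ℝ≥0∞))) := measurable_const.indicator hD
  set f : E n × E n → ℝ≥0∞ := fun p => ‖s (p.1 + p.2) - s p.1‖ₑ with hf
  set d : E n × E n → ℝ≥0∞ := fun p => ‖u (p.1 + p.2) - u p.1‖ₑ with hd
  have hfm : Measurable f := ((hs.comp (measurable_fst.add measurable_snd)).sub
      (hs.comp measurable_fst)).enorm
  have hdm : Measurable d := ((hu.comp (measurable_fst.add measurable_snd)).sub
      (hu.comp measurable_fst)).enorm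
  have hBm : MeasurableSet {p : E n × E n | p.1 ∈ D ∨ p.1 + p.2 ∈ D} :=
    (measurable_fst hD).union ((measurable_fst.add measurable_snd) hD)
  set g : E n × E n → ℝ≥0∞ := {p : E n × E n | p.1 ∈ D ∨ p.1 + p.2 ∈ D}.indicator d with hg
  have hgm : Measurable g := hdm.indicator hBm
  have e1 : ∫⁻ x, ∫⁻ z, ‖(s (x + z) - s x) * (u (x + z) - u x)‖ₑ ∂(gauss n h) =
      ∫⁻ p, (f * g) p ∂((volume : Measure (E n)).prod (gauss n h)) := by
    rw [lintegral_prod _ (hfm.mul hgm).aemeasurable]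
    refine lintegral_congr fun x => lintegral_congr fun z => ?_
    simp only [Pi.mul_apply, enorm_mul, hf, hg]
    by_cases hp : (x, z) ∈ {p : E n × E n | p.1 ∈ D ∨ p.1 + p.2 ∈ D}
    · rw [indicator_of_mem hp]
    · rw [indicator_of_notMem hp]
      simp only [mem_ofPred_eq, not_or] at hp
      rw [hs0 _ hp.1, hs0 _ hp.2]
      simp
  have e2 : ∫⁻ x, ∫⁻ z, ‖s (x + z) - s x‖ₑ ^ 2 ∂(gauss n h) =
      ∫⁻ p, f p ^ 2 ∂((volume : Measure (E n)).prod (gauss n h)) := by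
    rw [lintegral_prod _ (hfm.pow_const 2).aemeasurable]
  have e3 : ∫⁻ p, g p ^ 2 ∂((volume : Measure (E n)).prod (gauss n h)) ≤
      2 * ∫⁻ x in D, ∫⁻ z, ‖u (x + z) - u x‖ₑ ^ 2 ∂(gauss n h) := by
    have hm1 : Measurable fun p : E n × E n => D.indicator (fun _ => (1:ℝ≥0∞)) p.1 * d p ^ 2 :=
      (hI.comp measurable_fst).mul (hdm.pow_const 2)
    have hm2 : Measurable fun p : E n × E n =>
        D.indicator (fun _ => (1:ℝ≥0∞)) (p.1 + p.2) * d p ^ 2 :=
      (hI.comp (measurable_fst.add measurable_snd)).mul (hdm.pow_const 2)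
    calc ∫⁻ p, g p ^ 2 ∂((volume : Measure (E n)).prod (gauss n h))
        ≤ ∫⁻ p, (D.indicator (fun _ => (1:ℝ≥0∞)) p.1 * d p ^ 2 +
            D.indicator (fun _ => (1:ℝ≥0∞)) (p.1 + p.2) * d p ^ 2)
              ∂((volume : Measure (E n)).prod (gauss n h)) := by
          refine lintegral_mono fun p => ?_
          simp only [hg]
          by_cases h1 : p.1 ∈ D
          · have hp : p ∈ {p : E n × E n | p.1 ∈ D ∨ p.1 + p.2 ∈ D} := Or.inl h1
            rw [indicator_of_mem hp, indicator_of_mem h1, one_mul]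
            exact le_self_add
          · by_cases h2 : p.1 + p.2 ∈ D
            · have hp : p ∈ {p : E n × E n | p.1 ∈ D ∨ p.1 + p.2 ∈ D} := Or.inr h2
              rw [indicator_of_mem hp, indicator_of_mem h2, one_mul]
              exact le_add_self
            · have hp : p ∉ {p : E n × E n | p.1 ∈ D ∨ p.1 + p.2 ∈ D} := by
                simp only [mem_ofPred_eq, not_or]; exact ⟨h1, h2⟩
              rw [indicator_of_notMem hp]
              simp
      _ = 2 * ∫⁻ x in D, ∫⁻ z, ‖u (x + z) - u x‖ₑ ^ 2 ∂(gauss n h) := by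
          rw [lintegral_add_left hm1, lintegral_prod _ hm1.aemeasurable,
            lintegral_prod _ hm2.aemeasurable, two_mul]
          congr 1
          · rw [← lintegral_indicator hD]
            refine lintegral_congr fun x => ?_
            by_cases hx : x ∈ D
            · simp [hx, hd]
            · simp [hx]
          · exact key_ineq_swap h D hD u hu
  rw [e1, e2]
  have hH := ENNReal.lintegral_mul_le_Lp_mul_Lq ((volume : Measure (E n)).prod (gauss n h))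
    Real.HolderConjugate.two_two hfm.aemeasurable hgm.aemeasurable
  have hsq : ∀ a b : ℝ≥0∞, (a ^ (1 / (2:ℝ)) * b ^ (1 / (2:ℝ))) ^ 2 = a * b := by
    intro a b
    rw [mul_pow, ← ENNReal.rpow_natCast, ← ENNReal.rpow_natCast, ← ENNReal.rpow_mul,
      ← ENNReal.rpow_mul]
    norm_num
  calc (∫⁻ p, (f * g) p ∂((volume : Measure (E n)).prod (gauss n h))) ^ 2
      ≤ ((∫⁻ p, f p ^ (2:ℝ) ∂((volume : Measure (E n)).prod (gauss n h))) ^ (1 / (2:ℝ)) *
        (∫⁻ p, g p ^ (2:ℝ) ∂((volume : Measure (E n)).prod (gauss n h))) ^ (1 / (2:ℝ))) ^ 2 :=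
        pow_le_pow_left' hH 2
    _ = (∫⁻ p, f p ^ (2:ℝ) ∂((volume : Measure (E n)).prod (gauss n h))) *
        (∫⁻ p, g p ^ (2:ℝ) ∂((volume : Measure (E n)).prod (gauss n h))) := hsq _ _
    _ = (∫⁻ p, f p ^ 2 ∂((volume : Measure (E n)).prod (gauss n h))) *
        (∫⁻ p, g p ^ 2 ∂((volume : Measure (E n)).prod (gauss n h))) := by
        simp only [ENNReal.rpow_two]
    _ ≤ _ := mul_le_mul_right e3 _

/-- finiteness of the Dirichlet integral of `s` -/
theorem key_ineq_ds (h : ℝ≥0) (s : E n → ℝ) (hs : Measurable s) (K : ℝ)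
    (h0 : ∀ x, 0 ≤ s x) (hK : ∀ x, s x ≤ K) (hint : Integrable s) :
    ∫⁻ x, ∫⁻ z, ‖s (x + z) - s x‖ₑ ^ 2 ∂(gauss n h) =
      ENNReal.ofReal (∫ x, ∫ z, (s (x + z) - s x) * (s (x + z) - s x) ∂(gauss n h)) := by
  have := gauss_prob n h
  have hK0 : 0 ≤ K := (h0 0).trans (hK 0)
  set Q : E n × E n → ℝ := fun p => (s (p.1 + p.2) - s p.1) * (s (p.1 + p.2) - s p.1) with hQ
  have hQm : Measurable Q := by
    have : Measurable fun p : E n × E n => s (p.1 + p.2) - s p.1 :=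
      (hs.comp (measurable_fst.add measurable_snd)).sub (hs.comp measurable_fst)
    exact this.mul this
  have hi1 : Integrable (fun p : E n × E n => s p.1)
      ((volume : Measure (E n)).prod (gauss n h)) := hint.comp_fst _
  have hi2 : Integrable (fun p : E n × E n => s (p.1 + p.2))
      ((volume : Measure (E n)).prod (gauss n h)) := by
    have := (measurePreserving_add_prod (volume : Measure (E n)) (gauss n h)).integrable_comp_of_integrable hi1
    exact this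
  have hQi : Integrable Q ((volume : Measure (E n)).prod (gauss n h)) := by
    refine ((hi2.add hi1).const_mul K).mono' hQm.aestronglyMeasurable (ae_of_all _ fun p => ?_)
    simp only [hQ, Pi.add_apply]
    rw [Real.norm_eq_abs, abs_mul]
    have a1 : |s (p.1 + p.2) - s p.1| ≤ K := by
      rw [abs_le]; constructor <;> linarith [h0 (p.1 + p.2), h0 p.1, hK (p.1 + p.2), hK p.1]
    have a2 : |s (p.1 + p.2) - s p.1| ≤ s (p.1 + p.2) + s p.1 := by
      rw [abs_le]; constructor <;> linarith [h0 (p.1 + p.2), h0 p.1]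
    exact mul_le_mul a1 a2 (abs_nonneg _) hK0
  have hQ0 : 0 ≤ᵐ[(volume : Measure (E n)).prod (gauss n h)] Q :=
    ae_of_all _ fun p => mul_self_nonneg _
  have e1 : ∫ x, ∫ z, (s (x + z) - s x) * (s (x + z) - s x) ∂(gauss n h) =
      ∫ p, Q p ∂((volume : Measure (E n)).prod (gauss n h)) := by
    rw [integral_prod _ hQi]
  rw [e1, ofReal_integral_eq_lintegral_ofReal hQi hQ0,
    lintegral_prod _ hQm.ennreal_ofReal.aemeasurable]
  refine lintegral_congr fun x => lintegral_congr fun z => ?_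
  simp only [hQ]
  rw [← sq, ← sq_abs, ENNReal.ofReal_pow (abs_nonneg _), ← Real.norm_eq_abs, ofReal_norm]

theorem key_ineq_core (P : Measure Ω) [IsProbabilityMeasure P] (Y : ℕ → Ω → E n)
    (F : ℕ → MeasurableSpace Ω) (h C : ℝ≥0) (hY : GWalk P Y F h C) (σ σ' : Ω → ℕ)
    (hσ : IsStop F σ) (hσ' : IsStop F σ') (hle : ∀ ω, σ ω ≤ σ' ω) (N : ℕ)
    (hN : ∀ ω, σ' ω ≤ N) (G : Set Ω) (hG : ∀ j, MeasurableSet[F j] (G ∩ {ω | σ ω ≤ j}))
    (D : Set (E n)) (hD : MeasurableSet D)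
    (K : ℝ) (s : E n → ℝ)
    (hs : OccDens P Y (fun j => G ∩ {ω | σ ω ≤ j ∧ j < σ' ω}) N K s)
    (hs0 : ∀ x, x ∉ D → s x = 0)
    (u : E n → ℝ) (hu : Measurable u) (L : ℝ) (hL : ∀ x, |u x| ≤ L) :
    ENNReal.ofReal ((∫ ω in G, (u (Y (σ' ω) ω) - u (Y (σ ω) ω)) ∂P) ^ 2) ≤
      ENNReal.ofReal (∫ ω in G, s (Y (σ ω) ω) ∂P) *
        ∫⁻ x in D, ∫⁻ z, ‖u (x + z) - u x‖ₑ ^ 2 ∂(gauss n h) := by
  have := gauss_prob n h
  have hYm : ∀ j, Measurable (Y j) := fun j => (hY.adapted j).mono (hY.F_le j) le_rfl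
  have hσm : Measurable σ := measurable_of_Iic fun j => hY.F_le j _ (hσ j)
  have hσ'm : Measurable σ' := measurable_of_Iic fun j => hY.F_le j _ (hσ' j)
  have hGm : MeasurableSet G := by
    have h1 := hY.F_le N _ (hG N)
    have h2 : G ∩ {ω | σ ω ≤ N} = G := by
      rw [inter_eq_left]
      intro ω _
      exact (hle ω).trans (hN ω)
    rwa [h2] at h1
  have hA : ∀ j, MeasurableSet[F j] (G ∩ {ω | σ ω ≤ j ∧ j < σ' ω}) := by
    intro j
    have h1 : G ∩ {ω | σ ω ≤ j ∧ j < σ' ω} = (G ∩ {ω | σ ω ≤ j}) ∩ {ω | σ' ω ≤ j}ᶜ := by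
      ext ω
      simp only [mem_inter_iff, mem_ofPred_eq, mem_compl_iff, not_le]
      tauto
    rw [h1]
    exact (hG j).inter (hσ' j).compl
  have hKs : ∀ x, |s x| ≤ K := fun x => by rw [abs_of_nonneg (hs.nonneg x)]; exact hs.le x
  have main : ∀ (v : E n → ℝ) (_ : Measurable v) (M : ℝ) (_ : ∀ x, |v x| ≤ M),
      ∫ ω in G, (v (Y (σ' ω) ω) - v (Y (σ ω) ω)) ∂P =
      -(1 / 2) * ∫ x, ∫ z, (s (x + z) - s x) * (v (x + z) - v x) ∂(gauss n h) := by
    intro v hv M hM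
    rw [← telescoping P Y hYm σ σ' hσm hσ'm hle N hN G hGm v hv M hM,
      dei P Y F h C hY _ hA N K s hs v hv M hM,
      gauss_sym_form h s v hs.int hs.meas K hKs hv M hM]
  have hYσ : ∀ τ : Ω → ℕ, Measurable τ → Measurable fun ω => Y (τ ω) ω := by
    intro τ hτ
    have : Measurable fun p : ℕ × Ω => Y p.1 p.2 := measurable_from_prod_countable_right hYm
    exact this.comp (hτ.prodMk measurable_id)
  have hsi : ∀ τ : Ω → ℕ, Measurable τ →
      Integrable (fun ω => s (Y (τ ω) ω)) (P.restrict G) := by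
    intro τ hτ
    refine Integrable.mono' (integrable_const K)
      (hs.meas.comp (hYσ τ hτ)).aestronglyMeasurable (ae_of_all _ fun ω => ?_)
    exact hKs _
  have hS : ∫ x, ∫ z, (s (x + z) - s x) * (s (x + z) - s x) ∂(gauss n h) ≤
      2 * ∫ ω in G, s (Y (σ ω) ω) ∂P := by
    have h1 := main s hs.meas K hKs
    rw [integral_sub (hsi σ' hσ'm) (hsi σ hσm)] at h1
    have h2 : 0 ≤ ∫ ω in G, s (Y (σ' ω) ω) ∂P := integral_nonneg fun ω => hs.nonneg _
    linarith
  set T := ∫⁻ x in D, ∫⁻ z, ‖u (x + z) - u x‖ₑ ^ 2 ∂(gauss n h) with hT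
  set M := ∫ x, ∫ z, (s (x + z) - s x) * (u (x + z) - u x) ∂(gauss n h) with hM
  have hM1 : ‖M‖ₑ ≤ ∫⁻ x, ∫⁻ z, ‖(s (x + z) - s x) * (u (x + z) - u x)‖ₑ ∂(gauss n h) := by
    refine (enorm_integral_le_lintegral_enorm _).trans ?_
    exact lintegral_mono fun x => enorm_integral_le_lintegral_enorm _
  have hM2 : ‖M‖ₑ ^ 2 ≤ ENNReal.ofReal (2 * ∫ ω in G, s (Y (σ ω) ω) ∂P) * (2 * T) := by
    refine (pow_le_pow_left' hM1 2).trans ?_
    refine (key_ineq_cs h D hD u s hu hs.meas hs0).trans ?_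
    rw [key_ineq_ds h s hs.meas K hs.nonneg hs.le hs.int]
    exact mul_le_mul_left (ENNReal.ofReal_le_ofReal hS) _
  rw [main u hu L hL]
  have h3 : ENNReal.ofReal ((-(1 / 2) * M) ^ 2) = ENNReal.ofReal (1/4) * ‖M‖ₑ ^ 2 := by
    rw [show (-(1 / 2) * M) ^ 2 = (1/4) * (|M| ^ 2) by rw [sq_abs]; ring,
      ENNReal.ofReal_mul (by norm_num), ENNReal.ofReal_pow (abs_nonneg _), ← Real.norm_eq_abs,
      ofReal_norm]
  rw [h3]
  calc ENNReal.ofReal (1/4) * ‖M‖ₑ ^ 2
      ≤ ENNReal.ofReal (1/4) * (ENNReal.ofReal (2 * ∫ ω in G, s (Y (σ ω) ω) ∂P) * (2 * T)) :=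
        mul_le_mul_right hM2 _
    _ = (ENNReal.ofReal (1/4) * ENNReal.ofReal 2 * ENNReal.ofReal 2) *
          (ENNReal.ofReal (∫ ω in G, s (Y (σ ω) ω) ∂P) * T) := by
        rw [ENNReal.ofReal_mul (by norm_num : (0:ℝ) ≤ 2)]
        have : (2 : ℝ≥0∞) = ENNReal.ofReal 2 := by norm_num
        rw [this]
        ring
    _ = ENNReal.ofReal (∫ ω in G, s (Y (σ ω) ω) ∂P) * T := by
        rw [← ENNReal.ofReal_mul (by norm_num), ← ENNReal.ofReal_mul (by norm_num)]
        norm_num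

/-- C6: the key inequality. -/
theorem key_ineq (P : Measure Ω) [IsProbabilityMeasure P] (Y : ℕ → Ω → E n)
    (F : ℕ → MeasurableSpace Ω) (h C : ℝ≥0) (hY : GWalk P Y F h C) (σ σ' : Ω → ℕ)
    (hσ : IsStop F σ) (hσ' : IsStop F σ') (hle : ∀ ω, σ ω ≤ σ' ω) (N : ℕ)
    (hN : ∀ ω, σ' ω ≤ N) (G : Set Ω) (hG : ∀ j, MeasurableSet[F j] (G ∩ {ω | σ ω ≤ j}))
    (D : Set (E n)) (hD : MeasurableSet D)
    (hin : ∀ ω ∈ G, ∀ j, σ ω ≤ j → j < σ' ω → Y j ω ∈ D)
    (K : ℝ) (s : E n → ℝ)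
    (hs : OccDens P Y (fun j => G ∩ {ω | σ ω ≤ j ∧ j < σ' ω}) N K s)
    (u : E n → ℝ) (hu : Measurable u) (L : ℝ) (hL : ∀ x, |u x| ≤ L) :
    ENNReal.ofReal ((∫ ω in G, (u (Y (σ' ω) ω) - u (Y (σ ω) ω)) ∂P) ^ 2) ≤
      ENNReal.ofReal (∫ ω in G, s (Y (σ ω) ω) ∂P) *
        ∫⁻ x in D, ∫⁻ z, ‖u (x + z) - u x‖ₑ ^ 2 ∂(gauss n h) := by
  have hYm : ∀ j, Measurable (Y j) := fun j => (hY.adapted j).mono (hY.F_le j) le_rfl
  have hσm : Measurable σ := measurable_of_Iic fun j => hY.F_le j _ (hσ j)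
  have hσ'm : Measurable σ' := measurable_of_Iic fun j => hY.F_le j _ (hσ' j)
  have hGm : MeasurableSet G := by
    have h1 := hY.F_le N _ (hG N)
    have h2 : G ∩ {ω | σ ω ≤ N} = G := by
      rw [inter_eq_left]
      intro ω _
      exact (hle ω).trans (hN ω)
    rwa [h2] at h1
  have hAm : ∀ j, MeasurableSet (G ∩ {ω | σ ω ≤ j ∧ j < σ' ω}) := by
    intro j
    exact hGm.inter ((measurableSet_le hσm measurable_const).inter
      (measurableSet_lt measurable_const hσ'm))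
  have hK0 : 0 ≤ K := (hs.nonneg 0).trans (hs.le 0)
  have hocc : occ P Y (fun j => G ∩ {ω | σ ω ≤ j ∧ j < σ' ω}) N Dᶜ = 0 := by
    unfold occ
    rw [Measure.finsetSum_apply]
    refine Finset.sum_eq_zero fun j _ => ?_
    rw [Measure.map_apply (hYm j) hD.compl, Measure.restrict_apply ((hYm j) hD.compl)]
    have : Y j ⁻¹' Dᶜ ∩ (G ∩ {ω | σ ω ≤ j ∧ j < σ' ω}) = ∅ := by
      ext ω
      simp only [mem_inter_iff, mem_preimage, mem_compl_iff, mem_ofPred_eq, mem_empty_iff_false,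
        iff_false]
      rintro ⟨h1, h2, h3, h4⟩
      exact h1 (hin ω h2 j h3 h4)
    rw [this, measure_empty]
  have hs' : OccDens P Y (fun j => G ∩ {ω | σ ω ≤ j ∧ j < σ' ω}) N K (D.indicator s) := by
    refine ⟨hs.meas.indicator hD, fun x => indicator_nonneg (fun x _ => hs.nonneg x) x,
      fun x => ?_, hs.int.indicator hD, ?_⟩
    · by_cases hx : x ∈ D
      · rw [indicator_of_mem hx]; exact hs.le x
      · rw [indicator_of_notMem hx]; exact hK0
    · have h1 : (fun x => ENNReal.ofReal (D.indicator s x)) =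
          D.indicator (fun x => ENNReal.ofReal (s x)) := by
        funext x
        by_cases hx : x ∈ D
        · simp [hx]
        · simp [hx]
      rw [h1, withDensity_indicator hD, ← restrict_withDensity hD, ← hs.eq]
      refine (Measure.restrict_eq_self_of_ae_mem ?_).symm
      exact hocc
  refine (key_ineq_core P Y F h C hY σ σ' hσ hσ' hle N hN G hG D hD K (D.indicator s) hs'
    (fun x hx => indicator_of_notMem hx s) u hu L hL).trans ?_
  refine mul_le_mul_left (ENNReal.ofReal_le_ofReal ?_) _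
  have hYσ : Measurable fun ω => Y (σ ω) ω := by
    have : Measurable fun p : ℕ × Ω => Y p.1 p.2 := measurable_from_prod_countable_right hYm
    exact this.comp (hσm.prodMk measurable_id)
  refine integral_mono ?_ ?_ ?_
  · refine Integrable.mono' (integrable_const K)
      (hs'.meas.comp hYσ).aestronglyMeasurable (ae_of_all _ fun ω => ?_)
    rw [Real.norm_eq_abs]
    show |D.indicator s (Y (σ ω) ω)| ≤ K
    rw [abs_of_nonneg (hs'.nonneg _)]
    exact hs'.le _
  · refine Integrable.mono' (integrable_const K)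
      (hs.meas.comp hYσ).aestronglyMeasurable (ae_of_all _ fun ω => ?_)
    rw [Real.norm_eq_abs]
    show |s (Y (σ ω) ω)| ≤ K
    rw [abs_of_nonneg (hs.nonneg _)]
    exact hs.le _
  · intro ω
    exact indicator_le_self' (fun x _ => hs.nonneg x) _

end Keldysh
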