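import Pool.Agent.Keldysh.Defs2
import Pool.Agent.Keldysh.M_gauss_prob
import Pool.Agent.Keldysh.M_gauss_neg
import Pool.Agent.Keldysh.M_exitIdx_le
import Pool.Agent.Keldysh.M_exitIdx_mem
import Pool.Agent.Keldysh.M_exitIdx_not_mem
import Pool.Agent.Keldysh.M_exitIdx_mono
import Pool.Agent.Keldysh.M_exitIdx_stop
import Pool.Agent.Keldysh.M_exists_occDens
import Pool.Agent.Keldysh.M_dei
import Pool.Agent.Keldysh.M_gauss_sym_form
import Pool.Agent.Keldysh.M_telescoping

open MeasureTheory ProbabilityTheory Filter Topology Set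
open scoped ENNReal NNReal

namespace Keldysh

variable {n : ℕ} {Ω : Type*} [mΩ : MeasurableSpace Ω]

theorem occ_bound_restrict (P : Measure Ω) (Y : ℕ → Ω → E n) (hYm : ∀ j, Measurable (Y j))
    (A : ℕ → Set Ω) (N : ℕ) (D : Set (E n)) (hD : MeasurableSet D)
    (hAD : ∀ j, ∀ ω ∈ A j, Y j ω ∈ D) : (occ P Y A N).restrict D = occ P Y A N := by
  apply Measure.restrict_eq_self_of_ae_mem
  rw [ae_iff]
  unfold occ
  rw [Measure.finsetSum_apply]
  refine Finset.sum_eq_zero fun j _ => ?_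
  have e : {x : E n | ¬ x ∈ D} = Dᶜ := rfl
  rw [e, Measure.map_apply (hYm j) hD.compl, Measure.restrict_apply ((hYm j) hD.compl)]
  have : (Y j) ⁻¹' Dᶜ ∩ A j = ∅ := by
    ext ω
    constructor
    · rintro ⟨h1, h2⟩
      exact h1 (hAD j ω h2)
    · intro h
      exact h.elim
  rw [this, measure_empty]

theorem occ_bound_modify (P : Measure Ω) (Y : ℕ → Ω → E n) (hYm : ∀ j, Measurable (Y j))
    (A : ℕ → Set Ω) (N : ℕ) (D : Set (E n)) (hD : MeasurableSet D)
    (hAD : ∀ j, ∀ ω ∈ A j, Y j ω ∈ D) (K : ℝ) (s0 : E n → ℝ) (h0 : OccDens P Y A N K s0) :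
    OccDens P Y A N K (D.indicator s0) := by
  have hK : 0 ≤ K := (h0.nonneg 0).trans (h0.le 0)
  refine ⟨h0.meas.indicator hD, fun x => Set.indicator_nonneg (fun _ _ => h0.nonneg _) x,
    fun x => ?_, h0.int.indicator hD, ?_⟩
  · by_cases hx : x ∈ D
    · rw [Set.indicator_of_mem hx]; exact h0.le x
    · rw [Set.indicator_of_notMem hx]; exact hK
  · rw [← occ_bound_restrict P Y hYm A N D hD hAD, h0.eq, restrict_withDensity hD,
      ← withDensity_indicator hD]
    congr 1
    funext x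
    by_cases hx : x ∈ D
    · rw [Set.indicator_of_mem hx, Set.indicator_of_mem hx]
    · rw [Set.indicator_of_notMem hx, Set.indicator_of_notMem hx, ENNReal.ofReal_zero]

theorem occ_bound_stop_meas (F : ℕ → MeasurableSpace Ω) (hF : ∀ j, F j ≤ mΩ) (σ : Ω → ℕ)
    (hσ : IsStop F σ) : Measurable σ := by
  apply measurable_of_Iic
  intro j
  exact hF j _ (hσ j)

theorem occ_bound_comp_meas (Y : ℕ → Ω → E n) (hYm : ∀ j, Measurable (Y j)) (σ : Ω → ℕ)
    (hσ : Measurable σ) : Measurable fun ω => Y (σ ω) ω := by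
  have h1 : Measurable fun q : ℕ × Ω => Y q.1 q.2 :=
    measurable_from_prod_countable_right fun j => hYm j
  exact h1.comp (hσ.prodMk measurable_id)

theorem occ_bound_mass (P : Measure Ω) [IsProbabilityMeasure P] (Y : ℕ → Ω → E n)
    (hYm : ∀ j, Measurable (Y j)) (A : ℕ → Set Ω) (N : ℕ) (K : ℝ) (s : E n → ℝ)
    (hs : OccDens P Y A N K s) : ∫ x, s x = ∑ j ∈ Finset.range N, P.real (A j) := by
  have h1 : ENNReal.ofReal (∫ x, s x) = ∑ j ∈ Finset.range N, P (A j) := by
    rw [ofReal_integral_eq_lintegral_ofReal hs.int (Filter.Eventually.of_forall hs.nonneg)]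
    have h2 : (volume.withDensity (fun x => ENNReal.ofReal (s x))) univ =
        ∫⁻ x, ENNReal.ofReal (s x) := by
      rw [withDensity_apply _ MeasurableSet.univ, Measure.restrict_univ]
    rw [← h2, ← hs.eq]
    unfold occ
    rw [Measure.finsetSum_apply]
    refine Finset.sum_congr rfl fun j _ => ?_
    rw [Measure.map_apply (hYm j) MeasurableSet.univ, preimage_univ, Measure.restrict_apply_univ]
  have h3 : 0 ≤ ∫ x, s x := integral_nonneg hs.nonneg
  rw [← ENNReal.toReal_ofReal h3, h1, ENNReal.toReal_sum (fun j _ => measure_ne_top _ _)]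
  rfl

/-- C8 -/
theorem occ_bound (P : Measure Ω) [IsProbabilityMeasure P] (Y : ℕ → Ω → E n)
    (F : ℕ → MeasurableSpace Ω) (h C : ℝ≥0) (hY : GWalk P Y F h C)
    (D D' : Set (E n)) (hD : MeasurableSet D) (hD' : MeasurableSet D') (hDD : D ⊆ D') (N : ℕ)
    (K : ℝ) (s : E n → ℝ)
    (hs : OccDens P Y (fun j => {ω | exitIdx Y D N ω ≤ j ∧ j < exitIdx Y D' N ω}) N K s) :
    ∫ ω, s (Y (exitIdx Y D N ω) ω) ∂P ≤
      C * ∫ ω, ((exitIdx Y D' N ω : ℝ) - exitIdx Y D N ω) ∂P +
      N * C * (P {ω | exitIdx Y D N ω < N ∧ exitIdx Y D' N ω = N ∧ Y N ω ∈ D}).toReal := by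
  classical
  set a : Ω → ℕ := exitIdx Y D N with ha
  set b : Ω → ℕ := exitIdx Y D' N with hb
  have hYm : ∀ j, Measurable (Y j) := fun j => (hY.adapted j).mono (hY.F_le j) le_rfl
  have sa : IsStop F a := exitIdx_stop Y F hY.F_mono hY.adapted D hD N
  have sb : IsStop F b := exitIdx_stop Y F hY.F_mono hY.adapted D' hD' N
  have ma : Measurable a := occ_bound_stop_meas F hY.F_le a sa
  have mb : Measurable b := occ_bound_stop_meas F hY.F_le b sb
  have hab : ∀ ω, a ω ≤ b ω := fun ω => exitIdx_mono Y D D' hDD N ω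
  have haN : ∀ ω, a ω ≤ N := fun ω => exitIdx_le Y D N ω
  have hbN : ∀ ω, b ω ≤ N := fun ω => exitIdx_le Y D' N ω
  have mYa : Measurable fun ω => Y (a ω) ω := occ_bound_comp_meas Y hYm a ma
  have mYb : Measurable fun ω => Y (b ω) ω := occ_bound_comp_meas Y hYm b mb
  -- the two families
  have hA1 : ∀ j, MeasurableSet[F j] {ω | j < a ω} := by
    intro j
    have : {ω | j < a ω} = {ω | a ω ≤ j}ᶜ := by
      ext ω; simp
    rw [this]
    exact MeasurableSet.compl (sa j)
  have hA2 : ∀ j, MeasurableSet[F j] {ω | a ω ≤ j ∧ j < b ω} := by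
    intro j
    have : {ω | a ω ≤ j ∧ j < b ω} = {ω | a ω ≤ j} ∩ {ω | b ω ≤ j}ᶜ := by
      ext ω; simp
    rw [this]
    exact MeasurableSet.inter (sa j) (MeasurableSet.compl (sb j))
  obtain ⟨s0, hs0⟩ := exists_occDens P Y F h C hY (fun j => {ω | j < a ω}) hA1 N
  have hs1 := occ_bound_modify P Y hYm (fun j => {ω | j < a ω}) N D hD
    (fun j ω hj => exitIdx_mem Y D N ω j hj) _ s0 hs0
  set s1 : E n → ℝ := D.indicator s0 with hs1def
  have hNC : (0 : ℝ) ≤ N * C := by positivity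
  have sK : ∀ x, |s x| ≤ K := fun x => by rw [abs_of_nonneg (hs.nonneg x)]; exact hs.le x
  have s1K : ∀ x, |s1 x| ≤ N * C := fun x => by
    rw [abs_of_nonneg (hs1.nonneg x)]; exact hs1.le x
  -- first identity
  have id1 : ∫ ω, (s (Y (a ω) ω) - s (Y 0 ω)) ∂P =
      ∫ x, s1 x * ∫ z, (s (x + z) - s x) ∂(gauss n h) := by
    have t := telescoping P Y hYm (fun _ => 0) a measurable_const ma (fun ω => Nat.zero_le _) N haN
      univ MeasurableSet.univ s hs.meas K sK
    have d := dei P Y F h C hY (fun j => {ω | j < a ω}) hA1 N _ s1 hs1 s hs.meas K sK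
    rw [Measure.restrict_univ] at t
    rw [← t, ← d]
    refine Finset.sum_congr rfl fun j _ => ?_
    have : univ ∩ {ω : Ω | 0 ≤ j ∧ j < a ω} = {ω | j < a ω} := by
      ext ω; simp
    rw [this]
  have id2 : ∫ ω, (s1 (Y (b ω) ω) - s1 (Y (a ω) ω)) ∂P =
      ∫ x, s x * ∫ z, (s1 (x + z) - s1 x) ∂(gauss n h) := by
    have t := telescoping P Y hYm a b ma mb hab N hbN univ MeasurableSet.univ s1 hs1.meas _ s1K
    have d := dei P Y F h C hY (fun j => {ω | a ω ≤ j ∧ j < b ω}) hA2 N _ s hs s1 hs1.meas _ s1K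
    rw [Measure.restrict_univ] at t
    rw [← t, ← d]
    refine Finset.sum_congr rfl fun j _ => ?_
    rw [univ_inter]
  have id3 : ∫ x, s1 x * ∫ z, (s (x + z) - s x) ∂(gauss n h) =
      ∫ x, s x * ∫ z, (s1 (x + z) - s1 x) ∂(gauss n h) := by
    rw [gauss_sym_form h s1 s hs1.int hs1.meas _ s1K hs.meas K sK,
      gauss_sym_form h s s1 hs.int hs.meas _ sK hs1.meas _ s1K]
    congr 1
    congr 1
    funext x
    congr 1
    funext z
    ring
  have bint : ∀ (f : E n → ℝ) (M : ℝ), Measurable f → (∀ x, |f x| ≤ M) → ∀ g : Ω → E n,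
      Measurable g → Integrable (fun ω => f (g ω)) P := by
    intro f M hf hM g hg
    exact Integrable.of_bound (hf.comp hg).aestronglyMeasurable M
      (Filter.Eventually.of_forall fun ω => by rw [Real.norm_eq_abs]; exact hM _)
  have e1 : ∫ ω, s (Y (a ω) ω) ∂P = ∫ ω, s (Y 0 ω) ∂P +
      ∫ ω, (s1 (Y (b ω) ω) - s1 (Y (a ω) ω)) ∂P := by
    rw [id2, ← id3, ← id1, integral_sub (bint s K hs.meas sK _ mYa) (bint s K hs.meas sK _ (hYm 0))]
    ring
  -- the starting term
  have e2 : ∫ ω, s (Y 0 ω) ∂P ≤ C * ∫ ω, ((b ω : ℝ) - a ω) ∂P := by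
    have h1 : ∫ ω, s (Y 0 ω) ∂P = ∫ x, s x ∂(P.map (Y 0)) :=
      (integral_map (hYm 0).aemeasurable hs.meas.aestronglyMeasurable).symm
    have h2 : ∫ x, s x ∂(P.map (Y 0)) ≤ ∫ x, s x ∂((C : ℝ≥0∞) • (volume : Measure (E n))) := by
      apply integral_mono_measure (hY.dens 0) (Filter.Eventually.of_forall hs.nonneg)
      exact hs.int.smul_measure ENNReal.coe_ne_top
    have h3 : ∫ x, s x ∂((C : ℝ≥0∞) • (volume : Measure (E n))) = C * ∫ x, s x := by
      rw [integral_smul_measure]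
      simp
    have h4 : ∫ x, s x = ∫ ω, ((b ω : ℝ) - a ω) ∂P := by
      rw [occ_bound_mass P Y hYm _ N K s hs]
      have h5 : ∀ ω, ((b ω : ℝ) - a ω) = ∑ j ∈ Finset.range N,
          ({ω | a ω ≤ j ∧ j < b ω} : Set Ω).indicator (fun _ => (1 : ℝ)) ω := by
        intro ω
        simp only [Set.indicator_apply, mem_ofPred_eq]
        rw [← Finset.sum_filter, Finset.sum_const, nsmul_eq_mul, mul_one]
        have h6 : (Finset.range N).filter (fun j => a ω ≤ j ∧ j < b ω) = Finset.Ico (a ω) (b ω) := by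
          ext j
          simp only [Finset.mem_filter, Finset.mem_range, Finset.mem_Ico]
          constructor
          · exact fun h => h.2
          · exact fun h => ⟨lt_of_lt_of_le h.2 (hbN ω), h⟩
        rw [h6, Nat.card_Ico, Nat.cast_sub (hab ω)]
      simp only [h5]
      rw [integral_finsetSum]
      · refine Finset.sum_congr rfl fun j _ => ?_
        have := integral_indicator_one (μ := P) (hY.F_le j _ (hA2 j))
        rw [← this]
        rfl
      · intro j _
        exact (integrable_const (1 : ℝ)).indicator (hY.F_le j _ (hA2 j))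
    rw [h1]
    refine h2.trans ?_
    rw [h3, h4]
  -- the final term
  have e3 : ∫ ω, (s1 (Y (b ω) ω) - s1 (Y (a ω) ω)) ∂P ≤
      N * C * (P {ω | a ω < N ∧ b ω = N ∧ Y N ω ∈ D}).toReal := by
    have hG : MeasurableSet {ω | a ω < N ∧ b ω = N ∧ Y N ω ∈ D} := by
      have h1 : MeasurableSet {ω | a ω < N} := ma measurableSet_Iio
      have h2 : MeasurableSet {ω | b ω = N} := mb (measurableSet_singleton N)
      have h3 : MeasurableSet {ω | Y N ω ∈ D} := (hYm N) hD
      exact h1.inter (h2.inter h3)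
    have h5 : ∀ ω, s1 (Y (b ω) ω) - s1 (Y (a ω) ω) ≤
        ({ω | a ω < N ∧ b ω = N ∧ Y N ω ∈ D} : Set Ω).indicator (fun _ => (N * C : ℝ)) ω := by
      intro ω
      have hn1 := hs1.nonneg (Y (a ω) ω)
      by_cases hω : a ω < N ∧ b ω = N ∧ Y N ω ∈ D
      · rw [Set.indicator_of_mem (show ω ∈ {ω | a ω < N ∧ b ω = N ∧ Y N ω ∈ D} from hω)]
        have := hs1.le (Y (b ω) ω)
        linarith
      · rw [Set.indicator_of_notMem (show ω ∉ {ω | a ω < N ∧ b ω = N ∧ Y N ω ∈ D} from hω)]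
        by_cases hb' : b ω < N
        · have h6 : Y (b ω) ω ∉ D := fun h => exitIdx_not_mem Y D' N ω hb' (hDD h)
          have h7 : s1 (Y (b ω) ω) = 0 := Set.indicator_of_notMem h6 _
          linarith
        · have hbN' : b ω = N := le_antisymm (hbN ω) (not_lt.1 hb')
          by_cases ha' : a ω < N
          · have h6 : Y N ω ∉ D := fun h => hω ⟨ha', hbN', h⟩
            have h7 : s1 (Y (b ω) ω) = 0 := by
              rw [hbN']; exact Set.indicator_of_notMem h6 _
            linarith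
          · have haN' : a ω = N := le_antisymm (haN ω) (not_lt.1 ha')
            rw [hbN', haN', sub_self]
    have h6 : ∫ ω, (s1 (Y (b ω) ω) - s1 (Y (a ω) ω)) ∂P ≤
        ∫ ω, ({ω | a ω < N ∧ b ω = N ∧ Y N ω ∈ D} : Set Ω).indicator (fun _ => (N * C : ℝ)) ω ∂P := by
      apply integral_mono
      · exact (bint s1 _ hs1.meas s1K _ mYb).sub (bint s1 _ hs1.meas s1K _ mYa)
      · exact (integrable_const _).indicator hG
      · exact h5
    refine h6.trans ?_
    rw [integral_indicator hG, setIntegral_const, smul_eq_mul, mul_comm]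
    exact le_rfl
  rw [e1]
  exact add_le_add e2 e3

end Keldysh
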