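import Pool.Agent.Keldysh.Defs2
import Pool.Agent.Keldysh.M_exitIdx_le
import Pool.Agent.Keldysh.M_exitIdx_mem
import Pool.Agent.Keldysh.M_exitIdx_not_mem
import Pool.Agent.Keldysh.M_exitIdx_mono
import Pool.Agent.Keldysh.M_exitIdx_stop
import Pool.Agent.Keldysh.M_exists_occDens
import Pool.Agent.Keldysh.M_key_ineq
import Pool.Agent.Keldysh.M_occ_bound

open MeasureTheory ProbabilityTheory Filter Topology Set
open scoped ENNReal NNReal

namespace Keldysh

variable {n : ℕ} {Ω : Type*} [mΩ : MeasurableSpace Ω]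

theorem est_two_dens_le (P : Measure Ω) (Y : ℕ → Ω → E n) (A1 A2 : ℕ → Set Ω)
    (hA : ∀ j, A1 j ⊆ A2 j) (hYm : ∀ j, Measurable (Y j)) (N : ℕ) (K1 K2 : ℝ) (s1 s2 : E n → ℝ)
    (h1 : OccDens P Y A1 N K1 s1) (h2 : OccDens P Y A2 N K2 s2) :
    ∀ᵐ x ∂(volume : Measure (E n)), s1 x ≤ s2 x := by
  have hle : occ P Y A1 N ≤ occ P Y A2 N := by
    unfold occ
    refine Finset.sum_le_sum fun j _ => ?_
    exact Measure.map_mono (Measure.restrict_mono_set P (hA j)) (hYm j)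
  rw [h1.eq, h2.eq] at hle
  have hae : (fun x => ENNReal.ofReal (s1 x)) ≤ᵐ[(volume : Measure (E n))]
      (fun x => ENNReal.ofReal (s2 x)) := by
    refine ae_le_of_forall_setLIntegral_le_of_sigmaFinite
      (h1.meas.ennreal_ofReal) ?_
    intro t ht _
    have := hle t
    rw [withDensity_apply _ ht, withDensity_apply _ ht] at this
    exact this
  filter_upwards [hae] with x hx
  exact (ENNReal.ofReal_le_ofReal_iff (h2.nonneg x)).1 hx

/-- C9 -/
theorem est_two (P : Measure Ω) [IsProbabilityMeasure P] (Y : ℕ → Ω → E n)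
    (F : ℕ → MeasurableSpace Ω) (h C : ℝ≥0) (hY : GWalk P Y F h C)
    (D D' : Set (E n)) (hD : MeasurableSet D) (hD' : MeasurableSet D') (hDD : D ⊆ D') (N : ℕ)
    (σ : Ω → ℕ) (hσ : IsStop F σ) (h1 : ∀ ω, exitIdx Y D N ω ≤ σ ω)
    (h2 : ∀ ω, σ ω ≤ exitIdx Y D' N ω) (G : Set Ω)
    (hG : ∀ j, MeasurableSet[F j] (G ∩ {ω | exitIdx Y D N ω ≤ j}))
    (u : E n → ℝ) (hu : Measurable u) (L : ℝ) (hL : ∀ x, |u x| ≤ L) :
    ENNReal.ofReal ((∫ ω in G, (u (Y (σ ω) ω) - u (Y (exitIdx Y D N ω) ω)) ∂P) ^ 2) ≤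
      ENNReal.ofReal (C * ∫ ω, ((exitIdx Y D' N ω : ℝ) - exitIdx Y D N ω) ∂P +
        N * C * (P {ω | exitIdx Y D N ω < N ∧ exitIdx Y D' N ω = N ∧ Y N ω ∈ D}).toReal) *
        ∫⁻ x in D', ∫⁻ z, ‖u (x + z) - u x‖ₑ ^ 2 ∂(gauss n h) := by
  have hFm := hY.F_mono
  have hYm : ∀ j, Measurable (Y j) := fun j => (hY.adapted j).mono (hY.F_le j) le_rfl
  have ha := exitIdx_stop Y F hFm hY.adapted D hD N
  have hb := exitIdx_stop Y F hFm hY.adapted D' hD' N
  have hA1 : ∀ j, MeasurableSet[F j] (G ∩ {ω | exitIdx Y D N ω ≤ j ∧ j < σ ω}) := by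
    intro j
    have e : G ∩ {ω | exitIdx Y D N ω ≤ j ∧ j < σ ω} =
        (G ∩ {ω | exitIdx Y D N ω ≤ j}) ∩ {ω | σ ω ≤ j}ᶜ := by
      ext ω
      simp only [mem_inter_iff, mem_ofPred_eq, mem_compl_iff, not_le]
      tauto
    rw [e]
    exact (hG j).inter (hσ j).compl
  have hA2 : ∀ j, MeasurableSet[F j] ({ω | exitIdx Y D N ω ≤ j ∧ j < exitIdx Y D' N ω}) := by
    intro j
    have e : {ω | exitIdx Y D N ω ≤ j ∧ j < exitIdx Y D' N ω} =
        ({ω | exitIdx Y D N ω ≤ j}) ∩ {ω | exitIdx Y D' N ω ≤ j}ᶜ := by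
      ext ω
      simp only [mem_inter_iff, mem_ofPred_eq, mem_compl_iff, not_le]
    rw [e]
    exact (ha j).inter (hb j).compl
  obtain ⟨s1, hs1⟩ := exists_occDens P Y F h C hY
    (fun j => G ∩ {ω | exitIdx Y D N ω ≤ j ∧ j < σ ω}) hA1 N
  obtain ⟨s2, hs2⟩ := exists_occDens P Y F h C hY
    (fun j => {ω | exitIdx Y D N ω ≤ j ∧ j < exitIdx Y D' N ω}) hA2 N
  have hkey := key_ineq P Y F h C hY (exitIdx Y D N) σ ha hσ h1 N
    (fun ω => (h2 ω).trans (exitIdx_le Y D' N ω)) G hG D' hD'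
    (fun ω _ j _ hj => exitIdx_mem Y D' N ω j (lt_of_lt_of_le hj (h2 ω)))
    (N * C) s1 hs1 u hu L hL
  have hbd := occ_bound P Y F h C hY D D' hD hD' hDD N (N * C) s2 hs2
  refine hkey.trans ?_
  refine mul_le_mul_left ?_ _
  refine ENNReal.ofReal_le_ofReal ?_
  refine le_trans ?_ hbd
  -- a.e. comparison
  have hae := est_two_dens_le P Y _ _ (fun j => ?_) hYm N _ _ s1 s2 hs1 hs2
  swap
  · rintro ω ⟨_, h3, h4⟩
    exact ⟨h3, lt_of_lt_of_le h4 (h2 ω)⟩
  have hP : ∀ᵐ ω ∂P, ∀ j, s1 (Y j ω) ≤ s2 (Y j ω) := by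
    rw [ae_all_iff]
    intro j
    have h5 : ∀ᵐ x ∂(P.map (Y j)), s1 x ≤ s2 x := by
      have hac : P.map (Y j) ≪ (volume : Measure (E n)) :=
        (Measure.absolutelyContinuous_of_le (hY.dens j)).trans Measure.smul_absolutelyContinuous
      exact hac.ae_le hae
    exact ae_of_ae_map (hYm j).aemeasurable h5
  have hexm : Measurable (exitIdx Y D N) := by
    refine measurable_of_Iic fun j => ?_
    exact hY.F_le j _ (ha j)
  have hYa : Measurable (fun ω => Y (exitIdx Y D N ω) ω) := by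
    have h6 : Measurable (fun p : Ω × ℕ => Y p.2 p.1) :=
      measurable_from_prod_countable_left (fun j => hYm j)
    exact h6.comp (measurable_id.prodMk hexm)
  have hint : ∀ (s : E n → ℝ) (K : ℝ), Measurable s → (∀ x, 0 ≤ s x) → (∀ x, s x ≤ K) →
      Integrable (fun ω => s (Y (exitIdx Y D N ω) ω)) P := by
    intro s K hs h0 hK
    refine Integrable.of_bound (hs.comp hYa).aestronglyMeasurable K ?_
    refine Eventually.of_forall fun ω => ?_
    rw [Real.norm_of_nonneg (h0 _)]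
    exact hK _
  have hi1 := hint s1 _ hs1.meas hs1.nonneg hs1.le
  have hi2 := hint s2 _ hs2.meas hs2.nonneg hs2.le
  calc ∫ ω in G, s1 (Y (exitIdx Y D N ω) ω) ∂P ≤ ∫ ω in G, s2 (Y (exitIdx Y D N ω) ω) ∂P := by
        refine integral_mono_ae hi1.integrableOn hi2.integrableOn ?_
        refine ae_restrict_of_ae ?_
        filter_upwards [hP] with ω hω
        exact hω _
    _ ≤ ∫ ω, s2 (Y (exitIdx Y D N ω) ω) ∂P := by
        refine setIntegral_le_integral hi2 ?_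
        exact Eventually.of_forall fun ω => hs2.nonneg _

end Keldysh
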