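import Pool.Agent.Keldysh.Defs2
import Pool.Agent.Keldysh.M_gauss_prob
import Pool.Agent.Keldysh.M_gauss_second_moment
import Pool.Agent.Keldysh.M_gauss_scale

open MeasureTheory ProbabilityTheory Filter Topology Set
open scoped ENNReal NNReal

namespace Keldysh

variable {n : ℕ} {Ω : Type*} [mΩ : MeasurableSpace Ω]

theorem gauss_tail_set (n : ℕ) (T : ℝ≥0) (r : ℝ) (hr : 0 < r) (m : ℕ) (w : E n)
    (hw : r ≤ ‖Real.sqrt ((T / 2 ^ m : ℝ≥0) : ℝ) • w‖) :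
    (2 : ℝ≥0∞) ^ m ≤ ENNReal.ofReal (T / r ^ 2) * ‖w‖ₑ ^ 2 := by
  rw [norm_smul, Real.norm_of_nonneg (Real.sqrt_nonneg _)] at hw
  have h1 : r ^ 2 ≤ (Real.sqrt ((T / 2 ^ m : ℝ≥0) : ℝ) * ‖w‖) ^ 2 :=
    pow_le_pow_left₀ hr.le hw 2
  rw [mul_pow, Real.sq_sqrt (NNReal.coe_nonneg _)] at h1
  push_cast at h1
  have h2 : (2 : ℝ) ^ m ≤ T / r ^ 2 * ‖w‖ ^ 2 := by
    have hm : (0 : ℝ) < 2 ^ m := by positivity
    rw [div_mul_eq_mul_div, le_div_iff₀ (by positivity)]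
    rw [div_mul_eq_mul_div, le_div_iff₀ hm] at h1
    linarith
  have h3 : (2 : ℝ≥0∞) ^ m = ENNReal.ofReal ((2 : ℝ) ^ m) := by
    rw [ENNReal.ofReal_pow (by norm_num)]; norm_num
  have h4 : ‖w‖ₑ ^ 2 = ENNReal.ofReal (‖w‖ ^ 2) := by
    rw [ENNReal.ofReal_pow (norm_nonneg _), ofReal_norm]
  rw [h3, h4, ← ENNReal.ofReal_mul (by positivity)]
  exact ENNReal.ofReal_le_ofReal h2

/-- A6: tails -/
theorem gauss_tail (n : ℕ) (T : ℝ≥0) (r : ℝ) (hr : 0 < r) :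
    Tendsto (fun m : ℕ => (2 : ℝ≥0∞) ^ m * gauss n (T / 2 ^ m) {z | r ≤ ‖z‖}) atTop (𝓝 0) := by
  set μ := gauss n 1 with hμ
  haveI : IsProbabilityMeasure μ := gauss_prob n 1
  set f : E n → ℝ≥0∞ := fun w => ENNReal.ofReal (T / r ^ 2) * ‖w‖ₑ ^ 2 with hf
  have hfm : Measurable f := (measurable_enorm.pow_const 2).const_mul _
  have hfi : ∫⁻ w, f w ∂μ ≠ ∞ := by
    rw [hf, lintegral_const_mul _ (measurable_enorm.pow_const 2), hμ, gauss_second_moment]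
    exact ENNReal.mul_ne_top ENNReal.ofReal_ne_top (ENNReal.mul_ne_top (by simp) (by simp))
  have hSm : ∀ m : ℕ, MeasurableSet {w : E n | (2 : ℝ≥0∞) ^ m ≤ f w} := fun m =>
    measurableSet_le measurable_const hfm
  have hle : ∀ m : ℕ, (2 : ℝ≥0∞) ^ m * gauss n (T / 2 ^ m) {z | r ≤ ‖z‖} ≤
      ∫⁻ w, indicator {w : E n | (2 : ℝ≥0∞) ^ m ≤ f w} f w ∂μ := by
    intro m
    have hset : MeasurableSet {z : E n | r ≤ ‖z‖} := measurableSet_le measurable_const measurable_norm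
    rw [gauss_scale, Measure.map_apply (by fun_prop) hset, lintegral_indicator (hSm m)]
    calc (2 : ℝ≥0∞) ^ m * μ ((fun x => Real.sqrt ((T / 2 ^ m : ℝ≥0) : ℝ) • x) ⁻¹' {z | r ≤ ‖z‖})
        ≤ (2 : ℝ≥0∞) ^ m * μ {w : E n | (2 : ℝ≥0∞) ^ m ≤ f w} := by
          gcongr
          intro w hw
          exact gauss_tail_set n T r hr m w hw
      _ = ∫⁻ w in {w : E n | (2 : ℝ≥0∞) ^ m ≤ f w}, (2 : ℝ≥0∞) ^ m ∂μ := by
          rw [setLIntegral_const]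
      _ ≤ _ := setLIntegral_mono hfm fun w hw => hw
  have hlim : Tendsto (fun m : ℕ => ∫⁻ w, indicator {w : E n | (2 : ℝ≥0∞) ^ m ≤ f w} f w ∂μ)
      atTop (𝓝 (∫⁻ _, 0 ∂μ)) := by
    refine tendsto_lintegral_of_dominated_convergence f (fun m => hfm.indicator (hSm m))
      (fun m => Eventually.of_forall fun w => indicator_le_self _ _ _) hfi
      (Eventually.of_forall fun w => ?_)
    have hw : f w < ∞ := by
      rw [hf]
      exact ENNReal.mul_lt_top ENNReal.ofReal_lt_top (by simp)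
    have h2 : Tendsto (fun m : ℕ => (2 : ℝ≥0∞) ^ m) atTop (𝓝 ∞) :=
      ENNReal.tendsto_pow_atTop_nhds_top_iff.2 (by norm_num)
    refine tendsto_const_nhds.congr' ?_
    filter_upwards [h2.eventually (lt_mem_nhds hw)] with m hm
    rw [indicator_of_notMem]
    exact not_le.2 hm
  rw [lintegral_zero] at hlim
  exact tendsto_of_tendsto_of_tendsto_of_le_of_le tendsto_const_nhds hlim (fun _ => zero_le) hle

end Keldysh
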