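import Pool.Agent.Keldysh.Defs2
import Pool.Agent.Keldysh.Defs3

open MeasureTheory ProbabilityTheory Filter Topology Set
open scoped ENNReal NNReal

namespace Keldysh

variable {n : ℕ} {Ω : Type*} [mΩ : MeasurableSpace Ω]

/-- E3b -/
theorem inner_facts (V : Set (E n)) (hV : IsOpen V) (hb : Vᶜ.Nonempty) (k : ℕ) :
    IsOpen (inner V k) ∧ inner V k ⊆ V ∧
      (∀ x ∈ inner V k, Metric.ball x (1 / ((k : ℝ) + 1)) ⊆ V) ∧ (∀ x ∈ V, ∃ k, x ∈ inner V k) := by
  have hpos : (0 : ℝ) < 1 / ((k : ℝ) + 1) := by positivity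
  have hball : ∀ x ∈ inner V k, Metric.ball x (1 / ((k : ℝ) + 1)) ⊆ V := by
    intro x hx y hy
    by_contra hyV
    have h1 : Metric.infDist x Vᶜ ≤ dist x y := Metric.infDist_le_dist_of_mem hyV
    have h2 : 1 / ((k : ℝ) + 1) < Metric.infDist x Vᶜ := hx
    rw [Metric.mem_ball, dist_comm] at hy
    linarith
  refine ⟨isOpen_lt continuous_const (Metric.continuous_infDist_pt _), fun x hx =>
    hball x hx (Metric.mem_ball_self hpos), hball, ?_⟩
  intro x hx
  have h1 : 0 < Metric.infDist x Vᶜ :=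
    (hV.isClosed_compl.notMem_iff_infDist_pos hb).1 (fun h => h hx)
  obtain ⟨m, hm⟩ := exists_nat_one_div_lt h1
  exact ⟨m, hm⟩

end Keldysh
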