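import Pool.Agent.Keldysh.Defs2
import Pool.Agent.Keldysh.Defs3

open MeasureTheory ProbabilityTheory Filter Topology Set
open scoped ENNReal NNReal

namespace Keldysh

variable {n : ℕ} {Ω : Type*} [mΩ : MeasurableSpace Ω]

/-- E3a -/
theorem inner_mono (V : Set (E n)) {k l : ℕ} (h : k ≤ l) : inner V k ⊆ inner V l := by
  intro x hx
  have h1 : 1 / ((l : ℝ) + 1) ≤ 1 / ((k : ℝ) + 1) := by
    apply one_div_le_one_div_of_le (by positivity)
    have : (k : ℝ) ≤ l := by exact_mod_cast h
    linarith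
  exact lt_of_le_of_lt h1 hx

end Keldysh
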