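import Pool.Agent.Keldysh.Defs2
import Pool.Agent.Keldysh.Defs3
import Pool.Agent.Keldysh.M_inner_mono
import Pool.Agent.Keldysh.M_inner_facts

open MeasureTheory ProbabilityTheory Filter Topology Set
open scoped ENNReal NNReal

namespace Keldysh

variable {n : ℕ} {Ω : Type*} [mΩ : MeasurableSpace Ω]

theorem grid_conv_compact (V : Set (E n)) (hV : IsOpen V) (hb : Vᶜ.Nonempty) (p : ℝ≥0 → E n)
    (hp : Continuous p) (K : Set ℝ≥0) (hK : IsCompact K) (h : ∀ t ∈ K, p t ∈ V) :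
    ∃ k0 : ℕ, ∀ k, k0 ≤ k → ∀ t ∈ K, p t ∈ inner V k := by
  rcases K.eq_empty_or_nonempty with rfl | hne
  · exact ⟨0, fun k _ t ht => absurd ht (notMem_empty t)⟩
  have hd : Continuous fun t => Metric.infDist (p t) Vᶜ :=
    (Metric.continuous_infDist_pt _).comp hp
  obtain ⟨t1, ht1, hmin⟩ := hK.exists_isMinOn hne hd.continuousOn
  have hpos : 0 < Metric.infDist (p t1) Vᶜ := by
    rw [← (hV.isClosed_compl).notMem_iff_infDist_pos hb]
    exact not_not.2 (h t1 ht1)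
  obtain ⟨k0, hk0⟩ := exists_nat_one_div_lt hpos
  refine ⟨k0, fun k hk t ht => inner_mono V hk ?_⟩
  exact lt_of_lt_of_le hk0 (hmin ht)

theorem grid_conv_exit (t0 T : ℝ≥0) (D : Set (E n)) (m : ℕ) (p : ℝ≥0 → E n) :
    gridExit t0 T D m p ≤ 2 ^ m ∧
      (gridExit t0 T D m p = 2 ^ m ∨ p (gt t0 T m (gridExit t0 T D m p)) ∉ D) ∧
      ∀ j, p (gt t0 T m j) ∉ D → gridExit t0 T D m p ≤ j :=
  ⟨Nat.sInf_le (Or.inl rfl),
    (Nat.sInf_mem ⟨2 ^ m, Or.inl rfl⟩ :
      sInf {j | j = 2 ^ m ∨ p (gt t0 T m j) ∉ D} ∈ {j | j = 2 ^ m ∨ p (gt t0 T m j) ∉ D}),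
    fun _ hj => Nat.sInf_le (Or.inr hj)⟩

theorem grid_conv_gt (t0 T : ℝ≥0) (m j : ℕ) :
    ((gt t0 T m j : ℝ≥0) : ℝ) = t0 + j * (T / 2 ^ m) := by
  unfold gt
  push_cast
  rfl

theorem grid_conv_gt_end (t0 T : ℝ≥0) (m : ℕ) : gt t0 T m (2 ^ m) = t0 + T := by
  unfold gt
  push_cast
  rw [mul_div_cancel₀]
  positivity

theorem grid_conv_gt_mem (t0 T : ℝ≥0) (m j : ℕ) (hj : j ≤ 2 ^ m) :
    gt t0 T m j ∈ Icc t0 (t0 + T) := by
  rw [← grid_conv_gt_end t0 T m]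
  unfold gt
  refine ⟨le_self_add, ?_⟩
  gcongr

/-- E4: deterministic path lemma. -/
theorem grid_conv (V : Set (E n)) (hV : IsOpen V) (hb : Vᶜ.Nonempty) (t0 T : ℝ≥0) (hT : 0 < T)
    (p : ℝ≥0 → E n) (hp : Continuous p) (ε : ℝ) (hε : 0 < ε) :
    ∃ k0, ∀ k, k0 ≤ k → ∀ l, k ≤ l → ∃ m0, ∀ m, m0 ≤ m →
      ((gridExit t0 T (inner V l) m p : ℝ) - gridExit t0 T (inner V k) m p) / 2 ^ m ≤ ε ∧
      ¬ (gridExit t0 T (inner V k) m p < 2 ^ m ∧ gridExit t0 T (inner V l) m p = 2 ^ m ∧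
        p (gt t0 T m (2 ^ m)) ∈ inner V k) := by
  by_cases hA : ∀ t ∈ Icc t0 (t0 + T), p t ∈ V
  · obtain ⟨k0, hk0⟩ := grid_conv_compact V hV hb p hp _ isCompact_Icc hA
    have hfull : ∀ k, k0 ≤ k → ∀ m, gridExit t0 T (inner V k) m p = 2 ^ m := by
      intro k hk m
      obtain ⟨h1, h2, -⟩ := grid_conv_exit t0 T (inner V k) m p
      rcases h2 with h2 | h2
      · exact h2
      · exact absurd (hk0 k hk _ (grid_conv_gt_mem t0 T m _ h1)) h2
    refine ⟨k0, fun k hk l hl => ⟨0, fun m _ => ?_⟩⟩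
    rw [hfull k hk m, hfull l (hk.trans hl) m]
    refine ⟨?_, ?_⟩
    · simp only [sub_self, zero_div]
      exact hε.le
    · rintro ⟨h1, -⟩
      exact lt_irrefl _ h1
  push Not at hA
  have hTr : (0:ℝ) < T := by exact_mod_cast hT
  have hclS : IsClosed {t | t ∈ Icc t0 (t0 + T) ∧ p t ∉ V} :=
    isClosed_Icc.inter (hV.isClosed_compl.preimage hp)
  have hneS : {t | t ∈ Icc t0 (t0 + T) ∧ p t ∉ V}.Nonempty := by
    obtain ⟨t, h1, h2⟩ := hA
    exact ⟨t, h1, h2⟩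
  set τ : ℝ≥0 := sInf {t | t ∈ Icc t0 (t0 + T) ∧ p t ∉ V} with hτdef
  have hτ : τ ∈ {t | t ∈ Icc t0 (t0 + T) ∧ p t ∉ V} :=
    hclS.csInf_mem hneS (OrderBot.bddBelow _)
  have hlt : ∀ t ∈ Icc t0 (t0 + T), t < τ → p t ∈ V := by
    intro t ht htτ
    by_contra hcon
    exact absurd (csInf_le (OrderBot.bddBelow _)
      (show t ∈ {t | t ∈ Icc t0 (t0 + T) ∧ p t ∉ V} from ⟨ht, hcon⟩)) (not_le.2 htτ)
  have hKc : IsCompact {t : ℝ≥0 | t ∈ Icc t0 (t0 + T) ∧ (t : ℝ) + ε / 2 * T ≤ τ} := by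
    refine isCompact_Icc.inter_right ?_
    exact isClosed_le (NNReal.continuous_coe.add continuous_const) continuous_const
  have hδ : 0 < ε / 2 * (T : ℝ) := by positivity
  obtain ⟨k0, hk0⟩ := grid_conv_compact V hV hb p hp _ hKc (by
    rintro t ⟨h1, h2⟩
    refine hlt t h1 ?_
    rw [← NNReal.coe_lt_coe]
    linarith)
  refine ⟨k0, fun k hk l hl => ?_⟩
  have hlow : ∀ m, (τ : ℝ) < gt t0 T m (gridExit t0 T (inner V k) m p) + ε / 2 * T := by
    intro m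
    obtain ⟨h1, h2, -⟩ := grid_conv_exit t0 T (inner V k) m p
    rcases h2 with h2 | h2
    · rw [h2, grid_conv_gt_end]
      have : (τ : ℝ) ≤ (t0 + T : ℝ≥0) := by exact_mod_cast hτ.1.2
      linarith
    · by_contra hcon
      rw [not_lt] at hcon
      exact h2 (hk0 k hk _ ⟨grid_conv_gt_mem t0 T m _ h1, hcon⟩)
  have hfin : ∀ m, (1 / 2 : ℝ) ^ m ≤ ε / 2 →
      ((gt t0 T m (gridExit t0 T (inner V l) m p) : ℝ≥0) : ℝ) ≤ τ + T / 2 ^ m →
      ((gridExit t0 T (inner V l) m p : ℝ) - gridExit t0 T (inner V k) m p) / 2 ^ m ≤ ε := by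
    intro m hm hup
    have h1 := hlow m
    rw [grid_conv_gt] at h1 hup
    have h2 : ((gridExit t0 T (inner V l) m p : ℝ) - gridExit t0 T (inner V k) m p) / 2 ^ m * T ≤
        ((1 / 2 : ℝ) ^ m + ε / 2) * T := by
      have e1 : ((gridExit t0 T (inner V l) m p : ℝ) - gridExit t0 T (inner V k) m p) / 2 ^ m * T =
          (gridExit t0 T (inner V l) m p : ℝ) * (T / 2 ^ m) -
          (gridExit t0 T (inner V k) m p : ℝ) * (T / 2 ^ m) := by ring
      have e2 : ((1 / 2 : ℝ) ^ m + ε / 2) * T = T / 2 ^ m + ε / 2 * T := by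
        rw [one_div, inv_pow]; ring
      rw [e1, e2]
      linarith
    have h3 := le_of_mul_le_mul_right h2 hTr
    linarith
  by_cases hτT : τ = t0 + T
  · obtain ⟨m0, hm0⟩ := exists_pow_lt_of_lt_one (half_pos hε) (show (1/2:ℝ) < 1 by norm_num)
    refine ⟨m0, fun m hm => ⟨hfin m ?_ ?_, ?_⟩⟩
    · exact (pow_le_pow_of_le_one (by norm_num) (by norm_num) hm).trans hm0.le
    · obtain ⟨h1, -, -⟩ := grid_conv_exit t0 T (inner V l) m p
      have h2 := (grid_conv_gt_mem t0 T m _ h1).2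
      rw [← hτT, ← NNReal.coe_le_coe] at h2
      have : (0:ℝ) ≤ T / 2 ^ m := by positivity
      linarith
    · rintro ⟨-, -, h3⟩
      have := (inner_facts V hV hb k).2.1 h3
      rw [grid_conv_gt_end, ← hτT] at this
      exact hτ.2 this
  · have hτlt : τ < t0 + T := lt_of_le_of_ne hτ.1.2 hτT
    have hτr : (τ : ℝ) < t0 + T := by exact_mod_cast hτlt
    have hd : Continuous fun t => Metric.infDist (p t) Vᶜ :=
      (Metric.continuous_infDist_pt _).comp hp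
    have hd0 : Metric.infDist (p τ) Vᶜ = 0 := Metric.infDist_zero_of_mem hτ.2
    have hev : ∀ᶠ t in 𝓝 τ, Metric.infDist (p t) Vᶜ < 1 / ((l : ℝ) + 1) := by
      refine hd.continuousAt.eventually (gt_mem_nhds ?_)
      show Metric.infDist (p τ) Vᶜ < 1 / ((l : ℝ) + 1)
      rw [hd0]
      positivity
    obtain ⟨η, hη, hball⟩ := Metric.eventually_nhds_iff.1 hev
    have hmin : 0 < min (ε / 2) (min (η / T) ((t0 + T - τ) / T)) := by
      refine lt_min (half_pos hε) (lt_min (div_pos hη hTr) (div_pos (by linarith) hTr))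
    obtain ⟨m0, hm0⟩ := exists_pow_lt_of_lt_one hmin (show (1/2:ℝ) < 1 by norm_num)
    refine ⟨m0, fun m hm => ?_⟩
    have hm1 : (1 / 2 : ℝ) ^ m < min (ε / 2) (min (η / T) ((t0 + T - τ) / T)) :=
      (pow_le_pow_of_le_one (by norm_num) (by norm_num) hm).trans_lt hm0
    have hm2 : (1 / 2 : ℝ) ^ m < ε / 2 := hm1.trans_le (min_le_left _ _)
    have hm3 : (T : ℝ) / 2 ^ m < η := by
      have := hm1.trans_le ((min_le_right _ _).trans (min_le_left _ _))
      rw [lt_div_iff₀ hTr] at this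
      rw [one_div, inv_pow] at this
      calc (T : ℝ) / 2 ^ m = (2 ^ m)⁻¹ * T := by ring
        _ < η := this
    have hm4 : (T : ℝ) / 2 ^ m < t0 + T - τ := by
      have := hm1.trans_le ((min_le_right _ _).trans (min_le_right _ _))
      rw [lt_div_iff₀ hTr] at this
      rw [one_div, inv_pow] at this
      calc (T : ℝ) / 2 ^ m = (2 ^ m)⁻¹ * T := by ring
        _ < t0 + T - τ := this
    have hTm : (0:ℝ) < T / 2 ^ m := by positivity
    set j : ℕ := ⌈((τ : ℝ) - t0) / (T / 2 ^ m)⌉₊ with hj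
    have ht0τ : (t0 : ℝ) ≤ τ := by exact_mod_cast hτ.1.1
    have hj1 : (τ : ℝ) ≤ t0 + j * (T / 2 ^ m) := by
      have := Nat.le_ceil (((τ : ℝ) - t0) / (T / 2 ^ m))
      rw [← hj, div_le_iff₀ hTm] at this
      linarith
    have hj2 : t0 + j * (T / 2 ^ m) < (τ : ℝ) + T / 2 ^ m := by
      have := Nat.ceil_lt_add_one (show 0 ≤ ((τ : ℝ) - t0) / (T / 2 ^ m) from
        div_nonneg (by linarith) hTm.le)
      rw [← hj] at this
      have h5 : (j : ℝ) - 1 < ((τ : ℝ) - t0) / (T / 2 ^ m) := by linarith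
      rw [lt_div_iff₀ hTm] at h5
      linarith
    have hjD : p (gt t0 T m j) ∉ inner V l := by
      intro hmem
      have h6 : dist (gt t0 T m j) τ < η := by
        rw [NNReal.dist_eq, grid_conv_gt, abs_lt]
        constructor <;> linarith
      exact absurd (hball h6) (not_lt.2 (le_of_lt hmem))
    have hel : gridExit t0 T (inner V l) m p ≤ j := (grid_conv_exit t0 T (inner V l) m p).2.2 j hjD
    have hup : ((gt t0 T m (gridExit t0 T (inner V l) m p) : ℝ≥0) : ℝ) < τ + T / 2 ^ m := by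
      rw [grid_conv_gt]
      have : (gridExit t0 T (inner V l) m p : ℝ) * (T / 2 ^ m) ≤ j * (T / 2 ^ m) :=
        mul_le_mul_of_nonneg_right (by exact_mod_cast hel) hTm.le
      linarith
    refine ⟨hfin m hm2.le hup.le, ?_⟩
    rintro ⟨-, h2, -⟩
    rw [h2, grid_conv_gt_end] at hup
    push_cast at hup
    linarith

end Keldysh
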