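import Pool.Agent.Keldysh.Defs2
import Pool.Agent.Keldysh.Defs3
import Pool.Agent.Keldysh.M_inner_mono
import Pool.Agent.Keldysh.M_inner_facts
import Pool.Agent.Keldysh.M_grid_conv

open MeasureTheory ProbabilityTheory Filter Topology Set
open scoped ENNReal NNReal

namespace Keldysh

variable {n : ℕ} {Ω : Type*} [mΩ : MeasurableSpace Ω]

theorem grid_conv_prob_le (t0 T : ℝ≥0) (D : Set (E n)) (m : ℕ) (p : ℝ≥0 → E n) :
    gridExit t0 T D m p ≤ 2 ^ m := Nat.sInf_le (Or.inl rfl)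

theorem grid_conv_prob_mono (t0 T : ℝ≥0) {D D' : Set (E n)} (h : D ⊆ D') (m : ℕ) (p : ℝ≥0 → E n) :
    gridExit t0 T D m p ≤ gridExit t0 T D' m p := by
  have hne : {j | j = 2 ^ m ∨ p (gt t0 T m j) ∉ D'}.Nonempty := ⟨2 ^ m, Or.inl rfl⟩
  have h1 := Nat.sInf_mem hne
  refine Nat.sInf_le ?_
  rcases h1 with h1 | h1
  · exact Or.inl h1
  · exact Or.inr (fun h2 => h1 (h h2))

theorem grid_conv_prob_meas (B : ℝ≥0 → Ω → E n)
    (hB : ∀ t, Measurable (B t)) (t0 T : ℝ≥0) {D : Set (E n)} (hD : IsOpen D) (m : ℕ) :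
    Measurable (fun ω => gridExit t0 T D m (fun t => B t ω)) := by
  refine measurable_of_Iic (fun j => ?_)
  have h1 : (fun ω => gridExit t0 T D m (fun t => B t ω)) ⁻¹' Set.Iic j =
      ⋃ i ∈ Set.Iic j, {ω | i = 2 ^ m ∨ B (gt t0 T m i) ω ∉ D} := by
    ext ω
    simp only [Set.mem_preimage, Set.mem_Iic, Set.mem_iUnion, Set.mem_setOf_eq, exists_prop]
    constructor
    · intro h
      have hne : {j | j = 2 ^ m ∨ (fun t => B t ω) (gt t0 T m j) ∉ D}.Nonempty := ⟨2 ^ m, Or.inl rfl⟩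
      exact ⟨_, h, Nat.sInf_mem hne⟩
    · rintro ⟨i, hi, h⟩
      exact (Nat.sInf_le h).trans hi
  rw [h1]
  refine MeasurableSet.biUnion (Set.to_countable _) (fun i _ => ?_)
  by_cases hi : i = 2 ^ m
  · have : {ω | i = 2 ^ m ∨ B (gt t0 T m i) ω ∉ D} = Set.univ := by
      ext ω; simp [hi]
    rw [this]; exact MeasurableSet.univ
  · have : {ω | i = 2 ^ m ∨ B (gt t0 T m i) ω ∉ D} = (B (gt t0 T m i)) ⁻¹' Dᶜ := by
      ext ω; simp [hi]
    rw [this]; exact (hB _) hD.measurableSet.compl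



/-- E5: expectation version. -/
theorem grid_conv_prob (P : Measure Ω) [IsProbabilityMeasure P] (B : ℝ≥0 → Ω → E n)
    (hB : ∀ t, Measurable (B t)) (hc : ∀ ω, Continuous fun t => B t ω)
    (V : Set (E n)) (hV : IsOpen V) (hb : Vᶜ.Nonempty) (t0 T : ℝ≥0) (hT : 0 < T)
    (δ : ℝ) (hδ : 0 < δ) :
    ∃ k0, ∀ k, k0 ≤ k → ∀ l, k ≤ l → ∃ m0, ∀ m, m0 ≤ m →
      (∫ ω, (((gridExit t0 T (inner V l) m (fun t => B t ω) : ℝ) -
        gridExit t0 T (inner V k) m (fun t => B t ω)) / 2 ^ m) ∂P ≤ δ) ∧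
      (P {ω | gridExit t0 T (inner V k) m (fun t => B t ω) < 2 ^ m ∧
        gridExit t0 T (inner V l) m (fun t => B t ω) = 2 ^ m ∧
        B (gt t0 T m (2 ^ m)) ω ∈ inner V k}).toReal ≤ δ := by
  classical
  have hin : ∀ k, IsOpen (inner V k) := fun k => (inner_facts V hV hb k).1
  have hmg : ∀ k m, Measurable (fun ω => gridExit t0 T (inner V k) m (fun t => B t ω)) :=
    fun k m => grid_conv_prob_meas B hB t0 T (hin k) m
  have hmgR : ∀ k m, Measurable (fun ω => (gridExit t0 T (inner V k) m (fun t => B t ω) : ℝ)) :=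
    fun k m => measurable_from_top.comp (hmg k m)
  let X : ℕ → ℕ → ℕ → Ω → ℝ := fun k l m ω =>
    ((gridExit t0 T (inner V l) m (fun t => B t ω) : ℝ) -
        gridExit t0 T (inner V k) m (fun t => B t ω)) / 2 ^ m
  have hX : ∀ k l m, Measurable (X k l m) := fun k l m => ((hmgR l m).sub (hmgR k m)).div_const _
  have hX0 : ∀ k l m ω, k ≤ l → 0 ≤ X k l m ω := by
    intro k l m ω hkl
    have := grid_conv_prob_mono t0 T (inner_mono V hkl) m (fun t => B t ω)
    have h2 : (gridExit t0 T (inner V k) m (fun t => B t ω) : ℝ) ≤ gridExit t0 T (inner V l) m (fun t => B t ω) := by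
      exact_mod_cast this
    exact div_nonneg (by linarith) (by positivity)
  have hX1 : ∀ k l m ω, X k l m ω ≤ 1 := by
    intro k l m ω
    have h1 := grid_conv_prob_le t0 T (inner V l) m (fun t => B t ω)
    have h2 : (gridExit t0 T (inner V l) m (fun t => B t ω) : ℝ) ≤ 2 ^ m := by exact_mod_cast h1
    have h3 : (0 : ℝ) ≤ gridExit t0 T (inner V k) m (fun t => B t ω) := Nat.cast_nonneg _
    rw [div_le_one (by positivity)]
    linarith
  let A : ℕ → ℕ → ℕ → Set Ω := fun k l m => {ω | gridExit t0 T (inner V k) m (fun t => B t ω) < 2 ^ m ∧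
        gridExit t0 T (inner V l) m (fun t => B t ω) = 2 ^ m ∧
        B (gt t0 T m (2 ^ m)) ω ∈ inner V k}
  have hA : ∀ k l m, MeasurableSet (A k l m) := by
    intro k l m
    refine MeasurableSet.inter ?_ (MeasurableSet.inter ?_ ?_)
    · exact (hmg k m) (measurableSet_Iio (a := 2 ^ m))
    · exact (hmg l m) (measurableSet_singleton (2 ^ m))
    · exact (hB _) (hin k).measurableSet
  let q : ℕ → ℕ → ℕ → Ω → ℝ≥0∞ := fun k l m ω =>
    ENNReal.ofReal (X k l m ω) + (A k l m).indicator (fun _ => 1) ω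
  have hq : ∀ k l m, Measurable (q k l m) := fun k l m =>
    (ENNReal.measurable_ofReal.comp (hX k l m)).add (measurable_const.indicator (hA k l m))
  have hq2 : ∀ k l m ω, q k l m ω ≤ 2 := by
    intro k l m ω
    have h1 : ENNReal.ofReal (X k l m ω) ≤ 1 := by
      rw [← ENNReal.ofReal_one]; exact ENNReal.ofReal_le_ofReal (hX1 k l m ω)
    have h2 : (A k l m).indicator (fun _ => (1 : ℝ≥0∞)) ω ≤ 1 := Set.indicator_le_self' (by simp) ω
    calc q k l m ω ≤ 1 + 1 := add_le_add h1 h2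
      _ = 2 := by norm_num
  let Q : ℕ → Ω → ℝ≥0∞ := fun k ω => ⨆ l, ⨆ (_ : k ≤ l), limsup (fun m => q k l m ω) atTop
  have hQ : ∀ k, Measurable (Q k) := fun k =>
    Measurable.iSup (fun l => Measurable.iSup_Prop _ (Measurable.limsup (fun m => hq k l m)))
  have hQ2 : ∀ k ω, Q k ω ≤ 2 := by
    intro k ω
    refine iSup₂_le (fun l _ => ?_)
    refine limsup_le_of_le (by isBoundedDefault) (Eventually.of_forall (fun m => hq2 k l m ω))
  have hQ0 : ∀ ω, Tendsto (fun k => Q k ω) atTop (𝓝 0) := by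
    intro ω
    rw [ENNReal.tendsto_atTop_zero]
    intro ε hε
    obtain ⟨ε', hε'0, hε'⟩ : ∃ ε' : ℝ, 0 < ε' ∧ ENNReal.ofReal ε' ≤ ε := by
      by_cases ht : ε = ∞
      · exact ⟨1, one_pos, by rw [ht]; exact le_top⟩
      · exact ⟨ε.toReal, ENNReal.toReal_pos hε.ne' ht, (ENNReal.ofReal_toReal ht).le⟩
    obtain ⟨k0, hk0⟩ := grid_conv V hV hb t0 T hT (fun t => B t ω) (hc ω) ε' hε'0
    refine ⟨k0, fun k hk => ?_⟩
    refine iSup₂_le (fun l hl => ?_)
    obtain ⟨m0, hm0⟩ := hk0 k hk l hl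
    refine (limsup_le_of_le (by isBoundedDefault) ?_).trans hε'
    filter_upwards [eventually_ge_atTop m0] with m hm
    obtain ⟨h1, h2⟩ := hm0 m hm
    have h3 : ω ∉ A k l m := h2
    show ENNReal.ofReal (X k l m ω) + (A k l m).indicator (fun _ => 1) ω ≤ _
    rw [Set.indicator_of_notMem h3, add_zero]
    exact ENNReal.ofReal_le_ofReal h1
  have hlim := tendsto_lintegral_of_dominated_convergence (μ := P) (F := Q) (f := fun _ => 0)
    (fun _ => 2) hQ (fun k => Eventually.of_forall (hQ2 k)) (by simp) (Eventually.of_forall hQ0)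
  rw [lintegral_zero] at hlim
  have hev := hlim.eventually (gt_mem_nhds (show (0 : ℝ≥0∞) < ENNReal.ofReal δ from ENNReal.ofReal_pos.2 hδ))
  obtain ⟨k0, hk0⟩ := eventually_atTop.1 hev
  refine ⟨k0, fun k hk l hl => ?_⟩
  have h1 : limsup (fun m => ∫⁻ ω, q k l m ω ∂P) atTop < ENNReal.ofReal δ := by
    refine (limsup_lintegral_le (μ := P) (fun _ => 2) (hq k l) (fun m => Eventually.of_forall (hq2 k l m)) (by simp)).trans_lt
      (lt_of_le_of_lt (lintegral_mono (fun ω => ?_)) (hk0 k hk))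
    exact le_iSup₂_of_le l hl le_rfl
  obtain ⟨m0, hm0⟩ := eventually_atTop.1 (eventually_lt_of_limsup_lt h1 (by isBoundedDefault))
  refine ⟨m0, fun m hm => ?_⟩
  have h2 := hm0 m hm
  constructor
  · have h3 : ∫ ω, X k l m ω ∂P = (∫⁻ ω, ENNReal.ofReal (X k l m ω) ∂P).toReal := by
      rw [integral_eq_lintegral_of_nonneg_ae (Eventually.of_forall (fun ω => hX0 k l m ω hl))
        (hX k l m).aestronglyMeasurable]
    show ∫ ω, X k l m ω ∂P ≤ δ
    rw [h3]
    refine ENNReal.toReal_le_of_le_ofReal hδ.le (le_trans (lintegral_mono (fun ω => ?_)) h2.le)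
    exact le_self_add
  · refine ENNReal.toReal_le_of_le_ofReal hδ.le (le_trans ?_ h2.le)
    show P (A k l m) ≤ _
    rw [← lintegral_indicator_one (hA k l m)]
    exact lintegral_mono (fun ω => le_add_self)

end Keldysh
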