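import Pool.Agent.Keldysh.Defs2
import Pool.Agent.Keldysh.M_gauss_prob
import Pool.Agent.Keldysh.M_gauss_density

open MeasureTheory ProbabilityTheory Filter Topology Set
open scoped ENNReal NNReal

namespace Keldysh

variable {n : ℕ} {Ω : Type*} [mΩ : MeasurableSpace Ω]

/-- A4: bounded density -/
theorem gauss_le (n : ℕ) (t : ℝ≥0) (ht : t ≠ 0) : ∃ C : ℝ≥0, gauss n t ≤ (C : ℝ≥0∞) • volume := by
  refine ⟨Real.toNNReal ((2 * Real.pi * t) ^ (-(n : ℝ) / 2)), ?_⟩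
  rw [gauss_density n t ht, ← withDensity_const]
  apply withDensity_mono
  refine Filter.Eventually.of_forall (fun x => ?_)
  show ENNReal.ofReal _ ≤ ENNReal.ofReal _
  apply ENNReal.ofReal_le_ofReal
  have h0 : (0 : ℝ) ≤ (2 * Real.pi * t) ^ (-(n : ℝ) / 2) := Real.rpow_nonneg (by positivity) _
  have h1 : Real.exp (-‖x‖ ^ 2 / (2 * t)) ≤ 1 := by
    apply Real.exp_le_one_iff.2
    apply div_nonpos_of_nonpos_of_nonneg
    · nlinarith [sq_nonneg ‖x‖]
    · positivity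
  calc (2 * Real.pi * (t : ℝ)) ^ (-(n : ℝ) / 2) * Real.exp (-‖x‖ ^ 2 / (2 * t))
      ≤ (2 * Real.pi * (t : ℝ)) ^ (-(n : ℝ) / 2) * 1 := mul_le_mul_of_nonneg_left h1 h0
    _ = _ := mul_one _

end Keldysh
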