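import Pool.Agent.Keldysh.Defs2
import Pool.Agent.Keldysh.Defs3
import Pool.Agent.Keldysh.M_gauss_prob
import Pool.Agent.Keldysh.M_gauss_le

open MeasureTheory ProbabilityTheory Filter Topology Set
open scoped ENNReal NNReal

namespace Keldysh

variable {n : ℕ} {Ω : Type*} [mΩ : MeasurableSpace Ω]

theorem gwalk_of_bm_dens (P : Measure Ω) [IsProbabilityMeasure P] (B : ℝ≥0 → Ω → E n)
    (F : ℝ≥0 → MeasurableSpace Ω) (a : E n) (hB : NiceBM P B F a) (t0 t : ℝ≥0) (ht : t0 ≤ t)
    (C : ℝ≥0) (hC : gauss n t0 ≤ (C : ℝ≥0∞) • volume) :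
    P.map (B t) ≤ (C : ℝ≥0∞) • volume := by
  have hm : ∀ s, Measurable (B s) := fun s => (hB.adapted s).mono (hB.F_le s) le_rfl
  have hX : Measurable (fun ω => B t0 ω - B 0 ω) := (hm t0).sub (hm 0)
  have hZ : Measurable (fun ω => B t ω - B t0 ω) := (hm t).sub (hm t0)
  have hXF : Measurable[F t0] (fun ω => B t0 ω - B 0 ω) :=
    Measurable.sub (hB.adapted t0) ((hB.adapted 0).mono (hB.F_mono (zero_le (a := t0))) le_rfl)
  have hind : IndepFun (fun ω => B t ω - B t0 ω) (fun ω => B t0 ω - B 0 ω) P := by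
    rw [IndepFun_iff_Indep]
    exact indep_of_indep_of_le_right (hB.indep t0 t ht) (by
      rw [← measurable_iff_comap_le]; exact hXF)
  have hprod := (indepFun_iff_map_prod_eq_prod_map_map hZ.aemeasurable hX.aemeasurable).1 hind
  have hlaw := hB.law 0 t0 (zero_le (a := t0))
  rw [tsub_zero] at hlaw
  rw [hlaw] at hprod
  haveI := gauss_prob n t0
  haveI : IsProbabilityMeasure (P.map (fun ω => B t ω - B t0 ω)) :=
    Measure.isProbabilityMeasure_map hZ.aemeasurable
  refine Measure.le_iff.2 fun S hS => ?_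
  have hBt : B t = (fun p : E n × E n => p.1 + p.2 + a) ∘
      (fun ω => (B t ω - B t0 ω, B t0 ω - B 0 ω)) := by
    funext ω
    simp only [Function.comp]
    rw [hB.start ω]; abel
  have hadd : Measurable (fun p : E n × E n => p.1 + p.2 + a) := by fun_prop
  rw [hBt, ← Measure.map_map hadd (hZ.prodMk hX), hprod, Measure.map_apply hadd hS,
    Measure.prod_apply (hadd hS)]
  calc ∫⁻ z, (gauss n t0) (Prod.mk z ⁻¹' ((fun p : E n × E n => p.1 + p.2 + a) ⁻¹' S))
        ∂(P.map (fun ω => B t ω - B t0 ω))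
      ≤ ∫⁻ _z, ((C : ℝ≥0∞) • volume) S ∂(P.map (fun ω => B t ω - B t0 ω)) := by
        refine lintegral_mono fun z => ?_
        refine (hC _).trans (le_of_eq ?_)
        have e : Prod.mk z ⁻¹' ((fun p : E n × E n => p.1 + p.2 + a) ⁻¹' S) =
            (fun x => x + (z + a)) ⁻¹' S := by
          ext x
          simp only [mem_preimage]
          rw [show z + x + a = x + (z + a) by abel]
        rw [e, Measure.smul_apply, Measure.smul_apply, measure_preimage_add_right]
    _ = ((C : ℝ≥0∞) • volume) S := by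
        rw [lintegral_const, measure_univ, mul_one]

/-- E1 -/
theorem gwalk_of_bm (P : Measure Ω) [IsProbabilityMeasure P] (B : ℝ≥0 → Ω → E n)
    (F : ℝ≥0 → MeasurableSpace Ω) (a : E n) (hB : NiceBM P B F a) (t0 : ℝ≥0) (ht0 : 0 < t0) :
    ∃ C : ℝ≥0, ∀ (T : ℝ≥0) (m : ℕ),
      GWalk P (fun j => B (gt t0 T m j)) (fun j => F (gt t0 T m j)) (T / 2 ^ m) C := by
  obtain ⟨C, hC⟩ := gauss_le n t0 ht0.ne'
  refine ⟨C, fun T m => ?_⟩
  have hmono : Monotone (gt t0 T m) := by
    intro i j hij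
    unfold gt
    have : (i : ℝ≥0) ≤ j := by exact_mod_cast hij
    gcongr
  have hstep : ∀ j, gt t0 T m (j + 1) - gt t0 T m j = T / 2 ^ m := by
    intro j
    unfold gt
    push_cast
    have e : t0 + ((j : ℝ≥0) + 1) * (T / 2 ^ m) = (t0 + j * (T / 2 ^ m)) + T / 2 ^ m := by ring
    rw [e, add_tsub_cancel_left]
  exact
    { F_le := fun j => hB.F_le _
      F_mono := fun i j hij => hB.F_mono (hmono hij)
      adapted := fun j => hB.adapted _
      law := fun j => by
        rw [← hstep j]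
        exact hB.law _ _ (hmono (Nat.le_succ j))
      indep := fun j => hB.indep _ _ (hmono (Nat.le_succ j))
      dens := fun j => gwalk_of_bm_dens P B F a hB t0 _ (by unfold gt; exact le_self_add) C hC }

end Keldysh
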