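import Pool.Agent.Keldysh.Defs2

open MeasureTheory ProbabilityTheory Filter Topology Set
open scoped ENNReal NNReal

namespace Keldysh

variable {n : ℕ} {Ω : Type*} [mΩ : MeasurableSpace Ω]

/-- D1 -/
theorem pd_self (ρ : E n → ℝ≥0∞) (V : Set (E n)) (x : E n) (hx : x ∈ V) : pd ρ V x x = 0 := by
  unfold pd
  refine le_antisymm ?_ (zero_le)
  refine (iInf_le _ 0).trans ?_
  simp [chainCost, hx]

end Keldysh
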