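import Pool.Agent.Keldysh.Defs2

open MeasureTheory ProbabilityTheory Filter Topology Set
open scoped ENNReal NNReal

namespace Keldysh

variable {n : ℕ} {Ω : Type*} [mΩ : MeasurableSpace Ω]

theorem pd_triangle_chain (ρ : E n → ℝ≥0∞) (V : Set (E n)) (k l : ℕ) (x y z : E n) :
    chainCost ρ V (k + l) x z ≤ chainCost ρ V k x y + chainCost ρ V l y z := by
  induction l generalizing z with
  | zero =>
    by_cases h : y = z ∧ y ∈ V
    · obtain ⟨rfl, hy⟩ := h
      exact le_self_add
    · have : chainCost ρ V 0 y z = ⊤ := by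
        show (⨅ (_ : y = z ∧ y ∈ V), (0 : ℝ≥0∞)) = ⊤
        rw [iInf_neg h]
      rw [this]
      simp
  | succ l ih =>
    show (⨅ (w : E n) (_ : segment ℝ w z ⊆ V), (chainCost ρ V (k + l) x w + segCost ρ w z)) ≤
      chainCost ρ V k x y +
        ⨅ (w : E n) (_ : segment ℝ w z ⊆ V), (chainCost ρ V l y w + segCost ρ w z)
    rw [ENNReal.add_iInf]
    refine le_iInf fun w => ?_
    by_cases h : segment ℝ w z ⊆ V
    · refine (iInf₂_le w h).trans ?_
      rw [iInf_pos h, ← add_assoc]
      gcongr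
      exact ih w
    · rw [iInf_neg h]
      simp

/-- D2 -/
theorem pd_triangle (ρ : E n → ℝ≥0∞) (V : Set (E n)) (x y z : E n) :
    pd ρ V x z ≤ pd ρ V x y + pd ρ V y z := by
  unfold pd
  rw [ENNReal.add_iInf]
  refine le_iInf fun l => ?_
  rw [ENNReal.iInf_add]
  refine le_iInf fun k => ?_
  exact (iInf_le _ (k + l)).trans (pd_triangle_chain ρ V k l x y z)

end Keldysh
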