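import Pool.Agent.Keldysh.Defs2
import Pool.Agent.Keldysh.M_segCost_comm
import Pool.Agent.Keldysh.M_pd_self
import Pool.Agent.Keldysh.M_pd_triangle

open MeasureTheory ProbabilityTheory Filter Topology Set
open scoped ENNReal NNReal

namespace Keldysh

variable {n : ℕ} {Ω : Type*} [mΩ : MeasurableSpace Ω]

theorem pd_comm_one (ρ : E n → ℝ≥0∞) (V : Set (E n)) (w y : E n) (h : segment ℝ w y ⊆ V) :
    pd ρ V y w ≤ segCost ρ w y := by
  have hy : y ∈ V := h (right_mem_segment ℝ w y)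
  have h0 : chainCost ρ V 0 y y = 0 := by
    simp [chainCost, hy]
  have h1 : chainCost ρ V 1 y w ≤ chainCost ρ V 0 y y + segCost ρ y w := by
    show (⨅ (v : E n) (_ : segment ℝ v w ⊆ V), (chainCost ρ V 0 y v + segCost ρ v w)) ≤ _
    exact iInf₂_le y (by rw [segment_symm]; exact h)
  calc pd ρ V y w ≤ chainCost ρ V 1 y w := iInf_le _ 1
    _ ≤ chainCost ρ V 0 y y + segCost ρ y w := h1
    _ = segCost ρ w y := by rw [h0, zero_add, segCost_comm]

theorem pd_comm_chain (ρ : E n → ℝ≥0∞) (V : Set (E n)) (x : E n) (k : ℕ) :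
    ∀ y, pd ρ V y x ≤ chainCost ρ V k x y := by
  induction k with
  | zero =>
    intro y
    show _ ≤ ⨅ (_ : x = y ∧ x ∈ V), (0 : ℝ≥0∞)
    refine le_iInf fun h => ?_
    obtain ⟨rfl, hx⟩ := h
    exact (pd_self ρ V x hx).le
  | succ k ih =>
    intro y
    show _ ≤ ⨅ (w : E n) (_ : segment ℝ w y ⊆ V), (chainCost ρ V k x w + segCost ρ w y)
    refine le_iInf₂ fun w hw => ?_
    calc pd ρ V y x ≤ pd ρ V y w + pd ρ V w x := pd_triangle ρ V y w x
      _ ≤ segCost ρ w y + chainCost ρ V k x w :=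
        add_le_add (pd_comm_one ρ V w y hw) (ih w)
      _ = chainCost ρ V k x w + segCost ρ w y := add_comm _ _

/-- D3 -/
theorem pd_comm (ρ : E n → ℝ≥0∞) (V : Set (E n)) (x y : E n) : pd ρ V x y = pd ρ V y x := by
  have h : ∀ x y : E n, pd ρ V y x ≤ pd ρ V x y := fun x y =>
    le_iInf fun k => pd_comm_chain ρ V x k y
  exact le_antisymm (h y x) (h x y)

end Keldysh
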