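import Pool.Agent.Keldysh.Defs2

open MeasureTheory ProbabilityTheory Filter Topology Set
open scoped ENNReal NNReal

namespace Keldysh

variable {n : ℕ} {Ω : Type*} [mΩ : MeasurableSpace Ω]

/-- D5 -/
theorem pd_le_segCost (ρ : E n → ℝ≥0∞) (V : Set (E n)) (x y : E n) (h : segment ℝ x y ⊆ V) :
    pd ρ V x y ≤ segCost ρ x y := by
  have hx : x ∈ V := h (left_mem_segment ℝ x y)
  have h0 : chainCost ρ V 0 x x ≤ 0 := by
    rw [chainCost]
    exact iInf_le_of_le ⟨rfl, hx⟩ le_rfl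
  have h1 : chainCost ρ V 1 x y ≤ chainCost ρ V 0 x x + segCost ρ x y := by
    rw [chainCost]
    exact iInf_le_of_le x (iInf_le_of_le h le_rfl)
  calc pd ρ V x y ≤ chainCost ρ V 1 x y := iInf_le _ 1
    _ ≤ chainCost ρ V 0 x x + segCost ρ x y := h1
    _ ≤ 0 + segCost ρ x y := add_le_add_left h0 _
    _ = segCost ρ x y := zero_add _

end Keldysh
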