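import Pool.Agent.Keldysh.Defs2
import Pool.Agent.Keldysh.M_segCost_comm

open MeasureTheory ProbabilityTheory Filter Topology Set
open scoped ENNReal NNReal

namespace Keldysh

variable {n : ℕ} {Ω : Type*} [mΩ : MeasurableSpace Ω]

theorem pd_measurable_sc_closed {X : Type*} [TopologicalSpace X] [SigmaCompactSpace X] {S : Set X}
    (hS : IsClosed S) : IsSigmaCompact S :=
  isSigmaCompact_univ.of_isClosed_subset hS (subset_univ _)

theorem pd_measurable_sc_inter {X : Type*} [TopologicalSpace X] [T2Space X] {S T : Set X}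
    (hS : IsSigmaCompact S) (hT : IsSigmaCompact T) : IsSigmaCompact (S ∩ T) := by
  obtain ⟨K, hK, rfl⟩ := hS
  obtain ⟨L, hL, rfl⟩ := hT
  have h : (⋃ n, K n) ∩ (⋃ n, L n) = ⋃ p : ℕ × ℕ, K p.1 ∩ L p.2 := by
    ext x
    simp only [mem_inter_iff, mem_iUnion, Prod.exists]
    constructor
    · rintro ⟨⟨i, hi⟩, ⟨j, hj⟩⟩
      exact ⟨i, j, hi, hj⟩
    · rintro ⟨i, j, hi, hj⟩
      exact ⟨⟨i, hi⟩, ⟨j, hj⟩⟩
  rw [h]
  exact isSigmaCompact_iUnion_of_isCompact _ fun p => (hK p.1).inter (hL p.2)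

theorem pd_measurable_sc_preimage {X Y : Type*} [TopologicalSpace X] [TopologicalSpace Y]
    [SigmaCompactSpace X] [T2Space Y] {f : X → Y} (hf : Continuous f) {S : Set Y}
    (hS : IsSigmaCompact S) : IsSigmaCompact (f ⁻¹' S) := by
  obtain ⟨K, hK, rfl⟩ := hS
  rw [preimage_iUnion]
  exact isSigmaCompact_iUnion _ fun n => pd_measurable_sc_closed ((hK n).isClosed.preimage hf)

theorem pd_measurable_sc_union {X : Type*} [TopologicalSpace X] {S T : Set X}
    (hS : IsSigmaCompact S) (hT : IsSigmaCompact T) : IsSigmaCompact (S ∪ T) := by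
  rw [union_eq_iUnion]
  apply isSigmaCompact_iUnion
  rintro (_ | _)
  · exact hT
  · exact hS

theorem pd_measurable_sc_meas {X : Type*} [TopologicalSpace X] [T2Space X] [MeasurableSpace X]
    [BorelSpace X] {S : Set X} (hS : IsSigmaCompact S) : MeasurableSet S := by
  obtain ⟨K, hK, rfl⟩ := hS
  exact MeasurableSet.iUnion fun n => (hK n).isClosed.measurableSet

theorem pd_measurable_sc_open {X : Type*} [PseudoEMetricSpace X] [SigmaCompactSpace X] {U : Set X}
    (hU : IsOpen U) : IsSigmaCompact U := by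
  obtain ⟨F, hF, -, hFU, -⟩ := hU.exists_iUnion_isClosed
  rw [← hFU]
  exact isSigmaCompact_iUnion _ fun n => pd_measurable_sc_closed (hF n)

theorem pd_measurable_sc_lsc {X : Type*} [TopologicalSpace X] [SigmaCompactSpace X]
    {f : X → ℝ≥0∞} (hf : LowerSemicontinuous f) (c : ℝ≥0∞) : IsSigmaCompact {x | f x < c} := by
  have h : {x | f x < c} = ⋃ (q : {q : ℚ // ((Real.toNNReal q : ℝ≥0) : ℝ≥0∞) < c}),
      f ⁻¹' Iic ((Real.toNNReal q.1 : ℝ≥0) : ℝ≥0∞) := by
    ext x
    rw [mem_iUnion]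
    constructor
    · intro hx
      obtain ⟨q, -, h1, h2⟩ := ENNReal.lt_iff_exists_rat_btwn.1 hx
      exact ⟨⟨q, h2⟩, h1.le⟩
    · rintro ⟨⟨q, h1⟩, h2⟩
      exact lt_of_le_of_lt h2 h1
  rw [h]
  exact isSigmaCompact_iUnion _ fun q => pd_measurable_sc_closed (hf.isClosed_preimage _)

theorem pd_measurable_seg_open {n : ℕ} {V : Set (E n)} (hV : IsOpen V) :
    IsOpen {p : E n × E n | segment ℝ p.1 p.2 ⊆ V} := by
  have h : {p : E n × E n | segment ℝ p.1 p.2 ⊆ V}
      = {p : E n × E n | ∀ t ∈ Icc (0 : ℝ) 1, p.1 + t • (p.2 - p.1) ∈ V} := by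
    ext p
    change segment ℝ p.1 p.2 ⊆ V ↔ ∀ t ∈ Icc (0 : ℝ) 1, p.1 + t • (p.2 - p.1) ∈ V
    rw [segment_eq_image', image_subset_iff]
    rfl
  rw [h, isOpen_iff_eventually]
  intro p hp
  apply isCompact_Icc.eventually_forall_of_forall_eventually
    (P := fun (p : E n × E n) (t : ℝ) => p.1 + t • (p.2 - p.1) ∈ V)
  intro t ht
  have hc : Continuous fun z : (E n × E n) × ℝ => z.1.1 + z.2 • (z.1.2 - z.1.1) := by fun_prop
  exact hc.continuousAt.eventually (hV.mem_nhds (hp t ht))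

theorem pd_measurable_I_lsc {n : ℕ} {ρ : E n → ℝ≥0∞} (hρ : LowerSemicontinuous ρ) :
    LowerSemicontinuous fun p : E n × E n =>
      ∫⁻ t in Icc (0 : ℝ) 1, ρ (p.1 + t • (p.2 - p.1)) := by
  rw [lowerSemicontinuous_iff_le_liminf]
  intro p
  calc ∫⁻ t in Icc (0 : ℝ) 1, ρ (p.1 + t • (p.2 - p.1))
      ≤ ∫⁻ t in Icc (0 : ℝ) 1, liminf (fun p' : E n × E n => ρ (p'.1 + t • (p'.2 - p'.1))) (𝓝 p) := by
        apply lintegral_mono
        intro t
        have hcont : Continuous fun p' : E n × E n => p'.1 + t • (p'.2 - p'.1) := by fun_prop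
        have hl : LowerSemicontinuous fun p' : E n × E n => ρ (p'.1 + t • (p'.2 - p'.1)) :=
          fun p' y hy => (hcont.tendsto p').eventually (hρ _ y hy)
        exact hl.le_liminf p
    _ ≤ liminf (fun p' : E n × E n => ∫⁻ t in Icc (0 : ℝ) 1, ρ (p'.1 + t • (p'.2 - p'.1))) (𝓝 p) := by
        apply lintegral_liminf_le
        intro p'
        exact hρ.measurable.comp (by fun_prop)

theorem pd_measurable_seg {n : ℕ} {ρ : E n → ℝ≥0∞} (hρ : LowerSemicontinuous ρ) (c : ℝ≥0∞) :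
    IsSigmaCompact {p : E n × E n | segCost ρ p.1 p.2 < c} := by
  rcases eq_or_ne c 0 with rfl | hc
  · have h : {p : E n × E n | segCost ρ p.1 p.2 < 0} = ∅ := by
      ext p
      simp
    rw [h]
    exact isSigmaCompact_empty
  have h : {p : E n × E n | segCost ρ p.1 p.2 < c} = {p : E n × E n | p.1 = p.2} ∪
      ⋃ q : ℚ, ({p : E n × E n | ∫⁻ t in Icc (0 : ℝ) 1, ρ (p.1 + t • (p.2 - p.1))
          < ((Real.toNNReal q : ℝ≥0) : ℝ≥0∞)} ∩
        {p : E n × E n | ENNReal.ofReal ‖p.2 - p.1‖ * ((Real.toNNReal q : ℝ≥0) : ℝ≥0∞) < c}) := by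
    ext p
    simp only [mem_union, mem_iUnion, mem_inter_iff]
    change segCost ρ p.1 p.2 < c ↔ p.1 = p.2 ∨ ∃ q : ℚ,
      (∫⁻ t in Icc (0 : ℝ) 1, ρ (p.1 + t • (p.2 - p.1))) < ((Real.toNNReal q : ℝ≥0) : ℝ≥0∞) ∧
      ENNReal.ofReal ‖p.2 - p.1‖ * ((Real.toNNReal q : ℝ≥0) : ℝ≥0∞) < c
    unfold segCost
    constructor
    · intro hlt
      by_cases he : p.1 = p.2
      · left; exact he
      · right
        have hpos : 0 < ‖p.2 - p.1‖ := norm_pos_iff.2 (sub_ne_zero.2 (Ne.symm he))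
        have ha0 : ENNReal.ofReal ‖p.2 - p.1‖ ≠ 0 := (ENNReal.ofReal_pos.2 hpos).ne'
        have hat : ENNReal.ofReal ‖p.2 - p.1‖ ≠ ⊤ := ENNReal.ofReal_ne_top
        rw [mul_comm, ← ENNReal.lt_div_iff_mul_lt (Or.inl ha0) (Or.inl hat)] at hlt
        obtain ⟨q, -, h1, h2⟩ := ENNReal.lt_iff_exists_rat_btwn.1 hlt
        refine ⟨q, h1, ?_⟩
        rw [ENNReal.lt_div_iff_mul_lt (Or.inl ha0) (Or.inl hat), mul_comm] at h2
        exact h2
    · rintro (he | ⟨q, h1, h2⟩)
      · rw [he, sub_self, norm_zero, ENNReal.ofReal_zero, zero_mul]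
        exact pos_iff_ne_zero.2 hc
      · refine lt_of_le_of_lt ?_ h2
        gcongr
  rw [h]
  apply pd_measurable_sc_union
  · exact pd_measurable_sc_closed (isClosed_eq continuous_fst continuous_snd)
  · apply isSigmaCompact_iUnion
    intro q
    apply pd_measurable_sc_inter
    · exact pd_measurable_sc_lsc (pd_measurable_I_lsc hρ) _
    · apply pd_measurable_sc_open
      have hcont : Continuous fun p : E n × E n =>
          ENNReal.ofReal ‖p.2 - p.1‖ * ((Real.toNNReal q : ℝ≥0) : ℝ≥0∞) :=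
        (ENNReal.continuous_mul_const ENNReal.coe_ne_top).comp
          (ENNReal.continuous_ofReal.comp (by fun_prop))
      exact isOpen_lt hcont continuous_const

theorem pd_measurable_chain {n : ℕ} {ρ : E n → ℝ≥0∞} (hρ : LowerSemicontinuous ρ) {V : Set (E n)}
    (hV : IsOpen V) (k : ℕ) : ∀ α : ℝ≥0∞,
    IsSigmaCompact {p : E n × E n | chainCost ρ V k p.1 p.2 < α} := by
  induction k with
  | zero =>
    intro α
    rcases eq_or_ne α 0 with rfl | hα
    · have h : {p : E n × E n | chainCost ρ V 0 p.1 p.2 < 0} = ∅ := by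
        ext p
        simp
      rw [h]
      exact isSigmaCompact_empty
    · have h : {p : E n × E n | chainCost ρ V 0 p.1 p.2 < α}
          = {p : E n × E n | p.1 = p.2} ∩ Prod.fst ⁻¹' V := by
        ext p
        change (⨅ (_ : p.1 = p.2 ∧ p.1 ∈ V), (0 : ℝ≥0∞)) < α ↔ p.1 = p.2 ∧ p.1 ∈ V
        rw [iInf_lt_iff]
        constructor
        · rintro ⟨h, -⟩
          exact h
        · intro h
          exact ⟨h, pos_iff_ne_zero.2 hα⟩
      rw [h]
      exact pd_measurable_sc_inter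
        (pd_measurable_sc_closed (isClosed_eq continuous_fst continuous_snd))
        (pd_measurable_sc_open (hV.preimage continuous_fst))
  | succ k ih =>
    intro α
    have h : {p : E n × E n | chainCost ρ V (k + 1) p.1 p.2 < α} =
        ⋃ q : ℚ, (fun z : E n × E n × E n => (z.1, z.2.2)) ''
          (((fun z : E n × E n × E n => (z.1, z.2.1)) ⁻¹' {p : E n × E n |
            chainCost ρ V k p.1 p.2 < α - ((Real.toNNReal q : ℝ≥0) : ℝ≥0∞)}) ∩
          ((fun z : E n × E n × E n => (z.2.1, z.2.2)) ⁻¹'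
            ({p : E n × E n | segment ℝ p.1 p.2 ⊆ V} ∩
              {p : E n × E n | segCost ρ p.1 p.2 < ((Real.toNNReal q : ℝ≥0) : ℝ≥0∞)}))) := by
      ext p
      rw [mem_iUnion]
      change (⨅ (w : E n) (_ : segment ℝ w p.2 ⊆ V),
        (chainCost ρ V k p.1 w + segCost ρ w p.2)) < α ↔ _
      simp only [iInf_lt_iff]
      constructor
      · rintro ⟨w, hw, hlt⟩
        have h1 : segCost ρ w p.2 < α - chainCost ρ V k p.1 w := by
          rw [lt_tsub_iff_left]
          exact hlt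
        obtain ⟨q, -, h2, h3⟩ := ENNReal.lt_iff_exists_rat_btwn.1 h1
        refine ⟨q, (p.1, w, p.2), ⟨?_, hw, h2⟩, rfl⟩
        change chainCost ρ V k p.1 w < α - ((Real.toNNReal q : ℝ≥0) : ℝ≥0∞)
        rw [lt_tsub_iff_left] at h3
        rw [lt_tsub_iff_right]
        exact h3
      · rintro ⟨q, ⟨x, w, y⟩, ⟨h1, h2, h3⟩, rfl⟩
        change chainCost ρ V k x w < α - ((Real.toNNReal q : ℝ≥0) : ℝ≥0∞) at h1
        change segment ℝ w y ⊆ V at h2
        change segCost ρ w y < ((Real.toNNReal q : ℝ≥0) : ℝ≥0∞) at h3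
        refine ⟨w, h2, ?_⟩
        change chainCost ρ V k x w + segCost ρ w y < α
        rw [lt_tsub_iff_right] at h1
        refine lt_of_le_of_lt ?_ h1
        gcongr
    rw [h]
    apply isSigmaCompact_iUnion
    intro q
    apply IsSigmaCompact.image (by fun_prop)
    apply pd_measurable_sc_inter
    · exact pd_measurable_sc_preimage (by fun_prop) (ih _)
    · exact pd_measurable_sc_preimage (by fun_prop) (pd_measurable_sc_inter
        (pd_measurable_sc_open (pd_measurable_seg_open hV)) (pd_measurable_seg hρ _))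

/-- D6 -/
theorem pd_measurable (ρ : E n → ℝ≥0∞) (hρ : LowerSemicontinuous ρ) (V : Set (E n))
    (hV : IsOpen V) : Measurable (fun p : E n × E n => pd ρ V p.1 p.2) := by
  unfold pd
  apply Measurable.iInf
  intro k
  apply measurable_of_Iio
  intro α
  exact pd_measurable_sc_meas (pd_measurable_chain hρ hV k α)

end Keldysh
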