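import Pool.Agent.Keldysh.Defs2

open MeasureTheory ProbabilityTheory Filter Topology Set
open scoped ENNReal NNReal

namespace Keldysh

variable {n : ℕ} {Ω : Type*} [mΩ : MeasurableSpace Ω]

theorem pd_ne_top_chain (ρ : E n → ℝ≥0∞) (V : Set (E n)) (x : E n) (k : ℕ) : ∀ y : E n,
    chainCost ρ V k x y ≠ ⊤ → x ∈ V ∧ y ∈ V := by
  induction k with
  | zero =>
    intro y h
    by_contra hcon
    apply h
    unfold chainCost
    rw [iInf_eq_top]
    rintro ⟨rfl, hx⟩
    exact absurd ⟨hx, hx⟩ hcon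
  | succ k ih =>
    intro y h
    by_contra hcon
    apply h
    unfold chainCost
    rw [iInf_eq_top]
    intro w
    rw [iInf_eq_top]
    intro hw
    by_contra h2
    have h3 : chainCost ρ V k x w ≠ ⊤ := fun h4 => h2 (by rw [h4, top_add])
    exact hcon ⟨(ih w h3).1, hw (right_mem_segment ℝ w y)⟩

/-- D4 -/
theorem pd_ne_top (ρ : E n → ℝ≥0∞) (V : Set (E n)) (x y : E n) (h : pd ρ V x y ≠ ⊤) :
    x ∈ V ∧ y ∈ V := by
  unfold pd at h
  rw [Ne, iInf_eq_top] at h
  push Not at h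
  obtain ⟨k, hk⟩ := h
  exact pd_ne_top_chain ρ V x k y hk

end Keldysh
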