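import Pool.Agent.Keldysh.Defs2
import Pool.Agent.Keldysh.M_pd_self
import Pool.Agent.Keldysh.M_pd_triangle
import Pool.Agent.Keldysh.M_pd_comm
import Pool.Agent.Keldysh.M_pd_ne_top
import Pool.Agent.Keldysh.M_pd_le_segCost
import Pool.Agent.Keldysh.M_pd_measurable

open MeasureTheory ProbabilityTheory Filter Topology Set
open scoped ENNReal NNReal

namespace Keldysh

variable {n : ℕ} {Ω : Type*} [mΩ : MeasurableSpace Ω]

theorem pd_centers_int (h : E n → ℝ≥0∞) (hm : Measurable h) (r : ℝ) :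
    ∫⁻ x, ∫⁻ z in Metric.ball (0 : E n) r,
      (ENNReal.ofReal r * ∫⁻ t in Icc (0 : ℝ) 1, h (x + t • z)) =
      ENNReal.ofReal r * (∫⁻ x, h x) * volume (Metric.ball (0 : E n) r) := by
  have hm2 : Measurable (fun p : (E n × E n) × ℝ => h (p.1.1 + p.2 • p.1.2)) := by
    apply hm.comp
    fun_prop
  have hm3 : Measurable (fun p : E n × E n => ∫⁻ t in Icc (0 : ℝ) 1, h (p.1 + t • p.2)) :=
    hm2.lintegral_prod_right'
  rw [lintegral_lintegral_swap (by exact (hm3.const_mul _).aemeasurable)]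
  have h1 : ∀ z : E n, ∫⁻ x, ENNReal.ofReal r * ∫⁻ t in Icc (0 : ℝ) 1, h (x + t • z) =
      ENNReal.ofReal r * ∫⁻ x, h x := by
    intro z
    have hm4 : Measurable (fun x : E n => ∫⁻ t in Icc (0 : ℝ) 1, h (x + t • z)) :=
      hm3.comp (measurable_id.prodMk measurable_const)
    rw [lintegral_const_mul _ hm4]
    congr 1
    have hm5 : Measurable (fun p : E n × ℝ => h (p.1 + p.2 • z)) := by
      apply hm.comp
      fun_prop
    rw [lintegral_lintegral_swap (by exact hm5.aemeasurable)]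
    have h2 : ∀ t : ℝ, ∫⁻ x, h (x + t • z) = ∫⁻ x, h x := fun t =>
      lintegral_add_right_eq_self h (t • z)
    simp only [h2]
    rw [setLIntegral_const, Real.volume_Icc]
    simp
  simp only [h1]
  rw [setLIntegral_const]

theorem pd_centers_L1 (ρ : E n → ℝ≥0∞) (V : Set (E n)) (hb : Bornology.IsBounded V)
    (hρ2 : ∫⁻ x in V, ρ x ^ 2 ≠ ⊤) : ∫⁻ x in V, ρ x ≠ ⊤ := by
  have h1 : ∫⁻ x in V, ρ x ≤ ∫⁻ x in V, (1 + ρ x ^ 2) := by
    apply lintegral_mono
    intro x
    show ρ x ≤ 1 + ρ x ^ 2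
    rcases le_total (ρ x) 1 with h | h
    · exact h.trans le_self_add
    · calc ρ x = ρ x * 1 := (mul_one _).symm
        _ ≤ ρ x * ρ x := by gcongr
        _ = ρ x ^ 2 := (sq _).symm
        _ ≤ 1 + ρ x ^ 2 := le_add_self
  rw [lintegral_add_left measurable_const, setLIntegral_const, one_mul] at h1
  refine ne_top_of_le_ne_top ?_ h1
  exact ENNReal.add_ne_top.2 ⟨hb.measure_lt_top.ne, hρ2⟩

/-- points with a definite ball in `V` and whose `η`-ball is null form a null set -/
theorem pd_centers_null (ρ : E n → ℝ≥0∞) (hρ : LowerSemicontinuous ρ) (V : Set (E n))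
    (hV : IsOpen V) (hb : Bornology.IsBounded V)
    (hρ2 : ∫⁻ x in V, ρ x ^ 2 ≠ ⊤) (η : ℝ≥0∞) (hη : η ≠ 0) (ε : ℝ) (hε : 0 < ε) :
    volume {x : E n | Metric.ball x ε ⊆ V ∧ volume {y : E n | pd ρ V x y < η} = 0} = 0 := by
  set N : Set (E n) := {x : E n | Metric.ball x ε ⊆ V ∧ volume {y : E n | pd ρ V x y < η} = 0}
    with hN
  set h : E n → ℝ≥0∞ := V.indicator ρ with hh
  have hm : Measurable h := hρ.measurable.indicator hV.measurableSet
  have hint : ∫⁻ x, h x = ∫⁻ x in V, ρ x := lintegral_indicator hV.measurableSet _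
  have hM : ∫⁻ x, h x ≠ ⊤ := by
    rw [hint]
    exact pd_centers_L1 ρ V hb hρ2
  have key : ∀ r : ℝ, 0 < r → r ≤ ε → η * volume N ≤ ENNReal.ofReal r * ∫⁻ x, h x := by
    intro r hr hrε
    have hB0 : volume (Metric.ball (0 : E n) r) ≠ 0 := (Metric.measure_ball_pos _ _ hr).ne'
    have hBt : volume (Metric.ball (0 : E n) r) ≠ ⊤ := measure_ball_lt_top.ne
    have hpt : ∀ x ∈ N, η * volume (Metric.ball (0 : E n) r) ≤
        ∫⁻ z in Metric.ball (0 : E n) r,
          (ENNReal.ofReal r * ∫⁻ t in Icc (0 : ℝ) 1, h (x + t • z)) := by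
      intro x hx
      rw [← setLIntegral_const]
      have hae : ∀ᵐ y : E n, η ≤ pd ρ V x y := by
        rw [ae_iff]
        simp only [not_le]
        exact hx.2
      have hae2 : ∀ᵐ z : E n, η ≤ pd ρ V x (x + z) :=
        (measurePreserving_add_left volume x).quasiMeasurePreserving.ae hae
      apply setLIntegral_mono_ae' Metric.isOpen_ball.measurableSet
      filter_upwards [hae2] with z hz hzB
      have hzr : ‖z‖ < r := mem_ball_zero_iff.1 hzB
      have hmem : ∀ t ∈ Icc (0 : ℝ) 1, x + t • z ∈ V := by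
        intro t ht
        apply hx.1
        rw [Metric.mem_ball, dist_eq_norm, add_sub_cancel_left, norm_smul,
          Real.norm_of_nonneg ht.1]
        have : t * ‖z‖ ≤ 1 * ‖z‖ := mul_le_mul_of_nonneg_right ht.2 (norm_nonneg _)
        linarith
      have hseg : segment ℝ x (x + z) ⊆ V := by
        rw [segment_eq_image']
        rintro _ ⟨t, ht, rfl⟩
        have := hmem t ht
        simpa using this
      refine hz.trans ((pd_le_segCost ρ V x (x + z) hseg).trans ?_)
      unfold segCost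
      rw [add_sub_cancel_left]
      apply mul_le_mul' (ENNReal.ofReal_le_ofReal hzr.le)
      apply setLIntegral_mono' measurableSet_Icc
      intro t ht
      rw [hh, Set.indicator_of_mem (hmem t ht)]
    have h1 : η * volume (Metric.ball (0 : E n) r) * volume N ≤
        ENNReal.ofReal r * (∫⁻ x, h x) * volume (Metric.ball (0 : E n) r) := by
      rw [← pd_centers_int h hm r, ← setLIntegral_const]
      have hm2 : Measurable (fun p : (E n × E n) × ℝ => h (p.1.1 + p.2 • p.1.2)) := by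
        apply hm.comp
        fun_prop
      have hm3 : Measurable (fun p : E n × E n => ∫⁻ t in Icc (0 : ℝ) 1, h (p.1 + t • p.2)) :=
        hm2.lintegral_prod_right'
      have hm4 : Measurable (fun x : E n => ∫⁻ z in Metric.ball (0 : E n) r,
          (ENNReal.ofReal r * ∫⁻ t in Icc (0 : ℝ) 1, h (x + t • z))) :=
        (hm3.const_mul _).lintegral_prod_right'
      exact (setLIntegral_mono hm4 hpt).trans (setLIntegral_le_lintegral _ _)
    have h2 : (η * volume N) * volume (Metric.ball (0 : E n) r) ≤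
        (ENNReal.ofReal r * (∫⁻ x, h x)) * volume (Metric.ball (0 : E n) r) := by
      calc (η * volume N) * volume (Metric.ball (0 : E n) r)
          = η * volume (Metric.ball (0 : E n) r) * volume N := by ring
        _ ≤ _ := h1
    exact (ENNReal.mul_le_mul_iff_left hB0 hBt).1 h2
  have h3 : η * volume N = 0 := by
    apply le_antisymm _ (zero_le)
    have hlim : Tendsto (fun r : ℝ => ENNReal.ofReal r * ∫⁻ x, h x) (𝓝[>] 0)
        (𝓝 (ENNReal.ofReal 0 * ∫⁻ x, h x)) := by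
      apply ENNReal.Tendsto.mul_const _ (Or.inr hM)
      exact ((ENNReal.continuous_ofReal.tendsto 0).mono_left nhdsWithin_le_nhds)
    rw [ENNReal.ofReal_zero, zero_mul] at hlim
    apply ge_of_tendsto hlim
    filter_upwards [Ioc_mem_nhdsGT hε] with r hr
    exact key r hr.1 hr.2
  rcases mul_eq_zero.1 h3 with h4 | h4
  · exact absurd h4 hη
  · exact h4

/-- for almost all points of `V` all balls have positive volume -/
theorem pd_centers_pos (ρ : E n → ℝ≥0∞) (hρ : LowerSemicontinuous ρ) (V : Set (E n))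
    (hV : IsOpen V) (hb : Bornology.IsBounded V)
    (hρ2 : ∫⁻ x in V, ρ x ^ 2 ≠ ⊤) (η : ℝ≥0∞) (hη : η ≠ 0) :
    ∀ᵐ x : E n, x ∈ V → volume {y : E n | pd ρ V x y < η} ≠ 0 := by
  have h1 : ∀ᵐ x : E n, ∀ k : ℕ,
      ¬ (Metric.ball x (1 / ((k : ℝ) + 1)) ⊆ V ∧ volume {y : E n | pd ρ V x y < η} = 0) := by
    rw [ae_all_iff]
    intro k
    rw [ae_iff]
    simp only [not_not]
    exact pd_centers_null ρ hρ V hV hb hρ2 η hη _ (by positivity)
  filter_upwards [h1] with x hx hxV h0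
  obtain ⟨ε, hε, hball⟩ := Metric.isOpen_iff.1 hV x hxV
  obtain ⟨k, hk⟩ := exists_nat_one_div_lt hε
  exact hx k ⟨(Metric.ball_subset_ball hk.le).trans hball, h0⟩

/-- a countable `η`-net -/
theorem pd_centers_net (ρ : E n → ℝ≥0∞) (hρ : LowerSemicontinuous ρ) (V : Set (E n))
    (hV : IsOpen V) (hb : Bornology.IsBounded V)
    (hρ2 : ∫⁻ x in V, ρ x ^ 2 ≠ ⊤) (η : ℝ≥0∞) (hη : η ≠ 0) :
    ∃ A : Set (E n), A.Countable ∧ A ⊆ V ∧ ∀ᵐ x : E n, x ∈ V → ∃ y ∈ A, pd ρ V x y < η := by
  set V' : Set (E n) := {x | x ∈ V ∧ volume {y : E n | pd ρ V x y < η / 2} ≠ 0} with hV'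
  obtain ⟨A, hA⟩ := zorn_subset {A : Set (E n) | A ⊆ V' ∧ A.Pairwise fun x y => η ≤ pd ρ V x y} (by
    intro c hc hchain
    refine ⟨⋃₀ c, ⟨?_, ?_⟩, fun s hs => subset_sUnion_of_mem hs⟩
    · exact sUnion_subset fun s hs => (hc hs).1
    · rw [Set.pairwise_sUnion hchain.directedOn]
      exact fun s hs => (hc hs).2)
  have hAV : A ⊆ V' := hA.prop.1
  have hAp : A.Pairwise fun x y => η ≤ pd ρ V x y := hA.prop.2
  refine ⟨A, ?_, fun x hx => (hAV hx).1, ?_⟩
  · have hmeas : ∀ x : E n, MeasurableSet {y : E n | pd ρ V x y < η / 2} := by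
      intro x
      have := (pd_measurable ρ hρ V hV).comp (measurable_const.prodMk measurable_id :
        Measurable fun y : E n => (x, y))
      exact measurableSet_lt this measurable_const
    have hcount := Measure.countable_meas_pos_of_disjoint_iUnion (μ := (volume : Measure (E n)))
      (As := fun x : A => {y : E n | pd ρ V x.1 y < η / 2}) (fun x => hmeas x.1) (by
        intro x y hxy
        rw [Function.onFun, Set.disjoint_left]
        intro z hz1 hz2
        have h1 : η ≤ pd ρ V x.1 y.1 := hAp x.2 y.2 (fun h => hxy (Subtype.ext h))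
        have h2 : pd ρ V x.1 y.1 ≤ pd ρ V x.1 z + pd ρ V z y.1 := pd_triangle ρ V _ _ _
        rw [pd_comm ρ V z y.1] at h2
        have h3 : pd ρ V x.1 z + pd ρ V y.1 z < η / 2 + η / 2 := ENNReal.add_lt_add hz1 hz2
        rw [ENNReal.add_halves] at h3
        exact absurd (h1.trans h2) (not_le.2 h3))
    have huniv : {x : A | 0 < volume {y : E n | pd ρ V x.1 y < η / 2}} = univ := by
      apply eq_univ_of_forall
      intro x
      exact pos_iff_ne_zero.2 (hAV x.2).2
    rw [huniv] at hcount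
    exact Set.countable_univ_iff.1 hcount |>.to_set
  · filter_upwards [pd_centers_pos ρ hρ V hV hb hρ2 (η / 2) (ENNReal.half_pos hη).ne'] with x hx hxV
    have hxV' : x ∈ V' := ⟨hxV, hx hxV⟩
    by_cases hxA : x ∈ A
    · exact ⟨x, hxA, by rw [pd_self ρ V x hxV]; exact pos_iff_ne_zero.2 hη⟩
    · by_contra hcon
      push Not at hcon
      apply hxA
      have hins : insert x A ∈ {A : Set (E n) | A ⊆ V' ∧ A.Pairwise fun x y => η ≤ pd ρ V x y} := by
        refine ⟨insert_subset hxV' hAV, ?_⟩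
        rw [Set.pairwise_insert]
        refine ⟨hAp, fun b hb _ => ⟨hcon b hb, ?_⟩⟩
        rw [pd_comm]
        exact hcon b hb
      exact hA.le_of_ge hins (subset_insert x A) (mem_insert x A)

/-- D7 -/
theorem pd_centers (ρ : E n → ℝ≥0∞) (hρ : LowerSemicontinuous ρ) (V : Set (E n))
    (hV : IsOpen V) (hb : Bornology.IsBounded V) (hne : V.Nonempty)
    (hρ2 : ∫⁻ x in V, ρ x ^ 2 ≠ ⊤) :
    ∃ y : ℕ → E n, (∀ i, y i ∈ V) ∧
      ∀ᵐ x ∂(volume.restrict V), ∀ η : ℝ≥0∞, η ≠ 0 → ∃ i, pd ρ V x (y i) < η := by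
  have h1 : ∀ j : ℕ, ((j : ℝ≥0∞) + 1)⁻¹ ≠ 0 := fun j => by
    rw [ENNReal.inv_ne_zero]
    exact ENNReal.add_ne_top.2 ⟨ENNReal.natCast_ne_top j, ENNReal.one_ne_top⟩
  choose A hAc hAV hA using fun j : ℕ =>
    pd_centers_net ρ hρ V hV hb hρ2 (((j : ℝ≥0∞) + 1)⁻¹) (h1 j)
  obtain ⟨v, hv⟩ := hne
  obtain ⟨y, hy⟩ := Set.Countable.exists_eq_range (s := insert v (⋃ j, A j))
    ((countable_iUnion hAc).insert v) (insert_nonempty _ _)
  refine ⟨y, ?_, ?_⟩
  · intro i
    have : y i ∈ insert v (⋃ j, A j) := by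
      rw [hy]
      exact mem_range_self i
    rcases this with h | h
    · rw [h]
      exact hv
    · obtain ⟨j, hj⟩ := mem_iUnion.1 h
      exact hAV j hj
  · rw [ae_restrict_iff' hV.measurableSet]
    filter_upwards [ae_all_iff.2 hA] with x hx hxV η hη
    obtain ⟨j, hj⟩ := ENNReal.exists_inv_nat_lt hη
    obtain ⟨z, hz, hlt⟩ := hx j hxV
    have hz2 : z ∈ insert v (⋃ j, A j) := Or.inr (mem_iUnion.2 ⟨j, hz⟩)
    rw [hy] at hz2
    obtain ⟨i, rfl⟩ := hz2
    refine ⟨i, hlt.trans_le (le_trans ?_ hj.le)⟩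
    exact ENNReal.inv_le_inv.2 le_self_add

end Keldysh
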