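import Pool.Agent.Keldysh.Defs2
import Pool.Agent.Keldysh.M_exists_occDens
import Pool.Agent.Keldysh.M_key_ineq

open MeasureTheory ProbabilityTheory Filter Topology Set
open scoped ENNReal NNReal

namespace Keldysh

variable {n : ℕ} {Ω : Type*} [mΩ : MeasurableSpace Ω]

/-- C7 -/
theorem est_zero (P : Measure Ω) [IsProbabilityMeasure P] (Y : ℕ → Ω → E n)
    (F : ℕ → MeasurableSpace Ω) (h C : ℝ≥0) (hY : GWalk P Y F h C) (σ' : Ω → ℕ)
    (hσ' : IsStop F σ') (N : ℕ) (hN : ∀ ω, σ' ω ≤ N)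
    (D : Set (E n)) (hD : MeasurableSet D) (hin : ∀ ω, ∀ j, j < σ' ω → Y j ω ∈ D)
    (u : E n → ℝ) (hu : Measurable u) (L : ℝ) (hL : ∀ x, |u x| ≤ L) :
    ENNReal.ofReal ((∫ ω, (u (Y (σ' ω) ω) - u (Y 0 ω)) ∂P) ^ 2) ≤
      (N * C) * ∫⁻ x in D, ∫⁻ z, ‖u (x + z) - u x‖ₑ ^ 2 ∂(gauss n h) := by
  have hσ : IsStop F (fun _ : Ω => 0) := by
    intro j
    have : {ω : Ω | (fun _ : Ω => 0) ω ≤ j} = Set.univ := by
      ext ω; simp
    rw [this]
    exact MeasurableSet.univ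
  have hA : ∀ j, MeasurableSet[F j] ((fun j => (Set.univ : Set Ω) ∩
      {ω | (fun _ : Ω => 0) ω ≤ j ∧ j < σ' ω}) j) := by
    intro j
    have : ((Set.univ : Set Ω) ∩ {ω | (fun _ : Ω => 0) ω ≤ j ∧ j < σ' ω}) =
        {ω | σ' ω ≤ j}ᶜ := by
      ext ω; simp
    show MeasurableSet[F j] ((Set.univ : Set Ω) ∩ {ω | (fun _ : Ω => 0) ω ≤ j ∧ j < σ' ω})
    rw [this]
    exact (hσ' j).compl
  obtain ⟨s, hs⟩ := exists_occDens P Y F h C hY _ hA N
  have hG : ∀ j, MeasurableSet[F j] ((Set.univ : Set Ω) ∩ {ω | (fun _ : Ω => 0) ω ≤ j}) := by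
    intro j
    rw [Set.univ_inter]
    exact hσ j
  have key := key_ineq P Y F h C hY (fun _ => 0) σ' hσ hσ' (fun ω => Nat.zero_le _) N hN Set.univ hG
    D hD (fun ω _ j _ hj => hin ω j hj) (N * C) s hs u hu L hL
  simp only [Measure.restrict_univ] at key
  refine key.trans ?_
  have hY0 : Measurable (Y 0) := (hY.adapted 0).mono (hY.F_le 0) le_rfl
  have hint : Integrable (fun ω => s (Y 0 ω)) P := by
    refine Integrable.of_bound (hs.meas.comp hY0).aestronglyMeasurable ((N : ℝ) * C) ?_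
    refine Filter.Eventually.of_forall fun ω => ?_
    rw [Real.norm_eq_abs, abs_of_nonneg (hs.nonneg _)]
    exact hs.le _
  have hle : ∫ ω, s (Y 0 ω) ∂P ≤ (N : ℝ) * C := by
    have h1 := integral_mono hint (integrable_const ((N : ℝ) * C)) (fun ω => hs.le (Y 0 ω))
    simpa using h1
  have hle2 : ENNReal.ofReal (∫ ω, s (Y 0 ω) ∂P) ≤ (N : ℝ≥0∞) * C := by
    refine (ENNReal.ofReal_le_ofReal hle).trans ?_
    rw [ENNReal.ofReal_mul (by positivity), ENNReal.ofReal_natCast, ENNReal.ofReal_coe_nnreal]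
  gcongr

end Keldysh
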