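import Pool.Agent.Keldysh.Defs2
import Pool.Agent.Keldysh.M_segCost_comm
import Pool.Agent.Keldysh.M_segCost_split

open MeasureTheory ProbabilityTheory Filter Topology Set
open scoped ENNReal NNReal

namespace Keldysh

variable {n : ℕ} {Ω : Type*} [mΩ : MeasurableSpace Ω]

theorem trunc_ug_scale (g : ℝ → ℝ≥0∞) (hg : Measurable g) (t : ℝ) (ht : 0 ≤ t) :
    ENNReal.ofReal t * ∫⁻ u in Icc (0 : ℝ) 1, g (t * u) = ∫⁻ r in Icc (0 : ℝ) t, g r := by
  rcases ht.eq_or_lt with ht' | ht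
  · rw [← ht']
    simp
  · have h1 := Real.smul_map_volume_mul_left ht.ne'
    rw [abs_of_pos ht] at h1
    rw [← lintegral_indicator measurableSet_Icc, ← lintegral_indicator measurableSet_Icc]
    conv_rhs => rw [← h1]
    rw [lintegral_smul_measure, lintegral_map (hg.indicator measurableSet_Icc) (by fun_prop),
      smul_eq_mul]
    congr 1
    refine lintegral_congr fun u => ?_
    by_cases hu : u ∈ Icc (0 : ℝ) 1
    · have hu' : t * u ∈ Icc (0 : ℝ) t := ⟨mul_nonneg ht.le hu.1, by nlinarith [hu.2]⟩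
      rw [Set.indicator_of_mem hu, Set.indicator_of_mem hu']
    · have hu' : t * u ∉ Icc (0 : ℝ) t := by
        rintro ⟨h2, h3⟩
        apply hu
        constructor
        · by_contra h4
          push Not at h4
          nlinarith
        · by_contra h4
          push Not at h4
          nlinarith
      rw [Set.indicator_of_notMem hu, Set.indicator_of_notMem hu']

theorem trunc_ug_cost (ρ : E n → ℝ≥0∞) (hρ : Measurable ρ) (x y : E n) (t : ℝ) (ht : 0 ≤ t) :
    segCost ρ x (x + t • (y - x)) =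
      ∫⁻ r in Icc (0 : ℝ) t, ENNReal.ofReal ‖y - x‖ * ρ (x + r • (y - x)) := by
  have hm : Measurable fun r : ℝ => ρ (x + r • (y - x)) := hρ.comp (by fun_prop)
  rw [lintegral_const_mul _ hm, ← trunc_ug_scale _ hm t ht]
  unfold segCost
  have h1 : x + t • (y - x) - x = t • (y - x) := by abel
  rw [h1, norm_smul, Real.norm_of_nonneg ht, ENNReal.ofReal_mul ht, mul_comm (ENNReal.ofReal t),
    mul_assoc]
  simp only [smul_smul, mul_comm t]

theorem trunc_ug_one (ρ : E n → ℝ≥0∞) (hρ : Measurable ρ) (V : Set (E n))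
    (Φ : E n → ℝ≥0∞) (hΦm : Measurable Φ)
    (hΦ : ∀ x y, segment ℝ x y ⊆ V → Φ x ≤ Φ y + segCost ρ x y) (η : ℝ≥0∞)
    (x y : E n) (hxy : segment ℝ x y ⊆ V) (hfin : segCost ρ x y ≠ ⊤) :
    Φ x - η ≤ (Φ y - η) + segCost (({x | η < Φ x}).indicator ρ) x y := by
  classical
  by_cases hA : ∀ t ∈ Icc (0 : ℝ) 1, η < Φ (x + t • (y - x))
  · have h1 : segCost (({x | η < Φ x}).indicator ρ) x y = segCost ρ x y := by
      unfold segCost
      congr 1
      refine setLIntegral_congr_fun measurableSet_Icc fun t ht => ?_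
      exact Set.indicator_of_mem (show x + t • (y - x) ∈ {x | η < Φ x} from hA t ht) ρ
    rw [h1]
    exact (tsub_le_tsub_right (hΦ x y hxy) η).trans add_tsub_le_tsub_add
  · push Not at hA
    obtain ⟨t₀, ht₀, ht₀'⟩ := hA
    set S : Set ℝ := {t | t ∈ Icc (0 : ℝ) 1 ∧ Φ (x + t • (y - x)) ≤ η} with hS
    have hSne : S.Nonempty := ⟨t₀, ht₀, ht₀'⟩
    have hSb : BddBelow S := ⟨0, fun t ht => ht.1.1⟩
    set τ : ℝ := sInf S with hτ
    have hτ0 : 0 ≤ τ := le_csInf hSne fun t ht => ht.1.1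
    have hτ1 : τ ≤ 1 := (csInf_le hSb ⟨ht₀, ht₀'⟩).trans ht₀.2
    set f : ℝ → ℝ≥0∞ := fun r => ENNReal.ofReal ‖y - x‖ * ρ (x + r • (y - x)) with hf
    have hfin' : ∫⁻ r, f r ∂(volume.restrict (Icc (0 : ℝ) 1)) ≠ ⊤ := by
      have h1 := trunc_ug_cost ρ hρ x y 1 zero_le_one
      rw [one_smul, add_sub_cancel] at h1
      rw [← h1]
      exact hfin
    have hlow : ∀ t ∈ S, Φ x ≤ η + ∫⁻ r in Icc (0 : ℝ) t, f r := by
      intro t ht
      have h1 : x + t • (y - x) ∈ segment ℝ x y := by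
        rw [segment_eq_image']
        exact ⟨t, ht.1, rfl⟩
      have h2 : segment ℝ x (x + t • (y - x)) ⊆ V :=
        ((convex_segment x y).segment_subset (left_mem_segment ℝ x y) h1).trans hxy
      have h3 := hΦ _ _ h2
      rw [trunc_ug_cost ρ hρ x y t ht.1.1] at h3
      exact h3.trans (by gcongr; exact ht.2)
    -- pass to the limit
    have hlim : Φ x ≤ η + ∫⁻ r in Icc (0 : ℝ) τ, f r := by
      refine ENNReal.le_of_forall_pos_le_add fun ε hε _ => ?_
      obtain ⟨δ, hδ, hδ'⟩ := exists_pos_setLIntegral_lt_of_measure_lt hfin' (ENNReal.coe_ne_zero.2 hε.ne')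
      obtain ⟨δ', hδ1, hδ2⟩ : ∃ δ' : ℝ, 0 < δ' ∧ ENNReal.ofReal δ' < δ := by
        rcases eq_or_ne δ ⊤ with rfl | hδt
        · exact ⟨1, one_pos, ENNReal.ofReal_lt_top⟩
        · refine ⟨δ.toReal / 2, by have := ENNReal.toReal_pos hδ.ne' hδt; positivity, ?_⟩
          rw [ENNReal.ofReal_lt_iff_lt_toReal (by positivity) hδt]
          have := ENNReal.toReal_pos hδ.ne' hδt
          linarith
      obtain ⟨t, htS, htt⟩ := exists_lt_of_csInf_lt hSne (show sInf S < τ + δ' by linarith)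
      have hτt : τ ≤ t := csInf_le hSb htS
      refine (hlow t htS).trans ?_
      rw [add_assoc]
      gcongr
      have h1 : Icc (0 : ℝ) t ⊆ Icc 0 τ ∪ Ioc τ t := by
        intro r hr
        rcases le_or_gt r τ with h | h
        · exact Or.inl ⟨hr.1, h⟩
        · exact Or.inr ⟨h, hr.2⟩
      refine (lintegral_mono_set h1).trans ((lintegral_union_le _ _ _).trans ?_)
      gcongr
      have h2 := hδ' (Ioc τ t) (by
        refine (Measure.restrict_apply_le _ _).trans_lt ?_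
        rw [Real.volume_Ioc]
        exact (ENNReal.ofReal_le_ofReal (by linarith)).trans_lt hδ2)
      rw [Measure.restrict_restrict measurableSet_Ioc] at h2
      have h3 : Ioc τ t ∩ Icc (0 : ℝ) 1 = Ioc τ t := by
        refine Set.inter_eq_left.2 fun r hr => ⟨hτ0.trans hr.1.le, hr.2.trans htS.1.2⟩
      rw [h3] at h2
      exact h2.le
    refine le_add_left (tsub_le_iff_left.2 (hlim.trans ?_))
    gcongr
    have hm : Measurable fun r : ℝ => ρ (x + r • (y - x)) := hρ.comp (by fun_prop)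
    have hmi : Measurable (({x | η < Φ x}).indicator ρ) :=
      hρ.indicator (measurableSet_lt measurable_const hΦm)
    have h5 := trunc_ug_cost (({x | η < Φ x}).indicator ρ) hmi x y 1 zero_le_one
    rw [one_smul, add_sub_cancel] at h5
    rw [h5, ← setLIntegral_congr (Ico_ae_eq_Icc (a := (0 : ℝ)) (b := τ))]
    have h6 : Ico (0 : ℝ) τ ⊆ Icc 0 1 := fun r hr => ⟨hr.1, hr.2.le.trans hτ1⟩
    refine le_trans (le_of_eq ?_) (lintegral_mono_set h6)
    refine setLIntegral_congr_fun measurableSet_Ico fun r hr => ?_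
    have h7 : η < Φ (x + r • (y - x)) := by
      by_contra h8
      push Not at h8
      have : r ∈ S := ⟨h6 hr, h8⟩
      exact absurd (csInf_le hSb this) (not_le.2 hr.2)
    simp only [hf]
    rw [Set.indicator_of_mem (show x + r • (y - x) ∈ {x | η < Φ x} from h7)]

theorem trunc_ug_real (a b c : ℝ≥0∞) (ha : a ≠ ⊤) (hb : b ≠ ⊤) (h1 : a ≤ b + c) (h2 : b ≤ a + c) :
    ‖b.toReal - a.toReal‖ₑ ≤ c := by
  rcases eq_or_ne c ⊤ with rfl | hc
  · exact le_top
  · rw [← ofReal_norm, ENNReal.ofReal_le_iff_le_toReal hc, Real.norm_eq_abs, abs_le]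
    have h3 := ENNReal.toReal_mono (ENNReal.add_ne_top.2 ⟨hb, hc⟩) h1
    have h4 := ENNReal.toReal_mono (ENNReal.add_ne_top.2 ⟨ha, hc⟩) h2
    rw [ENNReal.toReal_add hb hc] at h3
    rw [ENNReal.toReal_add ha hc] at h4
    constructor <;> linarith

/-- D8 -/
theorem trunc_ug (ρ : E n → ℝ≥0∞) (hρ : Measurable ρ) (V : Set (E n)) (hV : IsOpen V)
    (Φ : E n → ℝ≥0∞) (hΦm : Measurable Φ) (hΦ1 : ∀ x, Φ x ≤ 1)
    (hΦ : ∀ x y, segment ℝ x y ⊆ V → Φ x ≤ Φ y + segCost ρ x y) (η : ℝ≥0∞)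
    (x y : E n) (hxy : segment ℝ x y ⊆ V) (hfin : segCost ρ x y ≠ ⊤) :
    ‖(Φ y - η).toReal - (Φ x - η).toReal‖ₑ ≤
      segCost (({x | η < Φ x}).indicator ρ) x y := by
  have hft : ∀ z, Φ z - η ≠ ⊤ := fun z =>
    ((tsub_le_self.trans (hΦ1 z)).trans_lt ENNReal.one_lt_top).ne
  refine trunc_ug_real _ _ _ (hft x) (hft y) ?_ ?_
  · exact trunc_ug_one ρ hρ V Φ hΦm hΦ η x y hxy hfin
  · rw [segCost_comm]
    rw [segCost_comm] at hfin
    rw [segment_symm] at hxy
    exact trunc_ug_one ρ hρ V Φ hΦm hΦ η y x hxy hfin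

end Keldysh
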