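import Pool.Agent.Keldysh.Defs2
import Pool.Agent.Keldysh.Defs3
import Pool.Agent.Keldysh.M_gauss_prob
import Pool.Agent.Keldysh.M_gauss_tail
import Pool.Agent.Keldysh.M_exitIdx_le
import Pool.Agent.Keldysh.M_exitIdx_mem
import Pool.Agent.Keldysh.M_exitIdx_not_mem
import Pool.Agent.Keldysh.M_exitIdx_stop
import Pool.Agent.Keldysh.M_est_zero
import Pool.Agent.Keldysh.M_energy_est
import Pool.Agent.Keldysh.M_segCost_comm
import Pool.Agent.Keldysh.M_pd_triangle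
import Pool.Agent.Keldysh.M_pd_comm
import Pool.Agent.Keldysh.M_pd_ne_top
import Pool.Agent.Keldysh.M_pd_le_segCost
import Pool.Agent.Keldysh.M_pd_measurable
import Pool.Agent.Keldysh.M_trunc_ug
import Pool.Agent.Keldysh.M_gwalk_of_bm
import Pool.Agent.Keldysh.M_inner_facts

open MeasureTheory ProbabilityTheory Filter Topology Set
open scoped ENNReal NNReal

namespace Keldysh

variable {n : ℕ} {Ω : Type*} [mΩ : MeasurableSpace Ω]

/-- truncated distance to the first `J` points -/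
noncomputable def tight_Phi (ρ : E n → ℝ≥0∞) (V : Set (E n)) (y : ℕ → E n) (J : ℕ) (x : E n) :
    ℝ≥0∞ := min 1 (⨅ i ∈ Set.Iio J, pd ρ V x (y i))

/-- the test function -/
noncomputable def tight_u (ρ : E n → ℝ≥0∞) (V : Set (E n)) (y : ℕ → E n) (J : ℕ) (ε : ℝ≥0∞)
    (x : E n) : ℝ := V.indicator (fun x => (tight_Phi ρ V y J x - ε).toReal) x

theorem tight_Phi_meas (ρ : E n → ℝ≥0∞) (hρ : LowerSemicontinuous ρ) (V : Set (E n))
    (hV : IsOpen V) (y : ℕ → E n) (J : ℕ) : Measurable (tight_Phi ρ V y J) := by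
  refine measurable_const.min ?_
  refine Measurable.biInf _ (Set.to_countable _) fun i _ => ?_
  exact (pd_measurable ρ hρ V hV).comp (measurable_id.prodMk measurable_const)

theorem tight_Phi_le_one (ρ : E n → ℝ≥0∞) (V : Set (E n)) (y : ℕ → E n) (J : ℕ) (x : E n) :
    tight_Phi ρ V y J x ≤ 1 := min_le_left _ _

theorem tight_Phi_seg (ρ : E n → ℝ≥0∞) (V : Set (E n)) (y : ℕ → E n) (J : ℕ) (x z : E n)
    (h : segment ℝ x z ⊆ V) : tight_Phi ρ V y J x ≤ tight_Phi ρ V y J z + segCost ρ x z := by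
  have h1 : (⨅ i ∈ Set.Iio J, pd ρ V x (y i)) ≤ (⨅ i ∈ Set.Iio J, pd ρ V z (y i)) + segCost ρ x z := by
    rw [← tsub_le_iff_right]
    refine le_iInf₂ fun i hi => ?_
    rw [tsub_le_iff_right]
    refine (iInf₂_le i hi).trans ((pd_triangle ρ V x z (y i)).trans ?_)
    rw [add_comm]
    gcongr
    exact pd_le_segCost ρ V x z h
  unfold tight_Phi
  rcases le_total 1 (⨅ i ∈ Set.Iio J, pd ρ V z (y i)) with h2 | h2
  · rw [min_eq_left h2]
    exact (min_le_left _ _).trans le_self_add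
  · rw [min_eq_right h2]
    exact (min_le_right _ _).trans h1

theorem tight_u_meas (ρ : E n → ℝ≥0∞) (hρ : LowerSemicontinuous ρ) (V : Set (E n))
    (hV : IsOpen V) (y : ℕ → E n) (J : ℕ) (ε : ℝ≥0∞) : Measurable (tight_u ρ V y J ε) :=
  (((tight_Phi_meas ρ hρ V hV y J).sub measurable_const).ennreal_toReal).indicator
    hV.measurableSet

theorem tight_u_01 (ρ : E n → ℝ≥0∞) (V : Set (E n)) (y : ℕ → E n) (J : ℕ) (ε : ℝ≥0∞) (x : E n) :
    0 ≤ tight_u ρ V y J ε x ∧ tight_u ρ V y J ε x ≤ 1 := by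
  unfold tight_u
  by_cases hx : x ∈ V
  · rw [Set.indicator_of_mem hx]
    refine ⟨ENNReal.toReal_nonneg, ?_⟩
    have h1 : tight_Phi ρ V y J x - ε ≤ 1 := tsub_le_self.trans (tight_Phi_le_one ρ V y J x)
    have := ENNReal.toReal_mono ENNReal.one_ne_top h1
    simpa using this
  · rw [Set.indicator_of_notMem hx]
    norm_num

theorem tight_u_ug (ρ : E n → ℝ≥0∞) (hρ : LowerSemicontinuous ρ) (V : Set (E n))
    (hV : IsOpen V) (y : ℕ → E n) (J : ℕ) (ε : ℝ≥0∞) (x z : E n) (h : segment ℝ x z ⊆ V)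
    (hfin : segCost ρ x z ≠ ⊤) :
    ‖tight_u ρ V y J ε z - tight_u ρ V y J ε x‖ₑ ≤
      segCost (({x | ε < tight_Phi ρ V y J x}).indicator ρ) x z := by
  have hx : x ∈ V := h (left_mem_segment ℝ x z)
  have hz : z ∈ V := h (right_mem_segment ℝ x z)
  unfold tight_u
  rw [Set.indicator_of_mem hx, Set.indicator_of_mem hz]
  exact trunc_ug ρ hρ.measurable V hV (tight_Phi ρ V y J) (tight_Phi_meas ρ hρ V hV y J)
    (tight_Phi_le_one ρ V y J) (fun x y' h' => tight_Phi_seg ρ V y J x y' h') ε x z h hfin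

theorem tight_conv (ρ : E n → ℝ≥0∞) (V : Set (E n)) (y : ℕ → E n)
    (hy : ∀ᵐ x ∂(volume.restrict V), ∀ η : ℝ≥0∞, η ≠ 0 → ∃ i, pd ρ V x (y i) < η)
    (ε : ℝ≥0∞) (hε : ε ≠ 0) :
    ∀ᵐ x ∂(volume.restrict V), ∀ᶠ J in atTop, tight_Phi ρ V y J x < ε := by
  filter_upwards [hy] with x hx
  obtain ⟨i, hi⟩ := hx ε hε
  filter_upwards [eventually_gt_atTop i] with J hJ
  exact (min_le_right _ _).trans_lt ((iInf₂_le i hJ).trans_lt hi)

/-- the mass of the test function tends to zero -/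
theorem tight_mass (ρ : E n → ℝ≥0∞) (hρ : LowerSemicontinuous ρ) (V : Set (E n))
    (hV : IsOpen V) (hVfin : volume V ≠ ⊤) (y : ℕ → E n)
    (hy : ∀ᵐ x ∂(volume.restrict V), ∀ η : ℝ≥0∞, η ≠ 0 → ∃ i, pd ρ V x (y i) < η)
    (ε : ℝ≥0∞) (hε : ε ≠ 0) :
    Tendsto (fun J => ∫⁻ x in V, ENNReal.ofReal (tight_u ρ V y J ε x)) atTop (𝓝 0) := by
  have h := tendsto_lintegral_of_dominated_convergence (μ := volume.restrict V)
    (F := fun J x => ENNReal.ofReal (tight_u ρ V y J ε x)) (f := fun _ => 0) (fun _ => 1)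
    (fun J => (tight_u_meas ρ hρ V hV y J ε).ennreal_ofReal)
    (fun J => Filter.Eventually.of_forall fun x => by
      have := (tight_u_01 ρ V y J ε x).2
      exact ENNReal.ofReal_le_one.2 this)
    (by simpa using hVfin) (by
      filter_upwards [tight_conv ρ V y hy ε hε] with x hx
      refine tendsto_const_nhds.congr' ?_
      filter_upwards [hx] with J hJ
      symm
      unfold tight_u
      by_cases hxV : x ∈ V
      · rw [Set.indicator_of_mem hxV, tsub_eq_zero_of_le hJ.le]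
        simp
      · rw [Set.indicator_of_notMem hxV]
        simp)
  simpa using h

/-- the energy tends to zero -/
theorem tight_energy (ρ : E n → ℝ≥0∞) (hρ : LowerSemicontinuous ρ) (V : Set (E n))
    (hV : IsOpen V) (hρ2 : ∫⁻ x in V, ρ x ^ 2 ≠ ⊤) (y : ℕ → E n)
    (hy : ∀ᵐ x ∂(volume.restrict V), ∀ η : ℝ≥0∞, η ≠ 0 → ∃ i, pd ρ V x (y i) < η)
    (ε : ℝ≥0∞) (hε : ε ≠ 0) :
    Tendsto (fun J => ∫⁻ x in V, (({x | ε < tight_Phi ρ V y J x}).indicator ρ x) ^ 2) atTop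
      (𝓝 0) := by
  have hm : ∀ J, MeasurableSet {x | ε < tight_Phi ρ V y J x} := fun J =>
    measurableSet_lt measurable_const (tight_Phi_meas ρ hρ V hV y J)
  have h := tendsto_lintegral_of_dominated_convergence (μ := volume.restrict V)
    (F := fun J x => (({x | ε < tight_Phi ρ V y J x}).indicator ρ x) ^ 2) (f := fun _ => 0)
    (fun x => ρ x ^ 2)
    (fun J => (hρ.measurable.indicator (hm J)).pow_const 2)
    (fun J => Filter.Eventually.of_forall fun x => by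
      have : ({x | ε < tight_Phi ρ V y J x}).indicator ρ x ≤ ρ x := Set.indicator_le_self _ _ _
      show _ ^ 2 ≤ ρ x ^ 2
      gcongr)
    hρ2 (by
      filter_upwards [tight_conv ρ V y hy ε hε] with x hx
      refine tendsto_const_nhds.congr' ?_
      filter_upwards [hx] with J hJ
      symm
      have : x ∉ {x | ε < tight_Phi ρ V y J x} := fun h => absurd hJ (not_lt.2 (le_of_lt h))
      rw [Set.indicator_of_notMem this]
      simp)
  simpa using h

theorem tight_Ymeas (P : Measure Ω) (Y : ℕ → Ω → E n)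
    (F : ℕ → MeasurableSpace Ω) (h C : ℝ≥0) (hY : GWalk P Y F h C) (j : ℕ) : Measurable (Y j) :=
  (hY.adapted j).mono (hY.F_le j) le_rfl

theorem tight_jump (P : Measure Ω) [IsProbabilityMeasure P] (Y : ℕ → Ω → E n)
    (F : ℕ → MeasurableSpace Ω) (h C : ℝ≥0) (hY : GWalk P Y F h C) (V : Set (E n)) (hV : IsOpen V)
    (hVc : Vᶜ.Nonempty) (k N : ℕ) :
    P {ω | Y 0 ω ∈ V ∧ Y (exitIdx Y (inner V k) N ω) ω ∉ V} ≤
      N * gauss n h {z | 1 / ((k : ℝ) + 1) ≤ ‖z‖} := by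
  have hsub : {ω | Y 0 ω ∈ V ∧ Y (exitIdx Y (inner V k) N ω) ω ∉ V} ⊆
      ⋃ j ∈ Finset.range N, {ω | 1 / ((k : ℝ) + 1) ≤ ‖Y (j + 1) ω - Y j ω‖} := by
    rintro ω ⟨h0, h1⟩
    have hle := exitIdx_le Y (inner V k) N ω
    have hpos : exitIdx Y (inner V k) N ω ≠ 0 := by
      intro hz
      rw [hz] at h1
      exact h1 h0
    obtain ⟨j, hj⟩ := Nat.exists_eq_succ_of_ne_zero hpos
    have hmem := exitIdx_mem Y (inner V k) N ω j (by omega)
    have hball := (inner_facts V hV hVc k).2.2.1 _ hmem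
    refine Set.mem_iUnion₂.2 ⟨j, Finset.mem_range.2 (by omega), ?_⟩
    show 1 / ((k : ℝ) + 1) ≤ ‖Y (j + 1) ω - Y j ω‖
    by_contra hlt
    apply h1
    rw [hj]
    apply hball
    rw [Metric.mem_ball, dist_eq_norm]
    exact not_le.1 hlt
  refine (measure_mono hsub).trans ((measure_biUnion_finset_le _ _).trans ?_)
  have hj : ∀ j ∈ Finset.range N, P {ω | 1 / ((k : ℝ) + 1) ≤ ‖Y (j + 1) ω - Y j ω‖} =
      gauss n h {z | 1 / ((k : ℝ) + 1) ≤ ‖z‖} := by
    intro j _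
    rw [← hY.law j, Measure.map_apply]
    · rfl
    · exact (tight_Ymeas P Y F h C hY (j + 1)).sub (tight_Ymeas P Y F h C hY j)
    · exact measurableSet_le measurable_const measurable_norm
  rw [Finset.sum_congr rfl hj, Finset.sum_const, Finset.card_range, nsmul_eq_mul]

theorem tight_stop_meas (P : Measure Ω) (Y : ℕ → Ω → E n)
    (F : ℕ → MeasurableSpace Ω) (h C : ℝ≥0) (hY : GWalk P Y F h C) (D : Set (E n))
    (hD : MeasurableSet D) (N : ℕ) : Measurable (fun ω => Y (exitIdx Y D N ω) ω) := by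
  have hst := exitIdx_stop Y F hY.F_mono hY.adapted D hD N
  have hσ : Measurable (exitIdx Y D N) := by
    refine measurable_of_Iic fun j => ?_
    exact hY.F_le j _ (hst j)
  have h1 : Measurable (fun p : Ω × ℕ => Y p.2 p.1) :=
    measurable_from_prod_countable_left fun j => tight_Ymeas P Y F h C hY j
  exact h1.comp (measurable_id.prodMk hσ)

theorem tight_main (P : Measure Ω) [IsProbabilityMeasure P] (Y : ℕ → Ω → E n)
    (F : ℕ → MeasurableSpace Ω) (h C : ℝ≥0) (hY : GWalk P Y F h C) (V : Set (E n)) (hV : IsOpen V)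
    (hVfin : volume V ≠ ⊤) (hVc : Vᶜ.Nonempty) (ρ : E n → ℝ≥0∞) (hρ : LowerSemicontinuous ρ)
    (hρ2 : ∫⁻ x in V, ρ x ^ 2 ≠ ⊤) (y : ℕ → E n) (J k N : ℕ) (ε : ℝ≥0∞) (κ : ℝ) (hκ : 0 ≤ κ)
    (hβ : (C : ℝ≥0∞) * ∫⁻ x in V, ENNReal.ofReal (tight_u ρ V y J ε x) ≤ ENNReal.ofReal κ)
    (hγ : ((N : ℝ≥0∞) * C) * (n * h *
      (∫⁻ x in V, (({x | ε < tight_Phi ρ V y J x}).indicator ρ x) ^ 2) +
      volume V * gauss n h {z | 1 / ((k : ℝ) + 1) ≤ ‖z‖}) ≤ ENNReal.ofReal (κ ^ 2)) :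
    ∫ ω, tight_u ρ V y J ε (Y (exitIdx Y (inner V k) N ω) ω) ∂P ≤ 2 * κ := by
  obtain ⟨hD, hDV, hDb, -⟩ := inner_facts V hV hVc k
  have hum := tight_u_meas ρ hρ V hV y J ε
  have hYm := tight_Ymeas P Y F h C hY
  have hYs := tight_stop_meas P Y F h C hY (inner V k) hD.measurableSet N
  have i1 : Integrable (fun ω => tight_u ρ V y J ε (Y (exitIdx Y (inner V k) N ω) ω)) P := by
    refine Integrable.of_bound (hum.comp hYs).aestronglyMeasurable 1
      (Filter.Eventually.of_forall fun ω => ?_)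
    rw [Real.norm_eq_abs, abs_of_nonneg (tight_u_01 ρ V y J ε _).1]
    exact (tight_u_01 ρ V y J ε _).2
  have i0 : Integrable (fun ω => tight_u ρ V y J ε (Y 0 ω)) P := by
    refine Integrable.of_bound (hum.comp (hYm 0)).aestronglyMeasurable 1
      (Filter.Eventually.of_forall fun ω => ?_)
    rw [Real.norm_eq_abs, abs_of_nonneg (tight_u_01 ρ V y J ε _).1]
    exact (tight_u_01 ρ V y J ε _).2
  -- the starting point
  have h0 : ∫ ω, tight_u ρ V y J ε (Y 0 ω) ∂P ≤ κ := by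
    have e1 : ENNReal.ofReal (∫ ω, tight_u ρ V y J ε (Y 0 ω) ∂P) ≤ ENNReal.ofReal κ := by
      rw [ofReal_integral_eq_lintegral_ofReal i0
        (Filter.Eventually.of_forall fun ω => (tight_u_01 ρ V y J ε _).1)]
      have e2 : ∫⁻ ω, ENNReal.ofReal (tight_u ρ V y J ε (Y 0 ω)) ∂P =
          ∫⁻ x, ENNReal.ofReal (tight_u ρ V y J ε x) ∂(P.map (Y 0)) :=
        (lintegral_map hum.ennreal_ofReal (hYm 0)).symm
      rw [e2]
      refine (lintegral_mono' (hY.dens 0) le_rfl).trans ?_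
      rw [lintegral_smul_measure]
      refine le_trans (le_of_eq ?_) hβ
      rw [smul_eq_mul]
      congr 1
      rw [← lintegral_indicator hV.measurableSet]
      refine lintegral_congr fun x => ?_
      by_cases hx : x ∈ V
      · rw [Set.indicator_of_mem hx]
      · rw [Set.indicator_of_notMem hx, tight_u, Set.indicator_of_notMem hx, ENNReal.ofReal_zero]
    exact (ENNReal.ofReal_le_ofReal_iff hκ).1 e1
  -- the increment
  have h1 := est_zero P Y F h C hY (exitIdx Y (inner V k) N)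
    (exitIdx_stop Y F hY.F_mono hY.adapted _ hD.measurableSet N) N
    (fun ω => exitIdx_le Y (inner V k) N ω) (inner V k) hD.measurableSet
    (fun ω j hj => exitIdx_mem Y (inner V k) N ω j hj) (tight_u ρ V y J ε) hum 1
    (fun x => by
      rw [abs_of_nonneg (tight_u_01 ρ V y J ε _).1]
      exact (tight_u_01 ρ V y J ε _).2)
  have hm : MeasurableSet {x | ε < tight_Phi ρ V y J x} :=
    measurableSet_lt measurable_const (tight_Phi_meas ρ hρ V hV y J)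
  have h2 := energy_est V hV (inner V k) hD.measurableSet (1 / ((k : ℝ) + 1)) (by positivity) hDb
    (({x | ε < tight_Phi ρ V y J x}).indicator ρ) ρ (hρ.measurable.indicator hm) hρ.measurable hρ2
    (tight_u ρ V y J ε) hum (tight_u_01 ρ V y J ε)
    (fun x z hxz hfin => tight_u_ug ρ hρ V hV y J ε x z hxz hfin) hVfin h
  have h3 : ENNReal.ofReal ((∫ ω, (tight_u ρ V y J ε (Y (exitIdx Y (inner V k) N ω) ω) -
      tight_u ρ V y J ε (Y 0 ω)) ∂P) ^ 2) ≤ ENNReal.ofReal (κ ^ 2) := by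
    refine h1.trans (le_trans ?_ hγ)
    gcongr
  have h4 := (ENNReal.ofReal_le_ofReal_iff (sq_nonneg κ)).1 h3
  have h5 := (abs_le.1 (abs_le_of_sq_le_sq h4 hκ)).2
  rw [integral_sub i1 i0] at h5
  linarith

/-- E6: tightness. -/
theorem tight (P : Measure Ω) [IsProbabilityMeasure P] (B : ℝ≥0 → Ω → E n)
    (F : ℝ≥0 → MeasurableSpace Ω) (a : E n) (hB : NiceBM P B F a) (t0 : ℝ≥0) (ht0 : 0 < t0)
    (T : ℝ≥0) (hT : 0 < T) (V : Set (E n)) (hV : IsOpen V) (hVb : Bornology.IsBounded V)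
    (hVc : Vᶜ.Nonempty) (ρ : E n → ℝ≥0∞) (hρ : LowerSemicontinuous ρ)
    (hρ2 : ∫⁻ x in V, ρ x ^ 2 ≠ ⊤) (y : ℕ → E n)
    (hy : ∀ᵐ x ∂(volume.restrict V), ∀ η : ℝ≥0∞, η ≠ 0 → ∃ i, pd ρ V x (y i) < η)
    (η δ : ℝ) (hη : 0 < η) (hδ : 0 < δ) :
    ∃ J : ℕ, ∀ k, ∃ m0, ∀ m, m0 ≤ m →
      P {ω | B t0 ω ∈ V ∧ ∀ i, i < J → ENNReal.ofReal η ≤
        pd ρ V (B (gt t0 T m (gridExit t0 T (inner V k) m (fun t => B t ω))) ω) (y i)} ≤
      ENNReal.ofReal δ := by
  obtain ⟨C, hC⟩ := gwalk_of_bm P B F a hB t0 ht0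
  have hVfin : volume V ≠ ⊤ := hVb.measure_lt_top.ne
  set e : ℝ := min η 1 with he
  have he0 : 0 < e := lt_min hη one_pos
  set ε : ℝ≥0∞ := ENNReal.ofReal (e / 2) with hε
  have hε0 : ε ≠ 0 := by
    rw [hε]
    exact (ENNReal.ofReal_pos.2 (by linarith)).ne'
  set κ : ℝ := e * δ / 8 with hκ
  have hκ0 : 0 < κ := by positivity
  -- choice of J
  have t1 : Tendsto (fun J => (C : ℝ≥0∞) * ∫⁻ x in V, ENNReal.ofReal (tight_u ρ V y J ε x)) atTop
      (𝓝 0) := by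
    have := ENNReal.Tendsto.const_mul (a := (C : ℝ≥0∞))
      (tight_mass ρ hρ V hV hVfin y hy ε hε0) (Or.inr ENNReal.coe_ne_top)
    simpa using this
  have t2 : Tendsto (fun J => ((C : ℝ≥0∞) * n * T) *
      ∫⁻ x in V, (({x | ε < tight_Phi ρ V y J x}).indicator ρ x) ^ 2) atTop (𝓝 0) := by
    have := ENNReal.Tendsto.const_mul (a := ((C : ℝ≥0∞) * n * T))
      (tight_energy ρ hρ V hV hρ2 y hy ε hε0)
      (Or.inr (ENNReal.mul_ne_top (ENNReal.mul_ne_top ENNReal.coe_ne_top (ENNReal.natCast_ne_top n))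
        ENNReal.coe_ne_top))
    simpa using this
  have hκ1 : (0 : ℝ≥0∞) < ENNReal.ofReal κ := ENNReal.ofReal_pos.2 hκ0
  have hκ2 : (0 : ℝ≥0∞) < ENNReal.ofReal (κ ^ 2 / 2) := ENNReal.ofReal_pos.2 (by positivity)
  obtain ⟨J, hJ1, hJ2⟩ := ((t1.eventually (ge_mem_nhds hκ1)).and
    (t2.eventually (ge_mem_nhds hκ2))).exists
  refine ⟨J, fun k => ?_⟩
  have t3 := gauss_tail n T (1 / ((k : ℝ) + 1)) (by positivity)
  have t4 : Tendsto (fun m : ℕ => ((C : ℝ≥0∞) * volume V) *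
      ((2 : ℝ≥0∞) ^ m * gauss n (T / 2 ^ m) {z | 1 / ((k : ℝ) + 1) ≤ ‖z‖})) atTop (𝓝 0) := by
    have := ENNReal.Tendsto.const_mul (a := ((C : ℝ≥0∞) * volume V)) t3
      (Or.inr (ENNReal.mul_ne_top ENNReal.coe_ne_top hVfin))
    simpa using this
  have hδ2 : (0 : ℝ≥0∞) < ENNReal.ofReal (δ / 2) := ENNReal.ofReal_pos.2 (by positivity)
  obtain ⟨m0, hm0⟩ := eventually_atTop.1 ((t3.eventually (ge_mem_nhds hδ2)).and
    (t4.eventually (ge_mem_nhds hκ2)))
  refine ⟨m0, fun m hm => ?_⟩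
  obtain ⟨hm1, hm2⟩ := hm0 m hm
  set Y : ℕ → Ω → E n := fun j => B (gt t0 T m j) with hYdef
  have hY : GWalk P Y (fun j => F (gt t0 T m j)) (T / 2 ^ m) C := hC T m
  have hY0 : ∀ ω, Y 0 ω = B t0 ω := by
    intro ω
    simp [hYdef, gt]
  set σ : Ω → ℕ := fun ω => exitIdx Y (inner V k) (2 ^ m) ω with hσ
  have hσe : ∀ ω, gridExit t0 T (inner V k) m (fun t => B t ω) = σ ω := fun ω => rfl
  have hN : (((2 ^ m : ℕ) : ℝ≥0∞)) = (2 : ℝ≥0∞) ^ m := by push_cast; rfl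
  have hTm : (2 : ℝ≥0∞) ^ m * ((T / 2 ^ m : ℝ≥0) : ℝ≥0∞) = (T : ℝ≥0∞) := by
    have h1 : (2 : ℝ≥0∞) ^ m = (((2 : ℝ≥0) ^ m : ℝ≥0) : ℝ≥0∞) := by push_cast; rfl
    rw [h1, ← ENNReal.coe_mul, mul_div_cancel₀]
    positivity
  have hγ : (((2 ^ m : ℕ) : ℝ≥0∞) * C) * (n * ((T / 2 ^ m : ℝ≥0) : ℝ≥0∞) *
      (∫⁻ x in V, (({x | ε < tight_Phi ρ V y J x}).indicator ρ x) ^ 2) +
      volume V * gauss n (T / 2 ^ m) {z | 1 / ((k : ℝ) + 1) ≤ ‖z‖}) ≤ ENNReal.ofReal (κ ^ 2) := by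
    have e1 : (((2 ^ m : ℕ) : ℝ≥0∞) * C) * (n * ((T / 2 ^ m : ℝ≥0) : ℝ≥0∞) *
      (∫⁻ x in V, (({x | ε < tight_Phi ρ V y J x}).indicator ρ x) ^ 2) +
      volume V * gauss n (T / 2 ^ m) {z | 1 / ((k : ℝ) + 1) ≤ ‖z‖}) =
      (((C : ℝ≥0∞) * n * T) *
      ∫⁻ x in V, (({x | ε < tight_Phi ρ V y J x}).indicator ρ x) ^ 2) +
      (((C : ℝ≥0∞) * volume V) *
      ((2 : ℝ≥0∞) ^ m * gauss n (T / 2 ^ m) {z | 1 / ((k : ℝ) + 1) ≤ ‖z‖})) := by
      rw [hN, ← hTm]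
      ring
    rw [e1]
    refine (add_le_add hJ2 hm2).trans (le_of_eq ?_)
    rw [← ENNReal.ofReal_add (by positivity) (by positivity)]
    congr 1
    ring
  have hmain := tight_main P Y _ _ C hY V hV hVfin hVc ρ hρ hρ2 y J k (2 ^ m) ε κ hκ0.le hJ1 hγ
  have hjump := tight_jump P Y _ _ C hY V hV hVc k (2 ^ m)
  rw [hN] at hjump
  have hD := (inner_facts V hV hVc k).1
  have hYs := tight_stop_meas P Y _ _ C hY (inner V k) hD.measurableSet (2 ^ m)
  have hum := tight_u_meas ρ hρ V hV y J ε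
  -- Markov
  have i1 : Integrable (fun ω => tight_u ρ V y J ε (Y (σ ω) ω)) P := by
    refine Integrable.of_bound (hum.comp hYs).aestronglyMeasurable 1
      (Filter.Eventually.of_forall fun ω => ?_)
    rw [Real.norm_eq_abs, abs_of_nonneg (tight_u_01 ρ V y J ε _).1]
    exact (tight_u_01 ρ V y J ε _).2
  have hmk := mul_meas_ge_le_integral_of_nonneg (μ := P)
    (f := fun ω => tight_u ρ V y J ε (Y (σ ω) ω))
    (Filter.Eventually.of_forall fun ω => (tight_u_01 ρ V y J ε _).1) i1 (e / 2)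
  have hmk2 : P {ω | e / 2 ≤ tight_u ρ V y J ε (Y (σ ω) ω)} ≤ ENNReal.ofReal (δ / 2) := by
    rw [← ENNReal.ofReal_toReal (measure_ne_top P _)]
    refine ENNReal.ofReal_le_ofReal ?_
    have h6 : e / 2 * P.real {ω | e / 2 ≤ tight_u ρ V y J ε (Y (σ ω) ω)} ≤ 2 * κ :=
      hmk.trans hmain
    have h7 : e / 2 * P.real {ω | e / 2 ≤ tight_u ρ V y J ε (Y (σ ω) ω)} ≤ e / 2 * (δ / 2) := by
      refine h6.trans (le_of_eq ?_)
      rw [hκ]; ring
    exact le_of_mul_le_mul_left h7 (by positivity)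
  have hsub : {ω | B t0 ω ∈ V ∧ ∀ i, i < J → ENNReal.ofReal η ≤
        pd ρ V (B (gt t0 T m (gridExit t0 T (inner V k) m (fun t => B t ω))) ω) (y i)} ⊆
      {ω | Y 0 ω ∈ V ∧ Y (σ ω) ω ∉ V} ∪ {ω | e / 2 ≤ tight_u ρ V y J ε (Y (σ ω) ω)} := by
    rintro ω ⟨h1, h2⟩
    by_cases hV' : Y (σ ω) ω ∈ V
    · right
      show e / 2 ≤ tight_u ρ V y J ε (Y (σ ω) ω)
      have h3 : ENNReal.ofReal e ≤ tight_Phi ρ V y J (Y (σ ω) ω) := by
        unfold tight_Phi
        refine le_min ?_ (le_iInf₂ fun i hi => ?_)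
        · exact ENNReal.ofReal_le_one.2 (min_le_right _ _)
        · exact (ENNReal.ofReal_le_ofReal (min_le_left _ _)).trans (h2 i hi)
      unfold tight_u
      rw [Set.indicator_of_mem hV']
      have h4 : ENNReal.ofReal (e / 2) ≤ tight_Phi ρ V y J (Y (σ ω) ω) - ε := by
        have h5 : ENNReal.ofReal e - ε ≤ tight_Phi ρ V y J (Y (σ ω) ω) - ε := tsub_le_tsub_right h3 _
        refine le_trans (le_of_eq ?_) h5
        rw [hε, ← ENNReal.ofReal_sub _ (by positivity)]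
        congr 1
        ring
      have h6 : tight_Phi ρ V y J (Y (σ ω) ω) - ε ≠ ⊤ :=
        ((tsub_le_self.trans (tight_Phi_le_one ρ V y J _)).trans_lt ENNReal.one_lt_top).ne
      exact (ENNReal.ofReal_le_iff_le_toReal h6).1 h4
    · left
      exact ⟨by rw [hY0]; exact h1, hV'⟩
  refine (measure_mono hsub).trans ((measure_union_le _ _).trans ?_)
  calc P {ω | Y 0 ω ∈ V ∧ Y (σ ω) ω ∉ V} + P {ω | e / 2 ≤ tight_u ρ V y J ε (Y (σ ω) ω)}
      ≤ ENNReal.ofReal (δ / 2) + ENNReal.ofReal (δ / 2) :=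
        add_le_add (hjump.trans hm1) hmk2
    _ = ENNReal.ofReal δ := by
        rw [← ENNReal.ofReal_add (by positivity) (by positivity)]
        congr 1
        ring

end Keldysh
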