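import Pool.Agent.Keldysh.Defs2
import Pool.Agent.Keldysh.Defs3
import Pool.Agent.Keldysh.M_gauss_prob
import Pool.Agent.Keldysh.M_gauss_tail
import Pool.Agent.Keldysh.M_exitIdx_le
import Pool.Agent.Keldysh.M_exitIdx_mem
import Pool.Agent.Keldysh.M_exitIdx_not_mem
import Pool.Agent.Keldysh.M_exitIdx_mono
import Pool.Agent.Keldysh.M_exitIdx_stop
import Pool.Agent.Keldysh.M_est_two
import Pool.Agent.Keldysh.M_energy_est
import Pool.Agent.Keldysh.M_segCost_comm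
import Pool.Agent.Keldysh.M_pd_triangle
import Pool.Agent.Keldysh.M_pd_comm
import Pool.Agent.Keldysh.M_pd_ne_top
import Pool.Agent.Keldysh.M_pd_le_segCost
import Pool.Agent.Keldysh.M_pd_measurable
import Pool.Agent.Keldysh.M_pd_centers
import Pool.Agent.Keldysh.M_gwalk_of_bm
import Pool.Agent.Keldysh.M_inner_mono
import Pool.Agent.Keldysh.M_inner_facts
import Pool.Agent.Keldysh.M_grid_conv_prob
import Pool.Agent.Keldysh.M_tight

open MeasureTheory ProbabilityTheory Filter Topology Set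
open scoped ENNReal NNReal

namespace Keldysh

variable {n : ℕ} {Ω : Type*} [mΩ : MeasurableSpace Ω]

/-- bounded version of the distance to a centre -/
noncomputable def cauchy_est_u (ρ : E n → ℝ≥0∞) (V : Set (E n)) (y0 : E n) (x : E n) : ℝ :=
  (min 1 (pd ρ V x y0)).toReal

theorem cauchy_est_min (a b c : ℝ≥0∞) (hc : c ≠ ⊤) (h1 : a ≤ b + c) (h2 : b ≤ a + c) :
    ‖(min 1 a).toReal - (min 1 b).toReal‖ₑ ≤ c := by
  have key : ∀ a b : ℝ≥0∞, a ≤ b + c → (min 1 a).toReal ≤ (min 1 b).toReal + c.toReal := by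
    intro a b h
    have fb : min 1 b ≠ ⊤ := ne_top_of_le_ne_top ENNReal.one_ne_top (min_le_left _ _)
    rw [← ENNReal.toReal_add fb hc]
    refine ENNReal.toReal_mono (ENNReal.add_ne_top.2 ⟨fb, hc⟩) ?_
    rcases le_total 1 b with hb | hb
    · rw [min_eq_left hb]
      exact (min_le_left _ _).trans le_self_add
    · rw [min_eq_right hb]
      exact (min_le_right _ _).trans h
  have k1 := key a b h1
  have k2 := key b a h2
  rw [Real.enorm_eq_ofReal_abs, ENNReal.ofReal_le_iff_le_toReal hc, abs_le]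
  constructor <;> linarith

theorem cauchy_est_u_meas (ρ : E n → ℝ≥0∞) (hρ : LowerSemicontinuous ρ) (V : Set (E n))
    (hV : IsOpen V) (y0 : E n) : Measurable (cauchy_est_u ρ V y0) := by
  have h := (pd_measurable ρ hρ V hV).comp (measurable_id.prodMk (measurable_const (a := y0)))
  exact (measurable_const.min h).ennreal_toReal

theorem cauchy_est_u_01 (ρ : E n → ℝ≥0∞) (V : Set (E n)) (y0 x : E n) :
    0 ≤ cauchy_est_u ρ V y0 x ∧ cauchy_est_u ρ V y0 x ≤ 1 := by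
  refine ⟨ENNReal.toReal_nonneg, ?_⟩
  have := ENNReal.toReal_mono ENNReal.one_ne_top (min_le_left (1 : ℝ≥0∞) (pd ρ V x y0))
  unfold cauchy_est_u
  simpa using this

theorem cauchy_est_u_ug (ρ : E n → ℝ≥0∞) (V : Set (E n)) (y0 x y : E n)
    (hs : segment ℝ x y ⊆ V) (hc : segCost ρ x y ≠ ⊤) :
    ‖cauchy_est_u ρ V y0 y - cauchy_est_u ρ V y0 x‖ₑ ≤ segCost ρ x y := by
  have h0 := pd_le_segCost ρ V x y hs
  refine cauchy_est_min _ _ _ hc ?_ ?_
  · calc pd ρ V y y0 ≤ pd ρ V y x + pd ρ V x y0 := pd_triangle ρ V y x y0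
      _ = pd ρ V x y0 + pd ρ V x y := by rw [pd_comm ρ V y x, add_comm]
      _ ≤ _ := by gcongr
  · calc pd ρ V x y0 ≤ pd ρ V x y + pd ρ V y y0 := pd_triangle ρ V x y y0
      _ = pd ρ V y y0 + pd ρ V x y := by rw [add_comm]
      _ ≤ _ := by gcongr

theorem cauchy_est_eq_meas {F : ℕ → MeasurableSpace Ω} (hF : Monotone F) {τ : Ω → ℕ}
    (hτ : IsStop F τ) (i : ℕ) : MeasurableSet[F i] {ω | τ ω = i} := by
  rcases Nat.eq_zero_or_pos i with rfl | hi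
  · have : {ω | τ ω = 0} = {ω | τ ω ≤ 0} := by ext ω; simp
    rw [this]
    exact hτ 0
  · have : {ω | τ ω = i} = {ω | τ ω ≤ i} \ {ω | τ ω ≤ i - 1} := by
      ext ω
      simp only [mem_ofPred_eq, Set.mem_sdiff]
      omega
    rw [this]
    exact (hτ i).diff (hF (Nat.sub_le i 1) _ (hτ (i - 1)))

theorem cauchy_est_G {F : ℕ → MeasurableSpace Ω} (hF : Monotone F) {Y : ℕ → Ω → E n}
    (hY : ∀ j, Measurable[F j] (Y j)) {τ : Ω → ℕ} (hτ : IsStop F τ) {S0 : Set Ω}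
    (hS0 : MeasurableSet[F 0] S0) {A : Set (E n)} (hA : MeasurableSet A) (j : ℕ) :
    MeasurableSet[F j] ((S0 ∩ {ω | Y (τ ω) ω ∈ A}) ∩ {ω | τ ω ≤ j}) := by
  have : (S0 ∩ {ω | Y (τ ω) ω ∈ A}) ∩ {ω | τ ω ≤ j} =
      ⋃ i ∈ Finset.range (j + 1), (S0 ∩ (Y i ⁻¹' A)) ∩ {ω | τ ω = i} := by
    ext ω
    simp only [mem_inter_iff, mem_ofPred_eq, mem_iUnion, Finset.mem_range, mem_preimage,
      exists_prop]
    constructor
    · rintro ⟨⟨h1, h2⟩, h3⟩
      exact ⟨τ ω, by omega, ⟨h1, h2⟩, rfl⟩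
    · rintro ⟨i, hi, ⟨h1, h2⟩, h3⟩
      subst h3
      exact ⟨⟨h1, h2⟩, by omega⟩
  rw [this]
  refine Finset.measurableSet_biUnion _ fun i hi => ?_
  have hij : i ≤ j := by have := Finset.mem_range.1 hi; omega
  refine ((hF (Nat.zero_le j) _ hS0).inter (hF hij _ (hY i hA))).inter
    (hF hij _ (cauchy_est_eq_meas hF hτ i))

theorem cauchy_est_Ymeas {F : ℕ → MeasurableSpace Ω} (hF : Monotone F) (hFle : ∀ j, F j ≤ mΩ)
    {Y : ℕ → Ω → E n} (hY : ∀ j, Measurable[F j] (Y j)) {τ : Ω → ℕ} (hτ : IsStop F τ) :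
    Measurable (fun ω => Y (τ ω) ω) := by
  intro A hA
  have : (fun ω => Y (τ ω) ω) ⁻¹' A = ⋃ i, (Y i ⁻¹' A) ∩ {ω | τ ω = i} := by
    ext ω
    simp only [mem_inter_iff, mem_ofPred_eq, mem_iUnion, mem_preimage]
    constructor
    · intro h
      exact ⟨τ ω, h, rfl⟩
    · rintro ⟨i, h1, h2⟩
      subst h2
      exact h1
  rw [this]
  exact MeasurableSet.iUnion fun i => (hFle i _ (hY i hA)).inter
    (hFle i _ (cauchy_est_eq_meas hF hτ i))

/-- the bound of the increments over one cell -/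
theorem cauchy_est_cell (P : Measure Ω) [IsProbabilityMeasure P] (B : ℝ≥0 → Ω → E n)
    (F : ℝ≥0 → MeasurableSpace Ω) (t0 T : ℝ≥0) (C : ℝ≥0) (m : ℕ)
    (hW : GWalk P (fun j => B (gt t0 T m j)) (fun j => F (gt t0 T m j)) (T / 2 ^ m) C)
    (V : Set (E n)) (hV : IsOpen V) (hVb : Bornology.IsBounded V)
    (hVc : Vᶜ.Nonempty) (ρ : E n → ℝ≥0∞) (hρ : LowerSemicontinuous ρ)
    (hρ2 : ∫⁻ x in V, ρ x ^ 2 ≠ ⊤) (k l : ℕ) (hkl : k ≤ l) (d κ K : ℝ) (hd : 0 ≤ d) (hκ : 0 ≤ κ)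
    (hK : 0 ≤ K)
    (hdκ : 2 * C * d * K ≤ κ ^ 2)
    (hKI : (n : ℝ≥0∞) * T * (∫⁻ x in V, ρ x ^ 2) + 1 ≤ ENNReal.ofReal K)
    (hg : volume V * ((2 : ℝ≥0∞) ^ m * gauss n (T / 2 ^ m) {z | 1 / ((l : ℝ) + 1) ≤ ‖z‖}) ≤ 1)
    (hc1 : ∫ ω, (((gridExit t0 T (inner V l) m (fun t => B t ω) : ℝ) -
        gridExit t0 T (inner V k) m (fun t => B t ω)) / 2 ^ m) ∂P ≤ d)
    (hc2 : (P {ω | gridExit t0 T (inner V k) m (fun t => B t ω) < 2 ^ m ∧
        gridExit t0 T (inner V l) m (fun t => B t ω) = 2 ^ m ∧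
        B (gt t0 T m (2 ^ m)) ω ∈ inner V k}).toReal ≤ d)
    (σ : Ω → ℕ) (hσ : IsStop (fun j => F (gt t0 T m j)) σ)
    (h1 : ∀ ω, gridExit t0 T (inner V k) m (fun t => B t ω) ≤ σ ω)
    (h2 : ∀ ω, σ ω ≤ gridExit t0 T (inner V l) m (fun t => B t ω))
    (G : Set Ω) (hG : ∀ j, MeasurableSet[F (gt t0 T m j)]
      (G ∩ {ω | gridExit t0 T (inner V k) m (fun t => B t ω) ≤ j})) (y0 : E n) :
    |∫ ω in G, (cauchy_est_u ρ V y0 (B (gt t0 T m (σ ω)) ω) -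
      cauchy_est_u ρ V y0 (B (gt t0 T m (gridExit t0 T (inner V k) m (fun t => B t ω))) ω)) ∂P| ≤ κ := by
  have hVfin : volume V ≠ ⊤ := hVb.measure_lt_top.ne
  have hDo := (inner_facts V hV hVc k).1
  have hDo' := (inner_facts V hV hVc l).1
  have hu := cauchy_est_u_meas ρ hρ V hV y0
  have h01 := cauchy_est_u_01 ρ V y0
  have hL : ∀ x, |cauchy_est_u ρ V y0 x| ≤ 1 := fun x => by
    rw [abs_of_nonneg (h01 x).1]; exact (h01 x).2
  have e1 := est_two P (fun j => B (gt t0 T m j)) (fun j => F (gt t0 T m j)) (T / 2 ^ m) C hW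
    (inner V k) (inner V l) hDo.measurableSet hDo'.measurableSet (inner_mono V hkl) (2 ^ m)
    σ hσ h1 h2 G hG (cauchy_est_u ρ V y0) hu 1 hL
  have e2 := energy_est V hV (inner V l) hDo'.measurableSet (1 / ((l : ℝ) + 1)) (by positivity)
    (inner_facts V hV hVc l).2.2.1 ρ ρ hρ.measurable hρ.measurable hρ2 (cauchy_est_u ρ V y0) hu h01
    (fun x y hs hc => cauchy_est_u_ug ρ V y0 x y hs hc) hVfin (T / 2 ^ m)
  have h2m : (0 : ℝ) < 2 ^ m := by positivity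
  -- the first factor
  have e3 : (C : ℝ) * ∫ ω, ((exitIdx (fun j => B (gt t0 T m j)) (inner V l) (2 ^ m) ω : ℝ) -
      exitIdx (fun j => B (gt t0 T m j)) (inner V k) (2 ^ m) ω) ∂P ≤ C * (2 ^ m * d) := by
    refine mul_le_mul_of_nonneg_left ?_ C.2
    rw [integral_div, div_le_iff₀ h2m] at hc1
    rw [mul_comm]
    exact hc1
  have e4 : ((2 ^ m : ℕ) : ℝ) * C * (P {ω | exitIdx (fun j => B (gt t0 T m j)) (inner V k) (2 ^ m) ω < 2 ^ m ∧
      exitIdx (fun j => B (gt t0 T m j)) (inner V l) (2 ^ m) ω = 2 ^ m ∧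
      B (gt t0 T m (2 ^ m)) ω ∈ inner V k}).toReal ≤ 2 ^ m * C * d := by
    push_cast
    exact mul_le_mul_of_nonneg_left hc2 (by positivity)
  have e5 : ENNReal.ofReal ((C : ℝ) * ∫ ω, ((exitIdx (fun j => B (gt t0 T m j)) (inner V l) (2 ^ m) ω : ℝ) -
      exitIdx (fun j => B (gt t0 T m j)) (inner V k) (2 ^ m) ω) ∂P +
      ((2 ^ m : ℕ) : ℝ) * C * (P {ω | exitIdx (fun j => B (gt t0 T m j)) (inner V k) (2 ^ m) ω < 2 ^ m ∧
      exitIdx (fun j => B (gt t0 T m j)) (inner V l) (2 ^ m) ω = 2 ^ m ∧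
      B (gt t0 T m (2 ^ m)) ω ∈ inner V k}).toReal) ≤ ENNReal.ofReal (2 * C * d) * 2 ^ m := by
    have e6 : ENNReal.ofReal (2 * C * d) * 2 ^ m = ENNReal.ofReal (2 * C * d * 2 ^ m) := by
      rw [ENNReal.ofReal_mul (p := 2 * (C : ℝ) * d) (q := 2 ^ m) (by positivity),
        ENNReal.ofReal_pow (by norm_num)]
      simp
    rw [e6]
    refine ENNReal.ofReal_le_ofReal ?_
    linarith
  have hT2 : (2 : ℝ≥0∞) ^ m * ((T / 2 ^ m : ℝ≥0) : ℝ≥0∞) = T := by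
    have : ((2 : ℝ≥0) ^ m * (T / 2 ^ m) : ℝ≥0) = T := by
      rw [mul_div_assoc']
      exact mul_div_cancel_left₀ T (by positivity)
    calc (2 : ℝ≥0∞) ^ m * ((T / 2 ^ m : ℝ≥0) : ℝ≥0∞) = (((2 : ℝ≥0) ^ m * (T / 2 ^ m) : ℝ≥0) : ℝ≥0∞) := by
          rw [ENNReal.coe_mul, ENNReal.coe_pow]
          norm_num
      _ = T := by rw [this]
  have e7 : ENNReal.ofReal ((∫ ω in G, (cauchy_est_u ρ V y0 (B (gt t0 T m (σ ω)) ω) -
      cauchy_est_u ρ V y0 (B (gt t0 T m (gridExit t0 T (inner V k) m (fun t => B t ω))) ω)) ∂P) ^ 2) ≤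
      ENNReal.ofReal (κ ^ 2) := by
    refine (e1.trans (mul_le_mul' e5 e2)).trans ?_
    have e8 : ENNReal.ofReal (2 * C * d) * 2 ^ m *
        ((n : ℝ≥0∞) * ((T / 2 ^ m : ℝ≥0) : ℝ≥0∞) * (∫⁻ x in V, ρ x ^ 2) +
          volume V * gauss n (T / 2 ^ m) {z | 1 / ((l : ℝ) + 1) ≤ ‖z‖}) =
        ENNReal.ofReal (2 * C * d) * ((n : ℝ≥0∞) * ((2 : ℝ≥0∞) ^ m * ((T / 2 ^ m : ℝ≥0) : ℝ≥0∞)) *
          (∫⁻ x in V, ρ x ^ 2) +
          volume V * ((2 : ℝ≥0∞) ^ m * gauss n (T / 2 ^ m) {z | 1 / ((l : ℝ) + 1) ≤ ‖z‖})) := by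
      ring
    rw [e8, hT2]
    calc _ ≤ ENNReal.ofReal (2 * C * d) * ((n : ℝ≥0∞) * T * (∫⁻ x in V, ρ x ^ 2) + 1) := by gcongr
      _ ≤ ENNReal.ofReal (2 * C * d) * ENNReal.ofReal K := by gcongr
      _ = ENNReal.ofReal (2 * C * d * K) := (ENNReal.ofReal_mul (by positivity)).symm
      _ ≤ _ := ENNReal.ofReal_le_ofReal hdκ
  rw [ENNReal.ofReal_le_ofReal_iff (sq_nonneg κ)] at e7
  exact abs_le_of_sq_le_sq e7 hκ

/-- the probability of a large distance inside one cell -/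
theorem cauchy_est_markov (P : Measure Ω) [IsProbabilityMeasure P] (ρ : E n → ℝ≥0∞)
    (hρ : LowerSemicontinuous ρ) (V : Set (E n)) (hV : IsOpen V) (X Z : Ω → E n)
    (hX : Measurable X) (hZ : Measurable Z) (y0 : E n) (G : Set Ω) (hG : MeasurableSet G)
    (δ κ : ℝ) (hδ : 0 < δ) (hδ1 : δ ≤ 1)
    (hclose : ∀ ω ∈ G, pd ρ V (X ω) y0 < ENNReal.ofReal (δ ^ 2 / 32))
    (hint : |∫ ω in G, (cauchy_est_u ρ V y0 (Z ω) - cauchy_est_u ρ V y0 (X ω)) ∂P| ≤ κ) :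
    δ / 2 * P.real (G ∩ {ω | ENNReal.ofReal δ < pd ρ V (X ω) (Z ω)}) ≤
      δ ^ 2 / 32 * P.real G + κ := by
  have hu := cauchy_est_u_meas ρ hρ V hV y0
  have h01 := cauchy_est_u_01 ρ V y0
  have hiZ : Integrable (fun ω => cauchy_est_u ρ V y0 (Z ω)) P :=
    Integrable.of_bound (hu.comp hZ).aestronglyMeasurable 1 (Eventually.of_forall fun ω => by
      rw [Real.norm_eq_abs, abs_of_nonneg (h01 _).1]; exact (h01 _).2)
  have hiX : Integrable (fun ω => cauchy_est_u ρ V y0 (X ω)) P :=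
    Integrable.of_bound (hu.comp hX).aestronglyMeasurable 1 (Eventually.of_forall fun ω => by
      rw [Real.norm_eq_abs, abs_of_nonneg (h01 _).1]; exact (h01 _).2)
  rw [integral_sub hiZ.integrableOn hiX.integrableOn] at hint
  have hXle : ∫ ω in G, cauchy_est_u ρ V y0 (X ω) ∂P ≤ δ ^ 2 / 32 * P.real G := by
    have h1 : ∫ ω in G, cauchy_est_u ρ V y0 (X ω) ∂P ≤ ∫ ω in G, (δ ^ 2 / 32 : ℝ) ∂P := by
      refine setIntegral_mono_on hiX.integrableOn (integrable_const _).integrableOn hG ?_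
      intro ω hω
      have h2 := hclose ω hω
      have h3 : min 1 (pd ρ V (X ω) y0) ≤ ENNReal.ofReal (δ ^ 2 / 32) :=
        (min_le_right _ _).trans h2.le
      have h4 := ENNReal.toReal_mono ENNReal.ofReal_ne_top h3
      rwa [ENNReal.toReal_ofReal (by positivity)] at h4
    refine h1.trans (le_of_eq ?_)
    rw [setIntegral_const, smul_eq_mul, mul_comm]
  have hbad : MeasurableSet {ω | ENNReal.ofReal δ < pd ρ V (X ω) (Z ω)} :=
    measurableSet_lt measurable_const ((pd_measurable ρ hρ V hV).comp (hX.prodMk hZ))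
  have hZge : δ / 2 * P.real (G ∩ {ω | ENNReal.ofReal δ < pd ρ V (X ω) (Z ω)}) ≤
      ∫ ω in G, cauchy_est_u ρ V y0 (Z ω) ∂P := by
    have h1 : ∫ ω in G ∩ {ω | ENNReal.ofReal δ < pd ρ V (X ω) (Z ω)}, (δ / 2 : ℝ) ∂P ≤
        ∫ ω in G ∩ {ω | ENNReal.ofReal δ < pd ρ V (X ω) (Z ω)}, cauchy_est_u ρ V y0 (Z ω) ∂P := by
      refine setIntegral_mono_on (integrable_const _).integrableOn hiZ.integrableOn (hG.inter hbad) ?_
      rintro ω ⟨hω, hω2⟩
      have h2 := hclose ω hω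
      have h3 : ENNReal.ofReal δ < ENNReal.ofReal (δ ^ 2 / 32) + pd ρ V (Z ω) y0 := by
        refine lt_of_lt_of_le hω2 ((pd_triangle ρ V (X ω) y0 (Z ω)).trans ?_)
        rw [pd_comm ρ V y0 (Z ω)]
        gcongr
      have h4 : ENNReal.ofReal (δ / 2) ≤ pd ρ V (Z ω) y0 := by
        by_contra hcon
        push Not at hcon
        have h5 : ENNReal.ofReal (δ ^ 2 / 32) + pd ρ V (Z ω) y0 ≤
            ENNReal.ofReal (δ ^ 2 / 32) + ENNReal.ofReal (δ / 2) := by gcongr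
        rw [← ENNReal.ofReal_add (by positivity) (by positivity)] at h5
        have h6 := lt_of_lt_of_le h3 h5
        rw [ENNReal.ofReal_lt_ofReal_iff (by positivity)] at h6
        nlinarith
      have h7 : ENNReal.ofReal (δ / 2) ≤ min 1 (pd ρ V (Z ω) y0) := by
        refine le_min ?_ h4
        rw [← ENNReal.ofReal_one]
        exact ENNReal.ofReal_le_ofReal (by linarith)
      have h8 := ENNReal.toReal_mono
        (ne_top_of_le_ne_top ENNReal.one_ne_top (min_le_left _ _)) h7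
      rwa [ENNReal.toReal_ofReal (by positivity)] at h8
    rw [setIntegral_const, smul_eq_mul, mul_comm] at h1
    refine h1.trans ?_
    exact setIntegral_mono_set hiZ.integrableOn
      (Eventually.of_forall fun ω => (h01 _).1) (Eventually.of_forall inter_subset_left)
  have := (abs_le.1 hint).2
  linarith

theorem cauchy_est_one (P : Measure Ω) [IsProbabilityMeasure P] (B : ℝ≥0 → Ω → E n)
    (F : ℝ≥0 → MeasurableSpace Ω) (a : E n) (hB : NiceBM P B F a) (t0 : ℝ≥0) (ht0 : 0 < t0)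
    (T : ℝ≥0) (hT : 0 < T) (V : Set (E n)) (hV : IsOpen V) (hVb : Bornology.IsBounded V)
    (hVc : Vᶜ.Nonempty) (hVne : V.Nonempty) (ρ : E n → ℝ≥0∞) (hρ : LowerSemicontinuous ρ)
    (hρ2 : ∫⁻ x in V, ρ x ^ 2 ≠ ⊤) (δ : ℝ) (hδ : 0 < δ) (hδ1 : δ ≤ 1) :
    ∃ k0, ∀ k, k0 ≤ k → ∀ l, k ≤ l → ∃ m0, ∀ m, m0 ≤ m → ∀ σ : Ω → ℕ,
      IsStop (fun j => F (gt t0 T m j)) σ →
      (∀ ω, gridExit t0 T (inner V k) m (fun t => B t ω) ≤ σ ω) →
      (∀ ω, σ ω ≤ gridExit t0 T (inner V l) m (fun t => B t ω)) →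
      P {ω | B t0 ω ∈ V ∧ ENNReal.ofReal δ <
        pd ρ V (B (gt t0 T m (gridExit t0 T (inner V k) m (fun t => B t ω))) ω)
          (B (gt t0 T m (σ ω)) ω)} ≤ ENNReal.ofReal δ := by
  classical
  have hVfin : volume V ≠ ⊤ := hVb.measure_lt_top.ne
  obtain ⟨y, -, hy⟩ := pd_centers ρ hρ V hV hVb hVne hρ2
  obtain ⟨C, hC⟩ := gwalk_of_bm P B F a hB t0 ht0
  obtain ⟨J, hJ⟩ := tight P B F a hB t0 ht0 T hT V hV hVb hVc ρ hρ hρ2 y hy (δ ^ 2 / 32) (δ / 4)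
    (by positivity) (by positivity)
  have hKfin : (n : ℝ≥0∞) * T * (∫⁻ x in V, ρ x ^ 2) + 1 ≠ ⊤ := by
    refine ENNReal.add_ne_top.2 ⟨ENNReal.mul_ne_top (ENNReal.mul_ne_top ?_ ENNReal.coe_ne_top) hρ2,
      ENNReal.one_ne_top⟩
    exact ENNReal.natCast_ne_top n
  obtain ⟨K, hKdef⟩ : ∃ K : ℝ, K = ((n : ℝ≥0∞) * T * (∫⁻ x in V, ρ x ^ 2) + 1).toReal := ⟨_, rfl⟩
  have hK0 : 0 ≤ K := by rw [hKdef]; exact ENNReal.toReal_nonneg
  have hKI : (n : ℝ≥0∞) * T * (∫⁻ x in V, ρ x ^ 2) + 1 ≤ ENNReal.ofReal K := by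
    rw [hKdef, ENNReal.ofReal_toReal hKfin]
  obtain ⟨κ, hκdef⟩ : ∃ κ : ℝ, κ = δ ^ 2 / (64 * ((J : ℝ) + 1)) := ⟨_, rfl⟩
  have hκ : 0 < κ := by rw [hκdef]; positivity
  obtain ⟨d, hddef⟩ : ∃ d : ℝ, d = κ ^ 2 / (2 * ((C : ℝ) + 1) * (K + 1)) := ⟨_, rfl⟩
  have hC0 : (0 : ℝ) ≤ C := C.2
  have hd : 0 < d := by rw [hddef]; positivity
  have hdκ : 2 * C * d * K ≤ κ ^ 2 := by
    have h1 : d * (2 * ((C : ℝ) + 1) * (K + 1)) = κ ^ 2 := by
      rw [hddef]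
      exact div_mul_cancel₀ _ (by positivity)
    nlinarith [mul_nonneg hd.le hC0, mul_nonneg hd.le hK0, mul_nonneg (mul_nonneg hd.le hC0) hK0]
  obtain ⟨k0, hk0⟩ := grid_conv_prob P B (fun t => (hB.adapted t).mono (hB.F_le t) le_rfl) hB.cont
    V hV hVc t0 T hT d hd
  refine ⟨k0, fun k hk l hkl => ?_⟩
  obtain ⟨m1, hm1⟩ := hk0 k hk l hkl
  obtain ⟨m2, hm2⟩ := hJ k
  have htl := gauss_tail n T (1 / ((l : ℝ) + 1)) (by positivity)
  have htl2 := ENNReal.Tendsto.const_mul (a := volume V) htl (Or.inr hVfin)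
  rw [mul_zero] at htl2
  obtain ⟨m3, hm3⟩ := eventually_atTop.1 (htl2.eventually (ge_mem_nhds (show (0 : ℝ≥0∞) < 1 by norm_num)))
  refine ⟨max m1 (max m2 m3), fun m hm σ hσ h1 h2 => ?_⟩
  have hmm1 : m1 ≤ m := (le_max_left _ _).trans hm
  have hmm2 : m2 ≤ m := ((le_max_left _ _).trans (le_max_right _ _)).trans hm
  have hmm3 : m3 ≤ m := ((le_max_right _ _).trans (le_max_right _ _)).trans hm
  obtain ⟨hc1, hc2⟩ := hm1 m hmm1
  have htight := hm2 m hmm2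
  have hg := hm3 m hmm3
  have hW := hC T m
  -- measurability
  have hFm : Monotone (fun j => F (gt t0 T m j)) := hW.F_mono
  have hτ : IsStop (fun j => F (gt t0 T m j))
      (fun ω => gridExit t0 T (inner V k) m (fun t => B t ω)) :=
    exitIdx_stop (fun j => B (gt t0 T m j)) (fun j => F (gt t0 T m j)) hFm hW.adapted (inner V k)
      (inner_facts V hV hVc k).1.measurableSet (2 ^ m)
  have hXm : Measurable (fun ω => B (gt t0 T m (gridExit t0 T (inner V k) m (fun t => B t ω))) ω) :=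
    cauchy_est_Ymeas hFm hW.F_le hW.adapted hτ
  have hZm : Measurable (fun ω => B (gt t0 T m (σ ω)) ω) :=
    cauchy_est_Ymeas hFm hW.F_le hW.adapted hσ
  have hgt0 : gt t0 T m 0 = t0 := by simp [gt]
  have hS0 : MeasurableSet[F (gt t0 T m 0)] {ω | B t0 ω ∈ V} := by
    rw [hgt0]
    exact hB.adapted t0 hV.measurableSet
  -- the cells
  let A : ℕ → Set (E n) := fun i => {x | pd ρ V x (y i) < ENNReal.ofReal (δ ^ 2 / 32) ∧
    ∀ i' ∈ Finset.range i, ¬ (pd ρ V x (y i') < ENNReal.ofReal (δ ^ 2 / 32))}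
  have hpdm : ∀ i, Measurable (fun x => pd ρ V x (y i)) := fun i =>
    (pd_measurable ρ hρ V hV).comp (measurable_id.prodMk (measurable_const (a := y i)))
  have hAm : ∀ i, MeasurableSet (A i) := by
    intro i
    have e : A i = {x | pd ρ V x (y i) < ENNReal.ofReal (δ ^ 2 / 32)} ∩
        ⋂ i' ∈ Finset.range i, {x | pd ρ V x (y i') < ENNReal.ofReal (δ ^ 2 / 32)}ᶜ := by
      ext x
      simp only [A, mem_ofPred_eq, mem_inter_iff, mem_iInter, mem_compl_iff]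
    rw [e]
    refine (measurableSet_lt (hpdm i) measurable_const).inter ?_
    exact Finset.measurableSet_biInter _ fun i' _ =>
      (measurableSet_lt (hpdm i') measurable_const).compl
  let G : ℕ → Set Ω := fun i => {ω | B t0 ω ∈ V} ∩
    {ω | B (gt t0 T m (gridExit t0 T (inner V k) m (fun t => B t ω))) ω ∈ A i}
  have hS0m : MeasurableSet {ω | B t0 ω ∈ V} := hW.F_le 0 _ hS0
  have hGm : ∀ i, MeasurableSet (G i) := fun i => hS0m.inter (hXm (hAm i))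
  have hGF : ∀ i j, MeasurableSet[F (gt t0 T m j)]
      (G i ∩ {ω | gridExit t0 T (inner V k) m (fun t => B t ω) ≤ j}) := fun i j =>
    cauchy_est_G hFm hW.adapted hτ hS0 (hAm i) j
  let Bad : Set Ω := {ω | ENNReal.ofReal δ <
    pd ρ V (B (gt t0 T m (gridExit t0 T (inner V k) m (fun t => B t ω))) ω) (B (gt t0 T m (σ ω)) ω)}
  have hcell : ∀ i, δ / 2 * P.real (G i ∩ Bad) ≤ δ ^ 2 / 32 * P.real (G i) + κ := by
    intro i
    refine cauchy_est_markov P ρ hρ V hV _ _ hXm hZm (y i) (G i) (hGm i) δ κ hδ hδ1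
      (fun ω hω => hω.2.1) ?_
    exact cauchy_est_cell P B F t0 T C m hW V hV hVb hVc ρ hρ hρ2 k l hkl d κ K hd.le hκ.le hK0
      hdκ hKI hg hc1 hc2 σ hσ h1 h2 (G i) (hGF i) (y i)
  have hdisj : (↑(Finset.range J) : Set ℕ).PairwiseDisjoint G := by
    intro i _ j _ hij
    rw [Function.onFun, Set.disjoint_left]
    intro ω hi hj
    rcases lt_or_gt_of_ne hij with h | h
    · exact hj.2.2 i (Finset.mem_range.2 h) hi.2.1
    · exact hi.2.2 j (Finset.mem_range.2 h) hj.2.1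
  have hsumG : ∑ i ∈ Finset.range J, P.real (G i) ≤ 1 := by
    have h3 := measure_biUnion_finset (μ := P) hdisj (fun i _ => hGm i)
    have h4 : ∑ i ∈ Finset.range J, P (G i) ≤ 1 := by
      rw [← h3]
      exact prob_le_one
    have h5 : ∑ i ∈ Finset.range J, P.real (G i) = (∑ i ∈ Finset.range J, P (G i)).toReal := by
      rw [ENNReal.toReal_sum (fun i _ => measure_ne_top P _)]
      rfl
    rw [h5]
    have h6 := ENNReal.toReal_mono ENNReal.one_ne_top h4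
    simpa using h6
  have hsumB : ∑ i ∈ Finset.range J, P.real (G i ∩ Bad) ≤ δ / 4 := by
    have h3 : ∑ i ∈ Finset.range J, δ / 2 * P.real (G i ∩ Bad) ≤
        ∑ i ∈ Finset.range J, (δ ^ 2 / 32 * P.real (G i) + κ) := Finset.sum_le_sum fun i _ => hcell i
    rw [← Finset.mul_sum, Finset.sum_add_distrib, ← Finset.mul_sum, Finset.sum_const,
      Finset.card_range, nsmul_eq_mul] at h3
    have h4 : (J : ℝ) * κ ≤ δ ^ 2 / 64 := by
      rw [hκdef, mul_div_assoc', div_le_div_iff₀ (by positivity) (by norm_num)]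
      nlinarith [sq_nonneg δ, mul_nonneg (sq_nonneg δ) (Nat.cast_nonneg (α := ℝ) J)]
    have h5 : δ ^ 2 / 32 * ∑ i ∈ Finset.range J, P.real (G i) ≤ δ ^ 2 / 32 * 1 :=
      mul_le_mul_of_nonneg_left hsumG (by positivity)
    have h6 : δ / 2 * ∑ i ∈ Finset.range J, P.real (G i ∩ Bad) ≤ δ / 2 * (δ / 4) := by nlinarith
    exact le_of_mul_le_mul_left h6 (by positivity)
  have hcover : {ω | B t0 ω ∈ V ∧ ENNReal.ofReal δ <
        pd ρ V (B (gt t0 T m (gridExit t0 T (inner V k) m (fun t => B t ω))) ω)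
          (B (gt t0 T m (σ ω)) ω)} ⊆ (⋃ i ∈ Finset.range J, (G i ∩ Bad)) ∪
      {ω | B t0 ω ∈ V ∧ ∀ i, i < J → ENNReal.ofReal (δ ^ 2 / 32) ≤
        pd ρ V (B (gt t0 T m (gridExit t0 T (inner V k) m (fun t => B t ω))) ω) (y i)} := by
    rintro ω ⟨hω1, hω2⟩
    by_cases h : ∃ i, i < J ∧ pd ρ V (B (gt t0 T m (gridExit t0 T (inner V k) m (fun t => B t ω))) ω) (y i)
        < ENNReal.ofReal (δ ^ 2 / 32)
    · left
      have hf := Nat.find_spec h
      have hmin := fun i' => Nat.find_min h (m := i')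
      simp only [mem_iUnion]
      refine ⟨Nat.find h, Finset.mem_range.2 hf.1, ⟨hω1, hf.2, ?_⟩, hω2⟩
      intro i' hi'
      rw [Finset.mem_range] at hi'
      intro hlt
      exact hmin i' hi' ⟨hi'.trans hf.1, hlt⟩
    · right
      push Not at h
      exact ⟨hω1, h⟩
  refine (measure_mono hcover).trans ((measure_union_le _ _).trans ?_)
  have h9 : P (⋃ i ∈ Finset.range J, (G i ∩ Bad)) ≤ ENNReal.ofReal (δ / 4) := by
    refine (measure_biUnion_finset_le _ _).trans ?_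
    have h3 : ∑ i ∈ Finset.range J, P (G i ∩ Bad) =
        ENNReal.ofReal (∑ i ∈ Finset.range J, P.real (G i ∩ Bad)) := by
      rw [ENNReal.ofReal_sum_of_nonneg (fun i _ => measureReal_nonneg)]
      exact Finset.sum_congr rfl fun i _ => by simp [Measure.real]
    rw [h3]
    exact ENNReal.ofReal_le_ofReal hsumB
  calc _ ≤ ENNReal.ofReal (δ / 4) + ENNReal.ofReal (δ / 4) := add_le_add h9 htight
    _ = ENNReal.ofReal (δ / 4 + δ / 4) := (ENNReal.ofReal_add (by positivity) (by positivity)).symm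
    _ ≤ ENNReal.ofReal δ := ENNReal.ofReal_le_ofReal (by linarith)

/-- E7: Cauchy estimate. -/
theorem cauchy_est (P : Measure Ω) [IsProbabilityMeasure P] (B : ℝ≥0 → Ω → E n)
    (F : ℝ≥0 → MeasurableSpace Ω) (a : E n) (hB : NiceBM P B F a) (t0 : ℝ≥0) (ht0 : 0 < t0)
    (T : ℝ≥0) (hT : 0 < T) (V : Set (E n)) (hV : IsOpen V) (hVb : Bornology.IsBounded V)
    (hVc : Vᶜ.Nonempty) (hVne : V.Nonempty) (ρ : E n → ℝ≥0∞) (hρ : LowerSemicontinuous ρ)
    (hρ2 : ∫⁻ x in V, ρ x ^ 2 ≠ ⊤) (δ : ℝ) (hδ : 0 < δ) :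
    ∃ k0, ∀ k, k0 ≤ k → ∀ l, k ≤ l → ∃ m0, ∀ m, m0 ≤ m → ∀ σ : Ω → ℕ,
      IsStop (fun j => F (gt t0 T m j)) σ →
      (∀ ω, gridExit t0 T (inner V k) m (fun t => B t ω) ≤ σ ω) →
      (∀ ω, σ ω ≤ gridExit t0 T (inner V l) m (fun t => B t ω)) →
      P {ω | B t0 ω ∈ V ∧ ENNReal.ofReal δ <
        pd ρ V (B (gt t0 T m (gridExit t0 T (inner V k) m (fun t => B t ω))) ω)
          (B (gt t0 T m (σ ω)) ω)} ≤ ENNReal.ofReal δ := by
  obtain ⟨k0, hk0⟩ := cauchy_est_one P B F a hB t0 ht0 T hT V hV hVb hVc hVne ρ hρ hρ2 (min δ 1)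
    (lt_min hδ one_pos) (min_le_right _ _)
  refine ⟨k0, fun k hk l hkl => ?_⟩
  obtain ⟨m0, hm0⟩ := hk0 k hk l hkl
  refine ⟨m0, fun m hm σ hσ h1 h2 => ?_⟩
  have hle : ENNReal.ofReal (min δ 1) ≤ ENNReal.ofReal δ :=
    ENNReal.ofReal_le_ofReal (min_le_left _ _)
  refine (measure_mono ?_).trans ((hm0 m hm σ hσ h1 h2).trans hle)
  rintro ω ⟨hω1, hω2⟩
  exact ⟨hω1, lt_of_le_of_lt hle hω2⟩

end Keldysh
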