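import Pool.Agent.Keldysh.Defs2
import Pool.Agent.Keldysh.Defs3
import Pool.Agent.Keldysh.M_exitIdx_le
import Pool.Agent.Keldysh.M_exitIdx_mem
import Pool.Agent.Keldysh.M_exitIdx_not_mem
import Pool.Agent.Keldysh.M_exitIdx_mono
import Pool.Agent.Keldysh.M_exitIdx_stop
import Pool.Agent.Keldysh.M_pd_triangle
import Pool.Agent.Keldysh.M_pd_comm
import Pool.Agent.Keldysh.M_inner_mono
import Pool.Agent.Keldysh.M_inner_facts
import Pool.Agent.Keldysh.M_cauchy_est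

open MeasureTheory ProbabilityTheory Filter Topology Set
open scoped ENNReal NNReal

namespace Keldysh

variable {n : ℕ} {Ω : Type*} [mΩ : MeasurableSpace Ω]

theorem cauchy_two_gt (t0 T : ℝ≥0) {m m' : ℕ} (h : m ≤ m') (j : ℕ) :
    gt t0 T m j = gt t0 T m' (2 ^ (m' - m) * j) := by
  unfold gt
  congr 1
  have h1 : (2 : ℝ≥0) ^ m' = 2 ^ (m' - m) * 2 ^ m := by
    rw [← pow_add]; congr 1; omega
  push_cast
  rw [h1]
  have h2 : (2 : ℝ≥0) ^ (m' - m) ≠ 0 := by positivity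
  have h3 : (2 : ℝ≥0) ^ m ≠ 0 := by positivity
  field_simp

theorem cauchy_two_gt_mono (t0 T : ℝ≥0) (m : ℕ) {i j : ℕ} (h : i ≤ j) :
    gt t0 T m i ≤ gt t0 T m j := by
  unfold gt
  have : (i : ℝ≥0) ≤ j := by exact_mod_cast h
  gcongr

theorem cauchy_two_gt_le (t0 T : ℝ≥0) (hT : 0 < T) (m : ℕ) {i j : ℕ}
    (h : gt t0 T m i ≤ gt t0 T m j) : i ≤ j := by
  by_contra hlt
  have hlt : j < i := not_le.1 hlt
  have h1 : (j : ℝ≥0) < i := by exact_mod_cast hlt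
  have h2 : 0 < T / 2 ^ m := by positivity
  have h3 : gt t0 T m j < gt t0 T m i := by
    unfold gt
    gcongr
  exact absurd h (not_le.2 h3)

theorem cauchy_two_stop_grid (P : Measure Ω) (B : ℝ≥0 → Ω → E n)
    (F : ℝ≥0 → MeasurableSpace Ω) (a : E n) (hB : NiceBM P B F a) (t0 T : ℝ≥0) (D : Set (E n))
    (hD : MeasurableSet D) (m : ℕ) :
    IsStop (fun j => F (gt t0 T m j)) (fun ω => gridExit t0 T D m (fun t => B t ω)) :=
  exitIdx_stop (fun j ω => B (gt t0 T m j) ω) (fun j => F (gt t0 T m j))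
    (fun _ _ hij => hB.F_mono (cauchy_two_gt_mono t0 T m hij))
    (fun _ => hB.adapted _) D hD (2 ^ m)

theorem cauchy_two_stop_coarse (F : ℝ≥0 → MeasurableSpace Ω) (hF : Monotone F) (t0 T : ℝ≥0)
    {m m' : ℕ} (h : m ≤ m') (σ : Ω → ℕ) (hσ : IsStop (fun j => F (gt t0 T m j)) σ) :
    IsStop (fun j => F (gt t0 T m' j)) (fun ω => 2 ^ (m' - m) * σ ω) := by
  intro j
  have hpos : 0 < 2 ^ (m' - m) := by positivity
  have h1 : {ω | 2 ^ (m' - m) * σ ω ≤ j} = {ω | σ ω ≤ j / 2 ^ (m' - m)} := by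
    ext ω
    change 2 ^ (m' - m) * σ ω ≤ j ↔ σ ω ≤ j / 2 ^ (m' - m)
    rw [Nat.le_div_iff_mul_le hpos, mul_comm]
  have h2 : F (gt t0 T m (j / 2 ^ (m' - m))) ≤ F (gt t0 T m' j) := by
    apply hF
    rw [cauchy_two_gt t0 T h]
    exact cauchy_two_gt_mono t0 T m' (Nat.mul_div_le j _)
  have h3 := h2 _ (hσ (j / 2 ^ (m' - m)))
  rw [← h1] at h3
  exact h3

theorem cauchy_two_stop_min (G : ℕ → MeasurableSpace Ω) (σ τ : Ω → ℕ) (hσ : IsStop G σ)
    (hτ : IsStop G τ) : IsStop G (fun ω => min (σ ω) (τ ω)) := by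
  intro j
  have h1 : {ω | min (σ ω) (τ ω) ≤ j} = {ω | σ ω ≤ j} ∪ {ω | τ ω ≤ j} := by
    ext ω
    change min (σ ω) (τ ω) ≤ j ↔ σ ω ≤ j ∨ τ ω ≤ j
    exact min_le_iff
  have h2 : MeasurableSet[G j] ({ω | σ ω ≤ j} ∪ {ω | τ ω ≤ j}) :=
    @MeasurableSet.union Ω (G j) _ _ (hσ j) (hτ j)
  rw [← h1] at h2
  exact h2

theorem cauchy_two_le (t0 T : ℝ≥0) (D : Set (E n)) {m m' : ℕ} (h : m ≤ m') (p : ℝ≥0 → E n) :
    gridExit t0 T D m' p ≤ 2 ^ (m' - m) * gridExit t0 T D m p := by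
  have hne : {j | j = 2 ^ m ∨ p (gt t0 T m j) ∉ D}.Nonempty := ⟨2 ^ m, Or.inl rfl⟩
  have hmem : gridExit t0 T D m p ∈ {j | j = 2 ^ m ∨ p (gt t0 T m j) ∉ D} := Nat.sInf_mem hne
  refine Nat.sInf_le ?_
  rcases hmem with h1 | h1
  · left
    rw [h1, ← pow_add]; congr 1; omega
  · right
    rw [cauchy_two_gt t0 T h] at h1
    exact h1

/-- E8: comparison of a coarse and a fine grid. -/
theorem cauchy_two (P : Measure Ω) [IsProbabilityMeasure P] (B : ℝ≥0 → Ω → E n)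
    (F : ℝ≥0 → MeasurableSpace Ω) (a : E n) (hB : NiceBM P B F a) (t0 : ℝ≥0) (ht0 : 0 < t0)
    (T : ℝ≥0) (hT : 0 < T) (V : Set (E n)) (hV : IsOpen V) (hVb : Bornology.IsBounded V)
    (hVc : Vᶜ.Nonempty) (hVne : V.Nonempty) (ρ : E n → ℝ≥0∞) (hρ : LowerSemicontinuous ρ)
    (hρ2 : ∫⁻ x in V, ρ x ^ 2 ≠ ⊤) (δ : ℝ) (hδ : 0 < δ) :
    ∃ k0, ∀ k, k0 ≤ k → ∀ l, k ≤ l → ∀ m, ∃ m1, ∀ m', m1 ≤ m' → m ≤ m' →
      P {ω | B t0 ω ∈ V ∧
        gt t0 T m (gridExit t0 T (inner V k) m (fun t => B t ω)) ≤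
          gt t0 T m' (gridExit t0 T (inner V l) m' (fun t => B t ω)) ∧
        ENNReal.ofReal δ <
        pd ρ V (B (gt t0 T m (gridExit t0 T (inner V k) m (fun t => B t ω))) ω)
          (B (gt t0 T m' (gridExit t0 T (inner V l) m' (fun t => B t ω))) ω)} ≤
        ENNReal.ofReal δ := by
  obtain ⟨k0, hk0⟩ := cauchy_est P B F a hB t0 ht0 T hT V hV hVb hVc hVne ρ hρ hρ2 (δ / 2)
    (half_pos hδ)
  refine ⟨k0, fun k hk l hl m => ?_⟩
  obtain ⟨m0, hm0⟩ := hk0 k hk l hl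
  refine ⟨m0, fun m' hm' hmm => ?_⟩
  have hDk : MeasurableSet (inner V k) := (inner_facts V hV hVc k).1.measurableSet
  have hDl : MeasurableSet (inner V l) := (inner_facts V hV hVc l).1.measurableSet
  have hs2 := cauchy_two_stop_grid P B F a hB t0 T (inner V l) hDl m'
  have hsc := cauchy_two_stop_coarse F hB.F_mono t0 T hmm _
    (cauchy_two_stop_grid P B F a hB t0 T (inner V k) hDk m)
  have hs1 := cauchy_two_stop_min _ _ _ hsc hs2
  have hkl : ∀ ω, gridExit t0 T (inner V k) m' (fun t => B t ω) ≤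
      gridExit t0 T (inner V l) m' (fun t => B t ω) := fun ω =>
    exitIdx_mono (fun j ω => B (gt t0 T m' j) ω) _ _ (inner_mono V hl) (2 ^ m') ω
  have hE1 := hm0 m' hm' _ hs1
    (fun ω => le_min (cauchy_two_le t0 T (inner V k) hmm _) (hkl ω)) (fun ω => min_le_right _ _)
  have hE2 := hm0 m' hm' _ hs2 hkl (fun ω => le_rfl)
  have hadd : ENNReal.ofReal δ = ENNReal.ofReal (δ / 2) + ENNReal.ofReal (δ / 2) := by
    rw [← ENNReal.ofReal_add (half_pos hδ).le (half_pos hδ).le, add_halves]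
  refine le_trans ?_ ((add_le_add hE1 hE2).trans_eq hadd.symm)
  refine le_trans (measure_mono ?_) (measure_union_le _ _)
  rintro ω ⟨hω1, hω2, hω3⟩
  have hle : 2 ^ (m' - m) * gridExit t0 T (inner V k) m (fun t => B t ω) ≤
      gridExit t0 T (inner V l) m' (fun t => B t ω) := by
    rw [cauchy_two_gt t0 T hmm] at hω2
    exact cauchy_two_gt_le t0 T hT m' hω2
  by_contra hcon
  rw [Set.mem_union, not_or] at hcon
  obtain ⟨hc1, hc2⟩ := hcon
  have h1 : pd ρ V (B (gt t0 T m' (gridExit t0 T (inner V k) m' (fun t => B t ω))) ω)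
      (B (gt t0 T m (gridExit t0 T (inner V k) m (fun t => B t ω))) ω) ≤
      ENNReal.ofReal (δ / 2) := by
    by_contra hlt
    refine hc1 ⟨hω1, ?_⟩
    have hlt := not_le.1 hlt
    simp only [min_eq_left hle]
    rw [← cauchy_two_gt t0 T hmm]
    exact hlt
  have h2 : pd ρ V (B (gt t0 T m' (gridExit t0 T (inner V k) m' (fun t => B t ω))) ω)
      (B (gt t0 T m' (gridExit t0 T (inner V l) m' (fun t => B t ω))) ω) ≤
      ENNReal.ofReal (δ / 2) := by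
    by_contra hlt
    exact hc2 ⟨hω1, not_le.1 hlt⟩
  have h3 := pd_triangle ρ V
    (B (gt t0 T m (gridExit t0 T (inner V k) m (fun t => B t ω))) ω)
    (B (gt t0 T m' (gridExit t0 T (inner V k) m' (fun t => B t ω))) ω)
    (B (gt t0 T m' (gridExit t0 T (inner V l) m' (fun t => B t ω))) ω)
  have h4 := h3.trans (add_le_add ((pd_comm ρ V _ _).trans_le h1) h2)
  rw [← hadd] at h4
  exact absurd hω3 (not_lt.2 h4)

end Keldysh
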