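import Pool.Agent.Keldysh.Defs2

open MeasureTheory ProbabilityTheory Filter Topology Set
open scoped ENNReal NNReal

namespace Keldysh

variable {n : ℕ} {Ω : Type*} [mΩ : MeasurableSpace Ω]

/-- B6 -/
theorem convexHull_apply_le (h : ℕ → E n → ℝ) (j : ℕ) (c : E n → ℝ)
    (hc : c ∈ convexHull ℝ (h '' Set.Ici j)) (x : E n) (b : ℝ) (hb : ∀ k, j ≤ k → h k x ≤ b) :
    c x ≤ b := by
  have hconv : Convex ℝ {c : E n → ℝ | c x ≤ b} := by
    intro u hu v hv p q hp hq hpq
    have hu' : u x ≤ b := hu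
    have hv' : v x ≤ b := hv
    show p * u x + q * v x ≤ b
    have e : b = p * b + q * b := by rw [← add_mul, hpq, one_mul]
    rw [e]
    exact add_le_add (mul_le_mul_of_nonneg_left hu' hp) (mul_le_mul_of_nonneg_left hv' hq)
  have hsub : h '' Set.Ici j ⊆ {c : E n → ℝ | c x ≤ b} := by
    rintro _ ⟨k, hk, rfl⟩
    exact hb k hk
  exact convexHull_min hsub hconv hc

end Keldysh
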