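import Pool.Agent.Keldysh.Defs2
import Pool.Agent.Keldysh.M_gauss_prob
import Pool.Agent.Keldysh.M_gauss_neg
import Pool.Agent.Keldysh.M_gauss_second_moment
import Pool.Agent.Keldysh.M_SubAt_gauss

open MeasureTheory ProbabilityTheory Filter Topology Set
open scoped ENNReal NNReal

namespace Keldysh

variable {n : ℕ} {Ω : Type*} [mΩ : MeasurableSpace Ω]

theorem energy_bound_int {α : Type*} [MeasurableSpace α] (μ : Measure α) (f : α → ℝ)
    (hf : Measurable f) (C : ℝ) (B : Set α) (hB : MeasurableSet B) (hBf : μ B ≠ ∞)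
    (h : ∀ x ∈ B, |f x| ≤ C) (h0 : ∀ x, x ∉ B → f x = 0) : Integrable f μ := by
  have h1 : IntegrableOn f B μ := by
    apply Measure.integrableOn_of_bounded hBf hf.aestronglyMeasurable (M := C)
    rw [ae_restrict_iff' hB]
    exact Eventually.of_forall h
  rw [← integrableOn_iff_integrable_of_support_subset (s := B)]
  · exact h1
  · intro x hx
    by_contra hxB
    exact hx (h0 x hxB)

/-- second difference estimate -/
theorem energy_bound_second (ψ : E n → ℝ) (hψ : ContDiff ℝ 2 ψ) (hc : HasCompactSupport ψ) :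
    ∃ K : ℝ, 0 ≤ K ∧ ∀ x z, ψ (x - z) + ψ (x + z) - 2 * ψ x ≤ K * ‖z‖ ^ 2 := by
  have h1 : ContDiff ℝ 1 (fderiv ℝ ψ) := hψ.fderiv_right (by norm_num)
  obtain ⟨C, hC⟩ := h1.lipschitzWith_of_hasCompactSupport (hc.fderiv ℝ) (by norm_num)
  refine ⟨2 * C, by positivity, ?_⟩
  intro x z
  have hd : ∀ y, HasFDerivAt ψ (fderiv ℝ ψ y) y := fun y =>
    ((hψ.differentiable (by norm_num)) y).hasFDerivAt
  set f : ℝ → ℝ := fun t => ψ (x - t • z) + ψ (x + t • z) with hf
  set f' : ℝ → ℝ := fun t => fderiv ℝ ψ (x - t • z) (-z) + fderiv ℝ ψ (x + t • z) z with hf'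
  have hderiv : ∀ t, HasDerivAt f (f' t) t := by
    intro t
    have e1 : HasDerivAt (fun t : ℝ => x - t • z) (-z) t := by
      have := ((hasDerivAt_id t).smul_const z).const_sub x
      simpa using this
    have e2 : HasDerivAt (fun t : ℝ => x + t • z) z t := by
      have := ((hasDerivAt_id t).smul_const z).const_add x
      simpa using this
    have e3 := (hd (x - t • z)).comp_hasDerivAt t e1
    have e4 := (hd (x + t • z)).comp_hasDerivAt t e2
    exact e3.add e4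
  have hbound : ∀ t ∈ Ico (0 : ℝ) 1, ‖f' t‖ ≤ 2 * C * ‖z‖ ^ 2 := by
    intro t ht
    have e1 : f' t = (fderiv ℝ ψ (x + t • z) - fderiv ℝ ψ (x - t • z)) z := by
      simp only [hf', map_neg, _root_.sub_apply]
      ring
    rw [e1]
    refine (ContinuousLinearMap.le_opNorm _ _).trans ?_
    have e2 := hC.dist_le_mul (x + t • z) (x - t • z)
    rw [dist_eq_norm, dist_eq_norm] at e2
    have e3 : x + t • z - (x - t • z) = (2 * t) • z := by
      rw [mul_smul, two_smul]; abel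
    rw [e3, norm_smul, Real.norm_eq_abs, abs_of_nonneg (by linarith [ht.1])] at e2
    have e4 : (C : ℝ) * (2 * t * ‖z‖) ≤ 2 * C * ‖z‖ := by
      have : (C : ℝ) * (2 * t * ‖z‖) = (2 * C * ‖z‖) * t := by ring
      rw [this]
      have h5 : (0 : ℝ) ≤ 2 * C * ‖z‖ := by positivity
      nlinarith [ht.2]
    calc _ ≤ (2 * C * ‖z‖) * ‖z‖ := mul_le_mul_of_nonneg_right (e2.trans e4) (norm_nonneg _)
      _ = _ := by ring
  have h2 := norm_image_sub_le_of_norm_deriv_le_segment_01' (f := f) (f' := f')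
    (fun t _ => (hderiv t).hasDerivWithinAt) hbound
  have h3 : f 1 - f 0 = ψ (x - z) + ψ (x + z) - 2 * ψ x := by
    simp only [hf, one_smul, zero_smul, sub_zero, add_zero]
    ring
  rw [h3] at h2
  exact (le_abs_self _).trans h2

theorem energy_bound_abs (a b : ℝ) (ha : 0 ≤ a) (ha1 : a ≤ 1) (hb : 0 ≤ b) (hb1 : b ≤ 1) :
    |a - b| ≤ 1 := by
  rw [abs_le]; constructor <;> linarith

/-- pointwise inequality -/
theorem energy_bound_pt (a b x y c : ℝ) (hy0 : 0 ≤ y) (hy1 : y ≤ 1) (hab : |b - a| ≤ c) :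
    (b * y - a * x) ^ 2 ≤ 2 * (a ^ 2 * (y ^ 2 - x ^ 2)) - 4 * (a ^ 2 * x * (y - x)) + 2 * c ^ 2 := by
  have h1 : (b * y - a * x) ^ 2 ≤ 2 * (a * (y - x)) ^ 2 + 2 * (y * (b - a)) ^ 2 := by
    nlinarith [sq_nonneg (a * (y - x) - y * (b - a))]
  have h2 : (b - a) ^ 2 ≤ c ^ 2 := sq_le_sq' (by linarith [abs_le.1 hab]) (abs_le.1 hab).2
  have h3 : (y * (b - a)) ^ 2 ≤ c ^ 2 := by
    have : y ^ 2 ≤ 1 := by nlinarith
    calc (y * (b - a)) ^ 2 = y ^ 2 * (b - a) ^ 2 := by ring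
      _ ≤ 1 * c ^ 2 := mul_le_mul this h2 (sq_nonneg _) (by norm_num)
      _ = c ^ 2 := one_mul _
  nlinarith

theorem energy_bound_z (q : E n) (r : ℝ) (hr : 0 < r) (φ : E n → ℝ) (hφm : Measurable φ)
    (h01 : ∀ x, 0 ≤ φ x ∧ φ x ≤ 1) (hs : ∀ x, x ∉ Metric.ball q (2 * r) → φ x = 0)
    (L : ℝ) (hL : ∀ x y, |φ x - φ y| ≤ L * ‖x - y‖)
    (g : E n → ℝ) (hg : SubAt g q r) (z : E n) (hz : ‖z‖ < r / 2) :
    ∫⁻ x, ‖φ (x + z) * g (x + z) - φ x * g x‖ₑ ^ 2 ∂volume ≤
      ENNReal.ofReal (2 * (∫ x, φ x ^ 2 * (g (x + z) ^ 2 - g x ^ 2)) -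
        4 * (∫ x, φ x ^ 2 * g x * (g (x + z) - g x)) +
        2 * (L * ‖z‖) ^ 2 * (volume (Metric.ball q (3 * r))).toReal) ∧
    0 ≤ 2 * (∫ x, φ x ^ 2 * (g (x + z) ^ 2 - g x ^ 2)) -
        4 * (∫ x, φ x ^ 2 * g x * (g (x + z) - g x)) +
        2 * (L * ‖z‖) ^ 2 * (volume (Metric.ball q (3 * r))).toReal := by
  have hgm := hg.meas
  have hg0 := hg.nonneg
  have hg1 := hg.le_one
  have hB2 : MeasurableSet (Metric.ball q (2 * r)) := Metric.isOpen_ball.measurableSet
  have hB3 : MeasurableSet (Metric.ball q (3 * r)) := Metric.isOpen_ball.measurableSet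
  have hV2 : (volume (Metric.ball q (2 * r))) ≠ ∞ := measure_ball_lt_top.ne
  have hV3 : (volume (Metric.ball q (3 * r))) ≠ ∞ := measure_ball_lt_top.ne
  have hφ2 : ∀ x, 0 ≤ φ x ^ 2 ∧ φ x ^ 2 ≤ 1 := fun x => ⟨sq_nonneg _, by nlinarith [(h01 x).1, (h01 x).2]⟩
  have i1 : Integrable (fun x => φ x ^ 2 * (g (x + z) ^ 2 - g x ^ 2)) := by
    apply energy_bound_int volume _ (by fun_prop) 1 (Metric.ball q (2 * r)) hB2 hV2
    · intro x _
      rw [abs_mul, abs_of_nonneg (hφ2 x).1]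
      have h1 : |g (x + z) ^ 2 - g x ^ 2| ≤ 1 := energy_bound_abs _ _ (sq_nonneg _)
        (by nlinarith [hg0 (x + z), hg1 (x + z)]) (sq_nonneg _) (by nlinarith [hg0 x, hg1 x])
      exact mul_le_one₀ (hφ2 x).2 (abs_nonneg _) h1
    · intro x hx
      rw [hs x hx]; ring
  have i2 : Integrable (fun x => φ x ^ 2 * g x * (g (x + z) - g x)) := by
    apply energy_bound_int volume _ (by fun_prop) 1 (Metric.ball q (2 * r)) hB2 hV2
    · intro x _
      rw [abs_mul, abs_mul, abs_of_nonneg (hφ2 x).1, abs_of_nonneg (hg0 x)]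
      have h1 : |g (x + z) - g x| ≤ 1 := energy_bound_abs _ _ (hg0 _) (hg1 _) (hg0 _) (hg1 _)
      exact mul_le_one₀ (mul_le_one₀ (hφ2 x).2 (hg0 x) (hg1 x)) (abs_nonneg _) h1
    · intro x hx
      rw [hs x hx]; ring
  have i3 : Integrable ((Metric.ball q (3 * r)).indicator (fun _ => 2 * (L * ‖z‖) ^ 2)) :=
    (integrable_indicator_iff hB3).2 (integrableOn_const hV3)
  have hsup : ∀ x, x ∉ Metric.ball q (3 * r) → φ x = 0 ∧ φ (x + z) = 0 := by
    intro x hx
    constructor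
    · apply hs
      intro h
      exact hx (Metric.ball_subset_ball (by linarith) h)
    · apply hs
      intro h
      apply hx
      rw [Metric.mem_ball, dist_eq_norm] at h ⊢
      have e1 : x - q = (x + z - q) - z := by abel
      rw [e1]
      have := norm_sub_le (x + z - q) z
      linarith
  have i0 : Integrable (fun x => (φ (x + z) * g (x + z) - φ x * g x) ^ 2) := by
    apply energy_bound_int volume _ (by fun_prop) 1 (Metric.ball q (3 * r)) hB3 hV3
    · intro x _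
      have h1 : |φ (x + z) * g (x + z) - φ x * g x| ≤ 1 := energy_bound_abs _ _
        (mul_nonneg (h01 _).1 (hg0 _)) (mul_le_one₀ (h01 _).2 (hg0 _) (hg1 _))
        (mul_nonneg (h01 _).1 (hg0 _)) (mul_le_one₀ (h01 _).2 (hg0 _) (hg1 _))
      rw [abs_of_nonneg (sq_nonneg _), sq_le_one_iff_abs_le_one]
      exact h1
    · intro x hx
      rw [(hsup x hx).1, (hsup x hx).2]; ring
  have hle : ∀ x, (φ (x + z) * g (x + z) - φ x * g x) ^ 2 ≤
      2 * (φ x ^ 2 * (g (x + z) ^ 2 - g x ^ 2)) - 4 * (φ x ^ 2 * g x * (g (x + z) - g x)) +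
        (Metric.ball q (3 * r)).indicator (fun _ => 2 * (L * ‖z‖) ^ 2) x := by
    intro x
    by_cases hx : x ∈ Metric.ball q (3 * r)
    · rw [indicator_of_mem hx]
      apply energy_bound_pt _ _ _ _ _ (hg0 _) (hg1 _)
      have := hL (x + z) x
      rwa [add_sub_cancel_left] at this
    · rw [indicator_of_notMem hx, (hsup x hx).1, (hsup x hx).2]
      simp
  have hint : ∫ x, (φ (x + z) * g (x + z) - φ x * g x) ^ 2 ≤
      2 * (∫ x, φ x ^ 2 * (g (x + z) ^ 2 - g x ^ 2)) -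
        4 * (∫ x, φ x ^ 2 * g x * (g (x + z) - g x)) +
        2 * (L * ‖z‖) ^ 2 * (volume (Metric.ball q (3 * r))).toReal := by
    refine (integral_mono i0 (((i1.const_mul 2).sub (i2.const_mul 4)).add i3) hle).trans
      (le_of_eq ?_)
    rw [integral_add' ((i1.const_mul 2).sub (i2.const_mul 4)) i3,
      integral_sub' (i1.const_mul 2) (i2.const_mul 4), integral_const_mul, integral_const_mul,
      integral_indicator hB3, setIntegral_const, smul_eq_mul, Measure.real]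
    ring
  have h0 : 0 ≤ ∫ x, (φ (x + z) * g (x + z) - φ x * g x) ^ 2 := integral_nonneg fun x => sq_nonneg _
  refine ⟨?_, h0.trans hint⟩
  refine le_trans (le_of_eq ?_) (ENNReal.ofReal_le_ofReal hint)
  rw [ofReal_integral_eq_lintegral_ofReal i0 (Eventually.of_forall fun x => sq_nonneg _)]
  apply lintegral_congr
  intro x
  rw [← ofReal_norm, ← ENNReal.ofReal_pow (norm_nonneg _), Real.norm_eq_abs, sq_abs]

/-- the far part -/
theorem energy_bound_far (q : E n) (r : ℝ) (φ : E n → ℝ) (hφm : Measurable φ)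
    (h01 : ∀ x, 0 ≤ φ x ∧ φ x ≤ 1) (hs : ∀ x, x ∉ Metric.ball q (2 * r) → φ x = 0)
    (g : E n → ℝ) (hgm : Measurable g) (hg0 : ∀ x, 0 ≤ g x) (hg1 : ∀ x, g x ≤ 1) (z : E n) :
    ∫⁻ x, ‖φ (x + z) * g (x + z) - φ x * g x‖ₑ ^ 2 ∂volume ≤
      2 * volume (Metric.ball q (2 * r)) := by
  have hB2 : MeasurableSet (Metric.ball q (2 * r)) := Metric.isOpen_ball.measurableSet
  have h1 : ∀ x, ‖φ (x + z) * g (x + z) - φ x * g x‖ₑ ^ 2 ≤
      (Metric.ball q (2 * r)).indicator (1 : E n → ℝ≥0∞) (x + z) +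
        (Metric.ball q (2 * r)).indicator (1 : E n → ℝ≥0∞) x := by
    intro x
    by_cases hx : x + z ∈ Metric.ball q (2 * r) ∨ x ∈ Metric.ball q (2 * r)
    · have h2 : ‖φ (x + z) * g (x + z) - φ x * g x‖ₑ ^ 2 ≤ 1 := by
        have h3 : |φ (x + z) * g (x + z) - φ x * g x| ≤ 1 := energy_bound_abs _ _
          (mul_nonneg (h01 _).1 (hg0 _)) (mul_le_one₀ (h01 _).2 (hg0 _) (hg1 _))
          (mul_nonneg (h01 _).1 (hg0 _)) (mul_le_one₀ (h01 _).2 (hg0 _) (hg1 _))
        rw [← ofReal_norm, Real.norm_eq_abs]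
        apply pow_le_one' 
        rw [← ENNReal.ofReal_one]
        exact ENNReal.ofReal_le_ofReal h3
      refine h2.trans ?_
      rcases hx with hx | hx
      · rw [indicator_of_mem hx]
        exact le_self_add
      · rw [indicator_of_mem hx]
        exact le_add_self
    · push Not at hx
      rw [hs _ hx.1, hs _ hx.2]
      simp
  refine (lintegral_mono h1).trans ?_
  have hm : Measurable ((Metric.ball q (2 * r)).indicator (1 : E n → ℝ≥0∞)) :=
    measurable_one.indicator hB2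
  rw [lintegral_add_right _ hm, lintegral_add_right_eq_self, lintegral_indicator_one hB2]
  exact (two_mul _).ge

/-- integrability of shifted products -/
theorem energy_bound_shift_int (q : E n) (r : ℝ) (φ : E n → ℝ) (hφm : Measurable φ)
    (h01 : ∀ x, 0 ≤ φ x ∧ φ x ≤ 1) (hs : ∀ x, x ∉ Metric.ball q (2 * r) → φ x = 0)
    (g : E n → ℝ) (hgm : Measurable g) (hg0 : ∀ x, 0 ≤ g x) (hg1 : ∀ x, g x ≤ 1) (z : E n) :
    Integrable (fun x => g x ^ 2 * φ (x - z) ^ 2) := by
  apply energy_bound_int volume _ (by fun_prop) 1 (Metric.ball (q + z) (2 * r))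
    Metric.isOpen_ball.measurableSet measure_ball_lt_top.ne
  · intro x _
    rw [abs_of_nonneg (by positivity)]
    have e1 : g x ^ 2 ≤ 1 := by nlinarith [hg0 x, hg1 x]
    have e2 : φ (x - z) ^ 2 ≤ 1 := by nlinarith [(h01 (x - z)).1, (h01 (x - z)).2]
    exact mul_le_one₀ e1 (sq_nonneg _) e2
  · intro x hx
    rw [hs (x - z)]
    · ring
    · intro h
      apply hx
      rw [Metric.mem_ball, dist_eq_norm] at h ⊢
      have : x - (q + z) = x - z - q := by abel
      rwa [this]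

theorem energy_bound_J1 (q : E n) (r : ℝ) (φ : E n → ℝ) (hφm : Measurable φ)
    (h01 : ∀ x, 0 ≤ φ x ∧ φ x ≤ 1) (hs : ∀ x, x ∉ Metric.ball q (2 * r) → φ x = 0)
    (g : E n → ℝ) (hgm : Measurable g) (hg0 : ∀ x, 0 ≤ g x) (hg1 : ∀ x, g x ≤ 1) (z : E n) :
    ∫ x, φ x ^ 2 * (g (x + z) ^ 2 - g x ^ 2) =
      (∫ x, g x ^ 2 * φ (x - z) ^ 2) - ∫ x, g x ^ 2 * φ x ^ 2 := by
  have h1 := energy_bound_shift_int q r φ hφm h01 hs g hgm hg0 hg1 z
  have h2 := energy_bound_shift_int q r φ hφm h01 hs g hgm hg0 hg1 0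
  simp only [sub_zero] at h2
  have h3 := h1.comp_add_right z
  have h4 := integral_add_right_eq_self (μ := (volume : Measure (E n)))
    (fun x => g x ^ 2 * φ (x - z) ^ 2) z
  simp only [add_sub_cancel_right] at h3 h4
  rw [← h4, ← integral_sub h3 h2]
  congr 1
  funext x
  ring

theorem energy_bound_J1_sym (q : E n) (r : ℝ) (hr : 0 < r) (φ : E n → ℝ) (hφm : Measurable φ)
    (h01 : ∀ x, 0 ≤ φ x ∧ φ x ≤ 1) (hs : ∀ x, x ∉ Metric.ball q (2 * r) → φ x = 0)
    (K : ℝ) (hK : 0 ≤ K)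
    (hK2 : ∀ x z, φ (x - z) ^ 2 + φ (x + z) ^ 2 - 2 * φ x ^ 2 ≤ K * ‖z‖ ^ 2)
    (g : E n → ℝ) (hgm : Measurable g) (hg0 : ∀ x, 0 ≤ g x) (hg1 : ∀ x, g x ≤ 1) (z : E n)
    (hz : ‖z‖ < r / 2) :
    (∫ x, φ x ^ 2 * (g (x + z) ^ 2 - g x ^ 2)) + (∫ x, φ x ^ 2 * (g (x + -z) ^ 2 - g x ^ 2)) ≤
      K * (volume (Metric.ball q (3 * r))).toReal * ‖z‖ ^ 2 := by
  have hB3 : MeasurableSet (Metric.ball q (3 * r)) := Metric.isOpen_ball.measurableSet
  have hV3 : (volume (Metric.ball q (3 * r))) ≠ ∞ := measure_ball_lt_top.ne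
  rw [energy_bound_J1 q r φ hφm h01 hs g hgm hg0 hg1 z,
    energy_bound_J1 q r φ hφm h01 hs g hgm hg0 hg1 (-z)]
  have h1 := energy_bound_shift_int q r φ hφm h01 hs g hgm hg0 hg1 z
  have h2 := energy_bound_shift_int q r φ hφm h01 hs g hgm hg0 hg1 0
  have h3 := energy_bound_shift_int q r φ hφm h01 hs g hgm hg0 hg1 (-z)
  simp only [sub_zero] at h2
  simp only [sub_neg_eq_add] at h3 ⊢
  have i3 : Integrable ((Metric.ball q (3 * r)).indicator (fun _ => K * ‖z‖ ^ 2)) :=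
    (integrable_indicator_iff hB3).2 (integrableOn_const hV3)
  have h4 : (∫ x, g x ^ 2 * φ (x - z) ^ 2) - (∫ x, g x ^ 2 * φ x ^ 2) +
      ((∫ x, g x ^ 2 * φ (x + z) ^ 2) - ∫ x, g x ^ 2 * φ x ^ 2) =
      ∫ x, (g x ^ 2 * φ (x - z) ^ 2 + g x ^ 2 * φ (x + z) ^ 2 - 2 * (g x ^ 2 * φ x ^ 2)) := by
    have e1 : ∫ x, (g x ^ 2 * φ (x - z) ^ 2 + g x ^ 2 * φ (x + z) ^ 2 - 2 * (g x ^ 2 * φ x ^ 2)) =
        (∫ x, (g x ^ 2 * φ (x - z) ^ 2 + g x ^ 2 * φ (x + z) ^ 2)) - ∫ x, 2 * (g x ^ 2 * φ x ^ 2) :=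
      integral_sub (h1.add h3) (h2.const_mul 2)
    rw [e1, integral_add h1 h3, integral_const_mul]
    ring
  rw [h4]
  refine (integral_mono ((h1.add h3).sub (h2.const_mul 2)) i3 ?_).trans (le_of_eq ?_)
  · intro x
    simp only [Pi.sub_apply, Pi.add_apply]
    by_cases hx : x ∈ Metric.ball q (3 * r)
    · rw [indicator_of_mem hx]
      have e1 : g x ^ 2 ≤ 1 := by nlinarith [hg0 x, hg1 x]
      have e2 := mul_le_mul_of_nonneg_left (hK2 x z) (sq_nonneg (g x))
      have e3 : g x ^ 2 * (K * ‖z‖ ^ 2) ≤ 1 * (K * ‖z‖ ^ 2) :=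
        mul_le_mul_of_nonneg_right e1 (by positivity)
      linarith
    · rw [indicator_of_notMem hx]
      have f1 : φ x = 0 := hs x fun h => hx (Metric.ball_subset_ball (by linarith) h)
      have f2 : φ (x + z) = 0 := by
        apply hs
        intro h
        apply hx
        rw [Metric.mem_ball, dist_eq_norm] at h ⊢
        have e1 : x - q = (x + z - q) - z := by abel
        rw [e1]
        have := norm_sub_le (x + z - q) z
        linarith
      have f3 : φ (x - z) = 0 := by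
        apply hs
        intro h
        apply hx
        rw [Metric.mem_ball, dist_eq_norm] at h ⊢
        have e1 : x - q = (x - z - q) + z := by abel
        rw [e1]
        have := norm_add_le (x - z - q) z
        linarith
      rw [f1, f2, f3]
      simp
  · rw [integral_indicator hB3, setIntegral_const, smul_eq_mul, Measure.real]
    ring

/-- the near part -/
theorem energy_bound_near (q : E n) (r : ℝ) (hr : 0 < r) (φ : E n → ℝ) (hφm : Measurable φ)
    (h01 : ∀ x, 0 ≤ φ x ∧ φ x ≤ 1) (hs : ∀ x, x ∉ Metric.ball q (2 * r) → φ x = 0)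
    (L : ℝ) (hL : ∀ x y, |φ x - φ y| ≤ L * ‖x - y‖) (K : ℝ) (hK : 0 ≤ K)
    (hK2 : ∀ x z, φ (x - z) ^ 2 + φ (x + z) ^ 2 - 2 * φ x ^ 2 ≤ K * ‖z‖ ^ 2)
    (g : E n → ℝ) (hg : SubAt g q r) (s : ℝ≥0) (hs0 : s ≠ 0) :
    ∫⁻ z in Metric.ball 0 (r / 2), ∫⁻ x, ‖φ (x + z) * g (x + z) - φ x * g x‖ₑ ^ 2 ∂volume ∂(gauss n s) ≤
      ENNReal.ofReal ((K + 2 * L ^ 2) * (volume (Metric.ball q (3 * r))).toReal * (n * s)) := by
  haveI := gauss_prob n s
  have hgm := hg.meas
  have hg0 := hg.nonneg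
  have hg1 := hg.le_one
  set γ := gauss n s with hγ
  set A : Set (E n) := Metric.ball 0 (r / 2) with hA
  have hAm : MeasurableSet A := Metric.isOpen_ball.measurableSet
  have hB2 : MeasurableSet (Metric.ball q (2 * r)) := Metric.isOpen_ball.measurableSet
  have hB3 : MeasurableSet (Metric.ball q (3 * r)) := Metric.isOpen_ball.measurableSet
  have hV2 : (volume (Metric.ball q (2 * r))) ≠ ∞ := measure_ball_lt_top.ne
  have hV3 : (volume (Metric.ball q (3 * r))) ≠ ∞ := measure_ball_lt_top.ne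
  set V := (volume (Metric.ball q (3 * r))).toReal with hV
  have hV0 : 0 ≤ V := ENNReal.toReal_nonneg
  have hφ2 : ∀ x, 0 ≤ φ x ^ 2 ∧ φ x ^ 2 ≤ 1 := fun x => ⟨sq_nonneg _, by nlinarith [(h01 x).1, (h01 x).2]⟩
  have hsub : ∀ x ∉ Metric.ball q (2 * r), φ x ^ 2 = 0 := fun x hx => by rw [hs x hx]; ring
  have hprod : ((γ.restrict A).prod volume) (univ ×ˢ Metric.ball q (2 * r)) ≠ ∞ := by
    rw [Measure.prod_prod]
    exact ENNReal.mul_ne_top (measure_ne_top _ _) hV2
  -- joint integrability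
  have p1 : Integrable (Function.uncurry fun (z x : E n) => φ x ^ 2 * (g (x + z) ^ 2 - g x ^ 2))
      ((γ.restrict A).prod volume) := by
    apply energy_bound_int _ _ _ 1 (univ ×ˢ Metric.ball q (2 * r)) (MeasurableSet.univ.prod hB2) hprod
    · rintro ⟨z, x⟩ _
      simp only [Function.uncurry_apply_pair]
      rw [abs_mul, abs_of_nonneg (hφ2 x).1]
      have h1 : |g (x + z) ^ 2 - g x ^ 2| ≤ 1 := energy_bound_abs _ _ (sq_nonneg _)
        (by nlinarith [hg0 (x + z), hg1 (x + z)]) (sq_nonneg _) (by nlinarith [hg0 x, hg1 x])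
      exact mul_le_one₀ (hφ2 x).2 (abs_nonneg _) h1
    · rintro ⟨z, x⟩ hx
      simp only [Function.uncurry_apply_pair]
      have : x ∉ Metric.ball q (2 * r) := fun h => hx ⟨mem_univ _, h⟩
      rw [hsub x this, zero_mul]
    · have e1 : Measurable (fun p : E n × E n => g (p.2 + p.1)) := hgm.comp (by fun_prop)
      have e2 : Measurable (fun p : E n × E n => g p.2) := hgm.comp (by fun_prop)
      have e3 : Measurable (fun p : E n × E n => φ p.2) := hφm.comp (by fun_prop)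
      exact (e3.pow_const 2).mul ((e1.pow_const 2).sub (e2.pow_const 2))
  have p2 : Integrable (Function.uncurry fun (z x : E n) => φ x ^ 2 * g x * (g (x + z) - g x))
      ((γ.restrict A).prod volume) := by
    apply energy_bound_int _ _ _ 1 (univ ×ˢ Metric.ball q (2 * r)) (MeasurableSet.univ.prod hB2) hprod
    · rintro ⟨z, x⟩ _
      simp only [Function.uncurry_apply_pair]
      rw [abs_mul, abs_mul, abs_of_nonneg (hφ2 x).1, abs_of_nonneg (hg0 x)]
      have h1 : |g (x + z) - g x| ≤ 1 := energy_bound_abs _ _ (hg0 _) (hg1 _) (hg0 _) (hg1 _)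
      exact mul_le_one₀ (mul_le_one₀ (hφ2 x).2 (hg0 x) (hg1 x)) (abs_nonneg _) h1
    · rintro ⟨z, x⟩ hx
      simp only [Function.uncurry_apply_pair]
      have : x ∉ Metric.ball q (2 * r) := fun h => hx ⟨mem_univ _, h⟩
      rw [hsub x this, zero_mul, zero_mul]
    · have e1 : Measurable (fun p : E n × E n => g (p.2 + p.1)) := hgm.comp (by fun_prop)
      have e2 : Measurable (fun p : E n × E n => g p.2) := hgm.comp (by fun_prop)
      have e3 : Measurable (fun p : E n × E n => φ p.2) := hφm.comp (by fun_prop)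
      exact ((e3.pow_const 2).mul e2).mul (e1.sub e2)
  -- second moment
  have hmom : ∫⁻ z, ENNReal.ofReal (‖z‖ ^ 2) ∂γ = ENNReal.ofReal (n * s) := by
    have h1 := gauss_second_moment n s
    rw [← hγ] at h1
    have h2 : ∀ z : E n, ENNReal.ofReal (‖z‖ ^ 2) = ‖z‖ₑ ^ 2 := fun z => by
      rw [← ofReal_norm, ENNReal.ofReal_pow (norm_nonneg _)]
    simp only [h2, h1]
    rw [ENNReal.ofReal_mul (by positivity), ENNReal.ofReal_natCast, ENNReal.ofReal_coe_nnreal]
  have hmi : Integrable (fun z : E n => ‖z‖ ^ 2) γ := by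
    refine ⟨(by fun_prop : Continuous fun z : E n => ‖z‖ ^ 2).aestronglyMeasurable, ?_⟩
    rw [hasFiniteIntegral_iff_ofReal (Eventually.of_forall fun z => sq_nonneg _), hmom]
    exact ENNReal.ofReal_lt_top
  have hmi2 : ∫ z, ‖z‖ ^ 2 ∂γ = n * s := by
    rw [integral_eq_lintegral_of_nonneg_ae (Eventually.of_forall fun z => sq_nonneg _)
      hmi.aestronglyMeasurable, hmom, ENNReal.toReal_ofReal (by positivity)]
  have hmiA : Integrable (fun z : E n => ‖z‖ ^ 2) (γ.restrict A) := hmi.restrict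
  have hmi3 : ∫ z in A, ‖z‖ ^ 2 ∂γ ≤ n * s := by
    rw [← hmi2]
    exact setIntegral_le_integral hmi (Eventually.of_forall fun z => sq_nonneg _)
  have j1 := p1.integral_prod_left
  have j2 := p2.integral_prod_left
  simp only [Function.uncurry_apply_pair] at j1 j2
  set J1 : E n → ℝ := fun z => ∫ x, φ x ^ 2 * (g (x + z) ^ 2 - g x ^ 2) with hJ1
  set J2 : E n → ℝ := fun z => ∫ x, φ x ^ 2 * g x * (g (x + z) - g x) with hJ2
  have j3 : Integrable (fun z : E n => 2 * (L * ‖z‖) ^ 2 * V) (γ.restrict A) := by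
    have : (fun z : E n => 2 * (L * ‖z‖) ^ 2 * V) = fun z => (2 * L ^ 2 * V) * ‖z‖ ^ 2 := by
      funext z; ring
    rw [this]
    exact hmiA.const_mul _
  have hh : Integrable (fun z => 2 * J1 z - 4 * J2 z + 2 * (L * ‖z‖) ^ 2 * V) (γ.restrict A) :=
    ((j1.const_mul 2).sub (j2.const_mul 4)).add j3
  have hz := fun z (hz : z ∈ A) => energy_bound_z q r hr φ hφm h01 hs L hL g hg z
    (by rw [hA, Metric.mem_ball, dist_zero_right] at hz; exact hz)
  have step1 : ∫⁻ z in A, ∫⁻ x, ‖φ (x + z) * g (x + z) - φ x * g x‖ₑ ^ 2 ∂volume ∂γ ≤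
      ∫⁻ z in A, ENNReal.ofReal (2 * J1 z - 4 * J2 z + 2 * (L * ‖z‖) ^ 2 * V) ∂γ :=
    setLIntegral_mono' hAm fun z hzA => (hz z hzA).1
  have step2 : ∫⁻ z in A, ENNReal.ofReal (2 * J1 z - 4 * J2 z + 2 * (L * ‖z‖) ^ 2 * V) ∂γ =
      ENNReal.ofReal (∫ z in A, (2 * J1 z - 4 * J2 z + 2 * (L * ‖z‖) ^ 2 * V) ∂γ) := by
    rw [ofReal_integral_eq_lintegral_ofReal hh]
    rw [EventuallyLE, ae_restrict_iff' hAm]
    exact Eventually.of_forall fun z hzA => (hz z hzA).2
  rw [step2] at step1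
  refine step1.trans (ENNReal.ofReal_le_ofReal ?_)
  -- the real inequality
  have step3 : ∫ z in A, (2 * J1 z - 4 * J2 z + 2 * (L * ‖z‖) ^ 2 * V) ∂γ =
      2 * ∫ z in A, J1 z ∂γ - 4 * ∫ z in A, J2 z ∂γ + 2 * L ^ 2 * V * ∫ z in A, ‖z‖ ^ 2 ∂γ := by
    have e1 : ∫ z in A, (2 * J1 z - 4 * J2 z + 2 * (L * ‖z‖) ^ 2 * V) ∂γ =
        (∫ z in A, (2 * J1 z - 4 * J2 z) ∂γ) + ∫ z in A, 2 * (L * ‖z‖) ^ 2 * V ∂γ :=
      integral_add ((j1.const_mul 2).sub (j2.const_mul 4)) j3
    have e2 : ∫ z in A, (2 * J1 z - 4 * J2 z) ∂γ =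
        (∫ z in A, 2 * J1 z ∂γ) - ∫ z in A, 4 * J2 z ∂γ :=
      integral_sub (j1.const_mul 2) (j2.const_mul 4)
    have e3 : ∫ z in A, 2 * (L * ‖z‖) ^ 2 * V ∂γ = 2 * L ^ 2 * V * ∫ z in A, ‖z‖ ^ 2 ∂γ := by
      rw [← integral_const_mul]
      congr 1
      funext z
      ring
    rw [e1, e2, e3, integral_const_mul, integral_const_mul]
  have step4 : 0 ≤ ∫ z in A, J2 z ∂γ := by
    have hsw := integral_integral_swap p2
    rw [hJ2, hsw]
    apply integral_nonneg
    intro x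
    simp only [Pi.zero_apply]
    by_cases hx : x ∈ Metric.ball q (2 * r)
    · have hx3 : x ∈ Metric.ball q (3 * r) := Metric.ball_subset_ball (by linarith) hx
      have h1 := SubAt_gauss g q r hg x hx3 s hs0
      rw [← hγ, ← hA] at h1
      have i1 : Integrable (fun z => g (x + z)) (γ.restrict A) := by
        apply energy_bound_int _ (fun z => g (x + z)) (hgm.comp (measurable_const_add x)) 1 univ
          MeasurableSet.univ (measure_ne_top _ _)
        · intro z _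
          rw [abs_of_nonneg (hg0 _)]
          exact hg1 _
        · intro z hz
          exact absurd (mem_univ z) hz
      rw [integral_const_mul, integral_sub i1 (integrable_const _), setIntegral_const, smul_eq_mul,
        Measure.real]
      apply mul_nonneg (mul_nonneg (sq_nonneg _) (hg0 x))
      linarith
    · rw [hs x hx]
      simp
  have step5 : 2 * ∫ z in A, J1 z ∂γ ≤ K * V * ∫ z in A, ‖z‖ ^ 2 ∂γ := by
    have hmp : MeasurePreserving (fun x : E n => -x) γ γ := ⟨measurable_neg, gauss_neg n s⟩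
    have h1 := hmp.setIntegral_preimage_emb (MeasurableEquiv.neg (E n)).measurableEmbedding J1 A
    have h2 : (fun x : E n => -x) ⁻¹' A = A := by
      ext x
      simp [hA]
    rw [h2] at h1
    have jneg : Integrable (fun z => J1 (-z)) (γ.restrict A) := by
      have h3 := hmp.integrableOn_comp_preimage (MeasurableEquiv.neg (E n)).measurableEmbedding
        (f := J1) (s := A)
      rw [h2] at h3
      exact h3.2 j1
    have h4 : 2 * ∫ z in A, J1 z ∂γ = ∫ z in A, (J1 z + J1 (-z)) ∂γ := by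
      rw [integral_add j1 jneg, h1]
      ring
    rw [h4, ← integral_const_mul]
    apply setIntegral_mono_on (j1.add jneg) (hmiA.const_mul _) hAm
    intro z hzA
    rw [hA, Metric.mem_ball, dist_zero_right] at hzA
    exact energy_bound_J1_sym q r hr φ hφm h01 hs K hK hK2 g hgm hg0 hg1 z hzA
  rw [step3]
  have h9 : 0 ≤ (K + 2 * L ^ 2) * V := mul_nonneg (by positivity) hV0
  have h10 := mul_le_mul_of_nonneg_left hmi3 h9
  nlinarith

/-- B7 -/
theorem energy_bound (q : E n) (r : ℝ) (φ : E n → ℝ) (hφ : ContDiff ℝ 2 φ)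
    (h01 : ∀ x, 0 ≤ φ x ∧ φ x ≤ 1) (hs : ∀ x, x ∉ Metric.ball q (2 * r) → φ x = 0) :
    ∃ M : ℝ≥0, ∀ g, SubAt g q r → ∀ s : ℝ≥0, s ≠ 0 → s ≤ 1 →
      ∫⁻ z, ∫⁻ x, ‖φ (x + z) * g (x + z) - φ x * g x‖ₑ ^ 2 ∂volume ∂(gauss n s) ≤ M * s := by
  by_cases hr : 0 < r
  swap
  · exact ⟨0, fun g hg => absurd hg.pos hr⟩
  have hcs : HasCompactSupport φ := by
    apply HasCompactSupport.intro (isCompact_closedBall q (2 * r))
    intro x hx
    apply hs
    intro h
    exact hx (Metric.ball_subset_closedBall h)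
  have hφm : Measurable φ := hφ.continuous.measurable
  obtain ⟨L, hL⟩ := hφ.lipschitzWith_of_hasCompactSupport hcs (by norm_num)
  have hL' : ∀ x y, |φ x - φ y| ≤ L * ‖x - y‖ := by
    intro x y
    have := hL.dist_le_mul x y
    rwa [Real.dist_eq, dist_eq_norm] at this
  have hψ : ContDiff ℝ 2 (fun x => φ x ^ 2) := hφ.pow 2
  have hψc : HasCompactSupport (fun x => φ x ^ 2) := by
    apply HasCompactSupport.intro (isCompact_closedBall q (2 * r))
    intro x hx
    rw [hs x]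
    · ring
    · intro h
      exact hx (Metric.ball_subset_closedBall h)
  obtain ⟨K, hK, hK2⟩ := energy_bound_second _ hψ hψc
  set V2 := (volume (Metric.ball q (2 * r))).toReal with hV2
  set V := (volume (Metric.ball q (3 * r))).toReal with hV
  have hV20 : 0 ≤ V2 := ENNReal.toReal_nonneg
  have hV0 : 0 ≤ V := ENNReal.toReal_nonneg
  set M1 : ℝ := (K + 2 * (L : ℝ) ^ 2) * V * n with hM1
  set M2 : ℝ := 2 * V2 * n / (r / 2) ^ 2 with hM2
  have hM10 : 0 ≤ M1 := by positivity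
  have hM20 : 0 ≤ M2 := by positivity
  refine ⟨Real.toNNReal (M1 + M2), ?_⟩
  intro g hg s hs0 _
  haveI := gauss_prob n s
  set D : E n → ℝ≥0∞ := fun z => ∫⁻ x, ‖φ (x + z) * g (x + z) - φ x * g x‖ₑ ^ 2 ∂volume with hD
  have hAm : MeasurableSet (Metric.ball (0 : E n) (r / 2)) := Metric.isOpen_ball.measurableSet
  rw [← lintegral_add_compl _ hAm]
  have hnear := energy_bound_near q r hr φ hφm h01 hs L hL' K hK hK2 g hg s hs0
  have hfar : ∫⁻ z in (Metric.ball (0 : E n) (r / 2))ᶜ, D z ∂(gauss n s) ≤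
      ENNReal.ofReal (M2 * s) := by
    have h1 : ∫⁻ z in (Metric.ball (0 : E n) (r / 2))ᶜ, D z ∂(gauss n s) ≤
        ∫⁻ _ in (Metric.ball (0 : E n) (r / 2))ᶜ, 2 * volume (Metric.ball q (2 * r)) ∂(gauss n s) :=
      lintegral_mono fun z => energy_bound_far q r φ hφm h01 hs g hg.meas hg.nonneg hg.le_one z
    rw [setLIntegral_const] at h1
    have h2 : ENNReal.ofReal ((r / 2) ^ 2) * (gauss n s) ((Metric.ball (0 : E n) (r / 2))ᶜ) ≤ n * s := by
      rw [← gauss_second_moment n s]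
      refine le_trans ?_ (mul_meas_ge_le_lintegral₀ (μ := gauss n s) (f := fun z : E n => ‖z‖ₑ ^ 2)
        (by fun_prop) (ENNReal.ofReal ((r / 2) ^ 2)))
      apply mul_le_mul_right
      apply measure_mono
      intro z hz
      simp only [mem_compl_iff, Metric.mem_ball, dist_zero_right, not_lt] at hz
      simp only [mem_setOf_eq]
      rw [← ofReal_norm, ← ENNReal.ofReal_pow (norm_nonneg _)]
      apply ENNReal.ofReal_le_ofReal
      exact pow_le_pow_left₀ (by linarith) hz 2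
    have h3 : (gauss n s) ((Metric.ball (0 : E n) (r / 2))ᶜ) ≤ ENNReal.ofReal (n * s / (r / 2) ^ 2) := by
      rw [ENNReal.ofReal_div_of_pos (by positivity), ENNReal.le_div_iff_mul_le (Or.inl (by
        rw [Ne, ENNReal.ofReal_eq_zero]; push Not; positivity)) (Or.inl ENNReal.ofReal_ne_top), mul_comm]
      refine h2.trans (le_of_eq ?_)
      rw [ENNReal.ofReal_mul (by positivity), ENNReal.ofReal_natCast, ENNReal.ofReal_coe_nnreal]
    refine h1.trans ?_
    have h4 : volume (Metric.ball q (2 * r)) = ENNReal.ofReal V2 := by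
      rw [hV2, ENNReal.ofReal_toReal measure_ball_lt_top.ne]
    rw [h4]
    have h5 : M2 * s = 2 * V2 * (n * s / (r / 2) ^ 2) := by rw [hM2]; ring
    rw [h5, ENNReal.ofReal_mul (by positivity), ENNReal.ofReal_mul (by norm_num), ENNReal.ofReal_ofNat]
    gcongr
  refine (add_le_add hnear hfar).trans ?_
  rw [← ENNReal.ofReal_add (by positivity) (by positivity)]
  have h6 : (K + 2 * (L : ℝ) ^ 2) * V * (n * s) + M2 * s = (M1 + M2) * s := by rw [hM1]; ring
  rw [h6, ENNReal.ofReal_mul (by positivity), ENNReal.ofReal_coe_nnreal]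
  rfl

end Keldysh
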