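import Pool.Agent.Keldysh.Defs2
import Pool.Agent.Keldysh.M_PP_grad
import Pool.Agent.Keldysh.M_near_min_cauchy
import Pool.Agent.Keldysh.M_energy_bound
import Pool.Agent.Keldysh.M_SubAt_convex

open MeasureTheory ProbabilityTheory Filter Topology Set
open scoped ENNReal NNReal

namespace Keldysh

variable {n : ℕ} {Ω : Type*} [mΩ : MeasurableSpace Ω]

/-- the energy at level `k` -/
noncomputable def energy_combos_En (φ h : E n → ℝ) (k : ℕ) : ℝ≥0∞ :=
  (2 : ℝ≥0∞) ^ k *
    ∫⁻ z, ∫⁻ x, ‖φ (x + z) * h (x + z) - φ x * h x‖ₑ ^ 2 ∂volume ∂(gauss n (1 / 2 ^ k))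

theorem energy_combos_sq (u : ℝ) : ‖u‖ₑ ^ 2 = ENNReal.ofReal (u ^ 2) := by
  rw [Real.enorm_eq_ofReal_abs, ← ENNReal.ofReal_pow (abs_nonneg u), sq_abs]

theorem energy_combos_pt (u v : ℝ) :
    ‖u + v‖ₑ ^ 2 + ‖u - v‖ₑ ^ 2 = 2 * ‖u‖ₑ ^ 2 + 2 * ‖v‖ₑ ^ 2 := by
  rw [energy_combos_sq, energy_combos_sq, energy_combos_sq, energy_combos_sq,
    ← ENNReal.ofReal_add (sq_nonneg _) (sq_nonneg _)]
  have h2 : (2 : ℝ≥0∞) = ENNReal.ofReal 2 := by simp
  rw [h2, ← ENNReal.ofReal_mul (by norm_num), ← ENNReal.ofReal_mul (by norm_num),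
    ← ENNReal.ofReal_add (by positivity) (by positivity)]
  congr 1
  ring

theorem energy_combos_meas {φ : E n → ℝ} (hφ : Measurable φ) {a : E n → ℝ} (ha : Measurable a) :
    Measurable (fun p : E n × E n => ‖φ (p.2 + p.1) * a (p.2 + p.1) - φ p.2 * a p.2‖ₑ ^ 2) := by
  have h1 : Measurable (fun p : E n × E n => p.2 + p.1) := measurable_snd.add measurable_fst
  have h2 : Measurable (fun p : E n × E n => φ (p.2 + p.1)) := hφ.comp h1
  have h3 : Measurable (fun p : E n × E n => a (p.2 + p.1)) := ha.comp h1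
  have h4 : Measurable (fun p : E n × E n => φ p.2) := hφ.comp measurable_snd
  have h5 : Measurable (fun p : E n × E n => a p.2) := ha.comp measurable_snd
  have h61 : Measurable (fun p : E n × E n => φ (p.2 + p.1) * a (p.2 + p.1)) :=
    Measurable.mul (f := fun p : E n × E n => φ (p.2 + p.1))
      (g := fun p : E n × E n => a (p.2 + p.1)) h2 h3
  have h62 : Measurable (fun p : E n × E n => φ p.2 * a p.2) :=
    Measurable.mul (f := fun p : E n × E n => φ p.2)
      (g := fun p : E n × E n => a p.2) h4 h5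
  have h6 : Measurable (fun p : E n × E n => φ (p.2 + p.1) * a (p.2 + p.1) - φ p.2 * a p.2) :=
    Measurable.sub (f := fun p : E n × E n => φ (p.2 + p.1) * a (p.2 + p.1))
      (g := fun p : E n × E n => φ p.2 * a p.2) h61 h62
  have h7 : Measurable (fun p : E n × E n =>
      ‖φ (p.2 + p.1) * a (p.2 + p.1) - φ p.2 * a p.2‖ₑ) := h6.enorm
  exact h7.pow_const 2

theorem energy_combos_par {φ : E n → ℝ} (hφ : Measurable φ) {a b : E n → ℝ} (ha : Measurable a)
    (hb : Measurable b) (k : ℕ) :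
    energy_combos_En φ (a + b) k + energy_combos_En φ (a - b) k
      = 2 * energy_combos_En φ a k + 2 * energy_combos_En φ b k := by
  have hF : ∀ c : E n → ℝ, Measurable c → ∀ z : E n,
      Measurable (fun x => ‖φ (x + z) * c (x + z) - φ x * c x‖ₑ ^ 2) := by
    intro c hc z
    have h1 : Measurable (fun x : E n => x + z) := measurable_id.add_const z
    have h2 : Measurable (fun x : E n => φ (x + z)) := hφ.comp h1
    have h3 : Measurable (fun x : E n => c (x + z)) := hc.comp h1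
    have h61 : Measurable (fun x : E n => φ (x + z) * c (x + z)) := h2.mul h3
    have h62 : Measurable (fun x : E n => φ x * c x) := hφ.mul hc
    have h6 : Measurable (fun x : E n => φ (x + z) * c (x + z) - φ x * c x) := h61.sub h62
    exact h6.enorm.pow_const 2
  have hG : ∀ c : E n → ℝ, Measurable c →
      Measurable (fun z => ∫⁻ x, ‖φ (x + z) * c (x + z) - φ x * c x‖ₑ ^ 2 ∂volume) := fun c hc =>
    (energy_combos_meas hφ hc).lintegral_prod_right'
  have key : ∫⁻ z, ∫⁻ x, ‖φ (x + z) * (a + b) (x + z) - φ x * (a + b) x‖ₑ ^ 2 ∂volume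
        ∂(gauss n (1 / 2 ^ k))
      + ∫⁻ z, ∫⁻ x, ‖φ (x + z) * (a - b) (x + z) - φ x * (a - b) x‖ₑ ^ 2 ∂volume
        ∂(gauss n (1 / 2 ^ k))
      = 2 * (∫⁻ z, ∫⁻ x, ‖φ (x + z) * a (x + z) - φ x * a x‖ₑ ^ 2 ∂volume
        ∂(gauss n (1 / 2 ^ k)))
      + 2 * (∫⁻ z, ∫⁻ x, ‖φ (x + z) * b (x + z) - φ x * b x‖ₑ ^ 2 ∂volume
        ∂(gauss n (1 / 2 ^ k))) := by
    rw [← lintegral_add_left (hG (a + b) (ha.add hb)), ← lintegral_const_mul _ (hG a ha),
      ← lintegral_const_mul _ (hG b hb), ← lintegral_add_left ((hG a ha).const_mul 2)]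
    congr 1
    funext z
    rw [← lintegral_add_left (hF (a + b) (ha.add hb) z), ← lintegral_const_mul _ (hF a ha z),
      ← lintegral_const_mul _ (hF b hb z), ← lintegral_add_left ((hF a ha z).const_mul 2)]
    congr 1
    funext x
    rw [← energy_combos_pt]
    congr 3
    · simp only [Pi.add_apply]
      ring
    · simp only [Pi.sub_apply]
      ring
  unfold energy_combos_En
  rw [← mul_add, key]
  ring

theorem energy_combos_smul (φ : E n → ℝ) (c : ℝ) (a : E n → ℝ) (k : ℕ) :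
    energy_combos_En φ (c • a) k = ‖c‖ₑ ^ 2 * energy_combos_En φ a k := by
  unfold energy_combos_En
  have hc : ‖c‖ₑ ^ 2 ≠ ∞ := ENNReal.pow_ne_top enorm_ne_top
  have h1 : ∀ z x : E n, ‖φ (x + z) * (c • a) (x + z) - φ x * (c • a) x‖ₑ ^ 2
      = ‖c‖ₑ ^ 2 * ‖φ (x + z) * a (x + z) - φ x * a x‖ₑ ^ 2 := by
    intro z x
    rw [← mul_pow, ← enorm_mul]
    congr 2
    simp only [Pi.smul_apply, smul_eq_mul]
    ring
  simp only [h1]
  have h2 : ∀ z : E n, ∫⁻ x, ‖c‖ₑ ^ 2 * ‖φ (x + z) * a (x + z) - φ x * a x‖ₑ ^ 2 ∂volume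
      = ‖c‖ₑ ^ 2 * ∫⁻ x, ‖φ (x + z) * a (x + z) - φ x * a x‖ₑ ^ 2 ∂volume := fun z =>
    lintegral_const_mul' _ _ hc
  simp only [h2]
  rw [lintegral_const_mul' _ _ hc]
  ring

/-- the limit of the energies along an ultrafilter -/
noncomputable def energy_combos_L (φ h : E n → ℝ) : ℝ≥0∞ :=
  ((Filter.hyperfilter ℕ).map (energy_combos_En φ h)).lim

theorem energy_combos_tendsto (φ h : E n → ℝ) :
    Tendsto (energy_combos_En φ h) (Filter.hyperfilter ℕ) (𝓝 (energy_combos_L φ h)) :=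
  Ultrafilter.le_nhds_lim ((Filter.hyperfilter ℕ).map (energy_combos_En φ h))

/-- the space of functions of finite energy -/
noncomputable def energy_combos_S (φ : E n → ℝ) (hφ : Measurable φ) : Submodule ℝ (E n → ℝ) where
  carrier := {h | Measurable h ∧ ∃ M : ℝ≥0, ∀ k, energy_combos_En φ h k ≤ M}
  add_mem' := by
    rintro a b ⟨ha, M, hM⟩ ⟨hb, M', hM'⟩
    refine ⟨ha.add hb, 2 * M + 2 * M', fun k => ?_⟩
    calc energy_combos_En φ (a + b) k
        ≤ energy_combos_En φ (a + b) k + energy_combos_En φ (a - b) k := le_self_add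
      _ = 2 * energy_combos_En φ a k + 2 * energy_combos_En φ b k :=
          energy_combos_par hφ ha hb k
      _ ≤ 2 * (M : ℝ≥0∞) + 2 * (M' : ℝ≥0∞) := by
          gcongr
          · exact hM k
          · exact hM' k
      _ = ((2 * M + 2 * M' : ℝ≥0) : ℝ≥0∞) := by push_cast; rfl
  zero_mem' := by
    refine ⟨measurable_const, 0, fun k => ?_⟩
    have h0 : (0 : E n → ℝ) = (0 : ℝ) • (0 : E n → ℝ) := by simp
    rw [h0, energy_combos_smul]
    simp
  smul_mem' := by
    rintro c a ⟨ha, M, hM⟩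
    refine ⟨ha.const_smul c, ‖c‖₊ ^ 2 * M, fun k => ?_⟩
    rw [energy_combos_smul]
    calc ‖c‖ₑ ^ 2 * energy_combos_En φ a k ≤ ‖c‖ₑ ^ 2 * (M : ℝ≥0∞) := by
          gcongr
          exact hM k
      _ = ((‖c‖₊ ^ 2 * M : ℝ≥0) : ℝ≥0∞) := by push_cast; rfl

theorem energy_combos_L_le {φ h : E n → ℝ} {M : ℝ≥0∞} (hM : ∀ k, energy_combos_En φ h k ≤ M) :
    energy_combos_L φ h ≤ M :=
  le_of_tendsto (energy_combos_tendsto φ h) (Eventually.of_forall hM)

theorem energy_combos_L_ne {φ : E n → ℝ} {hφ : Measurable φ} {h : E n → ℝ}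
    (hh : h ∈ energy_combos_S φ hφ) : energy_combos_L φ h ≠ ∞ := by
  obtain ⟨-, M, hM⟩ := hh
  exact ne_top_of_le_ne_top ENNReal.coe_ne_top (energy_combos_L_le hM)

/-- B14a -/
theorem energy_combos (q : E n) (r : ℝ) (φ : E n → ℝ) (hφ : ContDiff ℝ 2 φ)
    (h01 : ∀ x, 0 ≤ φ x ∧ φ x ≤ 1) (hs : ∀ x, x ∉ Metric.ball q (2 * r) → φ x = 0)
    (g : ℕ → E n → ℝ) (hg : ∀ k, SubAt (g k) q r) (ε : ℕ → ℝ) (hε : ∀ j, 0 < ε j) :
    ∃ c : ℕ → E n → ℝ, (∀ j, c j ∈ convexHull ℝ (g '' Set.Ici j)) ∧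
      ∀ j i, j ≤ i → ∀ t : ℝ≥0, t ≠ 0 →
        ∫⁻ x, ‖gradient (PP t (fun y => φ y * (c i y - c j y))) x‖ₑ ^ 2 ≤
          ENNReal.ofReal (ε j) := by
  have hφm : Measurable φ := hφ.continuous.measurable
  obtain ⟨M, hM⟩ := energy_bound q r φ hφ h01 hs
  have hEn : ∀ f : E n → ℝ, SubAt f q r → ∀ k, energy_combos_En φ f k ≤ M := by
    intro f hf k
    have hs0 : (1 / 2 ^ k : ℝ≥0) ≠ 0 := by positivity
    have hs1 : (1 / 2 ^ k : ℝ≥0) ≤ 1 := by
      rw [div_le_one (by positivity)]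
      exact one_le_pow₀ (by norm_num)
    have h1 := hM f hf (1 / 2 ^ k) hs0 hs1
    unfold energy_combos_En
    calc (2 : ℝ≥0∞) ^ k * ∫⁻ z, ∫⁻ x, ‖φ (x + z) * f (x + z) - φ x * f x‖ₑ ^ 2 ∂volume
          ∂(gauss n (1 / 2 ^ k))
        ≤ (2 : ℝ≥0∞) ^ k * (M * ((1 / 2 ^ k : ℝ≥0) : ℝ≥0∞)) := by gcongr
      _ = ((2 ^ k * (M * (1 / 2 ^ k)) : ℝ≥0) : ℝ≥0∞) := by push_cast; rfl
      _ = M := by
        congr 1
        field_simp
  have hSub : ∀ c ∈ convexHull ℝ (Set.range g), SubAt c q r := by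
    intro c hc
    have h1 : convexHull ℝ (Set.range g) ⊆ {g : E n → ℝ | SubAt g q r} := by
      apply convexHull_min _ (SubAt_convex q r)
      rintro _ ⟨k, rfl⟩
      exact hg k
    exact h1 hc
  have hSmem : ∀ f : E n → ℝ, SubAt f q r → f ∈ energy_combos_S φ hφm := fun f hf =>
    ⟨hf.meas, M, hEn f hf⟩
  obtain ⟨c, hc1, hc2⟩ := near_min_cauchy (energy_combos_S φ hφm)
    (fun h => (energy_combos_L φ h).toReal) (fun _ _ => ENNReal.toReal_nonneg)
    (by
      intro x hx y hy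
      have hxy := (energy_combos_S φ hφm).add_mem hx hy
      have hxy' := (energy_combos_S φ hφm).sub_mem hx hy
      have t1 := (energy_combos_tendsto φ (x + y)).add (energy_combos_tendsto φ (x - y))
      have t2 := (ENNReal.Tendsto.const_mul (a := 2) (energy_combos_tendsto φ x)
        (Or.inr (by simp))).add (ENNReal.Tendsto.const_mul (a := 2) (energy_combos_tendsto φ y)
        (Or.inr (by simp)))
      have h3 : ∀ k, energy_combos_En φ (x + y) k + energy_combos_En φ (x - y) k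
          = 2 * energy_combos_En φ x k + 2 * energy_combos_En φ y k := fun k =>
        energy_combos_par hφm hx.1 hy.1 k
      have h4 := tendsto_nhds_unique (t1.congr h3) t2
      have h5 := congrArg ENNReal.toReal h4
      rw [ENNReal.toReal_add (energy_combos_L_ne hxy) (energy_combos_L_ne hxy'),
        ENNReal.toReal_add (ENNReal.mul_ne_top (by simp) (energy_combos_L_ne hx))
          (ENNReal.mul_ne_top (by simp) (energy_combos_L_ne hy)),
        ENNReal.toReal_mul, ENNReal.toReal_mul] at h5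
      simpa using h5)
    (by
      intro x hx
      have t1 := energy_combos_tendsto φ ((2 : ℝ) • x)
      have t2 := ENNReal.Tendsto.const_mul (a := ‖(2 : ℝ)‖ₑ ^ 2) (energy_combos_tendsto φ x)
        (Or.inr (ENNReal.pow_ne_top enorm_ne_top))
      have h4 := tendsto_nhds_unique (t1.congr (energy_combos_smul φ 2 x)) t2
      have h5 := congrArg ENNReal.toReal h4
      rw [ENNReal.toReal_mul, energy_combos_sq, ENNReal.toReal_ofReal (by norm_num)] at h5
      norm_num at h5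
      exact h5)
    g (fun k => hSmem _ (hg k)) M
    (by
      intro c hc
      have h1 := energy_combos_L_le (hEn c (hSub c hc))
      exact ENNReal.toReal_le_coe_of_le_coe h1)
    ε hε
  refine ⟨c, hc1, fun j i hji t ht => ?_⟩
  have hcS : ∀ m, SubAt (c m) q r := fun m =>
    hSub _ (convexHull_mono (Set.image_subset_range g _) (hc1 m))
  have hdS : c i - c j ∈ energy_combos_S φ hφm :=
    (energy_combos_S φ hφm).sub_mem (hSmem _ (hcS i)) (hSmem _ (hcS j))
  have hgrad := PP_grad t ht (fun y => φ y * (c i y - c j y))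
    (hφm.mul ((hcS i).meas.sub (hcS j).meas)) 1
    (by
      intro x
      have h1 := (hcS i).nonneg x
      have h2 := (hcS i).le_one x
      have h3 := (hcS j).nonneg x
      have h4 := (hcS j).le_one x
      have h5 : |c i x - c j x| ≤ 1 := by
        rw [abs_le]
        constructor <;> linarith
      rw [abs_mul, abs_of_nonneg (h01 x).1]
      calc φ x * |c i x - c j x| ≤ 1 * 1 :=
            mul_le_mul (h01 x).2 h5 (abs_nonneg _) zero_le_one
        _ = 1 := one_mul 1)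
    (‖q‖ + 2 * r)
    (by
      intro x hx
      rw [hs x, zero_mul]
      intro hb
      rw [Metric.mem_ball, dist_eq_norm] at hb
      have h1 := norm_sub_norm_le x q
      linarith)
  refine hgrad.trans ?_
  have hle : liminf (fun k : ℕ => (2 : ℝ≥0∞) ^ k *
        ∫⁻ z, ∫⁻ x, ‖(fun y => φ y * (c i y - c j y)) (x + z)
          - (fun y => φ y * (c i y - c j y)) x‖ₑ ^ 2 ∂volume ∂(gauss n (1 / 2 ^ k))) atTop
      ≤ liminf (energy_combos_En φ (c i - c j)) (Filter.hyperfilter ℕ : Filter ℕ) := by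
    have h1 : (Filter.hyperfilter ℕ : Filter ℕ) ≤ atTop := by
      rw [← Nat.cofinite_eq_atTop]
      exact Filter.hyperfilter_le_cofinite
    exact Filter.liminf_le_liminf_of_le (u := energy_combos_En φ (c i - c j)) h1
      (by isBoundedDefault) (by isBoundedDefault)
  refine hle.trans ?_
  rw [(energy_combos_tendsto φ (c i - c j)).liminf_eq,
    ENNReal.le_ofReal_iff_toReal_le (energy_combos_L_ne hdS) (hε j).le]
  exact hc2 j i hji

end Keldysh
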