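import Pool.Agent.Keldysh.Defs2

open MeasureTheory ProbabilityTheory Filter Topology Set
open scoped ENNReal NNReal

namespace Keldysh

variable {n : ℕ} {Ω : Type*} [mΩ : MeasurableSpace Ω]

/-- B6' -/
theorem le_convexHull_apply (h : ℕ → E n → ℝ) (j : ℕ) (c : E n → ℝ)
    (hc : c ∈ convexHull ℝ (h '' Set.Ici j)) (x : E n) (b : ℝ) (hb : ∀ k, j ≤ k → b ≤ h k x) :
    b ≤ c x := by
  have hconv : Convex ℝ {c : E n → ℝ | b ≤ c x} := by
    intro c1 h1 c2 h2 s t hs ht hst
    simp only [Set.mem_setOf_eq] at h1 h2 ⊢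
    simp only [Pi.add_apply, Pi.smul_apply, smul_eq_mul]
    calc b = s * b + t * b := by rw [← add_mul, hst, one_mul]
      _ ≤ s * c1 x + t * c2 x := by gcongr
  have hsub : h '' Set.Ici j ⊆ {c : E n → ℝ | b ≤ c x} := by
    rintro _ ⟨k, hk, rfl⟩
    exact hb k hk
  exact convexHull_min hsub hconv hc

end Keldysh
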