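import Pool.Agent.Keldysh.Defs2
import Pool.Agent.Keldysh.M_PP_grad_tendsto
import Pool.Agent.Keldysh.M_convexHull_apply_le
import Pool.Agent.Keldysh.M_le_convexHull_apply
import Pool.Agent.Keldysh.M_SubAt_convex
import Pool.Agent.Keldysh.M_energy_combos

open MeasureTheory ProbabilityTheory Filter Topology Set
open scoped ENNReal NNReal

namespace Keldysh

variable {n : ℕ} {Ω : Type*} [mΩ : MeasurableSpace Ω]

theorem energy_combos_lim_meas (f : E n → ℝ) : Measurable fun x => ‖gradient f x‖ₑ ^ 2 := by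
  have h1 : Measurable (gradient f) := by
    unfold gradient
    exact (InnerProductSpace.toDual ℝ (E n)).symm.continuous.measurable.comp
      (measurable_fderiv ℝ f)
  exact h1.enorm.pow_const 2

/-- B14b -/
theorem energy_combos_lim (q : E n) (r : ℝ) (φ : E n → ℝ) (hφ : ContDiff ℝ 2 φ)
    (h01 : ∀ x, 0 ≤ φ x ∧ φ x ≤ 1) (hs : ∀ x, x ∉ Metric.ball q (2 * r) → φ x = 0)
    (g : ℕ → E n → ℝ) (hg : ∀ k, SubAt (g k) q r) (hmono : Monotone g) (G : E n → ℝ)
    (hG : ∀ x, Tendsto (fun k => g k x) atTop (𝓝 (G x))) (ε : ℝ) (hε : 0 < ε) :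
    ∃ c : E n → ℝ, SubAt c q r ∧ (∀ x, c x ≤ G x) ∧
      (∫⁻ x, ‖φ x * (G x - c x)‖ₑ ^ 2 ≤ ENNReal.ofReal ε) ∧
      ∀ t : ℝ≥0, t ≠ 0 →
        ∫⁻ x, ‖gradient (PP t (fun y => φ y * (G y - c y))) x‖ₑ ^ 2 ≤ ENNReal.ofReal ε := by
  obtain ⟨c, hc, hE⟩ := energy_combos q r φ hφ h01 hs g hg (fun _ => ε) (fun _ => hε)
  have hgG : ∀ k x, g k x ≤ G x := fun k x =>
    Monotone.ge_of_tendsto (fun i j h => hmono h x) (hG x) k
  have hlo : ∀ j x, g j x ≤ c j x := fun j x =>
    le_convexHull_apply g j (c j) (hc j) x (g j x) (fun k hk => hmono hk x)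
  have hhi : ∀ j x, c j x ≤ G x := fun j x =>
    convexHull_apply_le g j (c j) (hc j) x (G x) (fun k _ => hgG k x)
  have hcG : ∀ x, Tendsto (fun j => c j x) atTop (𝓝 (G x)) := fun x =>
    tendsto_of_tendsto_of_tendsto_of_le_of_le (hG x) tendsto_const_nhds (fun j => hlo j x)
      (fun j => hhi j x)
  have hsub : ∀ j, SubAt (c j) q r := by
    intro j
    have h1 : g '' Set.Ici j ⊆ {g : E n → ℝ | SubAt g q r} := by
      rintro _ ⟨k, _, rfl⟩
      exact hg k
    exact convexHull_min h1 (SubAt_convex q r) (hc j)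
  have hG1 : ∀ x, G x ≤ 1 := fun x => le_of_tendsto' (hG x) (fun k => (hg k).le_one x)
  have hG0 : ∀ x, 0 ≤ G x := fun x => ge_of_tendsto' (hG x) (fun k => (hg k).nonneg x)
  have hGm : Measurable G :=
    measurable_of_tendsto_metrizable (fun k => (hg k).meas) (tendsto_pi_nhds.2 hG)
  have hφm : Measurable φ := hφ.continuous.measurable
  have hL2 : Tendsto (fun j => ∫⁻ x, ‖φ x * (G x - c j x)‖ₑ ^ 2) atTop
      (𝓝 (∫⁻ _ : E n, 0)) := by
    refine tendsto_lintegral_of_dominated_convergence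
      ((Metric.ball q (2 * r)).indicator (fun _ => (1 : ℝ≥0∞))) ?_ ?_ ?_ ?_
    · intro j
      exact ((hφm.mul (hGm.sub (hsub j).meas)).enorm).pow_const 2
    · intro j
      refine Filter.Eventually.of_forall (fun x => ?_)
      by_cases hx : x ∈ Metric.ball q (2 * r)
      · rw [Set.indicator_of_mem hx]
        have h1 : ‖φ x * (G x - c j x)‖ ≤ 1 := by
          rw [norm_mul, Real.norm_eq_abs, Real.norm_eq_abs, abs_of_nonneg (h01 x).1,
            abs_of_nonneg (by linarith [hhi j x])]
          have h2 : G x - c j x ≤ 1 := by linarith [hG1 x, (hsub j).nonneg x]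
          calc φ x * (G x - c j x) ≤ 1 * 1 :=
                mul_le_mul (h01 x).2 h2 (by linarith [hhi j x]) zero_le_one
            _ = 1 := one_mul 1
        have h3 : ‖φ x * (G x - c j x)‖ₑ ≤ 1 := by
          rw [← ofReal_norm, ← ENNReal.ofReal_one]
          exact ENNReal.ofReal_le_ofReal h1
        exact pow_le_one₀ zero_le h3
      · rw [Set.indicator_of_notMem hx]
        simp [hs x hx]
    · rw [lintegral_indicator_const measurableSet_ball, one_mul]
      exact measure_ball_lt_top.ne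
    · refine Filter.Eventually.of_forall (fun x => ?_)
      have h1 : Tendsto (fun j => φ x * (G x - c j x)) atTop (𝓝 (φ x * (G x - G x))) :=
        tendsto_const_nhds.mul (tendsto_const_nhds.sub (hcG x))
      have h2 : Tendsto (fun j => ‖φ x * (G x - c j x)‖ₑ) atTop
          (𝓝 (‖φ x * (G x - G x)‖ₑ)) := (continuous_enorm.tendsto _).comp h1
      have h3 := ((ENNReal.continuous_pow 2).tendsto _).comp h2
      have e : ‖φ x * (G x - G x)‖ₑ ^ 2 = 0 := by simp
      rw [e] at h3
      exact h3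
  rw [lintegral_zero] at hL2
  have hev := (hL2.eventually (gt_mem_nhds (ENNReal.ofReal_pos.2 hε))).exists
  obtain ⟨j, hj⟩ := hev
  refine ⟨c j, hsub j, hhi j, hj.le, fun t ht => ?_⟩
  have hlim : ∀ x, Tendsto (fun i => gradient (PP t (fun y => φ y * (c i y - c j y))) x) atTop
      (𝓝 (gradient (PP t (fun y => φ y * (G y - c j y))) x)) := by
    intro x
    refine PP_grad_tendsto t ht (fun i y => φ y * (c i y - c j y))
      (fun y => φ y * (G y - c j y)) ?_ 1 ?_ (‖q‖ + 2 * |r| + 1) ?_ ?_ x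
    · intro i
      exact hφm.mul ((hsub i).meas.sub (hsub j).meas)
    · intro i y
      rw [abs_mul, abs_of_nonneg (h01 y).1]
      have h2 : |c i y - c j y| ≤ 1 := by
        rw [abs_le]
        constructor <;> linarith [(hsub i).nonneg y, (hsub j).nonneg y, (hsub i).le_one y,
          (hsub j).le_one y]
      calc φ y * |c i y - c j y| ≤ 1 * 1 :=
            mul_le_mul (h01 y).2 h2 (abs_nonneg _) zero_le_one
        _ = 1 := one_mul 1
    · intro i y hy
      have : y ∉ Metric.ball q (2 * r) := by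
        intro hmem
        rw [mem_ball_iff_norm] at hmem
        have h2 := norm_sub_norm_le y q
        have h3 := le_abs_self r
        linarith
      simp only [hs y this, zero_mul]
    · intro y
      exact tendsto_const_nhds.mul ((hcG y).sub tendsto_const_nhds)
  have hlim2 : ∀ x, Tendsto (fun i => ‖gradient (PP t (fun y => φ y * (c i y - c j y))) x‖ₑ ^ 2)
      atTop (𝓝 (‖gradient (PP t (fun y => φ y * (G y - c j y))) x‖ₑ ^ 2)) := by
    intro x
    exact ((ENNReal.continuous_pow 2).tendsto _).comp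
      ((continuous_enorm.tendsto _).comp (hlim x))
  calc ∫⁻ x, ‖gradient (PP t (fun y => φ y * (G y - c j y))) x‖ₑ ^ 2
      = ∫⁻ x, liminf (fun i => ‖gradient (PP t (fun y => φ y * (c i y - c j y))) x‖ₑ ^ 2)
          atTop := by
        refine lintegral_congr (fun x => ?_)
        exact (hlim2 x).liminf_eq.symm
    _ ≤ liminf (fun i => ∫⁻ x, ‖gradient (PP t (fun y => φ y * (c i y - c j y))) x‖ₑ ^ 2)
          atTop := lintegral_liminf_le (fun i => energy_combos_lim_meas _)
    _ ≤ limsup (fun i => ∫⁻ x, ‖gradient (PP t (fun y => φ y * (c i y - c j y))) x‖ₑ ^ 2)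
          atTop := Filter.liminf_le_limsup
    _ ≤ ENNReal.ofReal ε :=
        Filter.limsup_le_of_le (by isBoundedDefault)
          (Filter.eventually_atTop.2 ⟨j, fun i hi => hE j i hi t ht⟩)

end Keldysh
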