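import Pool.Agent.Keldysh.Defs2
import Pool.Agent.Keldysh.M_gauss_prob
import Pool.Agent.Keldysh.M_gauss_second_moment

open MeasureTheory ProbabilityTheory Filter Topology Set
open scoped ENNReal NNReal

namespace Keldysh

variable {n : ℕ} {Ω : Type*} [mΩ : MeasurableSpace Ω]

theorem energy_est_global_cs (f : ℝ → ℝ≥0∞) (hf : Measurable f) :
    (∫⁻ t in Icc (0 : ℝ) 1, f t) ^ 2 ≤ ∫⁻ t in Icc (0 : ℝ) 1, f t ^ 2 := by
  have h := ENNReal.lintegral_mul_le_Lp_mul_Lq (volume.restrict (Icc (0 : ℝ) 1))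
    (Real.HolderConjugate.two_two) (f := f) (g := fun _ => 1) hf.aemeasurable aemeasurable_const
  simp only [Pi.mul_apply, mul_one, ENNReal.one_rpow, lintegral_const, Measure.restrict_apply_univ,
    Real.volume_Icc, sub_zero, ENNReal.ofReal_one] at h
  calc (∫⁻ t in Icc (0 : ℝ) 1, f t) ^ 2
      ≤ ((∫⁻ t in Icc (0 : ℝ) 1, f t ^ (2 : ℝ)) ^ (1 / 2 : ℝ)) ^ 2 := by gcongr
    _ = ∫⁻ t in Icc (0 : ℝ) 1, f t ^ (2 : ℝ) := by
        rw [← ENNReal.rpow_natCast, ← ENNReal.rpow_mul]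
        norm_num
    _ = ∫⁻ t in Icc (0 : ℝ) 1, f t ^ 2 := by
        simp

theorem energy_est_global_seg (ρ : E n → ℝ≥0∞) (hρ : Measurable ρ) (x z : E n) :
    segCost ρ x (x + z) ^ 2 ≤ ‖z‖ₑ ^ 2 * ∫⁻ t in Icc (0 : ℝ) 1, ρ (x + t • z) ^ 2 := by
  unfold segCost
  rw [add_sub_cancel_left, mul_pow, ofReal_norm]
  gcongr
  exact energy_est_global_cs _ (by fun_prop)

/-- C10' -/
theorem energy_est_global (ρ : E n → ℝ≥0∞) (hρ : Measurable ρ) (u : E n → ℝ) (hu : Measurable u)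
    (hug : ∀ x y, ‖u y - u x‖ₑ ≤ segCost ρ x y) (h : ℝ≥0) :
    ∫⁻ x, ∫⁻ z, ‖u (x + z) - u x‖ₑ ^ 2 ∂(gauss n h) ≤ n * h * ∫⁻ x, ρ x ^ 2 := by
  have := gauss_prob n h
  have henorm : Measurable (fun z : E n => ‖z‖ₑ ^ 2) := measurable_enorm.pow_const 2
  calc ∫⁻ x, ∫⁻ z, ‖u (x + z) - u x‖ₑ ^ 2 ∂(gauss n h)
      ≤ ∫⁻ x, (∫⁻ z, ‖z‖ₑ ^ 2 * (∫⁻ t in Icc (0 : ℝ) 1, ρ (x + t • z) ^ 2) ∂(gauss n h)) := by
        refine lintegral_mono fun x => lintegral_mono fun z => ?_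
        refine le_trans ?_ (energy_est_global_seg ρ hρ x z)
        have := hug x (x + z)
        gcongr
    _ = ∫⁻ z, (∫⁻ x, ‖z‖ₑ ^ 2 * (∫⁻ t in Icc (0 : ℝ) 1, ρ (x + t • z) ^ 2)) ∂(gauss n h) := by
        rw [lintegral_lintegral_swap]
        apply Measurable.aemeasurable
        have h1 : Measurable (fun q : (E n × E n) × ℝ => ρ (q.1.1 + q.2 • q.1.2) ^ 2) := by
          fun_prop
        have h2 := h1.lintegral_prod_right' (ν := volume.restrict (Icc (0 : ℝ) 1))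
        have h3 : Measurable (fun q : E n × E n => ‖q.2‖ₑ ^ 2) := henorm.comp measurable_snd
        exact h3.mul h2
    _ = ∫⁻ z, ‖z‖ₑ ^ 2 * (∫⁻ x, ρ x ^ 2) ∂(gauss n h) := by
        refine lintegral_congr fun z => ?_
        have h1 : Measurable (fun q : E n × ℝ => ρ (q.1 + q.2 • z) ^ 2) := by
          fun_prop
        have h2 : Measurable (fun x : E n => ∫⁻ t in Icc (0 : ℝ) 1, ρ (x + t • z) ^ 2) :=
          h1.lintegral_prod_right' (ν := volume.restrict (Icc (0 : ℝ) 1))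
        rw [lintegral_const_mul _ h2]
        congr 1
        rw [lintegral_lintegral_swap h1.aemeasurable]
        have h3 : ∀ t : ℝ, ∫⁻ x, ρ (x + t • z) ^ 2 = ∫⁻ x, ρ x ^ 2 := fun t =>
          lintegral_add_right_eq_self (fun x => ρ x ^ 2) (t • z)
        simp only [h3, lintegral_const, Measure.restrict_apply_univ, Real.volume_Icc, sub_zero,
          ENNReal.ofReal_one, mul_one]
    _ = n * h * ∫⁻ x, ρ x ^ 2 := by
        rw [lintegral_mul_const _ henorm, gauss_second_moment]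

end Keldysh
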