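import Pool.Agent.Keldysh.Defs2

open MeasureTheory ProbabilityTheory Filter Topology Set
open scoped ENNReal NNReal

namespace Keldysh

variable {n : ℕ} {Ω : Type*} [mΩ : MeasurableSpace Ω]

/-- B13a -/
theorem exists_bump (q : E n) (r : ℝ) (hr : 0 < r) : ∃ φ : E n → ℝ, ContDiff ℝ 2 φ ∧
    (∀ x, 0 ≤ φ x ∧ φ x ≤ 1) ∧ (∀ x, x ∉ Metric.ball q (2 * r) → φ x = 0) ∧
    (∀ x ∈ Metric.ball q r, φ x = 1) := by
  let f : ContDiffBump q := ⟨r, 2 * r, hr, by linarith⟩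
  refine ⟨f, f.contDiff, fun x => ⟨f.nonneg, f.le_one⟩, ?_, ?_⟩
  · intro x hx
    apply f.zero_of_le_dist
    have h1 : ¬ dist x q < 2 * r := hx
    exact not_lt.mp h1
  · intro x hx
    apply f.one_of_mem_closedBall
    exact Metric.ball_subset_closedBall hx

end Keldysh
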