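import Pool.Agent.Keldysh.Defs2
import Pool.Agent.Keldysh.M_gauss_prob

open MeasureTheory ProbabilityTheory Filter Topology Set
open scoped ENNReal NNReal

namespace Keldysh

variable {n : ℕ} {Ω : Type*} [mΩ : MeasurableSpace Ω]

theorem exists_niceBM_version (P : Measure Ω) [IsProbabilityMeasure P] (W : Fin n → ℝ≥0 → Ω → ℝ)
    (hW : ∀ i, IsBrownianReal (W i) P) :
    ∃ W' : Fin n → ℝ≥0 → Ω → ℝ, (∀ i t, Measurable (W' i t)) ∧
      (∀ i ω, Continuous fun t => W' i t ω) ∧
      (∀ i ω, W' i 0 ω = 0) ∧ ∀ᵐ ω ∂P, ∀ i t, W' i t ω = W i t ω := by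
  classical
  set Q : ℕ → ℝ≥0 := TopologicalSpace.denseSeq ℝ≥0 with hQ
  have h1 : ∀ᵐ ω ∂P, ∀ i k, W i (Q k) ω = ((hW i).aemeasurable (Q k)).mk (W i (Q k)) ω := by
    rw [ae_all_iff]; intro i; rw [ae_all_iff]; intro k
    exact ((hW i).aemeasurable (Q k)).ae_eq_mk
  have h2 : ∀ᵐ ω ∂P, ∀ i, Continuous fun t => W i t ω := by
    rw [ae_all_iff]; intro i; exact (hW i).cont
  have h3 : ∀ᵐ ω ∂P, ∀ i, W i 0 ω = 0 := by
    rw [ae_all_iff]; intro i; exact (hW i).eval_zero_ae_eq_zero
  have h4 := h1.and (h2.and h3)
  obtain ⟨T, hT, hTm, hT0⟩ := exists_measurable_superset_of_null (ae_iff.mp h4)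
  have hG : ∀ ω, ω ∉ T → (∀ i k, W i (Q k) ω = ((hW i).aemeasurable (Q k)).mk (W i (Q k)) ω) ∧
      (∀ i, Continuous fun t => W i t ω) ∧ ∀ i, W i 0 ω = 0 := by
    intro ω hω
    by_contra hcon
    exact hω (hT hcon)
  let W' : Fin n → ℝ≥0 → Ω → ℝ := fun i t ω => if ω ∈ T then 0 else W i t ω
  have hcont : ∀ i ω, Continuous fun t => W' i t ω := by
    intro i ω
    by_cases hω : ω ∈ T
    · simp only [W', hω, if_true]
      exact continuous_const
    · simp only [W', hω, if_false]
      exact (hG ω hω).2.1 i
  have hmQ : ∀ i k, Measurable (W' i (Q k)) := by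
    intro i k
    have : W' i (Q k) = fun ω => if ω ∈ T then 0
        else ((hW i).aemeasurable (Q k)).mk (W i (Q k)) ω := by
      funext ω
      by_cases hω : ω ∈ T
      · simp only [W', hω, if_true]
      · simp only [W', hω, if_false]
        exact (hG ω hω).1 i k
    rw [this]
    exact Measurable.ite hTm measurable_const (((hW i).aemeasurable (Q k)).measurable_mk)
  refine ⟨W', ?_, hcont, ?_, ?_⟩
  · intro i t
    have hd : DenseRange Q := TopologicalSpace.denseRange_denseSeq ℝ≥0
    obtain ⟨x, hx, hxt⟩ := mem_closure_iff_seq_limit.mp (hd t)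
    choose k hk using hx
    refine measurable_of_tendsto_metrizable (f := fun j => W' i (Q (k j))) (fun j => hmQ i (k j)) ?_
    rw [tendsto_pi_nhds]
    intro ω
    have := ((hcont i ω).tendsto t).comp hxt
    refine this.congr fun j => ?_
    simp only [Function.comp]
    rw [hk j]
  · intro i ω
    by_cases hω : ω ∈ T
    · simp only [W', hω, if_true]
    · simp only [W', hω, if_false]
      exact (hG ω hω).2.2 i
  · have : ∀ᵐ ω ∂P, ω ∉ T := by
      rw [ae_iff]; simpa using hT0
    filter_upwards [this] with ω hω i t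
    simp only [W', hω, if_false]

theorem exists_niceBM_bool {P : Measure Ω} [IsProbabilityMeasure P] {β : Bool → Type*}
    [∀ b, MeasurableSpace (β b)] (f : ∀ b, Ω → β b) (h : IndepFun (f true) (f false) P) :
    iIndepFun f P := by
  rw [iIndepFun_iff_measure_inter_preimage_eq_mul]
  intro S sets H
  by_cases ht : true ∈ S <;> by_cases hf : false ∈ S
  · have hS : S = {true, false} := by ext b; cases b <;> simp [ht, hf]
    subst hS
    have := h.measure_inter_preimage_eq_mul (sets true) (sets false) (H true ht) (H false hf)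
    rw [Finset.set_biInter_insert, Finset.set_biInter_singleton, Finset.prod_insert (by simp),
      Finset.prod_singleton]
    exact this
  · have hS : S = {true} := by ext b; cases b <;> simp [ht, hf]
    subst hS
    simp
  · have hS : S = {false} := by ext b; cases b <;> simp [ht, hf]
    subst hS
    simp
  · have hS : S = ∅ := by ext b; cases b <;> simp [ht, hf]
    subst hS
    simp

theorem exists_niceBM_gauss (h : ℝ≥0) :
    gauss n h = (Measure.pi (fun _ : Fin n => gaussianReal 0 h)).map (WithLp.toLp 2) := by
  unfold gauss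
  rw [← map_pi_eq_stdGaussian, Measure.map_map (by fun_prop) (by fun_prop)]
  have h1 : (gaussianReal 0 1).map (fun x => Real.sqrt h * x) = gaussianReal 0 h := by
    rw [gaussianReal_map_const_mul]
    congr 1
    · simp
    · ext
      simp
  have h2 : Measure.pi (fun _ : Fin n => gaussianReal 0 h) =
      (Measure.pi (fun _ : Fin n => gaussianReal 0 1)).map (fun x i => Real.sqrt h * x i) := by
    have : ∀ i : Fin n, SigmaFinite ((gaussianReal 0 1).map (fun x => Real.sqrt h * x)) := by
      intro i; rw [h1]; infer_instance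
    have h3 := Measure.pi_map_pi (μ := fun _ : Fin n => gaussianReal 0 1)
      (f := fun _ x => Real.sqrt h * x) (fun i => (by fun_prop))
    rw [h3]
    congr 1
    funext i
    exact h1.symm
  rw [h2, Measure.map_map (by fun_prop) (by fun_prop)]
  rfl

theorem exists_niceBM_meas {Ω' : Type*} {k : ℕ} [MeasurableSpace Ω'] (g : Ω' → Fin k → ℝ)
    (h : ∀ i, Measurable fun ω => g ω i) :
    Measurable (fun ω => (WithLp.toLp 2 (g ω) : E k)) :=
  (WithLp.measurable_toLp 2 _).comp (measurable_pi_lambda _ h)

theorem exists_niceBM_meas' {Ω' : Type*} {k : ℕ} [MeasurableSpace Ω'] (g : Ω' → Fin k → ℝ)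
    (a : E k) (h : ∀ i, Measurable fun ω => g ω i) :
    Measurable (fun ω => a + (WithLp.toLp 2 (g ω) : E k)) :=
  measurable_const.add (exists_niceBM_meas g h)

/-- E0 -/
theorem exists_niceBM (P : Measure Ω) [IsProbabilityMeasure P] (W : Fin n → ℝ≥0 → Ω → ℝ)
    (hW : ∀ i, IsBrownianReal (W i) P) (hind : iIndepFun (fun i ω t => W i t ω) P) (a : E n) :
    ∃ (B : ℝ≥0 → Ω → E n) (F : ℝ≥0 → MeasurableSpace Ω), NiceBM P B F a ∧
      ∀ᵐ ω ∂P, ∀ t, B t ω = bm W a t ω := by
  classical
  obtain ⟨W', hm, hc, h0, hae⟩ := exists_niceBM_version P W hW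
  have hae' : ∀ i t, W i t =ᵐ[P] W' i t := by
    intro i t
    filter_upwards [hae] with ω hω
    exact (hω i t).symm
  have hpre : ∀ i, IsPreBrownianReal (W' i) P := fun i =>
    (hW i).toIsPreBrownianReal.congr (hae' i)
  have hind' : iIndepFun (fun i ω t => W' i t ω) P := hind.process_congr hae'
  let B : ℝ≥0 → Ω → E n := fun t ω => a + WithLp.toLp 2 (fun i => W' i t ω)
  have hB : ∀ t, Measurable (B t) := by
    intro t
    have : Measurable fun ω => (fun i => W' i t ω) := measurable_pi_lambda _ fun i => hm i t
    exact measurable_const.add ((WithLp.measurable_toLp 2 _).comp this)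
  let F : ℝ≥0 → MeasurableSpace Ω := fun t =>
    ⨆ r : ℝ≥0, ⨆ (_ : r ≤ t), MeasurableSpace.comap (B r) inferInstance
  have hsub : ∀ s t ω, B t ω - B s ω = WithLp.toLp 2 (fun i => W' i t ω - W' i s ω) := by
    intro s t ω
    simp only [B]
    ext i
    simp
  refine ⟨B, F, ⟨?_, ?_, ?_, ?_, ?_, ?_, ?_⟩, ?_⟩
  · intro t
    exact iSup₂_le fun r _ => (hB r).comap_le
  · intro s t hst
    exact iSup₂_le fun r hr => le_iSup₂_of_le r (hr.trans hst) le_rfl
  · intro t
    exact (comap_measurable (B t)).mono (le_iSup₂_of_le t le_rfl le_rfl) le_rfl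
  · intro ω
    have : Continuous fun t => (fun i => W' i t ω) := continuous_pi fun i => hc i ω
    exact continuous_const.add ((PiLp.continuous_toLp 2 _).comp this)
  · intro ω
    simp only [B, h0]
    ext i
    simp
  · intro s t hst
    have h1 : (fun ω => B t ω - B s ω) =
        (WithLp.toLp 2) ∘ (fun ω => fun i => W' i t ω - W' i s ω) := by
      funext ω; exact hsub s t ω
    have hmd : ∀ i, Measurable fun ω => W' i t ω - W' i s ω := fun i => (hm i t).sub (hm i s)
    rw [h1, ← Measure.map_map (by fun_prop) (measurable_pi_lambda _ hmd), exists_niceBM_gauss]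
    congr 1
    have hi : iIndepFun (fun i ω => W' i t ω - W' i s ω) P :=
      hind'.comp (fun i f => f t - f s) (fun i => by fun_prop)
    rw [hi.map_fun_eq_pi_map (fun i => (hmd i).aemeasurable)]
    congr 1
    funext i
    have := ((hpre i).hasLaw_sub t s).map_eq
    rw [show (fun ω => W' i t ω - W' i s ω) = W' i t - W' i s from rfl, this]
    congr 1
    ext
    rw [coe_nndist, Real.dist_eq, NNReal.coe_sub hst]
    exact abs_of_nonneg (sub_nonneg.mpr hst)
  · intro s t hst
    let Z : Fin n → Bool → Ω → (ℝ≥0 → ℝ) := fun i b ω r =>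
      match b with
      | true => W' i (s + r) ω - W' i s ω
      | false => W' i (min r s) ω
    have mX : ∀ i j, Measurable (Z i j) := by
      intro i j
      refine measurable_pi_lambda _ fun r => ?_
      cases j
      · exact hm i _
      · exact (hm i _).sub (hm i _)
    have h1 : iIndepFun (fun i ω => (Z i · ω)) P := by
      let g : Fin n → (ℝ≥0 → ℝ) → (Bool → ℝ≥0 → ℝ) := fun _ f j r =>
        match j with
        | true => f (s + r) - f s
        | false => f (min r s)
      have hg : ∀ i, Measurable (g i) := by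
        intro i
        refine measurable_pi_lambda _ fun j => measurable_pi_lambda _ fun r => ?_
        cases j
        · exact measurable_pi_apply _
        · exact (measurable_pi_apply _).sub (measurable_pi_apply _)
      have h := hind'.comp g hg
      have e : (fun i ω => (Z i · ω)) = fun i => (g i) ∘ (fun ω t => W' i t ω) := by
        funext i ω j r
        cases j <;> rfl
      rw [e]
      exact h
    have h2 : ∀ i, iIndepFun (Z i) P := by
      intro i
      refine exists_niceBM_bool (Z i) ?_
      have := (hpre i).indepFun_shift s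
      refine this.comp (φ := fun f => f) (ψ := fun f r => f ⟨min r s, Set.mem_Iic.mpr (min_le_right _ _)⟩)
        measurable_id ?_
      exact measurable_pi_lambda _ fun r => measurable_pi_apply _
    have h3 := iIndepFun_uncurry' mX h1 h2
    have h4 := indep_iSup_of_disjoint (S := {p : Fin n × Bool | p.2 = true})
      (T := {p : Fin n × Bool | p.2 = false}) (fun p => (mX p.1 p.2).comap_le) h3.iIndep
      (by
        rw [Set.disjoint_left]
        rintro ⟨i, b⟩ h5 h6
        have h5' : b = true := h5
        have h6' : b = false := h6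
        rw [h5'] at h6'
        exact absurd h6' (by simp))
    refine indep_of_indep_of_le h4 ?_ ?_
    · rw [← measurable_iff_comap_le]
      have h5 : (fun ω => B t ω - B s ω) =
          (fun ω => WithLp.toLp 2 (fun i => Z i true ω (t - s))) := by
        funext ω
        rw [hsub]
        simp only [Z]
        rw [add_tsub_cancel_of_le hst]
      rw [h5]
      refine @exists_niceBM_meas Ω n (⨆ p ∈ {p : Fin n × Bool | p.2 = true},
        MeasurableSpace.comap (Z p.1 p.2) inferInstance) (fun ω i => Z i true ω (t - s)) fun i => ?_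
      have h6 : Measurable[MeasurableSpace.comap (Z i true) inferInstance]
          (fun ω => Z i true ω (t - s)) :=
        Measurable.comp (g := fun f : ℝ≥0 → ℝ => f (t - s)) (measurable_pi_apply (t - s))
          (comap_measurable (Z i true))
      exact h6.mono (le_iSup₂_of_le (i, true) rfl le_rfl) le_rfl
    · refine iSup₂_le fun r hr => ?_
      rw [← measurable_iff_comap_le]
      have h5 : B r = (fun ω => a + WithLp.toLp 2 (fun i => Z i false ω r)) := by
        funext ω
        simp only [Z, B]
        rw [min_eq_left hr]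
      rw [h5]
      refine @exists_niceBM_meas' Ω n (⨆ p ∈ {p : Fin n × Bool | p.2 = false},
        MeasurableSpace.comap (Z p.1 p.2) inferInstance) (fun ω i => Z i false ω r) a fun i => ?_
      have h6 : Measurable[MeasurableSpace.comap (Z i false) inferInstance]
          (fun ω => Z i false ω r) :=
        Measurable.comp (g := fun f : ℝ≥0 → ℝ => f r) (measurable_pi_apply r)
          (comap_measurable (Z i false))
      exact h6.mono (le_iSup₂_of_le (i, false) rfl le_rfl) le_rfl
  · filter_upwards [hae] with ω hω t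
    simp only [B, bm]
    congr 2
    funext i
    exact hω i t

end Keldysh
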