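import Pool.Agent.Keldysh.Defs2

open MeasureTheory ProbabilityTheory Filter Topology Set
open scoped ENNReal NNReal

namespace Keldysh

variable {n : ℕ} {Ω : Type*} [mΩ : MeasurableSpace Ω]

/-- the neighbourhood property -/
def fine_nhds_Q (x : E n) (S : Set (E n)) : Prop :=
  ∃ (O : Set (E n)) (m : ℕ) (u : Fin m → E n → EReal) (c : Fin m → ℝ), IsOpen O ∧ x ∈ O ∧
      (∀ i, Superharmonic (u i)) ∧ (∀ i, u i x < c i) ∧
      (∀ y ∈ O, (∀ i, u i y < c i) → y ∈ S)

/-- the filter of sets with the neighbourhood property -/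
def fine_nhds_F (x : E n) : Filter (E n) where
  sets := {S | fine_nhds_Q x S}
  univ_sets := ⟨univ, 0, fun i => i.elim0, fun i => i.elim0, isOpen_univ, mem_univ _,
    fun i => i.elim0, fun i => i.elim0, fun _ _ _ => mem_univ _⟩
  sets_of_superset := by
    rintro S T ⟨O, m, u, c, h1, h2, h3, h4, h5⟩ hST
    exact ⟨O, m, u, c, h1, h2, h3, h4, fun y hy h => hST (h5 y hy h)⟩
  inter_sets := by
    rintro S T ⟨O, m, u, c, h1, h2, h3, h4, h5⟩ ⟨O', m', u', c', h1', h2', h3', h4', h5'⟩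
    refine ⟨O ∩ O', m + m', Fin.append u u', Fin.append c c', h1.inter h1', ⟨h2, h2'⟩, ?_, ?_, ?_⟩
    · intro i
      refine Fin.addCases (fun j => ?_) (fun j => ?_) i
      · rw [Fin.append_left]; exact h3 j
      · rw [Fin.append_right]; exact h3' j
    · intro i
      refine Fin.addCases (fun j => ?_) (fun j => ?_) i
      · rw [Fin.append_left, Fin.append_left]; exact h4 j
      · rw [Fin.append_right, Fin.append_right]; exact h4' j
    · intro y hy h
      refine ⟨h5 y hy.1 fun i => ?_, h5' y hy.2 fun i => ?_⟩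
      · have := h (Fin.castAdd m' i)
        rwa [Fin.append_left, Fin.append_left] at this
      · have := h (Fin.natAdd m i)
        rwa [Fin.append_right, Fin.append_right] at this

theorem fine_nhds_le (x : E n) (u : E n → EReal) (hu : Superharmonic u) :
    fine_nhds_F x ≤ Filter.comap u (𝓝 (u x)) := by
  rintro S ⟨V, hV, hVS⟩
  show fine_nhds_Q x S
  by_cases htop : u x = ⊤
  · rw [htop, EReal.mem_nhds_top_iff] at hV
    obtain ⟨a, ha⟩ := hV
    refine ⟨u ⁻¹' Ioi (a : EReal), 0, fun i => i.elim0, fun i => i.elim0, hu.lsc.isOpen_preimage _, ?_,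
      fun i => i.elim0, fun i => i.elim0, fun y hy _ => hVS (ha hy)⟩
    show (a : EReal) < u x
    rw [htop]
    exact EReal.coe_lt_top a
  · have hl : ∃ l, l < u x := ⟨⊥, bot_lt_iff_ne_bot.2 (hu.ne_bot x)⟩
    have hr : ∃ r, u x < r := ⟨⊤, lt_top_iff_ne_top.2 htop⟩
    rw [mem_nhds_iff_exists_Ioo_subset' hl hr] at hV
    obtain ⟨l, b, hlb, hsub⟩ := hV
    obtain ⟨c, hc1, hc2⟩ := EReal.lt_iff_exists_real_btwn.1 hlb.2
    refine ⟨u ⁻¹' Ioi l, 1, fun _ => u, fun _ => c, hu.lsc.isOpen_preimage _, hlb.1, fun _ => hu,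
      fun _ => hc1, fun y hy h => hVS (hsub ⟨hy, (h 0).trans hc2⟩)⟩

/-- B12a -/
theorem fine_nhds (U : Set (E n)) (hU : FinelyOpen U) (x : E n) (hx : x ∈ U) :
    ∃ (O : Set (E n)) (m : ℕ) (u : Fin m → E n → EReal) (c : Fin m → ℝ), IsOpen O ∧ x ∈ O ∧
      (∀ i, Superharmonic (u i)) ∧ (∀ i, u i x < c i) ∧
      (∀ y ∈ O, (∀ i, u i y < c i) → y ∈ U) := by
  have h1 : U ∈ @nhds _ (fineTopology n) x := (@IsOpen.mem_nhds_iff _ (fineTopology n) x U hU).2 hx
  have h2 : fine_nhds_F x ≤ @nhds _ (fineTopology n) x := by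
    unfold fineTopology
    rw [nhds_iInf]
    refine le_iInf fun u => ?_
    rw [nhds_iInf]
    refine le_iInf fun hu => ?_
    rw [nhds_induced]
    exact fine_nhds_le x u hu
  exact h2 h1

end Keldysh
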