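import Pool.Agent.Keldysh.Defs2
import Pool.Agent.Keldysh.M_SubAt_restrict
import Pool.Agent.Keldysh.M_SubAt_of_superharmonic
import Pool.Agent.Keldysh.M_fine_nhds
import Pool.Agent.Keldysh.M_SubAt_inter

open MeasureTheory ProbabilityTheory Filter Topology Set
open scoped ENNReal NNReal

namespace Keldysh

variable {n : ℕ} {Ω : Type*} [mΩ : MeasurableSpace Ω]

/-- B12 -/
theorem fine_local (U : Set (E n)) (hU : FinelyOpen U) (x : E n) (hx : x ∈ U) :
    ∃ (i : ℕ) (r : ℚ) (g : E n → ℝ), SubAt g (TopologicalSpace.denseSeq (E n) i) (r : ℝ) ∧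
      x ∈ Metric.ball (TopologicalSpace.denseSeq (E n) i) (r : ℝ) ∧ 0 < g x ∧
      ∀ y ∈ Metric.ball (TopologicalSpace.denseSeq (E n) i) (r : ℝ), 0 < g y → y ∈ U := by
  obtain ⟨O, m, u, c, hO, hxO, hu, huc, hU'⟩ := fine_nhds U hU x hx
  choose g hg hgi using fun i => SubAt_of_superharmonic (u i) (hu i) (c i) x 1 one_pos
  have hx4 : x ∈ Metric.ball x (4 * 1) := Metric.mem_ball_self (by norm_num)
  have hpos : ∀ i, 0 < g i x := fun i => (hgi i x hx4).2 (huc i)
  obtain ⟨g', δ, hδ, hg', hg'x, hball, hg'y⟩ := SubAt_inter m g x hg hpos O hO hxO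
  have hε : (0 : ℝ) < min δ 1 / 8 := by positivity
  obtain ⟨r, hr0, hr1⟩ := exists_rat_btwn hε
  have hrδ : 8 * (r : ℝ) < δ := by
    have := min_le_left δ 1
    linarith
  have hr1' : 8 * (r : ℝ) < 1 := by
    have := min_le_right δ 1
    linarith
  obtain ⟨i, hi⟩ := (TopologicalSpace.denseRange_denseSeq (E n)).exists_dist_lt x hr0
  have hdist : ∀ (t : ℝ) (y : E n), y ∈ Metric.ball (TopologicalSpace.denseSeq (E n) i) t →
      dist y x < t + r := by
    intro t y hy
    rw [Metric.mem_ball] at hy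
    have h1 := dist_triangle y (TopologicalSpace.denseSeq (E n) i) x
    rw [dist_comm (TopologicalSpace.denseSeq (E n) i) x] at h1
    linarith
  refine ⟨i, r, g', ?_, ?_, hg'x, ?_⟩
  · refine SubAt_restrict g' x 1 hg' _ _ hr0 (by linarith) ?_ ?_
    · intro y hy
      have := hdist _ y hy
      rw [Metric.mem_ball]; linarith
    · intro y hy
      have := hdist _ y hy
      rw [Metric.mem_ball]; linarith
  · rw [Metric.mem_ball]; exact hi
  · intro y hy hgy
    have h2 := hdist _ y hy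
    have hyδ : y ∈ Metric.ball x δ := by rw [Metric.mem_ball]; linarith
    have hy4 : y ∈ Metric.ball x (4 * 1) := by rw [Metric.mem_ball]; linarith
    exact hU' y (hball hyδ) (fun j => (hgi j y hy4).1 (hg'y y hyδ hgy j))

end Keldysh
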