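import Pool.Agent.Keldysh.Defs2
import Pool.Agent.Keldysh.M_gauss_prob

open MeasureTheory ProbabilityTheory Filter Topology Set
open scoped ENNReal NNReal

namespace Keldysh

variable {n : ℕ} {Ω : Type*} [mΩ : MeasurableSpace Ω]

theorem hit_small_step (P : Measure Ω) [IsProbabilityMeasure P] (Y : ℕ → Ω → E n)
    (F : ℕ → MeasurableSpace Ω) (h : ℝ≥0) (hF : ∀ j, F j ≤ mΩ)
    (hY : ∀ j, Measurable[F j] (Y j))
    (hlaw : ∀ j, P.map (fun ω => Y (j + 1) ω - Y j ω) = gauss n h)
    (hind : ∀ j, Indep (MeasurableSpace.comap (fun ω => Y (j + 1) ω - Y j ω) inferInstance) (F j) P)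
    (a : E n) (w : E n → ℝ≥0∞) (hw : Measurable w) (R : ℝ)
    (hone : ∀ x ∈ Metric.ball a R, ∫⁻ z in Metric.ball 0 (2 * R), w (x + z) ∂(gauss n h) ≤ w x)
    (N : ℕ) (Q : Set Ω) (hQ : MeasurableSet[F N] Q) (hQb : ∀ ω ∈ Q, Y N ω ∈ Metric.ball a R) :
    ∫⁻ ω in Q ∩ {ω | Y (N + 1) ω ∈ Metric.ball a R}, w (Y (N + 1) ω) ∂P ≤
      ∫⁻ ω in Q, w (Y N ω) ∂P := by
  classical
  have hYm : ∀ j, Measurable (Y j) := fun j => (hY j).mono (hF j) le_rfl
  have hQm : MeasurableSet Q := hF N _ hQ
  let D : Ω → E n := fun ω => Y (N + 1) ω - Y N ω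
  have hD : Measurable D := (hYm (N + 1)).sub (hYm N)
  let X : Ω → E n × ℝ≥0∞ := fun ω => (Y N ω, Q.indicator (fun _ => 1) ω)
  have hXF : Measurable[F N] X := by
    refine Measurable.prodMk (hY N) ?_
    exact Measurable.indicator measurable_const hQ
  have hX : Measurable X := hXF.mono (hF N) le_rfl
  have hindep : IndepFun X D P := by
    have h1 : Indep (F N) (MeasurableSpace.comap D inferInstance) P := (hind N).symm
    exact indep_of_indep_of_le_left h1 hXF.comap_le
  have hprod : P.map (fun ω => (X ω, D ω)) = (P.map X).prod (P.map D) :=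
    (indepFun_iff_map_prod_eq_prod_map_map hX.aemeasurable hD.aemeasurable).1 hindep
  have hDl : P.map D = gauss n h := hlaw N
  rw [hDl] at hprod
  haveI : IsProbabilityMeasure (gauss n h) := gauss_prob n h
  haveI : IsProbabilityMeasure (P.map X) := Measure.isProbabilityMeasure_map hX.aemeasurable
  let f : (E n × ℝ≥0∞) × E n → ℝ≥0∞ := fun p =>
    p.1.2 * ((Metric.ball a R).indicator (fun _ => (1 : ℝ≥0∞)) p.1.1 *
      ((Metric.ball (0 : E n) (2 * R)).indicator (fun z => w (p.1.1 + z)) p.2))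
  have hf : Measurable f := by
    refine Measurable.mul (measurable_snd.comp measurable_fst) (Measurable.mul ?_ ?_)
    · exact (measurable_const.indicator Metric.isOpen_ball.measurableSet).comp
        (measurable_fst.comp measurable_fst)
    · have hw2 : Measurable (fun p : (E n × ℝ≥0∞) × E n => w (p.1.1 + p.2)) :=
        hw.comp ((measurable_fst.comp measurable_fst).add measurable_snd)
      have hset : MeasurableSet {p : (E n × ℝ≥0∞) × E n | p.2 ∈ Metric.ball (0 : E n) (2 * R)} :=
        measurable_snd Metric.isOpen_ball.measurableSet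
      have h9 := hw2.indicator hset
      have h10 : (fun p : (E n × ℝ≥0∞) × E n =>
          ((Metric.ball (0 : E n) (2 * R)).indicator (fun z => w (p.1.1 + z)) p.2)) =
          ({p : (E n × ℝ≥0∞) × E n | p.2 ∈ Metric.ball (0 : E n) (2 * R)}).indicator
            (fun p : (E n × ℝ≥0∞) × E n => w (p.1.1 + p.2)) := by
       funext p
       by_cases hp : p.2 ∈ Metric.ball (0 : E n) (2 * R)
       · rw [Set.indicator_of_mem (show p ∈ {p : (E n × ℝ≥0∞) × E n | p.2 ∈ Metric.ball (0 : E n) (2 * R)} from hp), Set.indicator_of_mem hp]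
       · rw [Set.indicator_of_notMem (show p ∉ {p : (E n × ℝ≥0∞) × E n | p.2 ∈ Metric.ball (0 : E n) (2 * R)} from hp), Set.indicator_of_notMem hp]
      rw [h10]
      exact h9
  have hBm : MeasurableSet {ω | Y (N + 1) ω ∈ Metric.ball a R} :=
    hYm (N + 1) Metric.isOpen_ball.measurableSet
  calc ∫⁻ ω in Q ∩ {ω | Y (N + 1) ω ∈ Metric.ball a R}, w (Y (N + 1) ω) ∂P
      = ∫⁻ ω, (Q ∩ {ω | Y (N + 1) ω ∈ Metric.ball a R}).indicator
          (fun ω => w (Y (N + 1) ω)) ω ∂P := (lintegral_indicator (hQm.inter hBm) _).symm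
    _ ≤ ∫⁻ ω, f (X ω, D ω) ∂P := by
        refine lintegral_mono fun ω => ?_
        by_cases hω : ω ∈ Q ∩ {ω | Y (N + 1) ω ∈ Metric.ball a R}
        · rw [Set.indicator_of_mem hω]
          have h1 : Y N ω ∈ Metric.ball a R := hQb ω hω.1
          have h2 : Y (N + 1) ω ∈ Metric.ball a R := hω.2
          have h3 : D ω ∈ Metric.ball (0 : E n) (2 * R) := by
            rw [Metric.mem_ball, dist_zero_right]
            show ‖Y (N + 1) ω - Y N ω‖ < 2 * R
            rw [← dist_eq_norm]
            calc dist (Y (N + 1) ω) (Y N ω) ≤ dist (Y (N + 1) ω) a + dist (Y N ω) a :=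
                  dist_triangle_right _ _ _
              _ < R + R := add_lt_add (Metric.mem_ball.1 h2) (Metric.mem_ball.1 h1)
              _ = 2 * R := by ring
          show _ ≤ (Q.indicator (fun _ => (1 : ℝ≥0∞)) ω) *
            ((Metric.ball a R).indicator (fun _ => (1 : ℝ≥0∞)) (Y N ω) *
              ((Metric.ball (0 : E n) (2 * R)).indicator (fun z => w (Y N ω + z)) (D ω)))
          rw [Set.indicator_of_mem hω.1, Set.indicator_of_mem h1, Set.indicator_of_mem h3, one_mul,
            one_mul]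
          show _ ≤ w (Y N ω + (Y (N + 1) ω - Y N ω))
          rw [add_sub_cancel]
        · rw [Set.indicator_of_notMem hω]
          exact bot_le
    _ = ∫⁻ p, f p ∂(P.map (fun ω => (X ω, D ω))) := (lintegral_map hf (hX.prodMk hD)).symm
    _ = ∫⁻ x, ∫⁻ z, f (x, z) ∂(gauss n h) ∂(P.map X) := by
        rw [hprod, lintegral_prod _ hf.aemeasurable]
    _ ≤ ∫⁻ x, x.2 * w x.1 ∂(P.map X) := by
        refine lintegral_mono fun x => ?_
        have h1 : ∫⁻ z, f (x, z) ∂(gauss n h) =
            x.2 * ((Metric.ball a R).indicator (fun _ => (1 : ℝ≥0∞)) x.1 *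
              ∫⁻ z in Metric.ball (0 : E n) (2 * R), w (x.1 + z) ∂(gauss n h)) := by
          show ∫⁻ z, x.2 * ((Metric.ball a R).indicator (fun _ => (1 : ℝ≥0∞)) x.1 *
              ((Metric.ball (0 : E n) (2 * R)).indicator (fun z => w (x.1 + z)) z)) ∂(gauss n h) = _
          have hm : Measurable ((Metric.ball (0 : E n) (2 * R)).indicator (fun z => w (x.1 + z))) :=
            (hw.comp (measurable_const.add measurable_id)).indicator
              Metric.isOpen_ball.measurableSet
          rw [lintegral_const_mul x.2 (f := fun z => (Metric.ball a R).indicator (fun _ => (1 : ℝ≥0∞)) x.1 *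
              ((Metric.ball (0 : E n) (2 * R)).indicator (fun z => w (x.1 + z)) z))
              (measurable_const.mul hm),
            lintegral_const_mul ((Metric.ball a R).indicator (fun _ => (1 : ℝ≥0∞)) x.1) hm,
            lintegral_indicator Metric.isOpen_ball.measurableSet]
        show ∫⁻ z, f (x, z) ∂(gauss n h) ≤ x.2 * w x.1
        rw [h1]
        refine mul_le_mul' le_rfl ?_
        by_cases hx : x.1 ∈ Metric.ball a R
        · rw [Set.indicator_of_mem hx, one_mul]
          exact hone _ hx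
        · rw [Set.indicator_of_notMem hx, zero_mul]
          exact bot_le
    _ = ∫⁻ ω, (X ω).2 * w (X ω).1 ∂P :=
        lintegral_map (measurable_snd.mul (hw.comp measurable_fst)) hX
    _ = ∫⁻ ω in Q, w (Y N ω) ∂P := by
        rw [← lintegral_indicator hQm]
        refine lintegral_congr fun ω => ?_
        show Q.indicator (fun _ => (1 : ℝ≥0∞)) ω * w (Y N ω) = _
        by_cases hω : ω ∈ Q
        · rw [Set.indicator_of_mem hω, Set.indicator_of_mem hω, one_mul]
        · rw [Set.indicator_of_notMem hω, Set.indicator_of_notMem hω, zero_mul]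

/-- E12: small exit probability for super functions -/
theorem hit_small (P : Measure Ω) [IsProbabilityMeasure P] (Y : ℕ → Ω → E n)
    (F : ℕ → MeasurableSpace Ω) (h : ℝ≥0) (hF : ∀ j, F j ≤ mΩ) (hmono : Monotone F)
    (hY : ∀ j, Measurable[F j] (Y j))
    (hlaw : ∀ j, P.map (fun ω => Y (j + 1) ω - Y j ω) = gauss n h)
    (hind : ∀ j, Indep (MeasurableSpace.comap (fun ω => Y (j + 1) ω - Y j ω) inferInstance) (F j) P)
    (a : E n) (h0 : ∀ ω, Y 0 ω = a) (w : E n → ℝ≥0∞) (hw : Measurable w) (R : ℝ)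
    (hone : ∀ x ∈ Metric.ball a R, ∫⁻ z in Metric.ball 0 (2 * R), w (x + z) ∂(gauss n h) ≤ w x)
    (c : ℝ≥0∞) (N : ℕ) :
    c * P {ω | ∃ j ≤ N, c ≤ w (Y j ω) ∧ ∀ i ≤ j, Y i ω ∈ Metric.ball a R} ≤ w a := by
  classical
  have hYm : ∀ j, Measurable (Y j) := fun j => (hY j).mono (hF j) le_rfl
  let Q : ℕ → Set Ω := fun N => {ω | ∀ i ≤ N, Y i ω ∈ Metric.ball a R ∧ w (Y i ω) < c}
  let H : ℕ → Set Ω := fun N =>
    {ω | ∃ j ≤ N, c ≤ w (Y j ω) ∧ ∀ i ≤ j, Y i ω ∈ Metric.ball a R}
  have hQF : ∀ N, MeasurableSet[F N] (Q N) := by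
    intro N
    have : Q N = ⋂ i ∈ Finset.range (N + 1),
        (Y i ⁻¹' (Metric.ball a R) ∩ Y i ⁻¹' {x | w x < c}) := by
      ext ω
      simp only [Q, Set.mem_iInter, Finset.mem_range, Nat.lt_succ_iff]
      rfl
    rw [this]
    refine Finset.measurableSet_biInter _ fun i hi => ?_
    have hi' : i ≤ N := Nat.lt_succ_iff.1 (Finset.mem_range.1 hi)
    have hm : Measurable[F N] (Y i) := (hY i).mono (hmono hi') le_rfl
    exact (hm Metric.isOpen_ball.measurableSet).inter (hm (measurableSet_lt hw measurable_const))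
  have main : ∀ N, c * P (H N) + ∫⁻ ω in Q N, w (Y N ω) ∂P ≤ w a := by
    intro N
    induction N with
    | zero =>
      by_cases hc : c ≤ w a
      · have h1 : Q 0 = ∅ := by
          ext ω
          simp only [Q, Set.mem_empty_iff_false, iff_false]
          intro hq
          have := (hq 0 le_rfl).2
          rw [h0] at this
          exact absurd this (not_lt.2 hc)
        rw [h1, Measure.restrict_empty, lintegral_zero_measure, add_zero]
        calc c * P (H 0) ≤ c * 1 := mul_le_mul' le_rfl prob_le_one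
          _ = c := mul_one c
          _ ≤ w a := hc
      · have h1 : H 0 = ∅ := by
          ext ω
          simp only [H, Set.mem_empty_iff_false, iff_false]
          rintro ⟨j, hj, h2, _⟩
          obtain rfl : j = 0 := Nat.le_zero.1 hj
          rw [h0] at h2
          exact hc h2
        rw [h1, measure_empty, mul_zero, zero_add]
        calc ∫⁻ ω in Q 0, w (Y 0 ω) ∂P ≤ ∫⁻ ω, w (Y 0 ω) ∂P := setLIntegral_le_lintegral _ _
          _ = ∫⁻ _, w a ∂P := by simp_rw [h0]
          _ = w a := by rw [lintegral_const, measure_univ, mul_one]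
    | succ N ih =>
      refine le_trans ?_ ih
      set B : Set Ω := {ω | Y (N + 1) ω ∈ Metric.ball a R} with hB
      set C : Set Ω := {ω | c ≤ w (Y (N + 1) ω)} with hC
      have hBm : MeasurableSet B := hYm (N + 1) Metric.isOpen_ball.measurableSet
      have hCm : MeasurableSet C := measurableSet_le measurable_const (hw.comp (hYm (N + 1)))
      have hQm : MeasurableSet (Q N) := hF N _ (hQF N)
      have h1 : H (N + 1) ⊆ H N ∪ ((Q N ∩ B) ∩ C) := by
        rintro ω ⟨j, hj, h2, h3⟩
        by_cases hH : ω ∈ H N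
        · exact Or.inl hH
        · have hj' : j = N + 1 := by
            by_contra hne
            exact hH ⟨j, by omega, h2, h3⟩
          subst hj'
          refine Or.inr ⟨⟨fun i hi => ⟨h3 i (by omega), ?_⟩, h3 _ le_rfl⟩, h2⟩
          by_contra hcon
          exact hH ⟨i, hi, not_lt.1 hcon, fun k hk => h3 k (by omega)⟩
      have h2 : Q (N + 1) = (Q N ∩ B) \ C := by
        ext ω
        constructor
        · intro hq
          exact ⟨⟨fun i hi => hq i (by omega), (hq _ le_rfl).1⟩, not_le.2 (hq _ le_rfl).2⟩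
        · rintro ⟨⟨h3, h4⟩, h5⟩ i hi
          rcases Nat.lt_or_ge N i with h6 | h6
          · obtain rfl : i = N + 1 := by omega
            exact ⟨h4, not_le.1 h5⟩
          · exact h3 i h6
      have h3 : c * P ((Q N ∩ B) ∩ C) ≤ ∫⁻ ω in (Q N ∩ B) ∩ C, w (Y (N + 1) ω) ∂P := by
        calc c * P ((Q N ∩ B) ∩ C) = ∫⁻ _ in (Q N ∩ B) ∩ C, c ∂P := by
              rw [setLIntegral_const]
          _ ≤ _ := setLIntegral_mono' ((hQm.inter hBm).inter hCm) fun ω hω => hω.2
      calc c * P (H (N + 1)) + ∫⁻ ω in Q (N + 1), w (Y (N + 1) ω) ∂P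
          ≤ c * (P (H N) + P ((Q N ∩ B) ∩ C)) + ∫⁻ ω in (Q N ∩ B) \ C, w (Y (N + 1) ω) ∂P := by
            rw [h2]
            exact add_le_add (mul_le_mul' le_rfl ((measure_mono h1).trans (measure_union_le _ _)))
              le_rfl
        _ = c * P (H N) + (c * P ((Q N ∩ B) ∩ C) + ∫⁻ ω in (Q N ∩ B) \ C, w (Y (N + 1) ω) ∂P) := by
            rw [mul_add, add_assoc]
        _ ≤ c * P (H N) + (∫⁻ ω in (Q N ∩ B) ∩ C, w (Y (N + 1) ω) ∂P +
              ∫⁻ ω in (Q N ∩ B) \ C, w (Y (N + 1) ω) ∂P) :=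
            add_le_add le_rfl (add_le_add h3 le_rfl)
        _ = c * P (H N) + ∫⁻ ω in Q N ∩ B, w (Y (N + 1) ω) ∂P := by
            rw [lintegral_inter_add_diff _ _ hCm]
        _ ≤ c * P (H N) + ∫⁻ ω in Q N, w (Y N ω) ∂P :=
            add_le_add le_rfl (hit_small_step P Y F h hF hY hlaw hind a w hw R hone N (Q N)
              (hQF N) fun ω hω => (hω N le_rfl).1)
  exact le_trans (le_add_right le_rfl) (main N)

end Keldysh
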