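import Pool.Agent.Keldysh.Defs2
import Pool.Agent.Keldysh.Defs3
import Pool.Agent.Keldysh.M_gauss_prob
import Pool.Agent.Keldysh.M_SubAt_gauss
import Pool.Agent.Keldysh.M_SubAt_restrict
import Pool.Agent.Keldysh.M_hit_small

open MeasureTheory ProbabilityTheory Filter Topology Set
open scoped ENNReal NNReal

namespace Keldysh

variable {n : ℕ} {Ω : Type*} [mΩ : MeasurableSpace Ω]

theorem subAt_start_w (g : E n → ℝ) (a : E n) (R η : ℝ) (hR : 0 < R)
    (hg : SubAt g a (4 * R)) (hlt : ∀ x ∈ Metric.ball a (3 * R), g x < g a + η)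
    (x : E n) (hx : x ∈ Metric.ball a R) (h : ℝ≥0) (hh : h ≠ 0) :
    ∫⁻ z in Metric.ball 0 (2 * R), ENNReal.ofReal (g a + η - g (x + z)) ∂(gauss n h) ≤
      ENNReal.ofReal (g a + η - g x) := by
  have hp := gauss_prob n h
  have hx1 : x ∈ Metric.ball a (3 * (4 * R)) := Metric.ball_subset_ball (by linarith) hx
  have h1 := SubAt_gauss g a (4 * R) hg x hx1 h hh
  have e1 : 4 * R / 2 = 2 * R := by ring
  rw [e1] at h1
  have hmeas : Measurable (fun z : E n => g (x + z)) := hg.meas.comp (measurable_const_add x)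
  have hint : Integrable (fun z : E n => g (x + z)) ((gauss n h).restrict (Metric.ball 0 (2 * R))) := by
    refine (integrable_const (1 : ℝ)).mono' hmeas.aestronglyMeasurable (ae_of_all _ fun z => ?_)
    rw [Real.norm_eq_abs, abs_of_nonneg (hg.nonneg _)]
    exact hg.le_one _
  have hint2 : Integrable (fun z : E n => g a + η - g (x + z))
      ((gauss n h).restrict (Metric.ball 0 (2 * R))) := (integrable_const _).sub hint
  have hnn : 0 ≤ᵐ[(gauss n h).restrict (Metric.ball 0 (2 * R))]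
      (fun z : E n => g a + η - g (x + z)) := by
    refine (ae_restrict_iff' measurableSet_ball).2 (ae_of_all _ fun z hz => ?_)
    have h2 : x + z ∈ Metric.ball a (3 * R) := by
      rw [Metric.mem_ball, dist_eq_norm] at hx ⊢
      rw [mem_ball_zero_iff] at hz
      have h3 : x + z - a = (x - a) + z := by abel
      rw [h3]
      calc ‖(x - a) + z‖ ≤ ‖x - a‖ + ‖z‖ := norm_add_le _ _
        _ < 3 * R := by linarith
    have := hlt _ h2
    show 0 ≤ g a + η - g (x + z)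
    linarith
  rw [← ofReal_integral_eq_lintegral_ofReal hint2 hnn]
  apply ENNReal.ofReal_le_ofReal
  rw [integral_sub (integrable_const _) hint, setIntegral_const, smul_eq_mul]
  have hM0 : 0 ≤ (gauss n h).real (Metric.ball 0 (2 * R)) := measureReal_nonneg
  have hM1 : (gauss n h).real (Metric.ball 0 (2 * R)) ≤ 1 := measureReal_le_one
  have h1' : g x * (gauss n h).real (Metric.ball 0 (2 * R)) ≤
      ∫ z in Metric.ball 0 (2 * R), g (x + z) ∂(gauss n h) := h1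
  have hgx : g x < g a + η := hlt x (Metric.ball_subset_ball (by linarith) hx)
  generalize (gauss n h).real (Metric.ball 0 (2 * R)) = M at *
  have h4 : (g a + η - g x) * M ≤ (g a + η - g x) * 1 :=
    mul_le_mul_of_nonneg_left hM1 (by linarith)
  linarith

theorem subAt_start_gt_succ (T : ℝ≥0) (m j : ℕ) :
    gt 0 T m (j + 1) - gt 0 T m j = T / 2 ^ m := by
  unfold gt
  have h : (0 : ℝ≥0) + ((j + 1 : ℕ) : ℝ≥0) * (T / 2 ^ m) = (0 + (j : ℝ≥0) * (T / 2 ^ m)) + T / 2 ^ m := by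
    push_cast
    ring
  rw [h, add_tsub_cancel_left]

theorem subAt_start_gt_mono (T : ℝ≥0) (m : ℕ) : Monotone (gt 0 T m) := by
  intro i j hij
  unfold gt
  gcongr

theorem subAt_start_grid (P : Measure Ω) [IsProbabilityMeasure P] (B : ℝ≥0 → Ω → E n)
    (F : ℝ≥0 → MeasurableSpace Ω) (a : E n) (hB : NiceBM P B F a) (g : E n → ℝ) (R η : ℝ)
    (hR : 0 < R) (hη : 0 < η) (hg : SubAt g a (4 * R))
    (hlt : ∀ x ∈ Metric.ball a (3 * R), g x < g a + η) (h0 : 0 < g a) (T : ℝ≥0) (hT : T ≠ 0)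
    (m : ℕ) :
    P {ω | ∃ j ≤ 2 ^ m, g (B (gt 0 T m j) ω) ≤ g a / 2 ∧
      ∀ i ≤ j, B (gt 0 T m i) ω ∈ Metric.ball a R} ≤ ENNReal.ofReal (η / (g a / 2)) := by
  have hh : T / 2 ^ m ≠ 0 := div_ne_zero hT (pow_ne_zero _ two_ne_zero)
  have hw : Measurable (fun x : E n => ENNReal.ofReal (g a + η - g x)) :=
    (measurable_const.sub hg.meas).ennreal_ofReal
  have key := hit_small P (fun j => B (gt 0 T m j)) (fun j => F (gt 0 T m j)) (T / 2 ^ m)
    (fun j => hB.F_le _) (fun i j hij => hB.F_mono (subAt_start_gt_mono T m hij))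
    (fun j => hB.adapted _)
    (fun j => by
      have h1 := hB.law (gt 0 T m j) (gt 0 T m (j + 1)) (subAt_start_gt_mono T m (Nat.le_succ j))
      rw [subAt_start_gt_succ] at h1
      exact h1)
    (fun j => hB.indep _ _ (subAt_start_gt_mono T m (Nat.le_succ j)))
    a (fun ω => by
      have h1 : gt 0 T m 0 = 0 := by simp [gt]
      show B (gt 0 T m 0) ω = a
      rw [h1]
      exact hB.start ω)
    (fun x => ENNReal.ofReal (g a + η - g x)) hw R
    (fun x hx => subAt_start_w g a R η hR hg hlt x hx _ hh)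
    (ENNReal.ofReal (g a / 2)) (2 ^ m)
  have h1 : P {ω | ∃ j ≤ 2 ^ m, g (B (gt 0 T m j) ω) ≤ g a / 2 ∧
      ∀ i ≤ j, B (gt 0 T m i) ω ∈ Metric.ball a R} ≤
      P {ω | ∃ j ≤ 2 ^ m, ENNReal.ofReal (g a / 2) ≤ ENNReal.ofReal (g a + η - g (B (gt 0 T m j) ω))
        ∧ ∀ i ≤ j, B (gt 0 T m i) ω ∈ Metric.ball a R} := by
    apply measure_mono
    rintro ω ⟨j, hj, h2, h3⟩
    refine ⟨j, hj, ENNReal.ofReal_le_ofReal ?_, h3⟩
    linarith
  have e1 : g a + η - g a = η := by ring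
  rw [e1] at key
  rw [ENNReal.ofReal_div_of_pos (by linarith)]
  rw [ENNReal.le_div_iff_mul_le (Or.inl (by
    rw [Ne, ENNReal.ofReal_eq_zero, not_le]; linarith)) (Or.inl ENNReal.ofReal_ne_top)]
  rw [mul_comm]
  exact (mul_le_mul_right h1 _).trans key

theorem subAt_start_liminf (P : Measure Ω) (A : ℕ → Set Ω) (b : ℝ≥0∞) (h : ∀ m, P (A m) ≤ b) :
    P {ω | ∃ m, ∀ m' ≥ m, ω ∈ A m'} ≤ b := by
  have h1 : {ω | ∃ m, ∀ m' ≥ m, ω ∈ A m'} = ⋃ m, {ω | ∀ m' ≥ m, ω ∈ A m'} := by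
    ext ω
    simp
  have h2 : Monotone (fun m => {ω | ∀ m' ≥ m, ω ∈ A m'}) := by
    intro m1 m2 h12 ω hω m' hm'
    exact hω m' (h12.trans hm')
  rw [h1, h2.measure_iUnion]
  refine iSup_le fun m => le_trans (measure_mono ?_) (h m)
  intro ω hω
  exact hω m le_rfl

theorem subAt_start_path (b : ℝ≥0 → E n) (hb : Continuous b) (g : E n → ℝ) (a : E n) (R κ : ℝ)
    (husc : ∀ x ∈ Metric.ball a R, UpperSemicontinuousAt g x) (T : ℝ≥0) (hT : T ≠ 0)
    (hball : ∀ s ≤ T, b s ∈ Metric.ball a R) (t : ℝ≥0) (ht : t ≤ T) (hgt : g (b t) < κ) :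
    ∃ M : ℕ, ∀ m ≥ M, ∃ j ≤ 2 ^ m, g (b (gt 0 T m j)) ≤ κ ∧
      ∀ i ≤ j, b (gt 0 T m i) ∈ Metric.ball a R := by
  have h1 : ∀ᶠ x in 𝓝 (b t), g x < κ := husc (b t) (hball t ht) κ hgt
  have h2 : ∀ᶠ s in 𝓝 t, g (b s) < κ := hb.continuousAt.eventually h1
  obtain ⟨ε, hε, hε2⟩ := Metric.eventually_nhds_iff.1 h2
  obtain ⟨M, hM⟩ := pow_unbounded_of_one_lt ((T : ℝ) / ε) (one_lt_two)
  have hT0 : (0 : ℝ) < T := by
    have : 0 < T := pos_iff_ne_zero.2 hT
    exact_mod_cast this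
  refine ⟨M, fun m hm => ?_⟩
  have h2m : (2 : ℝ) ^ M ≤ 2 ^ m := pow_le_pow_right₀ (by norm_num) hm
  have h2pos : (0 : ℝ) < 2 ^ m := by positivity
  set x : ℝ := (T : ℝ) / 2 ^ m with hx
  have hx0 : 0 < x := by positivity
  have hxε : x < ε := by
    rw [hx, div_lt_iff₀ h2pos]
    rw [div_lt_iff₀ hε] at hM
    have := mul_le_mul_of_nonneg_left h2m hε.le
    linarith
  have hgt : ∀ i : ℕ, ((gt 0 T m i : ℝ≥0) : ℝ) = i * x := by
    intro i
    unfold gt
    push_cast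
    rw [zero_add]
  have ht0 : (0 : ℝ) ≤ t := t.2
  have htT : (t : ℝ) ≤ T := by exact_mod_cast ht
  have hTx : (2 : ℝ) ^ m * x = T := by
    rw [hx]
    field_simp
  set j : ℕ := ⌊(t : ℝ) / x⌋₊ with hj
  have hj1 : (j : ℝ) * x ≤ t := by
    have := Nat.floor_le (div_nonneg ht0 hx0.le)
    rwa [le_div_iff₀ hx0] at this
  have hj2 : (t : ℝ) < (j + 1) * x := by
    have := Nat.lt_floor_add_one ((t : ℝ) / x)
    rwa [div_lt_iff₀ hx0] at this
  have hj3 : j ≤ 2 ^ m := by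
    have h3 : (j : ℝ) * x ≤ 2 ^ m * x := by
      rw [hTx]
      linarith
    have h4 : (j : ℝ) ≤ 2 ^ m := le_of_mul_le_mul_right h3 hx0
    exact_mod_cast h4
  refine ⟨j, hj3, ?_, ?_⟩
  · apply le_of_lt
    apply hε2
    rw [NNReal.dist_eq, hgt, abs_lt]
    constructor
    · linarith
    · linarith
  · intro i hi
    apply hball
    have h5 : (i : ℝ) ≤ 2 ^ m := by
      have : i ≤ 2 ^ m := hi.trans hj3
      exact_mod_cast this
    have h6 : ((gt 0 T m i : ℝ≥0) : ℝ) ≤ T := by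
      rw [hgt, ← hTx]
      exact mul_le_mul_of_nonneg_right h5 hx0.le
    exact_mod_cast h6

/-- E13 -/
theorem subAt_start (P : Measure Ω) [IsProbabilityMeasure P] (B : ℝ≥0 → Ω → E n)
    (F : ℝ≥0 → MeasurableSpace Ω) (a : E n) (hB : NiceBM P B F a) (g : E n → ℝ) (q : E n) (r : ℝ)
    (hg : SubAt g q r) (ha : a ∈ Metric.ball q r) (h0 : 0 < g a) :
    ∀ᵐ ω ∂P, ∃ δ : ℝ≥0, 0 < δ ∧ ∀ t, t < δ → 0 < g (B t ω) ∧ B t ω ∈ Metric.ball q r := by
  have hda : dist a q < r := ha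
  have hr : 0 < r := hg.pos
  have hauscq : a ∈ Metric.ball q (4 * r) := Metric.ball_subset_ball (by linarith) ha
  rw [ae_iff]
  apply le_antisymm _ (zero_le)
  apply ENNReal.le_of_forall_pos_le_add
  intro ε hε _
  rw [zero_add]
  have hε' : (0 : ℝ) < ε := by exact_mod_cast hε
  set η : ℝ := ε * (g a / 2) with hηd
  have hη : 0 < η := by positivity
  -- choice of the radius
  have husca := hg.usc a hauscq (g a + η) (by linarith)
  obtain ⟨ρ, hρ, hρ2⟩ := Metric.eventually_nhds_iff_ball.1 husca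
  obtain ⟨R, hR, hR1, hR2, hR3⟩ : ∃ R : ℝ, 0 < R ∧ 16 * R ≤ r ∧ R ≤ r - dist a q ∧ 3 * R ≤ ρ := by
    refine ⟨min (min (r / 16) (r - dist a q)) (ρ / 3), ?_, ?_, ?_, ?_⟩
    · apply lt_min (lt_min (by positivity) (by linarith)) (by positivity)
    · have := (min_le_left (min (r / 16) (r - dist a q)) (ρ / 3)).trans (min_le_left _ _)
      linarith
    · exact (min_le_left (min (r / 16) (r - dist a q)) (ρ / 3)).trans (min_le_right _ _)
    · have := min_le_right (min (r / 16) (r - dist a q)) (ρ / 3)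
      linarith
  have hgR : SubAt g a (4 * R) := SubAt_restrict g q r hg a (4 * R) (by positivity) (by linarith)
    (Metric.ball_subset_ball' (by linarith)) (Metric.ball_subset_ball' (by linarith))
  have hlt : ∀ x ∈ Metric.ball a (3 * R), g x < g a + η := fun x hx =>
    hρ2 x (Metric.ball_subset_ball hR3 hx)
  have hRq : Metric.ball a R ⊆ Metric.ball q r := Metric.ball_subset_ball' (by linarith)
  have huscR : ∀ x ∈ Metric.ball a R, UpperSemicontinuousAt g x := fun x hx =>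
    hg.usc x (Metric.ball_subset_ball (by linarith) (hRq hx))
  have hηε : η / (g a / 2) = ε := by
    rw [hηd]
    field_simp
  -- the events for fixed horizon
  have hET : ∀ T : ℝ≥0, T ≠ 0 → P {ω | (∃ t ≤ T, g (B t ω) < g a / 2) ∧
      ∀ s ≤ T, B s ω ∈ Metric.ball a R} ≤ ε := by
    intro T hT
    have h1 := subAt_start_liminf P (fun m => {ω | ∃ j ≤ 2 ^ m, g (B (gt 0 T m j) ω) ≤ g a / 2 ∧
      ∀ i ≤ j, B (gt 0 T m i) ω ∈ Metric.ball a R}) _
      (fun m => subAt_start_grid P B F a hB g R η hR hη hgR hlt h0 T hT m)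
    rw [hηε, ENNReal.ofReal_coe_nnreal] at h1
    refine le_trans (measure_mono ?_) h1
    rintro ω ⟨⟨t, ht, hgt⟩, hs⟩
    exact subAt_start_path (fun t => B t ω) (hB.cont ω) g a R (g a / 2) huscR T hT hs t ht hgt
  have h2 := subAt_start_liminf P (fun i : ℕ => {ω | (∃ t ≤ (1 / ((i : ℝ≥0) + 1)),
      g (B t ω) < g a / 2) ∧ ∀ s ≤ (1 / ((i : ℝ≥0) + 1)), B s ω ∈ Metric.ball a R}) ε
      (fun i => hET _ (by positivity))
  refine le_trans (measure_mono ?_) h2
  intro ω hω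
  -- the path stays in the small ball for a short time
  have h3 : ∀ᶠ s in 𝓝 (0 : ℝ≥0), B s ω ∈ Metric.ball a R := by
    apply (hB.cont ω).continuousAt.eventually
    show ∀ᶠ y in 𝓝 (B 0 ω), y ∈ Metric.ball a R
    rw [hB.start ω]
    exact Metric.ball_mem_nhds a hR
  obtain ⟨δ, hδ, hδ2⟩ := Metric.eventually_nhds_iff.1 h3
  obtain ⟨i, hi⟩ := exists_nat_one_div_lt hδ
  refine ⟨i, fun i' hi' => ?_⟩
  have h4 : ∀ s : ℝ≥0, s ≤ 1 / ((i' : ℝ≥0) + 1) → B s ω ∈ Metric.ball a R := by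
    intro s hs
    apply hδ2
    rw [NNReal.dist_eq, NNReal.coe_zero, sub_zero, abs_of_nonneg (NNReal.coe_nonneg s)]
    have h5 : (s : ℝ) ≤ 1 / ((i' : ℝ) + 1) := by exact_mod_cast hs
    have h6 : 1 / ((i' : ℝ) + 1) ≤ 1 / ((i : ℝ) + 1) := by
      have : (i : ℝ) ≤ i' := by exact_mod_cast hi'
      apply one_div_le_one_div_of_le (by positivity)
      linarith
    linarith
  refine ⟨?_, h4⟩
  by_contra hno
  push Not at hno
  apply hω
  refine ⟨1 / ((i' : ℝ≥0) + 1), by positivity, fun t ht => ⟨?_, hRq (h4 t ht.le)⟩⟩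
  have := hno t ht.le
  linarith

end Keldysh
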