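import Pool.Agent.Keldysh.Defs2
import Pool.Agent.Keldysh.M_fine_local
import Pool.Agent.Keldysh.M_subAt_start

open MeasureTheory ProbabilityTheory Filter Topology Set
open scoped ENNReal NNReal

namespace Keldysh

variable {n : ℕ} {Ω : Type*} [mΩ : MeasurableSpace Ω]

/-- E14: finely open sets are not left immediately. -/
theorem fine_start (P : Measure Ω) [IsProbabilityMeasure P] (B : ℝ≥0 → Ω → E n)
    (F : ℝ≥0 → MeasurableSpace Ω) (a : E n) (hB : NiceBM P B F a) (U : Set (E n))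
    (hU : FinelyOpen U) (ha : a ∈ U) :
    ∀ᵐ ω ∂P, ∃ δ : ℝ≥0, 0 < δ ∧ ∀ t, t < δ → B t ω ∈ U := by
  obtain ⟨i, r, g, hg, hax, hga, hgU⟩ := fine_local U hU a ha
  filter_upwards [subAt_start P B F a hB g _ _ hg hax hga] with ω hω
  obtain ⟨δ, hδ, h⟩ := hω
  exact ⟨δ, hδ, fun t ht => hgU _ (h t ht).2 (h t ht).1⟩

end Keldysh
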