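import Pool.Agent.Keldysh.Defs2
import Pool.Agent.Keldysh.Defs3
import Pool.Agent.Keldysh.M_inner_mono
import Pool.Agent.Keldysh.M_inner_facts

open MeasureTheory ProbabilityTheory Filter Topology Set
open scoped ENNReal NNReal

namespace Keldysh

variable {n : ℕ} {Ω : Type*} [mΩ : MeasurableSpace Ω]

theorem grid_final_top (t0 T : ℝ≥0) (m : ℕ) : gt t0 T m (2 ^ m) = t0 + T := by
  unfold gt
  have h1 : ((2 ^ m : ℕ) : ℝ≥0) * (T / 2 ^ m) = T := by
    push_cast
    rw [mul_div_assoc']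
    exact mul_div_cancel_left₀ T (pow_ne_zero m two_ne_zero)
  rw [h1]

theorem grid_final_le (t0 T : ℝ≥0) (m j : ℕ) : t0 ≤ gt t0 T m j := by
  unfold gt
  exact le_self_add

theorem grid_final_mem (t0 T : ℝ≥0) (D : Set (E n)) (m : ℕ) (p : ℝ≥0 → E n) :
    gridExit t0 T D m p = 2 ^ m ∨ p (gt t0 T m (gridExit t0 T D m p)) ∉ D := by
  have h1 : gridExit t0 T D m p ∈ {j | j = 2 ^ m ∨ p (gt t0 T m j) ∉ D} :=
    Nat.sInf_mem ⟨2 ^ m, Or.inl rfl⟩
  exact h1

/-- E10: deterministic conclusion along a sequence of grids. -/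
theorem grid_final (V : Set (E n)) (hV : IsOpen V) (hb : Vᶜ.Nonempty) (t0 T : ℝ≥0)
    (hT : 0 < T) (p : ℝ≥0 → E n) (hp : Continuous p) (τ : ℝ≥0) (hτ : t0 < τ) (hτT : τ < t0 + T)
    (hin : ∀ t, t0 ≤ t → t < τ → p t ∈ V) (hout : p τ ∉ V) (k m : ℕ → ℕ) (hk : StrictMono k)
    (hm : StrictMono m)
    (h : ∀ᶠ i in atTop, ∀ t, t0 ≤ t → t < gt t0 T (m i) (gridExit t0 T (inner V (k i)) (m i) p) →
      p t ∈ inner V (k i + 1)) :
    (∀ᶠ i in atTop, gt t0 T (m i) (gridExit t0 T (inner V (k i)) (m i) p) < τ) ∧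
    (∀ᶠ i in atTop, gt t0 T (m i) (gridExit t0 T (inner V (k i)) (m i) p) ≤
      gt t0 T (m (i + 1)) (gridExit t0 T (inner V (k (i + 1))) (m (i + 1)) p)) ∧
    Tendsto (fun i => gt t0 T (m i) (gridExit t0 T (inner V (k i)) (m i) p)) atTop (𝓝 τ) := by
  have hVc : IsClosed Vᶜ := hV.isClosed_compl
  have hfc : Continuous fun t => Metric.infDist (p t) Vᶜ := (Metric.continuous_infDist_pt Vᶜ).comp hp
  obtain ⟨θ, hθ⟩ : ∃ θ : ℕ → ℝ≥0, θ = fun i =>
    gt t0 T (m i) (gridExit t0 T (inner V (k i)) (m i) p) := ⟨_, rfl⟩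
  have hθi : ∀ i, gt t0 T (m i) (gridExit t0 T (inner V (k i)) (m i) p) = θ i := fun i => by
    rw [hθ]
  simp only [hθi] at h ⊢
  have hexit : ∀ i, θ i = t0 + T ∨ p (θ i) ∉ inner V (k i) := by
    intro i
    rcases grid_final_mem t0 T (inner V (k i)) (m i) p with h1 | h1
    · left
      rw [← hθi, h1, grid_final_top]
    · right
      rwa [hθi] at h1
  have hge : ∀ i, t0 ≤ θ i := fun i => by
    rw [← hθi]; exact grid_final_le _ _ _ _
  have hsub : ∀ l, inner V l ⊆ V := fun l => (inner_facts V hV hb l).2.1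
  have h1 : ∀ᶠ i in atTop, θ i < τ := by
    filter_upwards [h] with i hi
    by_contra hcon
    rcases lt_or_eq_of_le (not_lt.mp hcon) with h2 | h2
    · exact hout (hsub _ (hi τ hτ.le h2))
    · have h3 : Set.Ico t0 τ ⊆ {t | 1 / (((k i + 1 : ℕ) : ℝ) + 1) ≤ Metric.infDist (p t) Vᶜ} := by
        intro t ht
        have h4 : 1 / (((k i + 1 : ℕ) : ℝ) + 1) < Metric.infDist (p t) Vᶜ :=
          hi t ht.1 (h2 ▸ ht.2)
        exact h4.le
      have h4 : IsClosed {t | 1 / (((k i + 1 : ℕ) : ℝ) + 1) ≤ Metric.infDist (p t) Vᶜ} :=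
        isClosed_le continuous_const hfc
      have h5 := closure_minimal h3 h4
      rw [closure_Ico hτ.ne] at h5
      have h6 : 1 / (((k i + 1 : ℕ) : ℝ) + 1) ≤ Metric.infDist (p τ) Vᶜ := h5 ⟨hτ.le, le_rfl⟩
      have h7 : Metric.infDist (p τ) Vᶜ = 0 := Metric.infDist_zero_of_mem hout
      rw [h7] at h6
      have h8 : (0 : ℝ) < 1 / (((k i + 1 : ℕ) : ℝ) + 1) := by positivity
      linarith
  refine ⟨h1, ?_, ?_⟩
  · filter_upwards [h, h1] with i hi h2
    by_contra hcon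
    have h3 : θ (i + 1) < θ i := not_le.mp hcon
    rcases hexit (i + 1) with h4 | h4
    · rw [h4] at h3
      exact absurd (h3.trans h2) (not_lt.mpr hτT.le)
    · apply h4
      have h5 : k i + 1 ≤ k (i + 1) := hk (Nat.lt_succ_self i)
      exact inner_mono V h5 (hi _ (hge _) h3)
  · rw [tendsto_order]
    constructor
    · intro a ha
      obtain ⟨s, hs⟩ : ∃ s, s = max a t0 := ⟨_, rfl⟩
      have hsτ : s < τ := by rw [hs]; exact max_lt ha hτ
      have hst : t0 ≤ s := by rw [hs]; exact le_max_right _ _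
      have has : a ≤ s := by rw [hs]; exact le_max_left _ _
      obtain ⟨t, ht, hmin⟩ := isCompact_Icc.exists_isMinOn (⟨t0, le_rfl, hst⟩ : (Set.Icc t0 s).Nonempty)
        hfc.continuousOn
      have hpos : 0 < Metric.infDist (p t) Vᶜ := by
        rw [← hVc.notMem_iff_infDist_pos hb]
        exact not_not.mpr (hin t ht.1 (lt_of_le_of_lt ht.2 hsτ))
      have h3 : Tendsto (fun i => 1 / ((k i : ℝ) + 1)) atTop (𝓝 0) :=
        tendsto_one_div_add_atTop_nhds_zero_nat.comp hk.tendsto_atTop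
      filter_upwards [h3.eventually (gt_mem_nhds hpos), h1] with i h4 h5
      have h6 : p (θ i) ∉ inner V (k i) := by
        rcases hexit i with h7 | h7
        · rw [h7] at h5
          exact absurd h5 (not_lt.mpr hτT.le)
        · exact h7
      have h7 : Metric.infDist (p (θ i)) Vᶜ ≤ 1 / ((k i : ℝ) + 1) := not_lt.mp h6
      by_contra hcon
      have h8 : θ i ∈ Set.Icc t0 s := ⟨hge i, (not_lt.mp hcon).trans has⟩
      have h9 : Metric.infDist (p t) Vᶜ ≤ Metric.infDist (p (θ i)) Vᶜ := hmin h8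
      linarith
    · intro a ha
      filter_upwards [h1] with i hi
      exact hi.trans ha

end Keldysh
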