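import Pool.Agent.Keldysh.Defs2
import Pool.Agent.Keldysh.Defs3
import Pool.Agent.Keldysh.M_inner_mono
import Pool.Agent.Keldysh.M_inner_facts

open MeasureTheory ProbabilityTheory Filter Topology Set
open scoped ENNReal NNReal

namespace Keldysh

variable {n : ℕ} {Ω : Type*} [mΩ : MeasurableSpace Ω]

/-- the countable index set of pairs of times -/
def grid_no_overshoot_prob_I (Q : Set ℝ≥0) (R : ℝ≥0) (ε : ℝ) : Set (ℝ≥0 × ℝ≥0) :=
  {q | q.1 ∈ Q ∧ q.2 ∈ Q ∧ q.1 < R ∧ q.2 < R ∧ dist q.1 q.2 < ε}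

/-- modulus of continuity event -/
def grid_no_overshoot_prob_G (f : Ω → ℝ≥0 → ℝ) (η : ℝ) (Q : Set ℝ≥0) (R : ℝ≥0) (ε : ℝ) : Set Ω :=
  ⋂ q ∈ grid_no_overshoot_prob_I Q R ε, {ω | |f ω q.1 - f ω q.2| ≤ η}

theorem grid_no_overshoot_prob_meas (f : Ω → ℝ≥0 → ℝ) (hf : ∀ t, Measurable fun ω => f ω t)
    (η : ℝ) (Q : Set ℝ≥0) (hQ : Q.Countable) (R : ℝ≥0) (ε : ℝ) :
    MeasurableSet (grid_no_overshoot_prob_G f η Q R ε) := by
  unfold grid_no_overshoot_prob_G
  apply MeasurableSet.biInter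
  · apply (hQ.prod hQ).mono
    intro q hq
    exact ⟨hq.1, hq.2.1⟩
  · intro q _
    exact measurableSet_le ((hf q.1).sub (hf q.2)).abs measurable_const

omit mΩ in
theorem grid_no_overshoot_prob_dense (f : Ω → ℝ≥0 → ℝ) (hc : ∀ ω, Continuous (f ω)) (η : ℝ)
    (Q : Set ℝ≥0) (hQ : Dense Q) (R : ℝ≥0) (ε : ℝ) {ω : Ω}
    (hω : ω ∈ grid_no_overshoot_prob_G f η Q R ε) {s t : ℝ≥0} (hs : s < R) (ht : t < R)
    (hst : dist s t < ε) : |f ω s - f ω t| ≤ η := by
  by_contra hcon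
  push Not at hcon
  have hO : IsOpen {q : ℝ≥0 × ℝ≥0 | η < |f ω q.1 - f ω q.2| ∧ q.1 < R ∧ q.2 < R ∧
      dist q.1 q.2 < ε} := by
    have hcf := hc ω
    apply IsOpen.inter
    · exact isOpen_lt continuous_const
        (((hcf.comp continuous_fst).sub (hcf.comp continuous_snd)).abs)
    · apply IsOpen.inter (isOpen_lt continuous_fst continuous_const)
      apply IsOpen.inter (isOpen_lt continuous_snd continuous_const)
      exact isOpen_lt (continuous_fst.dist continuous_snd) continuous_const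
  obtain ⟨q, hq, hqO⟩ := (hQ.prod hQ).exists_mem_open hO ⟨(s, t), hcon, hs, ht, hst⟩
  have h1 : q ∈ grid_no_overshoot_prob_I Q R ε := ⟨hq.1, hq.2, hqO.2.1, hqO.2.2.1, hqO.2.2.2⟩
  unfold grid_no_overshoot_prob_G at hω
  rw [mem_iInter₂] at hω
  exact absurd (hω q h1) (not_le.2 hqO.1)

omit mΩ in
theorem grid_no_overshoot_prob_ex (f : Ω → ℝ≥0 → ℝ) (hc : ∀ ω, Continuous (f ω)) (η : ℝ)
    (hη : 0 < η) (Q : Set ℝ≥0) (R : ℝ≥0) (ω : Ω) :
    ∃ e : ℝ, 0 < e ∧ ∀ ε, ε ≤ e → ω ∈ grid_no_overshoot_prob_G f η Q R ε := by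
  have huc : UniformContinuousOn (f ω) (Icc 0 R) :=
    isCompact_Icc.uniformContinuousOn_of_continuous (hc ω).continuousOn
  obtain ⟨e, he, h⟩ := Metric.uniformContinuousOn_iff.1 huc η hη
  refine ⟨e, he, fun ε hε => ?_⟩
  unfold grid_no_overshoot_prob_G
  rw [mem_iInter₂]
  intro q hq
  have := h q.1 ⟨bot_le, hq.2.2.1.le⟩ q.2 ⟨bot_le, hq.2.2.2.1.le⟩ (hq.2.2.2.2.trans_le hε)
  rw [Real.dist_eq] at this
  exact this.le

/-- E9b: probability version -/
theorem grid_no_overshoot_prob (P : Measure Ω) [IsProbabilityMeasure P] (B : ℝ≥0 → Ω → E n)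
    (hB : ∀ t, Measurable (B t)) (hc : ∀ ω, Continuous fun t => B t ω)
    (V : Set (E n)) (hV : IsOpen V) (hb : Vᶜ.Nonempty) (t0 T : ℝ≥0) (hT : 0 < T)
    (k : ℕ) (δ : ℝ) (hδ : 0 < δ) :
    ∃ m0, ∀ m, m0 ≤ m → P {ω | ∃ t, t0 ≤ t ∧
      t < gt t0 T m (gridExit t0 T (inner V k) m (fun t => B t ω)) ∧ B t ω ∉ inner V (k + 1)} ≤
      ENNReal.ofReal δ := by
  obtain ⟨Q, hQc, hQd⟩ := TopologicalSpace.exists_countable_dense ℝ≥0
  set f : Ω → ℝ≥0 → ℝ := fun ω t => Metric.infDist (B t ω) Vᶜ with hf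
  have hfc : ∀ ω, Continuous (f ω) := fun ω => (Metric.continuous_infDist_pt _).comp (hc ω)
  have hfm : ∀ t, Measurable fun ω => f ω t := fun t =>
    (Metric.continuous_infDist_pt _).measurable.comp (hB t)
  set η : ℝ := 1 / ((k : ℝ) + 1) - 1 / ((k : ℝ) + 1 + 1) with hη
  have hηpos : 0 < η := by
    rw [hη, sub_pos]
    apply one_div_lt_one_div_of_lt (by positivity) (by linarith)
  set R : ℝ≥0 := t0 + T + 1 with hR
  set ε : ℕ → ℝ := fun m => 2 * ((T : ℝ) / 2 ^ m) with hε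
  set G : ℕ → Set Ω := fun m => grid_no_overshoot_prob_G f η Q R (ε m) with hG
  have hGm : ∀ m, MeasurableSet (G m) := fun m =>
    grid_no_overshoot_prob_meas f hfm η Q hQc R (ε m)
  have hεlim : Tendsto ε atTop (𝓝 0) := by
    have h1 : Tendsto (fun m : ℕ => (1 / 2 : ℝ) ^ m) atTop (𝓝 0) :=
      tendsto_pow_atTop_nhds_zero_of_lt_one (by norm_num) (by norm_num)
    have h2 := h1.const_mul (2 * (T : ℝ))
    rw [mul_zero] at h2
    apply h2.congr
    intro m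
    simp only [hε]
    rw [one_div, inv_pow]
    ring
  have hanti : Antitone (fun m => (G m)ᶜ) := by
    intro m m' hmm
    simp only [hG]
    apply compl_subset_compl.2
    unfold grid_no_overshoot_prob_G
    apply biInter_subset_biInter_left
    intro q hq
    refine ⟨hq.1, hq.2.1, hq.2.2.1, hq.2.2.2.1, hq.2.2.2.2.trans_le ?_⟩
    simp only [hε]
    have h2 : (2 : ℝ) ^ m ≤ 2 ^ m' := pow_le_pow_right₀ (by norm_num) hmm
    have hT0 : (0 : ℝ) ≤ T := T.2
    have : (T : ℝ) / 2 ^ m' ≤ T / 2 ^ m := div_le_div_of_nonneg_left hT0 (by positivity) h2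
    linarith
  have hinter : ⋂ m, (G m)ᶜ = ∅ := by
    rw [eq_empty_iff_forall_notMem]
    intro ω hω
    rw [mem_iInter] at hω
    obtain ⟨e, he, h⟩ := grid_no_overshoot_prob_ex f hfc η hηpos Q R ω
    obtain ⟨m, hm⟩ := (hεlim.eventually (gt_mem_nhds he)).exists
    exact hω m (h _ hm.le)
  have htend : Tendsto (fun m => P (G m)ᶜ) atTop (𝓝 0) := by
    have := tendsto_measure_iInter_atTop (μ := P) (s := fun m => (G m)ᶜ)
      (fun m => (hGm m).compl.nullMeasurableSet) hanti ⟨0, measure_ne_top _ _⟩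
    rw [hinter, measure_empty] at this
    exact this
  have hev : ∀ᶠ m in atTop, P (G m)ᶜ < ENNReal.ofReal δ :=
    htend.eventually (gt_mem_nhds (ENNReal.ofReal_pos.2 hδ))
  obtain ⟨m0, hm0⟩ := eventually_atTop.1 hev
  refine ⟨m0, fun m hm => le_trans (measure_mono ?_) (hm0 m hm).le⟩
  rintro ω ⟨t, ht0, htJ, htV⟩ hωG
  apply htV
  set J := gridExit t0 T (inner V k) m (fun t => B t ω) with hJ
  have hJle : J ≤ 2 ^ m := Nat.sInf_le (Or.inl rfl)
  set h : ℝ≥0 := T / 2 ^ m with hh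
  have hhpos : 0 < h := by rw [hh]; positivity
  have hgt : ∀ j : ℕ, gt t0 T m j = t0 + j * h := fun j => rfl
  have hex : ∃ j : ℕ, t < gt t0 T m j := ⟨J, htJ⟩
  classical
  set j := Nat.find hex with hj
  have hj1 : t < gt t0 T m j := Nat.find_spec hex
  have hjJ : j ≤ J := Nat.find_min' hex htJ
  have hjpos : j ≠ 0 := by
    intro h0
    rw [h0, hgt] at hj1
    simp at hj1
    exact absurd hj1 (not_lt.2 ht0)
  obtain ⟨i, hi⟩ : ∃ i, j = i + 1 := Nat.exists_eq_succ_of_ne_zero hjpos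
  have hi1 : gt t0 T m i ≤ t := not_lt.1 (Nat.find_min hex (by rw [← hj]; omega))
  have hiJ : i < J := by omega
  have hiD : B (gt t0 T m i) ω ∈ inner V k := by
    have h1 : ¬ (i = 2 ^ m ∨ B (gt t0 T m i) ω ∉ inner V k) := Nat.notMem_of_lt_sInf hiJ
    by_contra hcon
    exact h1 (Or.inr hcon)
  have hJT : gt t0 T m J ≤ t0 + T := by
    rw [hgt]
    have h1 : (J : ℝ≥0) * h ≤ 2 ^ m * h := by
      apply mul_le_mul_of_nonneg_right _ bot_le
      exact_mod_cast hJle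
    have h2 : (2 : ℝ≥0) ^ m * h = T := by
      rw [hh]
      exact mul_div_cancel₀ T (by positivity)
    rw [h2] at h1
    exact add_le_add_right h1 t0
  have htR : t < R := (htJ.trans_le hJT).trans (by rw [hR]; exact lt_add_of_pos_right _ one_pos)
  have hsR : gt t0 T m i < R := hi1.trans_lt htR
  have hdist : dist (gt t0 T m i) t < ε m := by
    rw [NNReal.dist_eq, abs_sub_comm, abs_of_nonneg (by
      rw [sub_nonneg]; exact_mod_cast hi1)]
    rw [hi, hgt] at hj1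
    have h1 : (t : ℝ) < t0 + ((i : ℝ) + 1) * h := by
      have : (t : ℝ) < ((t0 + ((i + 1 : ℕ) : ℝ≥0) * h : ℝ≥0) : ℝ) := by exact_mod_cast hj1
      push_cast at this
      exact this
    have h2 : ((gt t0 T m i : ℝ≥0) : ℝ) = t0 + i * h := by
      rw [hgt]; push_cast; rfl
    have h3 : (h : ℝ) = (T : ℝ) / 2 ^ m := by rw [hh]; push_cast; rfl
    have h4 : (0 : ℝ) < h := hhpos
    rw [h2]
    simp only [hε]
    rw [← h3]
    linarith
  have hmod := grid_no_overshoot_prob_dense f hfc η Q hQd R (ε m) hωG hsR htR hdist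
  have h1 : 1 / ((k : ℝ) + 1) < f ω (gt t0 T m i) := hiD
  have h2 := (abs_le.1 hmod).2
  show 1 / (((k + 1 : ℕ) : ℝ) + 1) < f ω t
  push_cast
  linarith

end Keldysh
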