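import Pool.Agent.Keldysh.Defs2
import Pool.Agent.Keldysh.M_gauss_prob
import Pool.Agent.Keldysh.M_exitIdx_le
import Pool.Agent.Keldysh.M_exitIdx_mem
import Pool.Agent.Keldysh.M_exitIdx_not_mem
import Pool.Agent.Keldysh.M_exitIdx_stop
import Pool.Agent.Keldysh.M_est_zero
import Pool.Agent.Keldysh.M_energy_est_global
import Pool.Agent.Keldysh.M_segCost_comm

open MeasureTheory ProbabilityTheory Filter Topology Set
open scoped ENNReal NNReal

namespace Keldysh

variable {n : ℕ} {Ω : Type*} [mΩ : MeasurableSpace Ω]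

/-- the truncated function -/
noncomputable def hitting_discrete_u (f : E n → ℝ≥0∞) (x : E n) : ℝ := (min (f x) 1).toReal

theorem hitting_discrete_u_ofReal (f : E n → ℝ≥0∞) (x : E n) :
    ENNReal.ofReal (hitting_discrete_u f x) = min (f x) 1 := by
  unfold hitting_discrete_u
  rw [ENNReal.ofReal_toReal]
  exact ne_top_of_le_ne_top ENNReal.one_ne_top (min_le_right _ _)

theorem hitting_discrete_u_nonneg (f : E n → ℝ≥0∞) (x : E n) : 0 ≤ hitting_discrete_u f x :=
  ENNReal.toReal_nonneg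

theorem hitting_discrete_u_le (f : E n → ℝ≥0∞) (x : E n) : hitting_discrete_u f x ≤ 1 := by
  unfold hitting_discrete_u
  have := ENNReal.toReal_mono ENNReal.one_ne_top (min_le_right (f x) 1)
  simpa using this

theorem hitting_discrete_u_meas {f : E n → ℝ≥0∞} (hf : Measurable f) :
    Measurable (hitting_discrete_u f) := (hf.min measurable_const).ennreal_toReal

theorem hitting_discrete_u_ug1 {f ρ : E n → ℝ≥0∞} (hf : UG f ρ) (x y : E n)
    (hc : segCost ρ x y ≠ ⊤) :
    hitting_discrete_u f x ≤ hitting_discrete_u f y + (segCost ρ x y).toReal := by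
  have h1 : min (f x) 1 ≤ min (f y) 1 + segCost ρ x y := by
    rw [← min_add_add_right]
    refine le_min ((min_le_left _ _).trans (hf.ug x y)) ((min_le_right _ _).trans ?_)
    exact le_add_of_nonneg_right zero_le
  have h2 : min (f y) 1 ≠ ⊤ := ne_top_of_le_ne_top ENNReal.one_ne_top (min_le_right _ _)
  have h3 := ENNReal.toReal_mono (ENNReal.add_ne_top.2 ⟨h2, hc⟩) h1
  rw [ENNReal.toReal_add h2 hc] at h3
  exact h3

theorem hitting_discrete_u_ug {f ρ : E n → ℝ≥0∞} (hf : UG f ρ) (x y : E n) :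
    ‖hitting_discrete_u f y - hitting_discrete_u f x‖ₑ ≤ segCost ρ x y := by
  by_cases hc : segCost ρ x y = ⊤
  · rw [hc]; exact le_top
  · have h1 := hitting_discrete_u_ug1 hf x y hc
    have h2 := hitting_discrete_u_ug1 hf y x (by rw [segCost_comm]; exact hc)
    rw [segCost_comm ρ y x] at h2
    rw [← ofReal_norm, Real.norm_eq_abs]
    refine (ENNReal.ofReal_le_ofReal (abs_le.2 ⟨?_, ?_⟩)).trans (ENNReal.ofReal_toReal_le
      (a := segCost ρ x y))
    · linarith
    · linarith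

theorem hitting_discrete_half {f : E n → ℝ≥0∞} {x : E n} (h : 1 / 2 < f x) :
    1 / 2 ≤ ENNReal.ofReal (hitting_discrete_u f x) := by
  rw [hitting_discrete_u_ofReal]
  refine le_min h.le ?_
  rw [one_div]
  exact ENNReal.inv_le_one.2 (by norm_num)

theorem hitting_discrete_meas {Y : ℕ → Ω → E n} (hY : ∀ j, Measurable (Y j)) {σ : Ω → ℕ}
    (hσ : Measurable σ) {g : E n → ℝ} (hg : Measurable g) :
    Measurable fun ω => g (Y (σ ω) ω) := by
  have h1 : Measurable (fun p : ℕ × Ω => g (Y p.1 p.2)) :=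
    measurable_from_prod_countable_right fun j => hg.comp (hY j)
  exact h1.comp (hσ.prodMk measurable_id)

theorem hitting_discrete_cs (P : Measure Ω) [IsProbabilityMeasure P] {g : Ω → ℝ≥0∞}
    (hg : Measurable g) : ∫⁻ ω, g ω ∂P ≤ (∫⁻ ω, g ω ^ 2 ∂P) ^ (1 / 2 : ℝ) := by
  have h := ENNReal.lintegral_mul_le_Lp_mul_Lq P (Real.HolderConjugate.two_two) hg.aemeasurable
    (measurable_const (a := (1 : ℝ≥0∞))).aemeasurable
  simp only [Pi.mul_apply, mul_one, lintegral_const, measure_univ,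
    ENNReal.rpow_two, one_pow, ENNReal.one_rpow] at h
  exact h

/-- C11 -/
theorem hitting_discrete (P : Measure Ω) [IsProbabilityMeasure P] (Y : ℕ → Ω → E n)
    (F : ℕ → MeasurableSpace Ω) (h C : ℝ≥0) (hY : GWalk P Y F h C) (f ρ : E n → ℝ≥0∞)
    (hf : UG f ρ) (N : ℕ) :
    P {ω | ∃ j ≤ N, 1 / 2 < f (Y j ω)} ≤
      2 * ((C * ∫⁻ x, f x ^ 2) ^ (1 / 2 : ℝ) + (N * C * (n * h * ∫⁻ x, ρ x ^ 2)) ^ (1 / 2 : ℝ)) := by
  have hfm : Measurable f := hf.lsc_f.measurable
  have hρm : Measurable ρ := hf.lsc_ρ.measurable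
  set D : Set (E n) := {x | f x ≤ 1 / 2} with hDdef
  have hD : MeasurableSet D := measurableSet_le hfm measurable_const
  have hYm : ∀ j, Measurable (Y j) := fun j => (hY.adapted j).mono (hY.F_le j) le_rfl
  set σ : Ω → ℕ := exitIdx Y D N with hσdef
  have hstop : IsStop F σ := exitIdx_stop Y F hY.F_mono hY.adapted D hD N
  have hσN : ∀ ω, σ ω ≤ N := fun ω => exitIdx_le Y D N ω
  have hσm : Measurable σ := by
    apply measurable_of_Iic
    intro j
    exact hY.F_le j _ (hstop j)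
  set u := hitting_discrete_u f with hudef
  have hum : Measurable u := hitting_discrete_u_meas hfm
  have hu0 : ∀ x, 0 ≤ u x := hitting_discrete_u_nonneg f
  have hu1 : ∀ x, u x ≤ 1 := hitting_discrete_u_le f
  have hsm : Measurable fun ω => u (Y (σ ω) ω) := hitting_discrete_meas hYm hσm hum
  have h0m : Measurable fun ω => u (Y 0 ω) := hum.comp (hYm 0)
  have hint1 : Integrable (fun ω => u (Y (σ ω) ω)) P := by
    refine Integrable.of_bound hsm.aestronglyMeasurable 1 (Eventually.of_forall fun ω => ?_)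
    rw [Real.norm_eq_abs, abs_of_nonneg (hu0 _)]
    exact hu1 _
  have hint0 : Integrable (fun ω => u (Y 0 ω)) P := by
    refine Integrable.of_bound h0m.aestronglyMeasurable 1 (Eventually.of_forall fun ω => ?_)
    rw [Real.norm_eq_abs, abs_of_nonneg (hu0 _)]
    exact hu1 _
  -- the event
  have hev : {ω | ∃ j ≤ N, 1 / 2 < f (Y j ω)} ⊆
      {ω | 1 / 2 ≤ ENNReal.ofReal (u (Y (σ ω) ω))} := by
    rintro ω ⟨j, hjN, hj⟩
    apply hitting_discrete_half
    rcases lt_or_eq_of_le (hσN ω) with hlt | heq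
    · have := exitIdx_not_mem Y D N ω hlt
      exact not_le.1 this
    · have hjN' : j = N := by
        by_contra hne
        have hjlt : j < N := lt_of_le_of_ne hjN hne
        have hjlt' : j < exitIdx Y D N ω := by
          rw [← heq] at hjlt; exact hjlt
        exact absurd (exitIdx_mem Y D N ω j hjlt') (not_le.2 hj)
      rw [heq, ← hjN']
      exact hj
  have hmk := mul_meas_ge_le_lintegral (μ := P) (hsm.ennreal_ofReal) (1 / 2)
  have h2 : P {ω | ∃ j ≤ N, 1 / 2 < f (Y j ω)} ≤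
      2 * ∫⁻ ω, ENNReal.ofReal (u (Y (σ ω) ω)) ∂P := by
    refine (measure_mono hev).trans ?_
    have e : (2 : ℝ≥0∞) * (1 / 2) = 1 := by
      rw [one_div]; exact ENNReal.mul_inv_cancel (by norm_num) (by norm_num)
    calc P {ω | 1 / 2 ≤ ENNReal.ofReal (u (Y (σ ω) ω))} =
        2 * (1 / 2 * P {ω | 1 / 2 ≤ ENNReal.ofReal (u (Y (σ ω) ω))}) := by
          rw [← mul_assoc, e, one_mul]
      _ ≤ _ := mul_le_mul_right hmk 2
  refine h2.trans (mul_le_mul_right ?_ 2)
  rw [← ofReal_integral_eq_lintegral_ofReal hint1 (Eventually.of_forall fun ω => hu0 _)]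
  set I := ∫ ω, (u (Y (σ ω) ω) - u (Y 0 ω)) ∂P with hI
  have hsplit : ∫ ω, u (Y (σ ω) ω) ∂P = ∫ ω, u (Y 0 ω) ∂P + I := by
    rw [hI, integral_sub hint1 hint0]; ring
  have h3 : ENNReal.ofReal (∫ ω, u (Y (σ ω) ω) ∂P) ≤
      ENNReal.ofReal (∫ ω, u (Y 0 ω) ∂P) + ENNReal.ofReal |I| := by
    rw [hsplit]
    refine (ENNReal.ofReal_le_ofReal (add_le_add_right (le_abs_self I) _)).trans ?_
    exact ENNReal.ofReal_add_le
  refine h3.trans (add_le_add ?_ ?_)
  · rw [ofReal_integral_eq_lintegral_ofReal hint0 (Eventually.of_forall fun ω => hu0 _)]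
    have e1 : ∫⁻ ω, ENNReal.ofReal (u (Y 0 ω)) ∂P ≤ ∫⁻ ω, f (Y 0 ω) ∂P := by
      refine lintegral_mono fun ω => ?_
      rw [hudef, hitting_discrete_u_ofReal]
      exact min_le_left _ _
    refine e1.trans ((hitting_discrete_cs P (hfm.comp (hYm 0))).trans ?_)
    apply ENNReal.rpow_le_rpow _ (by norm_num)
    have e2 : ∫⁻ ω, (f ∘ Y 0) ω ^ 2 ∂P = ∫⁻ x, f x ^ 2 ∂(P.map (Y 0)) := by
      rw [lintegral_map (hfm.pow_const 2) (hYm 0)]
      rfl
    rw [e2]
    refine (lintegral_mono' (hY.dens 0) le_rfl).trans ?_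
    rw [lintegral_smul_measure, smul_eq_mul]
  · have e1 := est_zero P Y F h C hY σ hstop N hσN D hD
      (fun ω j hj => exitIdx_mem Y D N ω j hj) u hum 1
      (fun x => by rw [abs_of_nonneg (hu0 x)]; exact hu1 x)
    have e2 := energy_est_global ρ hρm u hum (hitting_discrete_u_ug hf) h
    have e3 : ENNReal.ofReal (I ^ 2) ≤ N * C * (n * h * ∫⁻ x, ρ x ^ 2) := by
      refine e1.trans (mul_le_mul_right ?_ _)
      exact (setLIntegral_le_lintegral _ _).trans e2
    have e4 : ENNReal.ofReal |I| = (ENNReal.ofReal (I ^ 2)) ^ (1 / 2 : ℝ) := by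
      rw [ENNReal.ofReal_rpow_of_nonneg (sq_nonneg _) (by norm_num), ← Real.sqrt_eq_rpow,
        Real.sqrt_sq_eq_abs]
    rw [e4]
    exact ENNReal.rpow_le_rpow e3 (by norm_num)

end Keldysh
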