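import Pool.Agent.Keldysh.Defs2
import Pool.Agent.Keldysh.Defs3
import Pool.Agent.Keldysh.M_gauss_prob
import Pool.Agent.Keldysh.M_hitting_discrete
import Pool.Agent.Keldysh.M_gwalk_of_bm

open MeasureTheory ProbabilityTheory Filter Topology Set
open scoped ENNReal NNReal

namespace Keldysh

variable {n : ℕ} {Ω : Type*} [mΩ : MeasurableSpace Ω]

theorem hitting_bound_grid_succ (t0 T : ℝ≥0) (m j : ℕ) : gt t0 T m j = gt t0 T (m + 1) (2 * j) := by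
  unfold gt
  have h2 : (2 : ℝ≥0) ^ m ≠ 0 := by positivity
  congr 1
  rw [pow_succ]
  push_cast
  field_simp

theorem hitting_bound_grid_near (t0 T t : ℝ≥0) (hT : 0 < T) (h1 : t0 ≤ t) (h2 : t ≤ t0 + T)
    (U : Set ℝ≥0) (hU : IsOpen U) (ht : t ∈ U) : ∃ m j : ℕ, j ≤ 2 ^ m ∧ gt t0 T m j ∈ U := by
  obtain ⟨ε, hε, hb⟩ := Metric.isOpen_iff.mp hU t ht
  have hTr : (0 : ℝ) < T := by exact_mod_cast hT
  have h1r : (t0 : ℝ) ≤ t := by exact_mod_cast h1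
  have h2r : (t : ℝ) ≤ t0 + T := by exact_mod_cast h2
  obtain ⟨m, hm⟩ : ∃ m : ℕ, (T : ℝ) / ε < 2 ^ m := by
    obtain ⟨m, hm⟩ := pow_unbounded_of_one_lt ((T : ℝ) / ε) (by norm_num : (1 : ℝ) < 2)
    exact ⟨m, hm⟩
  have h2m : (0 : ℝ) < 2 ^ m := by positivity
  have hd : (0 : ℝ) < (T : ℝ) / 2 ^ m := by positivity
  have hde : (T : ℝ) / 2 ^ m < ε := by
    rw [div_lt_iff₀ hε] at hm
    rw [div_lt_iff₀ h2m]
    linarith [mul_comm ε ((2 : ℝ) ^ m)]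
  have hx0 : (0 : ℝ) ≤ ((t : ℝ) - t0) / ((T : ℝ) / 2 ^ m) :=
    div_nonneg (by linarith) hd.le
  have hxle : ((t : ℝ) - t0) / ((T : ℝ) / 2 ^ m) ≤ 2 ^ m := by
    rw [div_le_iff₀ hd]
    have : (2 : ℝ) ^ m * ((T : ℝ) / 2 ^ m) = T := by field_simp
    linarith
  refine ⟨m, ⌊((t : ℝ) - t0) / ((T : ℝ) / 2 ^ m)⌋₊, ?_, ?_⟩
  · have h3 := Nat.floor_le hx0
    have h4 : ((⌊((t : ℝ) - t0) / ((T : ℝ) / 2 ^ m)⌋₊ : ℕ) : ℝ) ≤ ((2 ^ m : ℕ) : ℝ) := by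
      push_cast
      linarith
    exact_mod_cast h4
  · apply hb
    have h3 := Nat.floor_le hx0
    have h4 := Nat.lt_floor_add_one (((t : ℝ) - t0) / ((T : ℝ) / 2 ^ m))
    rw [le_div_iff₀ hd] at h3
    rw [div_lt_iff₀ hd] at h4
    rw [Metric.mem_ball, NNReal.dist_eq]
    unfold gt
    push_cast
    rw [abs_lt]
    constructor
    · nlinarith
    · nlinarith

theorem hitting_bound_const (C T : ℝ≥0) (m : ℕ) (I : ℝ≥0∞) :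
    ((2 ^ m : ℕ) : ℝ≥0∞) * C * (n * ((T / 2 ^ m : ℝ≥0) : ℝ≥0∞) * I) =
      ((C * n * T : ℝ≥0) : ℝ≥0∞) * I := by
  have h2 : (2 : ℝ≥0) ^ m ≠ 0 := by positivity
  have e : ((2 ^ m : ℕ) : ℝ≥0∞) * C * (n * ((T / 2 ^ m : ℝ≥0) : ℝ≥0∞) * I) =
      (((2 : ℝ≥0) ^ m * C * (n * (T / 2 ^ m)) : ℝ≥0) : ℝ≥0∞) * I := by
    simp only [ENNReal.coe_mul, ENNReal.coe_natCast, ENNReal.coe_pow, Nat.cast_pow]
    push_cast
    ring
  rw [e]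
  congr 2
  field_simp

theorem hitting_bound_cast (C D : ℝ≥0) :
    ((2 * (C ^ (1 / 2 : ℝ) + D ^ (1 / 2 : ℝ)) : ℝ≥0) : ℝ≥0∞) =
      2 * ((C : ℝ≥0∞) ^ (1 / 2 : ℝ) + (D : ℝ≥0∞) ^ (1 / 2 : ℝ)) := by
  have hh : (0 : ℝ) ≤ 1 / 2 := by norm_num
  rw [ENNReal.coe_mul, ENNReal.coe_add, ENNReal.coe_rpow_of_nonneg _ hh,
    ENNReal.coe_rpow_of_nonneg _ hh, ENNReal.coe_ofNat]

/-- E2: hitting bound. -/
theorem hitting_bound (P : Measure Ω) [IsProbabilityMeasure P] (B : ℝ≥0 → Ω → E n)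
    (F : ℝ≥0 → MeasurableSpace Ω) (a : E n) (hB : NiceBM P B F a) (t0 : ℝ≥0) (ht0 : 0 < t0)
    (T : ℝ≥0) : ∃ K : ℝ≥0, ∀ f ρ : E n → ℝ≥0∞, UG f ρ →
      P {ω | ∃ t, t0 ≤ t ∧ t ≤ t0 + T ∧ 1 / 2 < f (B t ω)} ≤
        K * ((∫⁻ x, f x ^ 2) + ∫⁻ x, ρ x ^ 2) ^ (1 / 2 : ℝ) := by
  obtain ⟨C, hC⟩ := gwalk_of_bm P B F a hB t0 ht0
  refine ⟨2 * (C ^ (1 / 2 : ℝ) + (C * n * T) ^ (1 / 2 : ℝ)), ?_⟩
  intro f ρ hf
  set A : ℕ → Set Ω := fun m => {ω | ∃ j ≤ 2 ^ m, 1 / 2 < f (B (gt t0 T m j) ω)} with hA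
  have hmono : Monotone A := by
    apply monotone_nat_of_le_succ
    intro m ω hω
    obtain ⟨j, hj, hj2⟩ := hω
    refine ⟨2 * j, ?_, ?_⟩
    · rw [pow_succ]; omega
    · rw [← hitting_bound_grid_succ]
      exact hj2
  have hsub : {ω | ∃ t, t0 ≤ t ∧ t ≤ t0 + T ∧ 1 / 2 < f (B t ω)} ⊆ ⋃ m, A m := by
    intro ω hω
    obtain ⟨t, h1, h2, h3⟩ := hω
    rw [Set.mem_iUnion]
    rcases eq_or_lt_of_le (show (0 : ℝ≥0) ≤ T from zero_le) with hT | hT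
    · refine ⟨0, 0, Nat.zero_le _, ?_⟩
      have : gt t0 T 0 0 = t := by
        unfold gt
        rw [← hT] at h2 ⊢
        simp only [Nat.cast_zero, zero_mul, add_zero] at h2 ⊢
        exact le_antisymm h1 h2
      rw [this]
      exact h3
    · have hopen : IsOpen ((fun s => B s ω) ⁻¹' (f ⁻¹' Set.Ioi (1 / 2))) :=
        (hf.lsc_f.isOpen_preimage (1 / 2)).preimage (hB.cont ω)
      obtain ⟨m, j, hj, hmem⟩ := hitting_bound_grid_near t0 T t hT h1 h2 _ hopen h3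
      exact ⟨m, j, hj, hmem⟩
  calc P {ω | ∃ t, t0 ≤ t ∧ t ≤ t0 + T ∧ 1 / 2 < f (B t ω)} ≤ P (⋃ m, A m) := measure_mono hsub
    _ = ⨆ m, P (A m) := hmono.measure_iUnion
    _ ≤ _ := by
      apply iSup_le
      intro m
      have h := hitting_discrete P (fun j => B (gt t0 T m j)) (fun j => F (gt t0 T m j))
        (T / 2 ^ m) C (hC T m) f ρ hf (2 ^ m)
      refine h.trans ?_
      rw [hitting_bound_const]
      set If := ∫⁻ x, f x ^ 2 with hIf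
      set Ir := ∫⁻ x, ρ x ^ 2 with hIr
      have hh : (0 : ℝ) ≤ 1 / 2 := by norm_num
      have e1 : ((C : ℝ≥0∞) * If) ^ (1 / 2 : ℝ) ≤ (C : ℝ≥0∞) ^ (1 / 2 : ℝ) * (If + Ir) ^ (1 / 2 : ℝ) := by
        rw [← ENNReal.mul_rpow_of_nonneg _ _ hh]
        exact ENNReal.rpow_le_rpow (mul_le_mul_right (le_self_add) _) hh
      have e2 : (((C * n * T : ℝ≥0) : ℝ≥0∞) * Ir) ^ (1 / 2 : ℝ) ≤
          ((C * n * T : ℝ≥0) : ℝ≥0∞) ^ (1 / 2 : ℝ) * (If + Ir) ^ (1 / 2 : ℝ) := by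
        rw [← ENNReal.mul_rpow_of_nonneg _ _ hh]
        exact ENNReal.rpow_le_rpow (mul_le_mul_right (le_add_self) _) hh
      calc 2 * (((C : ℝ≥0∞) * If) ^ (1 / 2 : ℝ) + (((C * n * T : ℝ≥0) : ℝ≥0∞) * Ir) ^ (1 / 2 : ℝ))
          ≤ 2 * ((C : ℝ≥0∞) ^ (1 / 2 : ℝ) * (If + Ir) ^ (1 / 2 : ℝ) +
            ((C * n * T : ℝ≥0) : ℝ≥0∞) ^ (1 / 2 : ℝ) * (If + Ir) ^ (1 / 2 : ℝ)) := by
            gcongr
        _ = ((2 * (C ^ (1 / 2 : ℝ) + (C * n * T) ^ (1 / 2 : ℝ)) : ℝ≥0) : ℝ≥0∞) *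
            (If + Ir) ^ (1 / 2 : ℝ) := by
            rw [hitting_bound_cast C (C * n * T)]
            ring

end Keldysh
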