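import Pool.Agent.Keldysh.Defs2

open MeasureTheory ProbabilityTheory Filter Topology Set
open scoped ENNReal NNReal

namespace Keldysh

variable {n : ℕ} {Ω : Type*} [mΩ : MeasurableSpace Ω]

theorem lintegral_tsum_sq_add (a b : ℝ≥0∞) : (a + b) ^ 2 ≤ 2 * a ^ 2 + 2 * b ^ 2 := by
  rcases eq_or_ne a ⊤ with rfl | ha
  · simp
  rcases eq_or_ne b ⊤ with rfl | hb
  · simp
  lift a to ℝ≥0 using ha
  lift b to ℝ≥0 using hb
  have h : (a + b) ^ 2 ≤ 2 * (a ^ 2 + b ^ 2) := add_sq_le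
  rw [mul_add] at h
  exact_mod_cast h

theorem lintegral_tsum_sq_fin (N : ℕ) : ∀ a : ℕ → ℝ≥0∞,
    (∑ j ∈ Finset.range N, a j) ^ 2 ≤ ∑ j ∈ Finset.range N, 2 ^ (j + 1) * a j ^ 2 := by
  induction N with
  | zero => intro a; simp
  | succ N ih =>
    intro a
    rw [Finset.sum_range_succ', Finset.sum_range_succ', add_comm, add_comm (Finset.sum _ _)]
    refine (lintegral_tsum_sq_add _ _).trans ?_
    rw [zero_add, pow_one]
    gcongr
    calc 2 * (∑ j ∈ Finset.range N, a (j + 1)) ^ 2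
        ≤ 2 * ∑ j ∈ Finset.range N, 2 ^ (j + 1) * a (j + 1) ^ 2 := by
          gcongr
          exact ih (fun j => a (j + 1))
      _ = ∑ j ∈ Finset.range N, 2 ^ (j + 1 + 1) * a (j + 1) ^ 2 := by
          rw [Finset.mul_sum]
          refine Finset.sum_congr rfl fun j _ => ?_
          rw [pow_succ 2 (j + 1)]
          ring

theorem lintegral_tsum_sq_pt (a : ℕ → ℝ≥0∞) :
    (∑' j, a j) ^ 2 ≤ ∑' j, 2 ^ (j + 1) * a j ^ 2 := by
  have h1 : Tendsto (fun N => (∑ j ∈ Finset.range N, a j) ^ 2) atTop (𝓝 ((∑' j, a j) ^ 2)) :=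
    ((ENNReal.continuous_pow 2).tendsto _).comp (ENNReal.tendsto_nat_tsum a)
  exact le_of_tendsto' h1 fun N => (lintegral_tsum_sq_fin N a).trans (ENNReal.sum_le_tsum _)

/-- B3 -/
theorem lintegral_tsum_sq (f : ℕ → E n → ℝ≥0∞) (hf : ∀ j, Measurable (f j)) :
    ∫⁻ x, (∑' j, f j x) ^ 2 ≤ ∑' j, 2 ^ (j + 1) * ∫⁻ x, f j x ^ 2 := by
  calc ∫⁻ x, (∑' j, f j x) ^ 2 ≤ ∫⁻ x, ∑' j, 2 ^ (j + 1) * f j x ^ 2 :=
        lintegral_mono fun x => lintegral_tsum_sq_pt _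
    _ = ∑' j, ∫⁻ x, 2 ^ (j + 1) * f j x ^ 2 :=
        lintegral_tsum fun j => (((hf j).pow_const 2).const_mul _).aemeasurable
    _ = ∑' j, 2 ^ (j + 1) * ∫⁻ x, f j x ^ 2 := by
        congr 1
        funext j
        exact lintegral_const_mul _ ((hf j).pow_const 2)

end Keldysh
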