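import Pool.Agent.Keldysh.Defs2
import Pool.Agent.Keldysh.Defs3
import Pool.Agent.Keldysh.M_inner_mono
import Pool.Agent.Keldysh.M_inner_facts
import Pool.Agent.Keldysh.M_cauchy_two
import Pool.Agent.Keldysh.M_grid_no_overshoot_prob
import Pool.Agent.Keldysh.M_grid_final

open MeasureTheory ProbabilityTheory Filter Topology Set
open scoped ENNReal NNReal

namespace Keldysh

variable {n : ℕ} {Ω : Type*} [mΩ : MeasurableSpace Ω]

theorem path_to_exit_aux (P : Measure Ω) [IsProbabilityMeasure P] (B : ℝ≥0 → Ω → E n)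
    (F : ℝ≥0 → MeasurableSpace Ω) (a : E n) (hB : NiceBM P B F a) (t0 : ℝ≥0) (ht0 : 0 < t0)
    (V : Set (E n)) (hV : IsOpen V) (hVb : Bornology.IsBounded V)
    (hVc : Vᶜ.Nonempty) (hVne : V.Nonempty) (ρ : E n → ℝ≥0∞) (hρ : LowerSemicontinuous ρ)
    (hρ2 : ∫⁻ x in V, ρ x ^ 2 ≠ ⊤) (T : ℝ≥0) (hT : 0 < T) :
    ∀ᵐ ω ∂P, ∀ τ : ℝ≥0, t0 < τ → τ < t0 + T → (∀ t, t0 ≤ t → t < τ → B t ω ∈ V) → B τ ω ∉ V →
      ∀ η : ℝ≥0∞, η ≠ 0 → ∃ x : ℕ → E n, (∃ θ, t0 ≤ θ ∧ θ < τ ∧ x 0 = B θ ω) ∧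
        (∑' i, pd ρ V (x i) (x (i + 1))) < η ∧ Tendsto x atTop (𝓝 (B τ ω)) := by
  have hmeas : ∀ t, Measurable (B t) := fun t => (hB.adapted t).mono (hB.F_le t) le_rfl
  have hδ : ∀ i : ℕ, (0 : ℝ) < (1 / 2) ^ (i + 1) := fun i => by positivity
  choose k0 hk0 using fun i : ℕ => cauchy_two P B F a hB t0 ht0 T hT V hV hVb hVc hVne ρ hρ hρ2
    ((1 / 2) ^ (i + 1)) (hδ i)
  let k : ℕ → ℕ := fun i => i + ∑ j ∈ Finset.range (i + 1), k0 j
  have hkdef : ∀ i, k i = i + ∑ j ∈ Finset.range (i + 1), k0 j := fun i => rfl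
  have hk : StrictMono k := by
    apply strictMono_nat_of_lt_succ
    intro i
    rw [hkdef, hkdef, Finset.sum_range_succ _ (i + 1)]
    omega
  have hki : ∀ i, k0 i ≤ k i := by
    intro i
    rw [hkdef, Finset.sum_range_succ]
    omega
  choose m1 hm1 using fun i : ℕ => hk0 i (k i) (hki i) (k (i + 1)) (hk (Nat.lt_succ_self i)).le
  choose m0 hm0 using fun i : ℕ => grid_no_overshoot_prob P B hmeas hB.cont V hV hVc t0 T hT (k i)
    ((1 / 2) ^ (i + 1)) (hδ i)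
  let m : ℕ → ℕ := fun i => Nat.rec (m0 0) (fun i mi => max (mi + 1) (max (m1 i mi) (m0 (i + 1)))) i
  have hm0' : m 0 = m0 0 := rfl
  have hms : ∀ i, m (i + 1) = max (m i + 1) (max (m1 i (m i)) (m0 (i + 1))) := fun i => rfl
  have hmS : StrictMono m := by
    apply strictMono_nat_of_lt_succ
    intro i
    rw [hms]
    exact lt_of_lt_of_le (Nat.lt_succ_self _) (le_max_left _ _)
  have hmm0 : ∀ i, m0 i ≤ m i := by
    intro i
    cases i with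
    | zero => exact le_of_eq hm0'.symm
    | succ j =>
      rw [hms]
      exact (le_max_right _ _).trans (le_max_right _ _)
  have hmm1 : ∀ i, m1 i (m i) ≤ m (i + 1) := by
    intro i
    rw [hms]
    exact (le_max_left _ _).trans (le_max_right _ _)
  have hPA := fun i : ℕ => hm1 i (m i) (m (i + 1)) (hmm1 i) (hmS (Nat.lt_succ_self i)).le
  have hPO := fun i : ℕ => hm0 i (m i) (hmm0 i)
  have hsummable : Summable (fun i : ℕ => ((1 : ℝ) / 2) ^ (i + 1)) :=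
    (summable_nat_add_iff 1).2 summable_geometric_two
  have hsum : ∑' i : ℕ, ENNReal.ofReal (((1 : ℝ) / 2) ^ (i + 1)) ≠ ⊤ :=
    hsummable.tsum_ofReal_ne_top
  have hA := ae_eventually_notMem (ne_top_of_le_ne_top hsum (ENNReal.tsum_le_tsum hPA))
  have hO := ae_eventually_notMem (ne_top_of_le_ne_top hsum (ENNReal.tsum_le_tsum hPO))
  filter_upwards [hA, hO] with ω hAω hOω
  intro τ hτ hτT hin hout η hη
  set p : ℝ≥0 → E n := fun t => B t ω with hp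
  set θ : ℕ → ℝ≥0 := fun i => gt t0 T (m i) (gridExit t0 T (inner V (k i)) (m i) p) with hθ
  have hOω' : ∀ᶠ i in atTop, ∀ t, t0 ≤ t →
      t < gt t0 T (m i) (gridExit t0 T (inner V (k i)) (m i) p) → p t ∈ inner V (k i + 1) := by
    filter_upwards [hOω] with i hi
    intro t ht1 ht2
    by_contra hcon
    exact hi ⟨t, ht1, ht2, hcon⟩
  obtain ⟨h1, h2, h3⟩ := grid_final V hV hVc t0 T hT p (hB.cont ω) τ hτ hτT hin hout k m hk hmS
    hOω'
  have h4 := ENNReal.tendsto_sum_nat_add (fun i : ℕ => ENNReal.ofReal (((1 : ℝ) / 2) ^ (i + 1))) hsum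
  have h5 : ∀ᶠ i0 in atTop,
      ∑' j : ℕ, ENNReal.ofReal (((1 : ℝ) / 2) ^ (j + i0 + 1)) < η :=
    (tendsto_order.1 h4).2 η (pos_iff_ne_zero.2 hη)
  have h6 : ∀ᶠ i in atTop, pd ρ V (p (θ i)) (p (θ (i + 1))) ≤
      ENNReal.ofReal (((1 : ℝ) / 2) ^ (i + 1)) := by
    filter_upwards [hAω, h2] with i hi hi2
    by_contra hcon
    rw [not_le] at hcon
    exact hi ⟨hin t0 le_rfl hτ, hi2, hcon⟩
  obtain ⟨i0, hi0⟩ := ((eventually_atTop.1 (h1.and h6)))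
  obtain ⟨i1, hi1⟩ := (eventually_atTop.1 h5)
  set N := max i0 i1 with hN
  refine ⟨fun j => B (θ (j + N)) ω, ⟨θ (0 + N), ?_, ?_, rfl⟩, ?_, ?_⟩
  · exact le_self_add
  · exact (hi0 (0 + N) (by omega)).1
  · refine lt_of_le_of_lt (ENNReal.tsum_le_tsum fun j => ?_) (hi1 N (le_max_right _ _))
    have := (hi0 (j + N) (by omega)).2
    have e : j + 1 + N = j + N + 1 := by ring
    change pd ρ V (B (θ (j + N)) ω) (B (θ (j + 1 + N)) ω) ≤ _
    rw [e]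
    exact this
  · have h7 : Tendsto (fun j => θ (j + N)) atTop (𝓝 τ) := h3.comp (tendsto_add_atTop_nat N)
    exact ((hB.cont ω).tendsto τ).comp h7

/-- E11: path to the exit point. -/
theorem path_to_exit (P : Measure Ω) [IsProbabilityMeasure P] (B : ℝ≥0 → Ω → E n)
    (F : ℝ≥0 → MeasurableSpace Ω) (a : E n) (hB : NiceBM P B F a) (t0 : ℝ≥0) (ht0 : 0 < t0)
    (V : Set (E n)) (hV : IsOpen V) (hVb : Bornology.IsBounded V)
    (hVc : Vᶜ.Nonempty) (ρ : E n → ℝ≥0∞) (hρ : LowerSemicontinuous ρ)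
    (hρ2 : ∫⁻ x in V, ρ x ^ 2 ≠ ⊤) :
    ∀ᵐ ω ∂P, ∀ τ : ℝ≥0, t0 < τ → (∀ t, t0 ≤ t → t < τ → B t ω ∈ V) → B τ ω ∉ V →
      ∀ η : ℝ≥0∞, η ≠ 0 → ∃ x : ℕ → E n, (∃ θ, t0 ≤ θ ∧ θ < τ ∧ x 0 = B θ ω) ∧
        (∑' i, pd ρ V (x i) (x (i + 1))) < η ∧ Tendsto x atTop (𝓝 (B τ ω)) := by
  rcases V.eq_empty_or_nonempty with hVe | hVne
  · refine Eventually.of_forall fun ω τ hτ hin => ?_
    have := hin t0 le_rfl hτ
    rw [hVe] at this
    exact absurd this (Set.notMem_empty _)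
  · have h := fun N : ℕ => path_to_exit_aux P B F a hB t0 ht0 V hV hVb hVc hVne ρ hρ hρ2
      ((N : ℝ≥0) + 1) (by positivity)
    have h' := ae_all_iff.2 h
    filter_upwards [h'] with ω hω
    intro τ hτ hin hout η hη
    obtain ⟨N, hN⟩ := exists_nat_gt τ
    refine hω N τ hτ ?_ hin hout η hη
    calc τ < (N : ℝ≥0) := hN
      _ ≤ (N : ℝ≥0) + 1 := le_self_add
      _ ≤ t0 + ((N : ℝ≥0) + 1) := le_add_self

end Keldysh
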