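import Pool.Agent.Keldysh.Defs2
import Pool.Agent.Keldysh.M_PP_contDiff
import Pool.Agent.Keldysh.M_PP_L2
import Pool.Agent.Keldysh.M_UG_of_contDiff
import Pool.Agent.Keldysh.M_lintegral_tsum_sq
import Pool.Agent.Keldysh.M_H1_combos
import Pool.Agent.Keldysh.M_le_convexHull_apply

open MeasureTheory ProbabilityTheory Filter Topology Set
open scoped ENNReal NNReal

namespace Keldysh

variable {n : ℕ} {Ω : Type*} [mΩ : MeasurableSpace Ω]

theorem regular_majorant_series (e : ℝ) (he : 0 < e) (s : ℕ → ℝ≥0∞)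
    (h0 : s 0 ≤ ENNReal.ofReal (2 * e))
    (hs : ∀ j, s (j + 1) ≤ ENNReal.ofReal (e / 4 ^ (j + 1))) :
    ∑' j, 2 ^ (j + 1) * s j ≤ 16 * ENNReal.ofReal e := by
  rw [tsum_eq_zero_add' ENNReal.summable]
  have h1 : (2 : ℝ≥0∞) ^ (0 + 1) * s 0 ≤ ENNReal.ofReal (4 * e) := by
    calc (2 : ℝ≥0∞) ^ (0 + 1) * s 0 ≤ 2 * ENNReal.ofReal (2 * e) := by
          rw [zero_add, pow_one]
          gcongr
      _ = ENNReal.ofReal (2 * (2 * e)) := by
          rw [ENNReal.ofReal_mul (p := 2) (q := 2 * e) (by norm_num), ENNReal.ofReal_ofNat]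
      _ = ENNReal.ofReal (4 * e) := by ring_nf
  have h2 : ∀ j : ℕ, (2 : ℝ≥0∞) ^ (j + 1 + 1) * s (j + 1) ≤ ENNReal.ofReal (e * (1 / 2) ^ j) := by
    intro j
    calc (2 : ℝ≥0∞) ^ (j + 1 + 1) * s (j + 1)
        ≤ (2 : ℝ≥0∞) ^ (j + 1 + 1) * ENNReal.ofReal (e / 4 ^ (j + 1)) := by
          gcongr
          exact hs j
      _ = ENNReal.ofReal (2 ^ (j + 1 + 1) * (e / 4 ^ (j + 1))) := by
          rw [ENNReal.ofReal_mul (by positivity), ENNReal.ofReal_pow (by norm_num),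
            ENNReal.ofReal_ofNat]
      _ = ENNReal.ofReal (e * (1 / 2) ^ j) := by
          congr 1
          have h4 : (4 : ℝ) ^ (j + 1) = 2 ^ (j + 1 + 1) * 2 ^ j := by
            rw [show (4 : ℝ) = 2 ^ 2 by norm_num, ← pow_mul, ← pow_add]
            congr 1
            ring
          rw [h4, one_div, inv_pow]
          have h5 : (2 : ℝ) ^ (j + 1 + 1) ≠ 0 := by positivity
          have h6 : (2 : ℝ) ^ j ≠ 0 := by positivity
          field_simp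
  have h3 : ∑' j : ℕ, ENNReal.ofReal (e * (1 / 2) ^ j) = ENNReal.ofReal (2 * e) := by
    rw [← ENNReal.ofReal_tsum_of_nonneg (fun j => by positivity)
      (summable_geometric_two.mul_left e), tsum_mul_left, tsum_geometric_two]
    congr 1
    ring
  calc (2 : ℝ≥0∞) ^ (0 + 1) * s 0 + ∑' j : ℕ, (2 : ℝ≥0∞) ^ (j + 1 + 1) * s (j + 1)
      ≤ ENNReal.ofReal (4 * e) + ∑' j : ℕ, ENNReal.ofReal (e * (1 / 2) ^ j) :=
        add_le_add h1 (ENNReal.tsum_le_tsum h2)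
    _ = ENNReal.ofReal (6 * e) := by
        rw [h3, ← ENNReal.ofReal_add (by positivity) (by positivity)]
        congr 1
        ring
    _ ≤ ENNReal.ofReal (16 * e) := ENNReal.ofReal_le_ofReal (by linarith)
    _ = 16 * ENNReal.ofReal e := by
        rw [ENNReal.ofReal_mul (by norm_num), ENNReal.ofReal_ofNat]

theorem regular_majorant_tele (c d : ℕ → E n → ℝ) (hd0 : d 0 = c 0)
    (hd1 : ∀ j, d (j + 1) = fun y => c (j + 1) y - c j y) (j : ℕ) (x : E n) :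
    c j x = ∑ i ∈ Finset.range (j + 1), d i x := by
  induction j with
  | zero => simp [hd0]
  | succ j ih =>
    rw [Finset.sum_range_succ, ← ih, hd1 j]
    ring

/-- B14c -/
theorem regular_majorant (D : E n → ℝ) (hD : Measurable D) (hb : ∀ x, |D x| ≤ 1) (R : ℝ)
    (hs : ∀ x, R ≤ ‖x‖ → D x = 0) (e : ℝ) (he : 0 < e)
    (h0 : ∫⁻ x, ‖D x‖ₑ ^ 2 ≤ ENNReal.ofReal e)
    (h1 : ∀ t : ℝ≥0, t ≠ 0 → ∫⁻ x, ‖gradient (PP t D) x‖ₑ ^ 2 ≤ ENNReal.ofReal e) :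
    ∃ f ρ : E n → ℝ≥0∞, UG f ρ ∧
      (∫⁻ x, f x ^ 2) + (∫⁻ x, ρ x ^ 2) ≤ 16 * ENNReal.ofReal e ∧
      ∀ x, ∀ b : ℝ, (∀ᶠ k : ℕ in atTop, b ≤ PP (1 / 2 ^ k) D x) → ENNReal.ofReal b ≤ f x := by
  have htk : ∀ k : ℕ, (1 / 2 ^ k : ℝ≥0) ≠ 0 := by
    intro k
    positivity
  have hc : ∀ k : ℕ, ContDiff ℝ 1 (PP (1 / 2 ^ k) D) := fun k =>
    PP_contDiff _ (htk k) D hD 1 hb R hs
  have hM : ∀ k : ℕ, (∫⁻ x, ‖PP (1 / 2 ^ k) D x‖ₑ ^ 2) +
      ∫⁻ x, ‖gradient (PP (1 / 2 ^ k) D) x‖ₑ ^ 2 ≤ ((2 * e).toNNReal : ℝ≥0) := by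
    intro k
    calc (∫⁻ x, ‖PP (1 / 2 ^ k) D x‖ₑ ^ 2) + ∫⁻ x, ‖gradient (PP (1 / 2 ^ k) D) x‖ₑ ^ 2
        ≤ ENNReal.ofReal e + ENNReal.ofReal e :=
          add_le_add ((PP_L2 _ D hD 1 hb).trans h0) (h1 _ (htk k))
      _ = ENNReal.ofReal (2 * e) := by
          rw [← ENNReal.ofReal_add he.le he.le]
          congr 1
          ring
      _ = _ := rfl
  obtain ⟨c, hc1, hc2, hc3, hc4⟩ := H1_combos (fun k => PP (1 / 2 ^ k) D) hc _ hM
    (fun j => e / 4 ^ (j + 1)) (fun j => by positivity)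
  obtain ⟨d, hd0, hd1⟩ : ∃ d : ℕ → E n → ℝ, d 0 = c 0 ∧
      ∀ j, d (j + 1) = fun y => c (j + 1) y - c j y :=
    ⟨fun j => Nat.casesOn j (c 0) (fun j y => c (j + 1) y - c j y), rfl, fun _ => rfl⟩
  have hdc : ∀ j, ContDiff ℝ 1 (d j) := by
    intro j
    cases j with
    | zero => rw [hd0]; exact hc1 0
    | succ j => rw [hd1]; exact (hc1 (j + 1)).sub (hc1 j)
  have hUG := UG_of_contDiff d hdc (fun _ => 1)
  simp only [ENNReal.coe_one, one_mul] at hUG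
  refine ⟨_, _, hUG, ?_, ?_⟩
  · have i1 := lintegral_tsum_sq (fun j x => ‖d j x‖ₑ) (fun j => (hdc j).continuous.measurable.enorm)
    have hgm : ∀ j, Measurable (fun x => ‖gradient (d j) x‖ₑ) := by
      intro j
      have : Continuous (gradient (d j)) := by
        unfold gradient
        exact (InnerProductSpace.toDual ℝ (E n)).symm.continuous.comp
          ((hdc j).continuous_fderiv one_ne_zero)
      exact this.measurable.enorm
    have i2 := lintegral_tsum_sq (fun j x => ‖gradient (d j) x‖ₑ) hgm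
    calc (∫⁻ x, (∑' j, ‖d j x‖ₑ) ^ 2) + ∫⁻ x, (∑' j, ‖gradient (d j) x‖ₑ) ^ 2
        ≤ (∑' j, 2 ^ (j + 1) * ∫⁻ x, ‖d j x‖ₑ ^ 2) +
          ∑' j, 2 ^ (j + 1) * ∫⁻ x, ‖gradient (d j) x‖ₑ ^ 2 := add_le_add i1 i2
      _ = ∑' j, 2 ^ (j + 1) * ((∫⁻ x, ‖d j x‖ₑ ^ 2) + ∫⁻ x, ‖gradient (d j) x‖ₑ ^ 2) := by
          rw [← ENNReal.tsum_add]
          congr 1
          funext j
          rw [mul_add]
      _ ≤ 16 * ENNReal.ofReal e := by
          apply regular_majorant_series e he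
          · rw [hd0]
            exact hc3
          · intro j
            rw [hd1 j]
            exact hc4 j
  · intro x b hbx
    obtain ⟨K, hK⟩ := eventually_atTop.1 hbx
    have hcK : b ≤ c K x := le_convexHull_apply _ K (c K) (hc2 K) x b hK
    calc ENNReal.ofReal b ≤ ENNReal.ofReal (c K x) := ENNReal.ofReal_le_ofReal hcK
      _ ≤ ‖c K x‖ₑ := Real.ofReal_le_enorm _
      _ = ‖∑ i ∈ Finset.range (K + 1), d i x‖ₑ := by
          rw [regular_majorant_tele c d hd0 hd1 K x]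
      _ ≤ ∑ i ∈ Finset.range (K + 1), ‖d i x‖ₑ := enorm_sum_le _ _
      _ ≤ ∑' j, ‖d j x‖ₑ := ENNReal.sum_le_tsum _

end Keldysh
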