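import Pool.Agent.Keldysh.Defs2
import Pool.Agent.Keldysh.M_gauss_density
import Pool.Agent.Keldysh.M_PP_sub
import Pool.Agent.Keldysh.M_lintegral_tsum_sq
import Pool.Agent.Keldysh.M_UG_tsum
import Pool.Agent.Keldysh.M_PP_tendsto
import Pool.Agent.Keldysh.M_exists_bump
import Pool.Agent.Keldysh.M_energy_combos_lim
import Pool.Agent.Keldysh.M_regular_majorant

open MeasureTheory ProbabilityTheory Filter Topology Set
open scoped ENNReal NNReal

namespace Keldysh

variable {n : ℕ} {Ω : Type*} [mΩ : MeasurableSpace Ω]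

theorem quasi_lindelof_integrable (q : E n) (r : ℝ) (φ : E n → ℝ) (hφm : Measurable φ)
    (h01 : ∀ x, 0 ≤ φ x ∧ φ x ≤ 1) (hs : ∀ x, x ∉ Metric.ball q (2 * r) → φ x = 0)
    (u : E n → ℝ) (hu : Measurable u) (hu0 : ∀ x, 0 ≤ u x) (hu1 : ∀ x, u x ≤ 1) :
    Integrable (fun x => φ x * u x) := by
  have h1 : Integrable ((Metric.ball q (2*r)).indicator (fun _ : E n => (1:ℝ))) := by
    rw [integrable_indicator_iff measurableSet_ball]
    exact integrableOn_const (measure_ball_lt_top).ne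
  refine h1.mono' (hφm.mul hu).aestronglyMeasurable (ae_of_all _ fun x => ?_)
  by_cases hx : x ∈ Metric.ball q (2*r)
  · rw [indicator_of_mem hx, Real.norm_eq_abs, abs_of_nonneg (mul_nonneg (h01 x).1 (hu0 x))]
    exact mul_le_one₀ (h01 x).2 (hu0 x) (hu1 x)
  · rw [indicator_of_notMem hx, hs x hx]; simp

/-- comparison of `PP` for functions ordered a.e. -/
theorem quasi_lindelof_PP_mono (t : ℝ≥0) (ht : t ≠ 0) (u v : E n → ℝ) (hu : Measurable u)
    (hv : Measurable v) (hbu : ∀ x, |u x| ≤ 1) (hbv : ∀ x, |v x| ≤ 1)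
    (h : ∀ᵐ x ∂(volume : Measure (E n)), u x ≤ v x) (x : E n) : PP t u x ≤ PP t v x := by
  have hprob : IsProbabilityMeasure (gauss n t) := by
    unfold gauss
    exact Measure.isProbabilityMeasure_map (by fun_prop)
  have hac : gauss n t ≪ (volume : Measure (E n)) := by
    rw [gauss_density n t ht]
    exact withDensity_absolutelyContinuous _ _
  have h2 : ∀ᵐ z ∂(volume : Measure (E n)), u (x + z) ≤ v (x + z) :=
    (measurePreserving_add_left (volume : Measure (E n)) x).quasiMeasurePreserving.ae h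
  have h3 : ∀ᵐ z ∂(gauss n t), u (x + z) ≤ v (x + z) := hac.ae_le h2
  have hi : ∀ w : E n → ℝ, Measurable w → (∀ x, |w x| ≤ 1) →
      Integrable (fun z => w (x + z)) (gauss n t) := by
    intro w hw hb
    refine Integrable.mono' (integrable_const (1:ℝ))
      (hw.comp (measurable_const.add measurable_id)).aestronglyMeasurable
      (ae_of_all _ fun z => ?_)
    exact hb _
  exact integral_mono_ae (hi u hu hbu) (hi v hv hbv) h3

/-- B14: quasi-Lindelöf property for a family of `SubAt` functions. -/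
theorem quasi_lindelof (q : E n) (r : ℝ) (G : Set (E n → ℝ)) (hne : G.Nonempty)
    (hG : ∀ g ∈ G, SubAt g q r)
    (hmax : ∀ g ∈ G, ∀ g' ∈ G, (fun x => max (g x) (g' x)) ∈ G) (ε : ℝ≥0∞)
    (hε : ε ≠ 0) : ∃ (g : ℕ → E n → ℝ) (f ρ : E n → ℝ≥0∞), (∀ k, g k ∈ G) ∧ UG f ρ ∧
      (∫⁻ x, f x ^ 2) + (∫⁻ x, ρ x ^ 2) ≤ ε ∧
      ∀ x ∈ Metric.ball q r, (∃ g' ∈ G, 0 < g' x) → (∃ k, 0 < g k x) ∨ 1 ≤ f x := by
  classical
  obtain ⟨g0, hg0⟩ := hne
  have hr : 0 < r := (hG g0 hg0).pos
  obtain ⟨φ, hφ, h01, hs, h1⟩ := exists_bump q r hr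
  have hφm : Measurable φ := hφ.continuous.measurable
  set I : (E n → ℝ) → ℝ := fun u => ∫ x, φ x * u x with hI
  have hint : ∀ u ∈ G, Integrable (fun x => φ x * u x) := fun u hu =>
    quasi_lindelof_integrable q r φ hφm h01 hs u (hG u hu).meas (hG u hu).nonneg (hG u hu).le_one
  have hφint : Integrable φ := by
    have := quasi_lindelof_integrable q r φ hφm h01 hs (fun _ => 1) measurable_const
      (fun _ => zero_le_one) (fun _ => le_rfl)
    simpa using this
  have hbdd : BddAbove (I '' G) := by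
    refine ⟨∫ x, φ x, ?_⟩
    rintro _ ⟨u, hu, rfl⟩
    exact integral_mono (hint u hu) hφint
      (fun x => mul_le_of_le_one_right (h01 x).1 ((hG u hu).le_one x))
  have hJ : ∀ k : ℕ, ∃ u ∈ G, sSup (I '' G) - 1/((k:ℝ)+1) < I u := by
    intro k
    have h0 : sSup (I '' G) - 1/((k:ℝ)+1) < sSup (I '' G) := by
      have : (0:ℝ) < 1/((k:ℝ)+1) := by positivity
      linarith
    obtain ⟨_, ⟨u, hu, rfl⟩, h⟩ := exists_lt_of_lt_csSup (⟨_, mem_image_of_mem I hg0⟩) h0
    exact ⟨u, hu, h⟩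
  choose h hhG hhJ using hJ
  let g : ℕ → E n → ℝ := fun k => Nat.rec (h 0) (fun m gm => fun x => max (gm x) (h (m+1) x)) k
  have hgs : ∀ k, g (k+1) = fun x => max (g k x) (h (k+1) x) := fun k => rfl
  have hgG : ∀ k, g k ∈ G := by
    intro k
    induction k with
    | zero => exact hhG 0
    | succ k ih => rw [hgs]; exact hmax _ ih _ (hhG _)
  have hmono : Monotone g := monotone_nat_of_le_succ
    (fun k x => by rw [hgs]; exact le_max_left _ _)
  have hgh : ∀ k x, h k x ≤ g k x := by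
    intro k x
    cases k with
    | zero => exact le_rfl
    | succ k => rw [hgs]; exact le_max_right _ _
  have hb1 : ∀ x, BddAbove (range fun k => g k x) := by
    intro x
    refine ⟨1, ?_⟩
    rintro _ ⟨k, rfl⟩
    exact (hG _ (hgG k)).le_one x
  set Gi : E n → ℝ := fun x => ⨆ k, g k x with hGi
  have hlim : ∀ x, Tendsto (fun k => g k x) atTop (𝓝 (Gi x)) := fun x =>
    tendsto_atTop_ciSup (fun i j hij => hmono hij x) (hb1 x)
  have hle : ∀ k x, g k x ≤ Gi x := fun k x => le_ciSup (hb1 x) k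
  have hGm : Measurable Gi :=
    measurable_of_tendsto_metrizable (fun k => (hG _ (hgG k)).meas) (tendsto_pi_nhds.2 hlim)
  have hG0 : ∀ x, 0 ≤ Gi x := fun x => ((hG _ (hgG 0)).nonneg x).trans (hle 0 x)
  have hG1 : ∀ x, Gi x ≤ 1 := fun x => ciSup_le fun k => (hG _ (hgG k)).le_one x
  have hGint : Integrable (fun x => φ x * Gi x) :=
    quasi_lindelof_integrable q r φ hφm h01 hs Gi hGm hG0 hG1
  have hJle : sSup (I '' G) ≤ ∫ x, φ x * Gi x := by
    have hk : ∀ k : ℕ, sSup (I '' G) - 1/((k:ℝ)+1) ≤ ∫ x, φ x * Gi x := by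
      intro k
      refine (hhJ k).le.trans ?_
      exact integral_mono (hint _ (hhG k)) hGint
        (fun x => mul_le_mul_of_nonneg_left ((hgh k x).trans (hle k x)) (h01 x).1)
    have ht : Tendsto (fun k : ℕ => sSup (I '' G) - 1/((k:ℝ)+1)) atTop (𝓝 (sSup (I '' G) - 0)) :=
      tendsto_const_nhds.sub tendsto_one_div_add_atTop_nhds_zero_nat
    rw [sub_zero] at ht
    exact le_of_tendsto' ht hk
  have hae : ∀ g' ∈ G, ∀ᵐ x ∂(volume : Measure (E n)), φ x * g' x ≤ φ x * Gi x := by
    intro g' hg'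
    have hmm : Measurable fun x => max (g' x) (Gi x) := (hG _ hg').meas.max hGm
    have hmint : Integrable (fun x => φ x * max (g' x) (Gi x)) :=
      quasi_lindelof_integrable q r φ hφm h01 hs _ hmm
        (fun x => le_max_of_le_left ((hG _ hg').nonneg x))
        (fun x => max_le ((hG _ hg').le_one x) (hG1 x))
    have hconv : Tendsto (fun k => ∫ x, φ x * max (g' x) (g k x)) atTop
        (𝓝 (∫ x, φ x * max (g' x) (Gi x))) := by
      refine tendsto_integral_of_dominated_convergence φ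
        (fun k => (hφm.mul ((hG _ hg').meas.max (hG _ (hgG k)).meas)).aestronglyMeasurable)
        hφint (fun k => ae_of_all _ fun x => ?_) (ae_of_all _ fun x => ?_)
      · rw [Real.norm_eq_abs, abs_of_nonneg (mul_nonneg (h01 x).1
          (le_max_of_le_left ((hG _ hg').nonneg x)))]
        exact mul_le_of_le_one_right (h01 x).1
          (max_le ((hG _ hg').le_one x) ((hG _ (hgG k)).le_one x))
      · exact (tendsto_const_nhds.max (hlim x)).const_mul _
    have hle2 : ∫ x, φ x * max (g' x) (Gi x) ≤ sSup (I '' G) := by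
      refine le_of_tendsto' hconv fun k => ?_
      exact le_csSup hbdd (mem_image_of_mem I (hmax _ hg' _ (hgG k)))
    have hdiff : ∫ x, (φ x * max (g' x) (Gi x) - φ x * Gi x) ≤ 0 := by
      rw [integral_sub hmint hGint]
      linarith
    have hnn : 0 ≤ᵐ[volume] fun x => (φ x * max (g' x) (Gi x) - φ x * Gi x) :=
      ae_of_all _ fun x => by
        have := mul_le_mul_of_nonneg_left (le_max_right (g' x) (Gi x)) (h01 x).1
        simp only [Pi.zero_apply]
        linarith
    have hz : ∫ x, (φ x * max (g' x) (Gi x) - φ x * Gi x) = 0 :=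
      le_antisymm hdiff (integral_nonneg_of_ae hnn)
    have hz2 := (integral_eq_zero_iff_of_nonneg_ae hnn (hmint.sub hGint)).1 hz
    filter_upwards [hz2] with x hx
    simp only [Pi.zero_apply] at hx
    have := mul_le_mul_of_nonneg_left (le_max_left (g' x) (Gi x)) (h01 x).1
    linarith
  obtain ⟨δ, hδ, hδs⟩ := ENNReal.exists_pos_sum_of_countable hε ℕ
  set e : ℕ → ℝ≥0 := fun l => δ l / (16 * 2 ^ (l + 1)) with he
  have hepos : ∀ l, 0 < e l := fun l => div_pos (hδ l) (by positivity)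
  have hee : ∀ l, 2 ^ (l + 1) * (16 * ENNReal.ofReal (e l : ℝ)) = (δ l : ℝ≥0∞) := by
    intro l
    rw [ENNReal.ofReal_coe_nnreal]
    have : (2 : ℝ≥0) ^ (l + 1) * (16 * e l) = δ l := by
      rw [he]
      have h2 : (16 * 2 ^ (l + 1) : ℝ≥0) ≠ 0 := by positivity
      field_simp
    rw [← this]
    push_cast
    ring
  have hc := fun l => energy_combos_lim q r φ hφ h01 hs g (fun k => hG _ (hgG k)) hmono Gi hlim
    (e l : ℝ) (by exact_mod_cast hepos l)
  choose c hcS hcle hcE hcgrad using hc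
  have hDm : ∀ l, Measurable fun x => φ x * (Gi x - c l x) := fun l =>
    hφm.mul (hGm.sub (hcS l).meas)
  have hDb : ∀ l x, |φ x * (Gi x - c l x)| ≤ 1 := by
    intro l x
    have h3 : 0 ≤ Gi x - c l x := sub_nonneg.2 (hcle l x)
    have h4 : Gi x - c l x ≤ 1 := by linarith [hG1 x, (hcS l).nonneg x]
    rw [abs_of_nonneg (mul_nonneg (h01 x).1 h3)]
    exact mul_le_one₀ (h01 x).2 h3 h4
  have hDs : ∀ l x, ‖q‖ + 2 * r ≤ ‖x‖ → φ x * (Gi x - c l x) = 0 := by
    intro l x hx
    have : x ∉ Metric.ball q (2 * r) := by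
      intro hx2
      rw [Metric.mem_ball, dist_eq_norm] at hx2
      have := norm_le_norm_add_norm_sub' x q
      linarith
    rw [hs x this, zero_mul]
  have hreg := fun l => regular_majorant (fun x => φ x * (Gi x - c l x)) (hDm l) (hDb l)
    (‖q‖ + 2 * r) (hDs l) (e l : ℝ) (by exact_mod_cast hepos l) (hcE l) (hcgrad l)
  choose f ρ hUG hN hmaj using hreg
  refine ⟨g, fun x => ∑' l, ((1 : ℝ≥0) : ℝ≥0∞) * f l x, fun x => ∑' l, ((1 : ℝ≥0) : ℝ≥0∞) * ρ l x,
    hgG, UG_tsum f ρ hUG (fun _ => 1), ?_, ?_⟩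
  · simp only [ENNReal.coe_one, one_mul]
    have hf := lintegral_tsum_sq f (fun l => (hUG l).lsc_f.measurable)
    have hρ := lintegral_tsum_sq ρ (fun l => (hUG l).lsc_ρ.measurable)
    refine (add_le_add hf hρ).trans ?_
    rw [← ENNReal.tsum_add]
    refine le_trans (ENNReal.tsum_le_tsum fun l => ?_) hδs.le
    rw [← mul_add, ← hee l]
    exact mul_le_mul_right (hN l) _
  · intro x hx hx'
    obtain ⟨g', hg', hpos⟩ := hx'
    rcases Classical.em (∃ k : ℕ, 0 < g k x) with hk | hk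
    · exact Or.inl hk
    right
    push Not at hk
    have hg0x : ∀ k, g k x = 0 := fun k => le_antisymm (hk k) ((hG _ (hgG k)).nonneg x)
    have hGx : Gi x = 0 := by
      have := hlim x
      simp only [hg0x] at this
      exact tendsto_nhds_unique this tendsto_const_nhds
    have hcx : ∀ l, c l x = 0 := fun l =>
      le_antisymm ((hcle l x).trans hGx.le) ((hcS l).nonneg x)
    have hfl : ∀ l, ENNReal.ofReal (g' x / 2) ≤ f l x := by
      intro l
      refine hmaj l x (g' x / 2) ?_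
      have t1 := PP_tendsto q r φ hφ h01 hs h1 g' (hG _ hg') x hx
      have t2 := PP_tendsto q r φ hφ h01 hs h1 (c l) (hcS l) x hx
      rw [hcx l] at t2
      have e1 := t1.eventually (lt_mem_nhds (show 3 / 4 * g' x < g' x by linarith))
      have e2 := t2.eventually (gt_mem_nhds (show (0:ℝ) < 1 / 4 * g' x by linarith))
      filter_upwards [e1, e2] with k h3 h4
      have hb : ∀ u : E n → ℝ, (∀ y, 0 ≤ u y) → (∀ y, u y ≤ 1) → ∀ y, |φ y * u y| ≤ 1 := by
        intro u hu0 hu1 y
        rw [abs_of_nonneg (mul_nonneg (h01 y).1 (hu0 y))]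
        exact mul_le_one₀ (h01 y).2 (hu0 y) (hu1 y)
      have h5 : PP (1 / 2 ^ k) (fun y => φ y * g' y) x ≤ PP (1 / 2 ^ k) (fun y => φ y * Gi y) x :=
        quasi_lindelof_PP_mono (1 / 2 ^ k) (by positivity) _ _ (hφm.mul (hG _ hg').meas)
          (hφm.mul hGm) (hb g' (hG _ hg').nonneg (hG _ hg').le_one) (hb Gi hG0 hG1)
          (hae g' hg') x
      have h6 := PP_sub (1 / 2 ^ k) (fun y => φ y * Gi y) (fun y => φ y * c l y) (hφm.mul hGm)
        (hφm.mul (hcS l).meas) 1 (hb Gi hG0 hG1) (hb (c l) (hcS l).nonneg (hcS l).le_one) x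
      have h7 : (fun y => φ y * (Gi y - c l y)) = fun y => φ y * Gi y - φ y * c l y := by
        funext y; ring
      rw [h7, h6]
      linarith
    have htop : (∑' l : ℕ, ((1 : ℝ≥0) : ℝ≥0∞) * f l x) = ⊤ := by
      rw [eq_top_iff]
      have : (∑' _ : ℕ, ENNReal.ofReal (g' x / 2)) = ⊤ := by
        refine ENNReal.tsum_const_eq_top_of_ne_zero ?_
        simpa using hpos
      rw [← this]
      refine ENNReal.tsum_le_tsum fun l => ?_
      rw [ENNReal.coe_one, one_mul]
      exact hfl l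
    simp only [htop]
    exact le_top

end Keldysh
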