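import Pool.Agent.Keldysh.Defs2
import Pool.Agent.Keldysh.M_PP_contDiff
import Pool.Agent.Keldysh.M_PP_L2
import Pool.Agent.Keldysh.M_PP_grad
import Pool.Agent.Keldysh.M_UG_of_contDiff
import Pool.Agent.Keldysh.M_lintegral_tsum_sq
import Pool.Agent.Keldysh.M_H1_combos
import Pool.Agent.Keldysh.M_convexHull_apply_le
import Pool.Agent.Keldysh.M_le_convexHull_apply
import Pool.Agent.Keldysh.M_energy_bound
import Pool.Agent.Keldysh.M_PP_tendsto
import Pool.Agent.Keldysh.M_exists_bump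

open MeasureTheory ProbabilityTheory Filter Topology Set
open scoped ENNReal NNReal

namespace Keldysh

variable {n : ℕ} {Ω : Type*} [mΩ : MeasurableSpace Ω]

theorem quasi_open_piece_grad_cont (d : E n → ℝ) (hd : ContDiff ℝ 1 d) :
    Continuous (gradient d) := by
  have h1 : Continuous (fderiv ℝ d) := hd.continuous_fderiv one_ne_zero
  exact (InnerProductSpace.toDual ℝ (E n)).symm.continuous.comp h1

theorem quasi_open_piece_energy (q : E n) (r : ℝ) (g φ : E n → ℝ) (hg : SubAt g q r)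
    (hφ : ContDiff ℝ 2 φ)
    (h01 : ∀ x, 0 ≤ φ x ∧ φ x ≤ 1) (hs : ∀ x, x ∉ Metric.ball q (2 * r) → φ x = 0) :
    ∃ M : ℝ≥0, ∀ k : ℕ, ContDiff ℝ 1 (PP (1 / 2 ^ k) (fun y => φ y * g y)) ∧
      (∫⁻ x, ‖PP (1 / 2 ^ k) (fun y => φ y * g y) x‖ₑ ^ 2) +
        ∫⁻ x, ‖gradient (PP (1 / 2 ^ k) (fun y => φ y * g y)) x‖ₑ ^ 2 ≤ M := by
  obtain ⟨M0, hM0⟩ := energy_bound q r φ hφ h01 hs
  have hGm : Measurable (fun y => φ y * g y) := hφ.continuous.measurable.mul hg.meas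
  have hGb : ∀ x, |(fun y => φ y * g y) x| ≤ 1 := by
    intro x
    have h1 := h01 x
    have h2 := hg.nonneg x
    have h3 := hg.le_one x
    simp only
    rw [abs_of_nonneg (mul_nonneg h1.1 h2)]
    nlinarith [h1.1, h1.2]
  have hGs : ∀ x, ‖q‖ + 2 * r ≤ ‖x‖ → (fun y => φ y * g y) x = 0 := by
    intro x hx
    have : x ∉ Metric.ball q (2 * r) := by
      rw [Metric.mem_ball, not_lt, dist_eq_norm]
      have := norm_sub_norm_le x q
      linarith
    simp only [hs x this, zero_mul]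
  have hk : ∀ k : ℕ, (1 / 2 ^ k : ℝ≥0) ≠ 0 := by
    intro k
    positivity
  have hvol : volume (Metric.ball q (2 * r)) ≠ ⊤ := measure_ball_lt_top.ne
  refine ⟨(volume (Metric.ball q (2 * r))).toNNReal + M0, fun k => ⟨?_, ?_⟩⟩
  · exact PP_contDiff (1 / 2 ^ k) (hk k) _ hGm 1 hGb (‖q‖ + 2 * r) hGs
  · rw [ENNReal.coe_add, ENNReal.coe_toNNReal hvol]
    refine add_le_add ?_ ?_
    · refine (PP_L2 (1 / 2 ^ k) _ hGm 1 hGb).trans ?_
      rw [← lintegral_indicator_one Metric.isOpen_ball.measurableSet]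
      refine lintegral_mono ?_
      intro x
      by_cases hx : x ∈ Metric.ball q (2 * r)
      · simp only [Set.indicator_of_mem hx, Pi.one_apply]
        have h1 : ‖φ x * g x‖ₑ ≤ 1 := by
          rw [← ofReal_norm_eq_enorm, Real.norm_eq_abs]
          exact ENNReal.ofReal_le_one.2 (hGb x)
        calc ‖φ x * g x‖ₑ ^ 2 ≤ 1 ^ 2 := by gcongr
          _ = 1 := one_pow 2
      · simp only [Set.indicator_of_notMem hx, hs x hx]
        simp
    · refine (PP_grad (1 / 2 ^ k) (hk k) _ hGm 1 hGb (‖q‖ + 2 * r) hGs).trans ?_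
      have hle : ∀ j : ℕ, (2 : ℝ≥0∞) ^ j *
        ∫⁻ z, ∫⁻ x, ‖(fun y => φ y * g y) (x + z) - (fun y => φ y * g y) x‖ₑ ^ 2 ∂volume
          ∂(gauss n (1 / 2 ^ j)) ≤ M0 := by
        intro j
        have h1 := hM0 g hg (1 / 2 ^ j) (hk j) (by
          rw [one_div]
          exact inv_le_one_of_one_le₀ (one_le_pow₀ (by norm_num)))
        calc _ ≤ (2 : ℝ≥0∞) ^ j * (M0 * ((1 / 2 ^ j : ℝ≥0) : ℝ≥0∞)) := by
              gcongr
          _ = M0 := by
            have h2 : (2 : ℝ≥0∞) ^ j = ((2 ^ j : ℝ≥0) : ℝ≥0∞) := by push_cast; rfl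
            rw [h2, ← ENNReal.coe_mul, ← ENNReal.coe_mul]
            congr 1
            field_simp
      calc _ ≤ liminf (fun _ : ℕ => (M0 : ℝ≥0∞)) atTop := by
            exact liminf_le_liminf (Eventually.of_forall hle)
        _ = M0 := liminf_const _

theorem quasi_open_piece_sum (d : ℕ → E n → ℝ) (hd : ∀ j, ContDiff ℝ 1 (d j)) (e : ℝ)
    (he : 0 < e)
    (hb : ∀ j, (∫⁻ x, ‖d j x‖ₑ ^ 2) + ∫⁻ x, ‖gradient (d j) x‖ₑ ^ 2 ≤
      ENNReal.ofReal (e / (2 ^ (j + 1) * 4 ^ j * 2 ^ (j + 1)))) :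
    (∫⁻ x, (∑' j, ((2 ^ j : ℝ≥0) : ℝ≥0∞) * ‖d j x‖ₑ) ^ 2) +
      (∫⁻ x, (∑' j, ((2 ^ j : ℝ≥0) : ℝ≥0∞) * ‖gradient (d j) x‖ₑ) ^ 2) ≤ ENNReal.ofReal e := by
  have hm1 : ∀ j, Measurable (fun x => ‖d j x‖ₑ) := fun j => (hd j).continuous.measurable.enorm
  have hm2 : ∀ j, Measurable (fun x => ‖gradient (d j) x‖ₑ) := fun j =>
    (quasi_open_piece_grad_cont (d j) (hd j)).measurable.enorm
  have h1 := lintegral_tsum_sq (fun j x => ((2 ^ j : ℝ≥0) : ℝ≥0∞) * ‖d j x‖ₑ)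
    (fun j => (hm1 j).const_mul _)
  have h2 := lintegral_tsum_sq (fun j x => ((2 ^ j : ℝ≥0) : ℝ≥0∞) * ‖gradient (d j) x‖ₑ)
    (fun j => (hm2 j).const_mul _)
  refine (add_le_add h1 h2).trans ?_
  rw [← ENNReal.tsum_add]
  have key : ∀ j : ℕ, 2 ^ (j + 1) * (∫⁻ x, (((2 ^ j : ℝ≥0) : ℝ≥0∞) * ‖d j x‖ₑ) ^ 2) +
      2 ^ (j + 1) * (∫⁻ x, (((2 ^ j : ℝ≥0) : ℝ≥0∞) * ‖gradient (d j) x‖ₑ) ^ 2) ≤
      ENNReal.ofReal (e / 2 / 2 ^ j) := by
    intro j
    have e1 : (∫⁻ x, (((2 ^ j : ℝ≥0) : ℝ≥0∞) * ‖d j x‖ₑ) ^ 2) =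
        4 ^ j * ∫⁻ x, ‖d j x‖ₑ ^ 2 := by
      rw [← lintegral_const_mul _ ((hm1 j).pow_const 2)]
      congr 1
      ext x
      rw [mul_pow]
      congr 1
      push_cast
      rw [← pow_mul, mul_comm j 2, pow_mul]
      norm_num
    have e2 : (∫⁻ x, (((2 ^ j : ℝ≥0) : ℝ≥0∞) * ‖gradient (d j) x‖ₑ) ^ 2) =
        4 ^ j * ∫⁻ x, ‖gradient (d j) x‖ₑ ^ 2 := by
      rw [← lintegral_const_mul _ ((hm2 j).pow_const 2)]
      congr 1
      ext x
      rw [mul_pow]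
      congr 1
      push_cast
      rw [← pow_mul, mul_comm j 2, pow_mul]
      norm_num
    rw [e1, e2, ← mul_add, ← mul_add]
    refine (mul_le_mul_right (mul_le_mul_right (hb j) (4 ^ j)) (2 ^ (j + 1))).trans ?_
    have e3 : (2 : ℝ≥0∞) ^ (j + 1) = ENNReal.ofReal (2 ^ (j + 1)) := by
      rw [ENNReal.ofReal_pow (by norm_num)]
      norm_num
    have e4 : (4 : ℝ≥0∞) ^ j = ENNReal.ofReal (4 ^ j) := by
      rw [ENNReal.ofReal_pow (by norm_num)]
      norm_num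
    rw [e3, e4, ← ENNReal.ofReal_mul (by positivity), ← ENNReal.ofReal_mul (by positivity)]
    apply le_of_eq
    congr 1
    rw [pow_succ]
    field_simp
  refine (ENNReal.tsum_le_tsum key).trans ?_
  rw [← ENNReal.ofReal_tsum_of_nonneg (fun j => by positivity) (summable_geometric_two' e),
    tsum_geometric_two' e]

/-- B13: a piece `{g > 0}` is quasi-open. -/
theorem quasi_open_piece (q : E n) (r : ℝ) (g : E n → ℝ) (hg : SubAt g q r) (ε : ℝ≥0∞)
    (hε : ε ≠ 0) : ∃ f ρ : E n → ℝ≥0∞, UG f ρ ∧ (∫⁻ x, f x ^ 2) + (∫⁻ x, ρ x ^ 2) ≤ ε ∧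
      IsOpen ({x | x ∈ Metric.ball q r ∧ 0 < g x} ∪ {x | 1 < f x}) := by
  obtain ⟨φ, hφ, h01, hs, h1⟩ := exists_bump q r hg.pos
  obtain ⟨M, hM⟩ := quasi_open_piece_energy q r g φ hg hφ h01 hs
  set e : ℝ := (min ε 1).toReal with he_def
  have hmin_ne : min ε 1 ≠ 0 := by
    intro h0
    rcases min_choice ε 1 with h | h
    · rw [h] at h0; exact hε h0
    · rw [h] at h0; exact one_ne_zero h0
  have hmin_top : min ε 1 ≠ ⊤ := (lt_of_le_of_lt (min_le_right _ _) ENNReal.one_lt_top).ne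
  have he : 0 < e := ENNReal.toReal_pos hmin_ne hmin_top
  have heε : ENNReal.ofReal e ≤ ε := by
    rw [he_def, ENNReal.ofReal_toReal hmin_top]
    exact min_le_left _ _
  obtain ⟨c, hcd, hcc, -, hce⟩ := H1_combos (fun k => PP (1 / 2 ^ k) (fun y => φ y * g y))
    (fun k => (hM k).1) M (fun k => (hM k).2)
    (fun j => e / (2 ^ (j + 1) * 4 ^ j * 2 ^ (j + 1))) (fun j => by positivity)
  have hdd : ∀ j, ContDiff ℝ 1 (fun y => c (j + 1) y - c j y) := fun j =>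
    (hcd (j + 1)).sub (hcd j)
  have hUG := UG_of_contDiff (fun j y => c (j + 1) y - c j y) hdd (fun j => 2 ^ j)
  have hconv : ∀ x ∈ Metric.ball q r, Tendsto (fun j => c j x) atTop (𝓝 (g x)) := by
    intro x hx
    have ht := PP_tendsto q r φ hφ h01 hs h1 g hg x hx
    rw [Metric.tendsto_atTop] at ht ⊢
    intro δ hδ
    obtain ⟨K, hK⟩ := ht (δ / 2) (by positivity)
    refine ⟨K, fun j hj => ?_⟩
    have hle := convexHull_apply_le _ j (c j) (hcc j) x (g x + δ / 2) (fun k hk => by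
      have := hK k (hj.trans hk)
      rw [Real.dist_eq, abs_lt] at this
      linarith [this.2])
    have hge := le_convexHull_apply _ j (c j) (hcc j) x (g x - δ / 2) (fun k hk => by
      have := hK k (hj.trans hk)
      rw [Real.dist_eq, abs_lt] at this
      linarith [this.1])
    rw [Real.dist_eq, abs_lt]
    constructor <;> linarith
  refine ⟨_, _, hUG, ?_, ?_⟩
  · exact (quasi_open_piece_sum _ hdd e he hce).trans heε
  · have hclose : ∀ y ∈ Metric.ball q r,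
        (∑' j, (((2 : ℝ≥0) ^ j : ℝ≥0) : ℝ≥0∞) * ‖c (j + 1) y - c j y‖ₑ) ≤ 1 →
        ∀ j, |c j y - g y| ≤ 2 / 2 ^ j := by
      intro y hy hfy j
      have hstep : ∀ i, dist (c i y) (c (i + 1) y) ≤ 2 / 2 / 2 ^ i := by
        intro i
        have hi : (((2 : ℝ≥0) ^ i : ℝ≥0) : ℝ≥0∞) * ‖c (i + 1) y - c i y‖ₑ ≤ 1 :=
          (ENNReal.le_tsum i).trans hfy
        have hi2 : (((2 : ℝ≥0) ^ i * ‖c (i + 1) y - c i y‖₊ : ℝ≥0) : ℝ≥0∞) ≤ 1 := by
          rw [ENNReal.coe_mul]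
          exact hi
        have hi3 : ((2 : ℝ≥0) ^ i * ‖c (i + 1) y - c i y‖₊ : ℝ≥0) ≤ 1 := by
          exact_mod_cast hi2
        have hi4 : (2 : ℝ) ^ i * ‖c (i + 1) y - c i y‖ ≤ 1 := by
          exact_mod_cast hi3
        rw [dist_comm, Real.dist_eq, le_div_iff₀ (by positivity)]
        rw [Real.norm_eq_abs] at hi4
        linarith
      have := dist_le_of_le_geometric_two_of_tendsto (C := 2) hstep (hconv y hy) j
      rwa [Real.dist_eq] at this
    rw [isOpen_iff_mem_nhds]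
    have hopen : IsOpen {x | 1 < ∑' j, (((2 : ℝ≥0) ^ j : ℝ≥0) : ℝ≥0∞) *
        ‖c (j + 1) x - c j x‖ₑ} := hUG.lsc_f.isOpen_preimage 1
    intro x hx
    by_cases hfx : 1 < ∑' j, (((2 : ℝ≥0) ^ j : ℝ≥0) : ℝ≥0∞) * ‖c (j + 1) x - c j x‖ₑ
    · exact mem_of_superset (hopen.mem_nhds hfx) subset_union_right
    · rcases hx with ⟨hxb, hgx⟩ | hx
      · rw [not_lt] at hfx
        obtain ⟨j, hj⟩ : ∃ j : ℕ, 2 / 2 ^ j < g x / 4 := by
          obtain ⟨j, hj⟩ := exists_pow_lt_of_lt_one (show 0 < g x / 8 by positivity)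
            (show (1 / 2 : ℝ) < 1 by norm_num)
          refine ⟨j, ?_⟩
          rw [one_div, inv_pow] at hj
          rw [div_eq_mul_inv]
          linarith
        have hcx := hclose x hxb hfx j
        rw [abs_le] at hcx
        have hcont : ∀ᶠ y in 𝓝 x, g x / 2 < c j y :=
          (hcd j).continuous.continuousAt.eventually_const_lt (by linarith [hcx.1])
        have hball : ∀ᶠ y in 𝓝 x, y ∈ Metric.ball q r := Metric.isOpen_ball.mem_nhds hxb
        filter_upwards [hcont, hball] with y hy1 hy2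
        by_cases hfy : 1 < ∑' j, (((2 : ℝ≥0) ^ j : ℝ≥0) : ℝ≥0∞) * ‖c (j + 1) y - c j y‖ₑ
        · exact Or.inr hfy
        · rw [not_lt] at hfy
          left
          refine ⟨hy2, ?_⟩
          have hcy := hclose y hy2 hfy j
          rw [abs_le] at hcy
          linarith [hcy.2]
      · exact absurd hx hfx

end Keldysh
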