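import Pool.Agent.Keldysh.Defs2
import Pool.Agent.Keldysh.M_lintegral_tsum_sq
import Pool.Agent.Keldysh.M_UG_tsum
import Pool.Agent.Keldysh.M_SubAt_max
import Pool.Agent.Keldysh.M_fine_local
import Pool.Agent.Keldysh.M_quasi_open_piece
import Pool.Agent.Keldysh.M_quasi_lindelof

open MeasureTheory ProbabilityTheory Filter Topology Set
open scoped ENNReal NNReal

namespace Keldysh

variable {n : ℕ} {Ω : Type*} [mΩ : MeasurableSpace Ω]

theorem quasi_open_of_finelyOpen_UGzero : UG (fun _ : E n => (0 : ℝ≥0∞)) (fun _ => 0) where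
  lsc_f := lowerSemicontinuous_const
  lsc_ρ := lowerSemicontinuous_const
  ug := fun _ _ => zero_le

theorem quasi_open_of_finelyOpen_sum {ι : Type} [Encodable ι] (ε : ℝ≥0∞) (hε : ε ≠ 0) :
    ∃ η : ι → ℝ≥0∞, (∀ i, η i ≠ 0) ∧ ∀ f ρ : ι → E n → ℝ≥0∞, (∀ i, UG (f i) (ρ i)) →
      (∀ i, (∫⁻ x, f i x ^ 2) + (∫⁻ x, ρ i x ^ 2) ≤ η i) →
      ∃ f' ρ' : E n → ℝ≥0∞, UG f' ρ' ∧ (∫⁻ x, f' x ^ 2) + (∫⁻ x, ρ' x ^ 2) ≤ ε ∧
        ∀ i x, f i x ≤ f' x := by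
  classical
  obtain ⟨δ, hδ, hδs⟩ := ENNReal.exists_pos_sum_of_countable hε ℕ
  refine ⟨fun i => (δ (Encodable.encode i) : ℝ≥0∞) / 2 ^ (Encodable.encode i + 1), ?_, ?_⟩
  · intro i
    refine (ENNReal.div_pos ?_ ?_).ne'
    · exact_mod_cast (hδ _).ne'
    · exact ENNReal.pow_ne_top (by simp)
  · intro f ρ hUG hN
    obtain ⟨F, hF⟩ : ∃ F : ℕ → E n → ℝ≥0∞, F = fun j =>
        match Encodable.decode₂ ι j with
        | some i => f i
        | none => fun _ => 0 := ⟨_, rfl⟩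
    obtain ⟨R, hR⟩ : ∃ R : ℕ → E n → ℝ≥0∞, R = fun j =>
        match Encodable.decode₂ ι j with
        | some i => ρ i
        | none => fun _ => 0 := ⟨_, rfl⟩
    have hF0 : ∀ j, Encodable.decode₂ ι j = none → F j = fun _ => 0 := by
      intro j hd
      rw [hF]
      simp only [hd]
    have hF1 : ∀ j i, Encodable.decode₂ ι j = some i → F j = f i := by
      intro j i hd
      rw [hF]
      simp only [hd]
    have hR0 : ∀ j, Encodable.decode₂ ι j = none → R j = fun _ => 0 := by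
      intro j hd
      rw [hR]
      simp only [hd]
    have hR1 : ∀ j i, Encodable.decode₂ ι j = some i → R j = ρ i := by
      intro j i hd
      rw [hR]
      simp only [hd]
    have hFR : ∀ j, UG (F j) (R j) ∧
        (∫⁻ x, F j x ^ 2) + (∫⁻ x, R j x ^ 2) ≤ (δ j : ℝ≥0∞) / 2 ^ (j + 1) := by
      intro j
      rcases hd : Encodable.decode₂ ι j with _ | i
      · rw [hF0 j hd, hR0 j hd]
        refine ⟨quasi_open_of_finelyOpen_UGzero, ?_⟩
        simp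
      · rw [hF1 j i hd, hR1 j i hd]
        have he : Encodable.encode i = j := Encodable.mem_decode₂.1 hd
        refine ⟨hUG i, ?_⟩
        have := hN i
        simp only [he] at this
        exact this
    have hFi : ∀ i, F (Encodable.encode i) = f i := by
      intro i
      exact hF1 _ _ (Encodable.encodek₂ i)
    refine ⟨fun x => ∑' j, F j x, fun x => ∑' j, R j x, ?_, ?_, ?_⟩
    · have := UG_tsum F R (fun j => (hFR j).1) (fun _ => 1)
      simpa using this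
    · have h1 := lintegral_tsum_sq F (fun j => (hFR j).1.lsc_f.measurable)
      have h2 := lintegral_tsum_sq R (fun j => (hFR j).1.lsc_ρ.measurable)
      calc (∫⁻ x, (∑' j, F j x) ^ 2) + (∫⁻ x, (∑' j, R j x) ^ 2)
          ≤ (∑' j, 2 ^ (j + 1) * ∫⁻ x, F j x ^ 2) + ∑' j, 2 ^ (j + 1) * ∫⁻ x, R j x ^ 2 :=
            add_le_add h1 h2
        _ = ∑' j : ℕ, (2 ^ (j + 1) * (∫⁻ x, F j x ^ 2) + 2 ^ (j + 1) * ∫⁻ x, R j x ^ 2) :=
            (ENNReal.tsum_add).symm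
        _ ≤ ∑' j : ℕ, (δ j : ℝ≥0∞) := by
            refine ENNReal.tsum_le_tsum fun j => ?_
            rw [← mul_add]
            calc (2 : ℝ≥0∞) ^ (j + 1) * ((∫⁻ x, F j x ^ 2) + ∫⁻ x, R j x ^ 2)
                ≤ 2 ^ (j + 1) * ((δ j : ℝ≥0∞) / 2 ^ (j + 1)) := by
                  gcongr
                  exact (hFR j).2
              _ ≤ δ j := ENNReal.mul_div_le
        _ ≤ ε := hδs.le
    · intro i x
      rw [← hFi i]
      exact ENNReal.le_tsum (Encodable.encode i)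

theorem quasi_open_of_finelyOpen_zeroSub (q : E n) (r : ℝ) (hr : 0 < r) :
    SubAt (fun _ : E n => (0 : ℝ)) q r where
  pos := hr
  meas := measurable_const
  nonneg := fun _ => le_rfl
  le_one := fun _ => zero_le_one
  usc := fun _ _ => upperSemicontinuousAt_const
  sub := fun x _ t _ _ => by simp

theorem quasi_open_of_finelyOpen_A (U : Set (E n)) (p : ℕ × ℚ) (ε : ℝ≥0∞) (hε : ε ≠ 0) :
    ∃ (g : ℕ → E n → ℝ) (f ρ : E n → ℝ≥0∞), UG f ρ ∧
      (∫⁻ x, f x ^ 2) + (∫⁻ x, ρ x ^ 2) ≤ ε ∧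
      (∀ k, ∀ y ∈ Metric.ball (TopologicalSpace.denseSeq (E n) p.1) (p.2 : ℝ),
        0 < g k y → y ∈ U) ∧
      (∀ k, 0 < (p.2 : ℝ) → SubAt (g k) (TopologicalSpace.denseSeq (E n) p.1) (p.2 : ℝ)) ∧
      (∀ x ∈ Metric.ball (TopologicalSpace.denseSeq (E n) p.1) (p.2 : ℝ), ∀ g' : E n → ℝ,
        SubAt g' (TopologicalSpace.denseSeq (E n) p.1) (p.2 : ℝ) →
        (∀ y ∈ Metric.ball (TopologicalSpace.denseSeq (E n) p.1) (p.2 : ℝ), 0 < g' y → y ∈ U) →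
        0 < g' x → (∃ k, 0 < g k x) ∨ 1 ≤ f x) := by
  generalize TopologicalSpace.denseSeq (E n) p.1 = q
  generalize (p.2 : ℝ) = r
  by_cases hr : 0 < r
  · obtain ⟨g, f, ρ, hg, hUG, hN, hL⟩ := quasi_lindelof q r
      {g | SubAt g q r ∧ ∀ y ∈ Metric.ball q r, 0 < g y → y ∈ U}
      ⟨fun _ => 0, quasi_open_of_finelyOpen_zeroSub q r hr,
        fun y _ h => absurd h (lt_irrefl 0)⟩
      (fun g hg => hg.1)
      (fun g hg g' hg' => ⟨SubAt_max g g' q r hg.1 hg'.1, fun y hy h => by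
        rcases lt_max_iff.1 h with h | h
        · exact hg.2 y hy h
        · exact hg'.2 y hy h⟩) ε hε
    refine ⟨g, f, ρ, hUG, hN, fun k => (hg k).2, fun k _ => (hg k).1, ?_⟩
    intro x hx g' h1 h2 h3
    exact hL x hx ⟨g', ⟨h1, h2⟩, h3⟩
  · have hb : Metric.ball q r = ∅ := Metric.ball_eq_empty.2 (not_lt.1 hr)
    refine ⟨fun _ _ => 0, fun _ => 0, fun _ => 0, quasi_open_of_finelyOpen_UGzero, ?_, ?_, ?_, ?_⟩
    · simp
    · intro k y hy
      rw [hb] at hy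
      exact hy.elim
    · intro k h
      exact absurd h hr
    · intro x hx
      rw [hb] at hx
      exact hx.elim

theorem quasi_open_of_finelyOpen_B (q : E n) (r : ℝ) (g : E n → ℝ) (hg : 0 < r → SubAt g q r)
    (ε : ℝ≥0∞) (hε : ε ≠ 0) : ∃ f ρ : E n → ℝ≥0∞, UG f ρ ∧
      (∫⁻ x, f x ^ 2) + (∫⁻ x, ρ x ^ 2) ≤ ε ∧
      IsOpen ({x | x ∈ Metric.ball q r ∧ 0 < g x} ∪ {x | 1 < f x}) := by
  by_cases hr : 0 < r
  · exact quasi_open_piece q r g (hg hr) ε hε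
  · have hb : Metric.ball q r = ∅ := Metric.ball_eq_empty.2 (not_lt.1 hr)
    refine ⟨fun _ => 0, fun _ => 0, quasi_open_of_finelyOpen_UGzero, ?_, ?_⟩
    · simp
    · rw [hb]
      simp

/-- B15 -/
theorem quasi_open_of_finelyOpen (U : Set (E n)) (hU : FinelyOpen U) (ε : ℝ≥0∞) (hε : ε ≠ 0) :
    ∃ (f ρ : E n → ℝ≥0∞) (V : Set (E n)), UG f ρ ∧
      (∫⁻ x, f x ^ 2) + (∫⁻ x, ρ x ^ 2) ≤ ε ∧ IsOpen V ∧
      (∀ x ∈ V, f x < 1 → x ∈ U) ∧ (∀ x ∈ U, f x < 1 → x ∈ V) := by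
  obtain ⟨η, hη, hsum⟩ := quasi_open_of_finelyOpen_sum (n := n)
    (ι := (ℕ × ℚ) ⊕ ((ℕ × ℚ) × ℕ)) ε hε
  choose g f₁ ρ₁ hUG₁ hN₁ hgU hgS hL using
    fun p : ℕ × ℚ => quasi_open_of_finelyOpen_A U p (η (Sum.inl p)) (hη _)
  choose f₂ ρ₂ hUG₂ hN₂ hop using
    fun pk : (ℕ × ℚ) × ℕ => quasi_open_of_finelyOpen_B
      (TopologicalSpace.denseSeq (E n) pk.1.1) (pk.1.2 : ℝ) (g pk.1 pk.2) (hgS pk.1 pk.2)
      (η (Sum.inr pk)) (hη _)
  obtain ⟨f, ρ, hUG, hN, hle⟩ := hsum (fun s => Sum.elim f₁ f₂ s) (fun s => Sum.elim ρ₁ ρ₂ s)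
    (by rintro (p | pk)
        · exact hUG₁ p
        · exact hUG₂ pk)
    (by rintro (p | pk)
        · exact hN₁ p
        · exact hN₂ pk)
  have hle₁ : ∀ p x, f₁ p x ≤ f x := fun p x => hle (Sum.inl p) x
  have hle₂ : ∀ pk x, f₂ pk x ≤ f x := fun pk x => hle (Sum.inr pk) x
  refine ⟨f, ρ, (⋃ pk : (ℕ × ℚ) × ℕ, ({x | x ∈ Metric.ball
      (TopologicalSpace.denseSeq (E n) pk.1.1) (pk.1.2 : ℝ) ∧ 0 < g pk.1 pk.2 x} ∪
      {x | 1 < f₂ pk x})) ∪ {x | 1 < f x}, hUG, hN, ?_, ?_, ?_⟩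
  · exact (isOpen_iUnion hop).union (hUG.lsc_f.isOpen_preimage 1)
  · intro x hx hfx
    rcases hx with hx | hx
    · rw [Set.mem_iUnion] at hx
      obtain ⟨pk, hx | hx⟩ := hx
      · exact hgU pk.1 pk.2 x hx.1 hx.2
      · exact absurd (lt_of_lt_of_le hx (hle₂ pk x)) (not_lt.2 hfx.le)
    · exact absurd hx (not_lt.2 hfx.le)
  · intro x hx hfx
    obtain ⟨i, r, g', hg', hxb, hgx, hgU'⟩ := fine_local U hU x hx
    rcases hL (i, r) x hxb g' hg' hgU' hgx with ⟨k, hk⟩ | h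
    · left
      rw [Set.mem_iUnion]
      exact ⟨((i, r), k), Or.inl ⟨hxb, hk⟩⟩
    · exact absurd (h.trans (hle₁ _ x)) (not_le.2 hfx)

end Keldysh
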