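import Pool.Agent.Keldysh.Defs2
import Pool.Agent.Keldysh.Defs3
import Pool.Agent.Keldysh.M_quasi_open_of_finelyOpen
import Pool.Agent.Keldysh.M_accessible_of_chain
import Pool.Agent.Keldysh.M_hitting_bound
import Pool.Agent.Keldysh.M_path_to_exit
import Pool.Agent.Keldysh.M_fine_start

open MeasureTheory ProbabilityTheory Filter Topology Set
open scoped ENNReal NNReal

namespace Keldysh

variable {n : ℕ} {Ω : Type*} [mΩ : MeasurableSpace Ω]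

theorem main_nice_sq (r : ℝ≥0∞) : (1 + r) ^ 2 ≤ 2 * (1 + r ^ 2) := by
  by_cases h : r = ⊤
  · subst h; simp
  · lift r to ℝ≥0 using h
    have h1 : (1 + r) ^ 2 ≤ 2 * (1 + r ^ 2) := by
      rw [← NNReal.coe_le_coe]
      push_cast
      nlinarith [sq_nonneg ((r : ℝ) - 1)]
    exact_mod_cast h1

theorem main_nice_int (ρ : E n → ℝ≥0∞) (V : Set (E n)) (R : ℕ) (h : ∫⁻ x, ρ x ^ 2 ≠ ⊤) :
    ∫⁻ x in V ∩ Metric.ball 0 (R : ℝ), (1 + ρ x) ^ 2 ≠ ⊤ := by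
  have h1 : ∫⁻ x in V ∩ Metric.ball 0 (R : ℝ), (1 + ρ x) ^ 2 ≤
      ∫⁻ x in V ∩ Metric.ball 0 (R : ℝ), 2 * (1 + ρ x ^ 2) :=
    lintegral_mono (fun x => main_nice_sq _)
  refine ne_top_of_le_ne_top ?_ h1
  rw [lintegral_const_mul' _ _ (by simp), lintegral_add_left measurable_const]
  apply ENNReal.mul_ne_top (by simp)
  apply ENNReal.add_ne_top.mpr
  constructor
  · rw [setLIntegral_one]
    exact ne_top_of_le_ne_top (measure_ball_lt_top (μ := (volume : Measure (E n)))).ne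
      (measure_mono inter_subset_right)
  · exact ne_top_of_le_ne_top h (setLIntegral_le_lintegral _ _)

theorem main_nice_point (hn : 0 < n) (V : Set (E n)) (R : ℕ) :
    (V ∩ Metric.ball 0 (R : ℝ))ᶜ.Nonempty := by
  refine ⟨EuclideanSpace.single ⟨0, hn⟩ (R : ℝ), ?_⟩
  intro h
  have h2 := h.2
  rw [Metric.mem_ball, dist_zero_right, EuclideanSpace.norm_single] at h2
  simp at h2

theorem main_nice_bc (P : Measure Ω) [IsProbabilityMeasure P] (B : ℝ≥0 → Ω → E n)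
    (F : ℝ≥0 → MeasurableSpace Ω) (a : E n) (hB : NiceBM P B F a)
    (f ρ : ℕ → E n → ℝ≥0∞) (hUG : ∀ q, UG (f q) (ρ q))
    (hint : ∀ q, (∫⁻ x, f q x ^ 2) + (∫⁻ x, ρ q x ^ 2) ≤ (4⁻¹ : ℝ≥0∞) ^ q)
    (t0 : ℝ≥0) (ht0 : 0 < t0) (T : ℝ≥0) :
    ∀ᵐ ω ∂P, ∀ᶠ q in atTop, ∀ t, t0 ≤ t → t ≤ t0 + T → f q (B t ω) ≤ 1 / 2 := by
  obtain ⟨K, hK⟩ := hitting_bound P B F a hB t0 ht0 T
  have h1 : ∀ q, P {ω | ∃ t, t0 ≤ t ∧ t ≤ t0 + T ∧ 1 / 2 < f q (B t ω)} ≤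
      K * (2⁻¹ : ℝ≥0∞) ^ q := by
    intro q
    refine (hK (f q) (ρ q) (hUG q)).trans ?_
    gcongr
    refine (ENNReal.rpow_le_rpow (hint q) (by norm_num)).trans ?_
    have h4 : (4⁻¹ : ℝ≥0∞) = (2⁻¹) ^ (2 : ℕ) := by
      rw [← ENNReal.inv_pow]; norm_num
    rw [h4, ← pow_mul, mul_comm 2 q, pow_mul, ← ENNReal.rpow_natCast _ 2, ← ENNReal.rpow_mul]
    norm_num
  have h2 : ∑' q, P {ω | ∃ t, t0 ≤ t ∧ t ≤ t0 + T ∧ 1 / 2 < f q (B t ω)} ≠ ⊤ := by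
    refine ne_top_of_le_ne_top ?_ (ENNReal.tsum_le_tsum h1)
    rw [ENNReal.tsum_mul_left, ENNReal.tsum_geometric]
    apply ENNReal.mul_ne_top (by simp)
    rw [ENNReal.one_sub_inv_two, inv_inv]
    simp
  have h3 := ae_eventually_notMem h2
  filter_upwards [h3] with ω hω
  filter_upwards [hω] with q hq t h5 h6
  by_contra h7
  exact hq ⟨t, h5, h6, not_le.mp h7⟩

/-- E15: the theorem for nice Brownian motions, for a fixed set `V` approximating `U`. -/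
theorem main_nice (P : Measure Ω) [IsProbabilityMeasure P] (B : ℝ≥0 → Ω → E n)
    (F : ℝ≥0 → MeasurableSpace Ω) (a : E n) (hB : NiceBM P B F a) (hn : 0 < n) (U : Set (E n))
    (hU : FinelyOpen U) (ha : a ∈ U) :
    ∀ᵐ ω ∂P, ∀ τ : ℝ≥0, exitTime U (fun t => B t ω) = τ → B τ ω ∈ accessible U := by
  choose f ρ V hUG hint hVo hVU hUV using fun q : ℕ =>
    quasi_open_of_finelyOpen U hU ((4⁻¹ : ℝ≥0∞) ^ q) (pow_ne_zero _ (by simp))
  have hpos : ∀ p : ℕ, (0 : ℝ≥0) < 1 / ((p : ℝ≥0) + 1) := by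
    intro p; positivity
  have hA : ∀ᵐ ω ∂P, ∀ p T : ℕ, ∀ᶠ q in atTop, ∀ t, 1 / ((p : ℝ≥0) + 1) ≤ t →
      t ≤ 1 / ((p : ℝ≥0) + 1) + T → f q (B t ω) ≤ 1 / 2 := by
    rw [ae_all_iff]; intro p
    rw [ae_all_iff]; intro T
    exact main_nice_bc P B F a hB f ρ hUG hint _ (hpos p) T
  have hC : ∀ᵐ ω ∂P, ∀ p q R : ℕ, ∀ τ : ℝ≥0, 1 / ((p : ℝ≥0) + 1) < τ →
      (∀ t, 1 / ((p : ℝ≥0) + 1) ≤ t → t < τ → B t ω ∈ V q ∩ Metric.ball 0 (R : ℝ)) →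
      B τ ω ∉ V q ∩ Metric.ball 0 (R : ℝ) →
      ∀ η : ℝ≥0∞, η ≠ 0 → ∃ x : ℕ → E n,
        (∃ θ, 1 / ((p : ℝ≥0) + 1) ≤ θ ∧ θ < τ ∧ x 0 = B θ ω) ∧
        (∑' i, pd (fun x => 1 + ρ q x) (V q ∩ Metric.ball 0 (R : ℝ)) (x i) (x (i + 1))) < η ∧
        Tendsto x atTop (𝓝 (B τ ω)) := by
    rw [ae_all_iff]; intro p
    rw [ae_all_iff]; intro q
    rw [ae_all_iff]; intro R
    refine path_to_exit P B F a hB _ (hpos p) (V q ∩ Metric.ball 0 (R : ℝ))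
      ((hVo q).inter Metric.isOpen_ball) (Metric.isBounded_ball.subset inter_subset_right)
      (main_nice_point hn _ _) (fun x => 1 + ρ q x)
      (lowerSemicontinuous_const.add (hUG q).lsc_ρ) ?_
    apply main_nice_int
    refine ne_top_of_le_ne_top ?_ ((le_add_left le_rfl).trans (hint q))
    exact ENNReal.pow_ne_top (by simp)
  have hD := fine_start P B F a hB U hU ha
  filter_upwards [hA, hC, hD] with ω hA hC hD τ hτ
  obtain ⟨δ, hδ0, hδ⟩ := hD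
  -- before the exit time the path is in `U`
  have hin : ∀ t : ℝ≥0, 0 < t → t < τ → B t ω ∈ U := by
    intro t ht0 ht
    by_contra h
    have h1 : exitTime U (fun t => B t ω) ≤ (t : ℝ≥0∞) := by
      unfold exitTime
      exact iInf₂_le t ⟨ht0, h⟩
    rw [hτ] at h1
    exact absurd (ENNReal.coe_le_coe.mp h1) (not_le.mpr ht)
  have hlow : ∀ s : ℝ≥0, (∀ t : ℝ≥0, 0 < t → t < s → B t ω ∈ U) → s ≤ τ := by
    intro s hs
    rw [← ENNReal.coe_le_coe, ← hτ]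
    unfold exitTime
    refine le_iInf₂ ?_
    rintro t ⟨ht0, ht⟩
    rw [ENNReal.coe_le_coe]
    by_contra h
    exact ht (hs t ht0 (not_le.mp h))
  have hτ0 : 0 < τ := lt_of_lt_of_le hδ0 (hlow δ (fun t _ ht => hδ t ht))
  obtain ⟨p, hp⟩ : ∃ p : ℕ, 1 / ((p : ℝ≥0) + 1) < τ := by
    obtain ⟨p, hp⟩ := exists_nat_one_div_lt (K := ℝ) (show (0 : ℝ) < τ from hτ0)
    refine ⟨p, ?_⟩
    rw [← NNReal.coe_lt_coe]
    push_cast
    exact hp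
  obtain ⟨T, hT⟩ := exists_nat_gt τ
  obtain ⟨q, hq⟩ := (hA p T).exists
  obtain ⟨C, hCb⟩ := (isCompact_Icc (a := (0 : ℝ≥0)) (b := τ)).exists_bound_of_continuousOn
    (hB.cont ω).continuousOn
  obtain ⟨R, hR⟩ := exists_nat_gt C
  have hhalf : (1 / 2 : ℝ≥0∞) < 1 := by
    rw [one_div]; exact ENNReal.one_half_lt_one
  have hball : ∀ t, t ≤ τ → B t ω ∈ Metric.ball (0 : E n) (R : ℝ) := by
    intro t ht
    rw [Metric.mem_ball, dist_zero_right]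
    exact lt_of_le_of_lt (hCb t ⟨zero_le, ht⟩) hR
  have hTle : ∀ t : ℝ≥0, t ≤ T → t ≤ 1 / ((p : ℝ≥0) + 1) + T := fun t ht =>
    ht.trans (le_add_left le_rfl)
  have hV1 : ∀ t, 1 / ((p : ℝ≥0) + 1) ≤ t → t < τ → B t ω ∈ V q ∩ Metric.ball 0 (R : ℝ) := by
    intro t h1 h2
    refine ⟨?_, hball t h2.le⟩
    apply hUV q
    · exact hin t (lt_of_lt_of_le (hpos p) h1) h2
    · exact lt_of_le_of_lt (hq t h1 (hTle t (h2.le.trans hT.le))) hhalf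
  have hV2 : B τ ω ∉ V q := by
    intro hmem
    have h1 : ∀ᶠ t in 𝓝 τ, B t ω ∈ V q :=
      (hB.cont ω).continuousAt.eventually ((hVo q).mem_nhds hmem)
    have h2 : ∀ᶠ t in 𝓝 τ, t < (T : ℝ≥0) := eventually_lt_nhds hT
    obtain ⟨s, hs, hs2⟩ := exists_Ico_subset_of_mem_nhds (h1.and h2) ⟨τ + 1, by
      exact lt_add_of_pos_right _ one_pos⟩
    have h3 := hlow s (by
      intro t ht0 ht
      rcases lt_or_ge t τ with h4 | h4
      · exact hin t ht0 h4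
      · obtain ⟨h5, h6⟩ := hs2 ⟨h4, ht⟩
        exact hVU q _ h5 (lt_of_le_of_lt (hq t (hp.le.trans h4) (hTle t h6.le)) hhalf))
    exact absurd h3 (not_le.mpr hs)
  have hnU : B τ ω ∉ U := by
    intro h
    exact hV2 (hUV q _ h (lt_of_le_of_lt (hq τ hp.le (hTle τ hT.le)) hhalf))
  obtain ⟨x, ⟨θ, hθ1, hθ2, hx0⟩, hsum, hlim⟩ := hC p q R τ hp hV1 (fun h => hV2 h.1) (1 / 4)
    (by simp)
  refine accessible_of_chain (fun x => 1 + ρ q x) (ρ q) (f q) (fun x => le_rfl) (hUG q) U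
    (V q ∩ Metric.ball 0 (R : ℝ)) (fun y hy hfy => hVU q y hy.1 hfy) x _ ?_ hsum hlim hnU
  rw [hx0]
  exact hq θ hθ1 (hTle θ (hθ2.le.trans hT.le))

end Keldysh
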