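import Pool.Agent.Keldysh.Defs2
import Pool.Agent.Keldysh.M_exists_niceBM
import Pool.Agent.Keldysh.M_main_nice

open MeasureTheory ProbabilityTheory Filter Topology Set
open scoped ENNReal NNReal

namespace Keldysh

variable {n : ℕ} {Ω : Type*} [mΩ : MeasurableSpace Ω]

/-- E16: final theorem. -/
theorem main_final (hn : 2 ≤ n) (P : Measure Ω) [IsProbabilityMeasure P]
    (W : Fin n → ℝ≥0 → Ω → ℝ) (hW : ∀ i, IsBrownianReal (W i) P)
    (hind : iIndepFun (fun i ω t => W i t ω) P) (U : Set (E n)) (hU : FinelyOpen U) (a : E n)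
    (ha : a ∈ U) :
    P {ω | exitTime U (fun t => bm W a t ω) < ⊤ ∧
      bm W a (exitTime U (fun t => bm W a t ω)).toNNReal ω ∉ accessible U} = 0 := by
  obtain ⟨B, F, hB, hBW⟩ := exists_niceBM P W hW hind a
  have h1 := main_nice P B F a hB (by omega) U hU ha
  have h2 : ∀ᵐ ω ∂P, ¬ (exitTime U (fun t => bm W a t ω) < ⊤ ∧
      bm W a (exitTime U (fun t => bm W a t ω)).toNNReal ω ∉ accessible U) := by
    filter_upwards [hBW, h1] with ω hω hω1
    rintro ⟨h3, h4⟩
    apply h4
    have h5 : (fun t => B t ω) = fun t => bm W a t ω := funext hω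
    rw [← hω]
    refine hω1 _ ?_
    rw [h5, ENNReal.coe_toNNReal h3.ne]
  have h3 := ae_iff.1 h2
  simpa only [not_not] using h3

end Keldysh
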