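import Mathlib

/-!
# Definitions: superharmonic functions, fine topology, Brownian motion in `ℝⁿ`,
rectifiable accessibility.
-/

open MeasureTheory ProbabilityTheory Filter Topology Set
open scoped ENNReal NNReal

namespace Keldysh

/-- Euclidean `n`-space. -/
abbrev E (n : ℕ) : Type := EuclideanSpace ℝ (Fin n)

/-- `u : ℝⁿ → (-∞, ∞]` is superharmonic: it is lower semicontinuous, it never takes the value
`-∞`, it is not identically `+∞`, and it satisfies the mean value inequality on every ball.
The inequality `⨍ u ≤ u x` over the ball `B(x,r)` is written for the nonnegative function `u - m`,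
where `m` is any real lower bound of `u` on the closed ball (such a bound exists because `u` is
lower semicontinuous and never `-∞`). -/
structure Superharmonic {n : ℕ} (u : E n → EReal) : Prop where
  lsc : LowerSemicontinuous u
  ne_bot : ∀ x, u x ≠ ⊥
  ne_top : ∃ x, u x ≠ ⊤
  mean : ∀ (x : E n) (r : ℝ), 0 < r → ∀ m : ℝ,
    (∀ y ∈ Metric.closedBall x r, (m : EReal) ≤ u y) →
    ⨍⁻ y in Metric.ball x r, (u y - m).toENNReal ∂volume ≤ (u x - m).toENNReal

/-- The fine topology of `ℝⁿ`: the coarsest topology for which all superharmonic functions are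
continuous (as maps into the extended reals). -/
noncomputable def fineTopology (n : ℕ) : TopologicalSpace (E n) :=
  ⨅ (u : E n → EReal) (_ : Superharmonic u), TopologicalSpace.induced u inferInstance

/-- Finely open sets. -/
def FinelyOpen {n : ℕ} (U : Set (E n)) : Prop := IsOpen[fineTopology n] U

/-- Brownian motion in `ℝⁿ` started at `a`, built from real Brownian motions `W i`. -/
noncomputable def bm {n : ℕ} {Ω : Type*} (W : Fin n → ℝ≥0 → Ω → ℝ) (a : E n) (t : ℝ≥0) (ω : Ω) :
    E n :=
  a + WithLp.toLp 2 (fun i => W i t ω)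

/-- The exit time `τ_U = inf {t > 0 : p t ∉ U}` of a path `p`. -/
noncomputable def exitTime {n : ℕ} (U : Set (E n)) (p : ℝ≥0 → E n) : ℝ≥0∞ :=
  ⨅ (t : ℝ≥0) (_ : 0 < t ∧ p t ∉ U), (t : ℝ≥0∞)

/-- `z ∉ U` is rectifiably accessible from `U`: there is a path `γ : [0,1] → ℝⁿ` of finite length
with `γ([0,1)) ⊆ U` and `γ(1) = z`. The set of these points is `A(U)`. -/
def accessible {n : ℕ} (U : Set (E n)) : Set (E n) :=
  {z | z ∉ U ∧ ∃ γ : ℝ → E n, ContinuousOn γ (Icc 0 1) ∧ BoundedVariationOn γ (Icc 0 1) ∧
    (∀ t ∈ Ico (0 : ℝ) 1, γ t ∈ U) ∧ γ 1 = z}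

end Keldysh
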